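import Pool.Agent.N19.BR.MDefs

/-!
# The Beilinson–Bloch formula over number fields: definitions

`X` is a smooth projective variety of dimension `d` over a number field `K`, `m ≥ 1`, and
`V = CH^m_hom(X ⊗ K̄) ⊗ ℚ`, with the action `ρ` of the absolute Galois group of `K`: the group of the
homologically trivial cycles of codimension `m` over the algebraic closure up to rational equivalence,
tensored with `ℚ`.  For a finite extension `F` of `K` in `K̄` the space `CH^m_hom(X_F) ⊗ ℚ` is the
space of the elements of `V` that are fixed by the absolute Galois group of `F` (Galois descent for Chow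
groups with rational coefficients).  `V` may be of infinite dimension.  In the definitions `V` is any
representation over a field `k` of characteristic zero.
-/

set_option autoImplicit false

namespace Pool.Agent.N19.BR.MDef

open NumberField IsDedekindDomain Polynomial

section
variable {K : Type} [Field K] {k V : Type} [Field k] [AddCommGroup V] [Module k V]
  (ρ : Representation k Gal(AlgebraicClosure K/K) V)

/-- The space of the elements of `V` fixed by the absolute Galois group of `F`. -/
noncomputable def fixedBy (F : IntermediateField K (AlgebraicClosure K)) : Submodule k V :=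
  Representation.invariants (ρ.comp F.fixingSubgroup.subtype)

/-- The rank formula over `F` with defect `δ`: the space of the elements of `V` fixed by the absolute
Galois group of `F` has finite dimension, and `L(H^{2m-1}(X_F), s)` has a meromorphic continuation to `U`
with order at `s = m` equal to this dimension plus `δ`.  The conjecture is that this holds with `δ = 0`. -/
def RankFormula {n : ℕ} (X : Set (MvPolynomial (Fin n) (𝓞 K))) (d m N : ℕ) (U : Set ℂ) (δ : ℤ)
    (F : IntermediateField K (AlgebraicClosure K)) : Prop :=
  FiniteDimensional k (fixedBy ρ F) ∧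
    ∃ (_ : NumberField F) (B : HeightOneSpectrum (𝓞 F) → ℂ[X]) (Λ : ℂ → ℂ),
      EulerFactors X d (2 * m - 1) N B ∧ Continues U B 1 Λ ∧
      meromorphicOrderAt Λ (m : ℂ) = ((Module.finrank k (fixedBy ρ F) + δ : ℤ) : WithTop ℤ)

/-- The rank formula over `K` for the `c`-th power of the `L`-function, with defect `δ`: the space of the
elements of `V` fixed by the absolute Galois group of `K` has finite dimension `r`, and for all Euler
factors the function `L(H^{2m-1}(X), s) ^ c` has a meromorphic continuation to `U` with order
`c r + δ` at `s = m`, and every meromorphic continuation of `L(H^{2m-1}(X), s)` to `U` has an order `r + δ₀` at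
`s = m`, with `c δ₀ = δ`. -/
def RankFormulaPow [NumberField K] {n : ℕ} (X : Set (MvPolynomial (Fin n) (𝓞 K))) (d m N : ℕ)
    (U : Set ℂ) (c : ℕ) (δ : ℤ) : Prop :=
  FiniteDimensional k (Representation.invariants ρ) ∧
    ∀ B : HeightOneSpectrum (𝓞 K) → ℂ[X], EulerFactors X d (2 * m - 1) N B →
      (∃ Λ : ℂ → ℂ, Continues U B c Λ ∧ meromorphicOrderAt Λ (m : ℂ) =
        ((c * Module.finrank k (Representation.invariants ρ) + δ : ℤ) : WithTop ℤ)) ∧
      ∀ Λ : ℂ → ℂ, Continues U B 1 Λ → ∃ δ₀ : ℤ, c * δ₀ = δ ∧ meromorphicOrderAt Λ (m : ℂ) =
        ((Module.finrank k (Representation.invariants ρ) + δ₀ : ℤ) : WithTop ℤ)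

end

end Pool.Agent.N19.BR.MDef
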