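import Pool.Agent.N19.BR.MDefs
import Pool.Agent.N19.BR.BBDefs

/-!
# L-functions of motives over extension fields: definitions

`α v`, for the primes `v` of a number field `K`, is the list of the eigenvalues of the geometric Frobenius
at `v` on a realization `H^i(M)` of a motive `M` over `K`, of rank `N` (at the finitely many bad primes
`α v` is arbitrary).  Over a finite extension `F` of `K` the eigenvalues at a prime `w` above `v` are
the numbers `α_l ^ f`, `f` the residue degree.
-/

set_option autoImplicit false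

namespace Pool.Agent.N19.BR.MDef

open NumberField IsDedekindDomain Filter Topology Polynomial

section
variable {K : Type} [Field K] [NumberField K] {N : ℕ}

/-- `α` is pure of weight `i`: `|α_l| = q_v^{i/2}` for almost all `v`. -/
def Pure (i : ℤ) (α : HeightOneSpectrum (𝓞 K) → Fin N → ℂ) : Prop :=
  ∀ᶠ v in cofinite, ∀ l, ‖α v l‖ = (Ideal.absNorm v.asIdeal : ℝ) ^ ((i : ℝ) / 2)

/-- The polynomials `B w` are the Euler factors of `L(M_F, s)`: `B_w(z) = ∏ (1 - α_l^f z)`, where `v` is the
prime of `K` below `w` and `q_w = q_v ^ f`, for almost all primes `w` of `F`; at the other primes `B w` is an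
arbitrary polynomial with constant term `1`. -/
def FactorsOver (α : HeightOneSpectrum (𝓞 K) → Fin N → ℂ) {F : Type} [Field F] [NumberField F]
    [Algebra K F] (B : HeightOneSpectrum (𝓞 F) → ℂ[X]) : Prop :=
  (∀ᶠ w in cofinite, ∀ v : HeightOneSpectrum (𝓞 K),
    w.asIdeal.comap (algebraMap (𝓞 K) (𝓞 F)) = v.asIdeal → ∀ f : ℕ,
    Ideal.absNorm w.asIdeal = Ideal.absNorm v.asIdeal ^ f →
      ∀ z : ℂ, (B w).eval z = ∏ l, (1 - α v l ^ f * z)) ∧
  ∀ w, (B w).eval 0 = 1

/-- No factor `1 / B_w(q_w^{-s})` has a pole at `s`. -/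
def Regular {F : Type} [Field F] [NumberField F] (B : HeightOneSpectrum (𝓞 F) → ℂ[X]) (s : ℂ) :
    Prop :=
  ∀ w, (B w).eval ((Ideal.absNorm w.asIdeal : ℂ) ^ (-s)) ≠ 0

end

/-- `U` is connected and contains the half-plane `Re s > i/2 + 1` of absolute convergence. -/
def Region (i : ℤ) (U : Set ℂ) : Prop :=
  IsPreconnected U ∧ ∀ s : ℂ, (i : ℝ) / 2 + 1 < s.re → s ∈ U

section
variable {K : Type} [Field K] [NumberField K]

/-- The groups `Gal(L F_j / F_j)` are hyperelementary for the fields `F_j` in the list, each for a prime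
number `p`, the divisors of `k` prime to `p` divide the local degrees of `F_j / K` at the primes above `S`,
and `F_j` has at most two real places if `p ≠ 2`; and the coefficient `c` is `1`. -/
def HyperelementaryList (L : Type) [Field L] [Algebra K L] (S : Set (HeightOneSpectrum (𝓞 K)))
    (k : ℕ) (Y : Pool.Agent.N19.BR.TDef.FieldList K) : Prop :=
  Y.c = 1 ∧ ∀ j, Pool.Agent.N19.BR.Def.HyperelementaryClass L S k
    (⟨Y.F j⟩ : Pool.Agent.R433.MD.Ext K)

/-- The conclusion for a motive with Frobenius eigenvalues `α` and for meromorphic continuations `Λ_j` to `U` of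
`L(M_{F_j}, s)`: the function `L(M, s)` has a meromorphic continuation to `U`, and for each such
continuation and each point `s₀` of `U` at which no Euler factor has a pole the order at `s₀` is
`∑ e_j r_j`, where `r_j` is the order of `Λ_j`. -/
def Descends {N : ℕ} (Y : Pool.Agent.N19.BR.TDef.FieldList K)
    (α : HeightOneSpectrum (𝓞 K) → Fin N → ℂ) (U : Set ℂ)
    (B : ∀ j, HeightOneSpectrum (𝓞 (Y.F j)) → ℂ[X]) (Λ : Fin Y.r → ℂ → ℂ) : Prop :=
  ∀ B₀ : HeightOneSpectrum (𝓞 K) → ℂ[X], FactorsOver α B₀ →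
    (∃ Λ₀ : ℂ → ℂ, Continues U B₀ 1 Λ₀) ∧
    ∀ Λ₀ : ℂ → ℂ, Continues U B₀ 1 Λ₀ → ∀ s₀ ∈ U, Regular B₀ s₀ → (∀ j, Regular (B j) s₀) →
      ∀ r : Fin Y.r → ℤ, (∀ j, meromorphicOrderAt (Λ j) s₀ = r j) →
        meromorphicOrderAt Λ₀ s₀ = ((∑ j, Y.e j * r j : ℤ) : WithTop ℤ)

end

end Pool.Agent.N19.BR.MDef
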