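import Pool.Agent.N19.BR.Sub

/-! The lists of fields inside the algebraic closure: hyperelementary case. -/

set_option autoImplicit false

namespace Pool.Agent.N19.BR

open NumberField IsDedekindDomain
open Pool.Agent.R433.MD
open Pool.Agent.N19.BR.Def

section
variable {K : Type} [Field K] [NumberField K]

theorem cyc_of_hyperOver {p : ℕ} (hp : p.Prime) {L : Type} [Field L] [Algebra K L] {Z : Ext K}
    (h : HyperelementaryOver p L Z) : Cyc p L Z := by
  obtain ⟨M, hM, ⟨C, hn, hcyc, hcop, k, hk⟩, g⟩ := h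
  refine ⟨M, hM, Or.inr ⟨hp, C, fun x _ => trivial, hcyc, hcop, fun g _ c hc => hn.conj_mem c hc g,
    fun y _ => ⟨k, ?_⟩⟩, g⟩
  have h1 : ((y : Gal(M.F/Z.F) ⧸ C)) ^ p ^ k = 1 := by
    have h2 : Nat.card (Gal(M.F/Z.F) ⧸ C) = p ^ k := hk
    rw [← h2]
    exact pow_card_eq_one'
  rw [← QuotientGroup.mk_pow, QuotientGroup.eq_one_iff] at h1
  exact h1

theorem img_hyper (Z : Ext K) {L : Type} [Field L] [Algebra K L]
    {S : Set (HeightOneSpectrum (𝓞 K))} {n : ℕ} (h : HyperelementaryClass L S n Z) :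
    HyperelementaryClass L S n (⟨img Z⟩ : Ext K) := by
  obtain ⟨Y, hY, -⟩ := copy_eq Z ((imgEquiv Z : Z.F ≃ₐ[K] img Z) : Z.F →ₐ[K] img Z)
  obtain ⟨p, hp, h1, h2, h3⟩ := h
  refine ⟨p, hp, ?_, ?_, ?_⟩
  · have h5 := cyc_restrict Z Y (cyc_of_hyperOver hp h1)
    rw [hY] at h5
    exact hyperOver_of hp h5
  · intro k hk hkp
    have h4 := loc_restrict (S := S) (a := k) Z Y (h2 k hk hkp) (loc_one _ Y.F)
    rw [mul_one, hY] at h4
    exact h4
  · intro hp2
    have h4 := real_copy ((imgEquiv Z : Z.F ≃ₐ[K] img Z) : Z.F ≃+* img Z)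
    change Nat.card (img Z →+* ℝ) ≤ 2
    rw [← h4]
    exact h3 hp2

/-- the relation of the images -/
theorem isRel_img' {ι : Type} [Fintype ι] {Z : ι → Ext K} {e : ι → ℤ} {m : ℕ}
    (h : IsRel K Z e m) : IsRel K (fun i => (⟨img (Z i)⟩ : Ext K)) e m := by
  intro Ω _ _ _ σ
  rw [← h Ω σ]
  refine Finset.sum_congr rfl fun i _ => ?_
  rw [cnt_copy (imgEquiv (Z i)) σ]

end

end Pool.Agent.N19.BR
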