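import Pool.Agent.N19.BR.Mot2
import Pool.Agent.N19.BR.Sub2

/-! The list of fields for motives. -/

set_option autoImplicit false

namespace Pool.Agent.N19.BR

open NumberField IsDedekindDomain Polynomial
open Pool.Agent.R433.MD (Ext)
open Pool.Agent.N19.BR.MDef Pool.Agent.N19.BR.TDef

/-- the list of fields -/
theorem hyper_list (K : Type) [Field K] [NumberField K] (L : Type) [Field L] [NumberField L]
    [Algebra K L] [IsGalois K L] (S : Set (HeightOneSpectrum (𝓞 K))) (hS : S.Finite) (k : ℕ)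
    (hk : k ≠ 0) :
    ∃ Y : FieldList K, HyperelementaryList L S k Y ∧
      IsRel K (fun j => (⟨Y.F j⟩ : Ext K)) Y.e 1 := by
  obtain ⟨r, Z, e, hrel, hZ⟩ := list_hyper K L hS hk
  exact ⟨⟨r, fun j => img (Z j), fun j => img_nf (Z j), e, 1, one_ne_zero⟩,
    ⟨rfl, fun j => img_hyper (Z j) (hZ j)⟩, isRel_img' hrel⟩

/-- the conclusion for motives -/
theorem descends_of_rel {K : Type} [Field K] [NumberField K] {Y : FieldList K}
    (h : IsRel K (fun j => (⟨Y.F j⟩ : Ext K)) Y.e 1) {i : ℤ} {N : ℕ}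
    {α : HeightOneSpectrum (𝓞 K) → Fin N → ℂ} (hα : Pure i α) {U : Set ℂ} (hU : Region i U)
    (B : ∀ j, HeightOneSpectrum (𝓞 (Y.F j)) → ℂ[X]) (Λ : Fin Y.r → ℂ → ℂ)
    (hB : ∀ j, FactorsOver α (B j) ∧ Continues U (B j) 1 (Λ j)) : Descends Y α U B Λ := by
  intro B₀ hB₀
  obtain ⟨h1, h2⟩ := cont_alpha h hα B (fun j => (hB j).1) hU (fun j => (hB j).2) hB₀
  refine ⟨h1, fun Λ₀ hΛ₀ s₀ hs₀ hr0 hr r hro => ?_⟩
  obtain ⟨r₀, h3, h4⟩ := h2 Λ₀ hΛ₀ s₀ hs₀ hr0 hr r hro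
  rw [h3, ← h4]
  simp

end Pool.Agent.N19.BR
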