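import Pool.Agent.N19.BR.Par

/-! The parity formula for the dimensions of fixed spaces. -/

set_option autoImplicit false

namespace Pool.Agent.N19.BR

open NumberField IsDedekindDomain
open Pool.Agent.R433.MD
open Pool.Agent.N19.BR.Def Pool.Agent.N19.BR.MDef
open Pool.Agent.N19.BR.FDef
open scoped Classical

/-- the class of the images in the algebraic closure -/
theorem img_two {K : Type} [Field K] [NumberField K] (Z : Ext K) {L : Type} [Field L] [Algebra K L]
    {S : Set (HeightOneSpectrum (𝓞 K))} {n : ℕ} (h : TwoClass L S n Z) :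
    TwoClass L S n (⟨img Z⟩ : Ext K) := by
  obtain ⟨Y, hY, -⟩ := copy_eq Z ((imgEquiv Z : Z.F ≃ₐ[K] img Z) : Z.F →ₐ[K] img Z)
  obtain ⟨h1, h2⟩ := h
  refine ⟨?_, ?_⟩
  · have h5 := cyc_restrict Z Y (cyc_of_hyperOver Nat.prime_two h1)
    rw [hY] at h5
    exact hyperOver_of Nat.prime_two h5
  · have h4 := loc_restrict (S := S) (a := n) Z Y h2 (loc_one _ Y.F)
    rw [mul_one, hY] at h4
    exact h4

section
variable {K : Type} [Field K] [NumberField K] {k W : Type} [Field k] [CharZero k]
  [AddCommGroup W] [Module k W] (ρ : Representation k Gal(AlgebraicClosure K/K) W)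

/-- **The parity formula for fixed spaces.** -/
theorem parity_fixed {N : ℕ} (F : Fin N → IntermediateField K (AlgebraicClosure K))
    [∀ j, NumberField (F j)] {e : Fin N → ℤ} {m : ℕ} (hm : Odd m)
    (h : IsRel K (fun j => (⟨F j⟩ : Ext K)) e m) {E : WeierstrassCurve K}
    (hE : E.IsElliptic) (hs : Semistable E) :
    FixedParityFormula ρ E F (Finset.univ.filter fun i => Odd (e i)) := by
  intro V0 V hV0 hV hfin
  have hne : Nonempty (Fin N) := nonempty_of_rel hm.pos.ne' h
  obtain ⟨h1, h2⟩ := inv_rel ρ F h hfin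
  exact ⟨h1, parity_of_rel hm h hE hs hV0 h2.symm V hV⟩

/-- the parity conjecture from the formula -/
theorem invariant_parity {N : ℕ} {F : Fin N → IntermediateField K (AlgebraicClosure K)}
    [∀ j, NumberField (F j)] {J : Finset (Fin N)} {E : WeierstrassCurve K}
    (h : FixedParityFormula ρ E F J) (hE : E.IsElliptic)
    (hZ : ∀ j, FixedParity ρ E (F j)) : InvariantParity ρ E := by
  have hVZ : ∀ j, ∃ V : HeightOneSpectrum (𝓞 (F j)) → WeierstrassCurve (𝓞 (F j)),
      MinimalModels (E.map (algebraMap K (F j))) V := fun j => by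
    obtain ⟨V, hV⟩ := exists_minimal (E.map (algebraMap K (F j))) inferInstance
    exact ⟨V, (minimalModels_iff _ _).2 hV⟩
  choose VZ hVZ using hVZ
  obtain ⟨V1, hV1⟩ := exists_minimal E hE
  obtain ⟨h0, -⟩ := h V1 VZ ((minimalModels_iff _ _).2 hV1) hVZ fun j => (hZ j).1
  refine ⟨h0, fun V0 hV0 => ?_⟩
  obtain ⟨-, h1⟩ := h V0 VZ hV0 hVZ fun j => (hZ j).1
  rw [← eq_root, h1]
  refine Finset.prod_eq_one fun j _ => ?_
  rw [eq_root]
  exact (hZ j).2 inferInstance (VZ j) (hVZ j)

end

end Pool.Agent.N19.BR
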