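import Pool.Agent.N19.BR.AVDefs
import Pool.Agent.N19.BR.ParSel

/-! The parity formula for semistable abelian varieties. -/

set_option autoImplicit false

namespace Pool.Agent.N19.BR

open NumberField IsDedekindDomain
open Pool.Agent.R433.MD
open Pool.Agent.H921R2.TatePole (nm two_le_nm)
open Pool.Agent.N19.BR.Def Pool.Agent.N19.BR.MDef
open Pool.Agent.N19.BR.AVDef
open scoped Classical

section
variable {K : Type} [Field K] [NumberField K]

theorem card_inertia {F : Type} [Field F] [NumberField F] [Algebra K F]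
    (v : HeightOneSpectrum (𝓞 K)) (w : HeightOneSpectrum (𝓞 F))
    (h : w.asIdeal.LiesOver v.asIdeal) : nm w = nm v ^ w.asIdeal.inertiaDeg (𝓞 K) := by
  have h2 := v.isMaximal
  have h3 := w.isMaximal
  rw [Ideal.inertiaDeg_eq_of_isMaximal v.asIdeal w.asIdeal]
  let _ : Field (𝓞 K ⧸ v.asIdeal) := Ideal.Quotient.field _
  have : Finite (𝓞 F ⧸ w.asIdeal) := fin_v w
  have h6 : Nat.card (𝓞 F ⧸ w.asIdeal) = Nat.card (𝓞 K ⧸ v.asIdeal) ^
      Module.finrank (𝓞 K ⧸ v.asIdeal) (𝓞 F ⧸ w.asIdeal) := Module.natCard_eq_pow_finrank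
  exact h6

theorem fdeg_eq {F : Type} [Field F] [NumberField F] [Algebra K F] {v : HeightOneSpectrum (𝓞 K)}
    (w : Fib F v) : w.1.asIdeal.inertiaDeg (𝓞 K) = fdeg w := by
  have h1 := card_inertia v w.1 ⟨fib_le w⟩
  rw [nm_fib w] at h1
  exact (Nat.pow_right_injective (two_le_nm v) h1).symm

variable (D : SemistableData K)

theorem splitRank_zero {v : HeightOneSpectrum (𝓞 K)} (h : D.t v = 0) (f : ℕ) :
    splitRank D v f = 0 := by
  unfold splitRank
  omega

variable {ι : Type} [Fintype ι] {Z : ι → Ext K} {e : ι → ℤ} {m : ℕ}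

/-- the exponent -/
noncomputable def rexp (F : Type) [Field F] [NumberField F] [Algebra K F] : ℕ :=
  D.g * Nat.card (InfinitePlace F) +
    ∑ᶠ w : HeightOneSpectrum (𝓞 F), splitRank D (und w) (w.asIdeal.inertiaDeg (𝓞 K))

theorem av_rel (h : IsRel K Z e m) :
    ∑ i, e i * (rexp D (Z i).F : ℤ) = m * (rexp D K : ℤ) := by
  have h1 := glob_rel h (M := ℤ) (fun i w => (splitRank D (und w)
    (w.asIdeal.inertiaDeg (𝓞 K)) : ℤ)) D.finite.toFinset (fun i w hw => by
      rw [Set.Finite.mem_toFinset]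
      intro h0
      exact hw (by exact_mod_cast splitRank_zero D h0 _)) (by
    intro v
    refine ⟨fun n => (splitRank D v n : ℤ), fun i w => ?_⟩
    rw [fdeg_eq w, w.2])
  have hfin : ∀ (F : Type) [Field F] [NumberField F] [Algebra K F],
      (Function.support fun w : HeightOneSpectrum (𝓞 F) =>
        splitRank D (und w) (w.asIdeal.inertiaDeg (𝓞 K))).Finite := by
    intro F _ _ _
    refine Set.Finite.subset (D.finite.preimage' (f := und (K := K) (F := F)) fun v _ =>
      Set.finite_coe_iff.1 (finite_fib (F := F) v)) fun w hw h0 => ?_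
    exact hw (splitRank_zero D h0 _)
  have hcast : ∀ (F : Type) [Field F] [NumberField F] [Algebra K F],
      ((∑ᶠ w : HeightOneSpectrum (𝓞 F), splitRank D (und w) (w.asIdeal.inertiaDeg (𝓞 K)) : ℕ) : ℤ) =
      ∑ᶠ w : HeightOneSpectrum (𝓞 F), (splitRank D (und w) (w.asIdeal.inertiaDeg (𝓞 K)) : ℤ) := by
    intro F _ _ _
    exact (Nat.castAddMonoidHom ℤ).map_finsum (hfin F)
  have h2 := places_rel h
  have h3 : ∑ i, e i * ∑ᶠ w : HeightOneSpectrum (𝓞 (Z i).F),
        (splitRank D (und w) (w.asIdeal.inertiaDeg (𝓞 K)) : ℤ) =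
      m * ∑ᶠ w : HeightOneSpectrum (𝓞 K), (splitRank D (und w)
      (w.asIdeal.inertiaDeg (𝓞 K)) : ℤ) := by
    rw [← nsmul_eq_mul]
    exact h1
  unfold rexp
  push_cast [hcast]
  have h4 : ∀ i, e i * ((D.g : ℤ) * (Nat.card (InfinitePlace (Z i).F) : ℤ) +
      ∑ᶠ w : HeightOneSpectrum (𝓞 (Z i).F),
        (splitRank D (und w) (w.asIdeal.inertiaDeg (𝓞 K)) : ℤ)) =
      D.g * (e i * (Nat.card (InfinitePlace (Z i).F) : ℤ)) +
        e i * ∑ᶠ w : HeightOneSpectrum (𝓞 (Z i).F),
        (splitRank D (und w) (w.asIdeal.inertiaDeg (𝓞 K)) : ℤ) := fun i => by ring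
  rw [Finset.sum_congr rfl fun i _ => h4 i, Finset.sum_add_distrib, ← Finset.mul_sum, h2, h3,
    mul_add, mul_left_comm (m : ℤ) (D.g : ℤ)]
  rfl

theorem root_rexp (F : Type) [Field F] [NumberField F] [Algebra K F] (r : ℕ) :
    (-1) ^ r * rootNumber D F = (((-1 : ℤˣ) ^ ((r + rexp D F : ℕ) : ℤ) : ℤˣ) : ℤ) := by
  unfold rootNumber rexp
  rw [zpow_natCast, ← pow_add]
  push_cast
  rfl

theorem root_sq_av (F : Type) [Field F] [NumberField F] [Algebra K F] :
    rootNumber D F * rootNumber D F = 1 := by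
  unfold rootNumber
  rw [← pow_add, ← two_mul, pow_mul]
  norm_num

theorem eq_root_av {F : Type} [Field F] [NumberField F] [Algebra K F] {x : ℤ} :
    x * rootNumber D F = 1 ↔ x = rootNumber D F := by
  constructor
  · intro h
    calc x = x * (rootNumber D F * rootNumber D F) := by rw [root_sq_av, mul_one]
      _ = (x * rootNumber D F) * rootNumber D F := by ring
      _ = rootNumber D F := by rw [h, one_mul]
  · rintro rfl
    exact root_sq_av D F

variable {k W : Type} [Field k] [CharZero k] [AddCommGroup W] [Module k W]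
  (ρ : Representation k Gal(AlgebraicClosure K/K) W)

/-- **The parity formula.** -/
theorem parity_av {N : ℕ} (F : Fin N → IntermediateField K (AlgebraicClosure K))
    [∀ j, NumberField (F j)] {e : Fin N → ℤ} {m : ℕ} (hm : Odd m)
    (h : IsRel K (fun j => (⟨F j⟩ : Ext K)) e m) :
    ParityFormula D ρ F (Finset.univ.filter fun i => Odd (e i)) := by
  intro hfin
  have hne : Nonempty (Fin N) := nonempty_of_rel hm.pos.ne' h
  obtain ⟨h1, h2⟩ := inv_rel ρ F h hfin
  refine ⟨h1, ?_⟩
  have h3 := av_rel D h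
  have h4 : ∑ i, e i * ((Module.finrank k (fixedBy ρ (F i)) + rexp D (F i) : ℕ) : ℤ) =
      m * ((Module.finrank k (Representation.invariants ρ) + rexp D K : ℕ) : ℤ) := by
    push_cast
    simp_rw [mul_add]
    rw [Finset.sum_add_distrib, h3]
    congr 1
    exact h2.symm
  have h5 := parity_prod e hm _ h4
  rw [root_rexp, h5, Units.coe_prod]
  refine Finset.prod_congr rfl fun i _ => ?_
  rw [root_rexp]

/-- the conjecture from the formula -/
theorem parity_av_of {N : ℕ} {F : Fin N → IntermediateField K (AlgebraicClosure K)}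
    [∀ j, NumberField (F j)] {J : Finset (Fin N)} (h : ParityFormula D ρ F J)
    (hf : ∀ j, FiniteDimensional k (fixedBy ρ (F j))) (hZ : ∀ j ∈ J, ParityOver D ρ (F j)) :
    Parity D ρ := by
  obtain ⟨h0, h1⟩ := h hf
  refine ⟨h0, ?_⟩
  rw [← eq_root_av, h1]
  refine Finset.prod_eq_one fun j hj => ?_
  rw [eq_root_av]
  exact (hZ j hj).2 inferInstance

end

end Pool.Agent.N19.BR
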