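import Pool.Agent.N19.BR.PDefs

/-!
# Parity of ranks of semistable abelian varieties over number fields: definitions

`A` is an abelian variety of dimension `g` over a number field `K` with semistable reduction at all primes.  For a
prime `v` of `K` let `X_v` be the character group of the torus in the reduction at `v` of the Néron model of `A`, a
free abelian group of rank `t_v ≤ g` on which the absolute Galois group of the residue field acts; its Frobenius
element acts on `X_v ⊗ ℚ` by a matrix `Φ_v` of finite order.  For a finite extension `F` of `K` and a prime `w` of `F`
above `v` of residue degree `f` the group `X_w` is `X_v` with the Frobenius element `Φ_v^f`, and the local root number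
of `A` over `F_w` is `(-1)^r`, where `r` is the dimension of the space of the elements of `X_v ⊗ ℚ` fixed by `Φ_v^f`
(the rank of the split part of the torus).  The local root numbers at the archimedean places are `(-1)^g`.
-/

set_option autoImplicit false

namespace Pool.Agent.N19.BR.AVDef

open NumberField IsDedekindDomain
open Pool.Agent.R433.MD (Ext und)
open Pool.Agent.N19.BR.Def Pool.Agent.N19.BR.MDef
open scoped Classical

/-- The dimension `g` of a semistable abelian variety over `K`, the ranks `t_v` of the character groups of the tori
in the reductions, which are zero for almost all primes `v`, and the matrices `Φ_v`, of finite order, of the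
Frobenius elements. -/
structure SemistableData (K : Type) [Field K] [NumberField K] where
  g : ℕ
  t : HeightOneSpectrum (𝓞 K) → ℕ
  Φ : ∀ v, Matrix (Fin (t v)) (Fin (t v)) ℚ
  finite : {v | t v ≠ 0}.Finite
  order : ∀ v, ∃ k : ℕ, k ≠ 0 ∧ Φ v ^ k = 1

section
variable {K : Type} [Field K] [NumberField K] (D : SemistableData K)

/-- The dimension `t_v - rank (Φ_v^f - 1)` of the space of the elements of `X_v ⊗ ℚ` fixed by `Φ_v^f`: the rank
of the split part of the torus over an extension with residue degree `f`. -/
noncomputable def splitRank (v : HeightOneSpectrum (𝓞 K)) (f : ℕ) : ℕ :=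
  D.t v - (D.Φ v ^ f - 1).rank

variable (F : Type) [Field F] [NumberField F] [Algebra K F]

/-- The root number `w(A / F)`, the product of the local root numbers: `(-1)^g` for every archimedean place of
`F`, and `(-1)^r` for every prime `w` of `F`, where `r` is the split rank at `w`; the prime `w` is above the prime
`und w` of `K` with the residue degree `w.asIdeal.inertiaDeg (𝓞 K)`. -/
noncomputable def rootNumber : ℤ :=
  (-1) ^ (D.g * Nat.card (InfinitePlace F) +
    ∑ᶠ w : HeightOneSpectrum (𝓞 F), splitRank D (und w) (w.asIdeal.inertiaDeg (𝓞 K)))

end

section
variable {K : Type} [Field K] [NumberField K] (D : SemistableData K)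
  {k W : Type} [Field k] [AddCommGroup W] [Module k W]
  (ρ : Representation k Gal(AlgebraicClosure K/K) W)

/-- The parity conjecture for `A` over `F`: the space of the elements of `W` fixed by the absolute Galois group of
`F` has finite dimension `r`, and `(-1)^r = w(A / F)`. -/
def ParityOver (F : IntermediateField K (AlgebraicClosure K)) : Prop :=
  FiniteDimensional k (fixedBy ρ F) ∧ ∀ _ : NumberField F,
    (-1) ^ Module.finrank k (fixedBy ρ F) = rootNumber D F

/-- The parity conjecture for `A` over `K`: the space `W^{G_K}` has finite dimension `r`, and
`(-1)^r = w(A / K)`. -/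
def Parity : Prop :=
  FiniteDimensional k (Representation.invariants ρ) ∧
    (-1) ^ Module.finrank k (Representation.invariants ρ) = rootNumber D K

/-- `(-1)^{dim W^{G_K}} w(A / K) = ∏_{j ∈ J} (-1)^{dim W^{G_{F_j}}} w(A / F_j)` for the extensions `F_j` of
`K` and a set `J` of indices, if the spaces `W^{G_{F_j}}` have finite dimension (Mordell-Weil). -/
def ParityFormula {N : ℕ} (F : Fin N → IntermediateField K (AlgebraicClosure K))
    [∀ j, NumberField (F j)] (J : Finset (Fin N)) : Prop :=
  (∀ j, FiniteDimensional k (fixedBy ρ (F j))) →
    FiniteDimensional k (Representation.invariants ρ) ∧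
      (-1) ^ Module.finrank k (Representation.invariants ρ) * rootNumber D K =
        ∏ j ∈ J, (-1) ^ Module.finrank k (fixedBy ρ (F j)) * rootNumber D (F j)

end

end Pool.Agent.N19.BR.AVDef
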