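import Pool.Agent.N19.BR.Half
import Mathlib.Analysis.Complex.BranchLogRoot
import Mathlib.Analysis.Normed.Module.MultipliableUniformlyOn

/-! Roots of functions without zeros in a half-plane, continuity of the L-function. -/

set_option autoImplicit false

namespace Pool.Agent.N19.BR

open NumberField IsDedekindDomain Complex Filter Topology
open Pool.Agent.H921R2.TatePole (nm two_le_nm nm_summable)
open Pool.Agent.H341R2.EC
open Pool.Agent.R433.MD

/-- half-plane -/
def HP (σ : ℝ) : Set ℂ := {s | σ < s.re}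

theorem isOpen_HP (σ : ℝ) : IsOpen (HP σ) := isOpen_lt continuous_const Complex.continuous_re

theorem convex_HP (σ : ℝ) : Convex ℝ (HP σ) := convex_halfSpace_re_gt σ

theorem isPreconnected_HP (σ : ℝ) : IsPreconnected (HP σ) := (convex_HP σ).isPreconnected

theorem nonempty_HP (σ : ℝ) : (HP σ).Nonempty := ⟨((σ + 1 : ℝ) : ℂ), by
  change σ < ((σ + 1 : ℝ) : ℂ).re
  rw [Complex.ofReal_re]
  linarith⟩

/-- a continuous logarithm of an analytic function is analytic -/
theorem analyticAt_of_exp {f G : ℂ → ℂ} {z : ℂ} (hG : AnalyticAt ℂ G z) (hf : ContinuousAt f z)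
    (h : ∀ᶠ w in 𝓝 z, exp (f w) = G w) : AnalyticAt ℂ f z := by
  have h0 : exp (f z) = G z := h.self_of_nhds
  have hGz : G z ≠ 0 := h0 ▸ exp_ne_zero _
  have h1 : AnalyticAt ℂ (fun w => G w / G z) z := hG.fun_div analyticAt_const hGz
  have h2 : AnalyticAt ℂ (fun w => log (G w / G z) + f z) z := by
    refine (h1.clog ?_).fun_add analyticAt_const
    rw [div_self hGz]
    exact Complex.one_mem_slitPlane
  refine h2.congr ?_
  have h3 : ContinuousAt (fun w => log (G w / G z) + f z - f w) z := h2.continuousAt.sub hf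
  have h5 : ∀ᶠ w in 𝓝 z, ‖log (G w / G z) + f z - f w‖ < 1 := by
    have h6 := h3.tendsto
    simp only [div_self hGz, log_one, zero_add, sub_self] at h6
    have h7 := h6 (Metric.ball_mem_nhds 0 one_pos)
    filter_upwards [h7] with w hw
    simpa [dist_eq_norm] using hw
  have h8 : ∀ᶠ w in 𝓝 z, G w ≠ 0 := hG.continuousAt.eventually_ne hGz
  filter_upwards [h, h5, h8] with w hw1 hw2 hw3
  have e1 : exp (log (G w / G z) + f z - f w) = 1 := by
    rw [exp_sub, exp_add, exp_log (div_ne_zero hw3 hGz), hw1, h0, div_mul_cancel₀ _ hGz,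
      div_self hw3]
  obtain ⟨n, hn⟩ := Complex.exp_eq_one_iff.1 e1
  rw [hn] at hw2
  have hn0 : n = 0 := by
    by_contra hne
    have h9 : (1 : ℝ) ≤ |(n : ℝ)| := by
      have := Int.one_le_abs hne
      exact_mod_cast this
    rw [norm_mul, norm_mul, norm_mul, Complex.norm_I, mul_one, Complex.norm_intCast] at hw2
    have h10 : ‖(2 : ℂ)‖ * ‖(Real.pi : ℂ)‖ = 2 * Real.pi := by
      rw [Complex.norm_real, Real.norm_eq_abs, abs_of_pos Real.pi_pos]
      norm_num
    rw [h10] at hw2
    nlinarith [Real.pi_gt_three]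
  rw [hn0] at hn
  have : log (G w / G z) + f z - f w = 0 := by simpa using hn
  linear_combination this

/-- a function without zeros on a half-plane is an `m`-th power -/
theorem exists_root {σ : ℝ} {G : ℂ → ℂ} (hG : AnalyticOnNhd ℂ G (HP σ))
    (h0 : ∀ s ∈ HP σ, G s ≠ 0) {m : ℕ} (hm : m ≠ 0) :
    ∃ f : ℂ → ℂ, AnalyticOnNhd ℂ f (HP σ) ∧ (∀ s, f s ≠ 0) ∧ ∀ s ∈ HP σ, f s ^ m = G s := by
  have hsc : IsSimplyConnected (HP σ) := by
    have := (convex_HP σ).contractibleSpace (nonempty_HP σ)
    change SimplyConnectedSpace (HP σ)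
    infer_instance
  obtain ⟨f, hf, hfe⟩ := Complex.exists_continuousOn_eqOn_exp_comp hsc (isOpen_HP σ) hG.continuousOn
    (by rintro ⟨s, hs, h⟩; exact h0 s hs h)
  refine ⟨fun s => exp (f s / m), fun z hz => ?_, fun s => exp_ne_zero _, fun s hs => ?_⟩
  · have h1 : AnalyticAt ℂ f z := by
      refine analyticAt_of_exp (hG z hz) (hf.continuousAt ((isOpen_HP σ).mem_nhds hz)) ?_
      filter_upwards [(isOpen_HP σ).mem_nhds hz] with w hw
      exact hfe hw
    exact (h1.fun_div analyticAt_const (by exact_mod_cast hm)).cexp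
  · change exp (f s / m) ^ m = G s
    rw [← exp_nat_mul, mul_div_cancel₀ _ (by exact_mod_cast hm)]
    exact hfe hs

section
variable {K : Type} [Field K] [NumberField K]

/-- the L-function is continuous in the region of absolute convergence -/
theorem continuousOn_LL {E : WeierstrassCurve K} (hE : E.IsElliptic)
    {V : HeightOneSpectrum (𝓞 K) → WeierstrassCurve (𝓞 K)} (hV : ∀ v, IsMinAt E v (V v)) :
    ContinuousOn (LL V) (HP (3 / 2)) := by
  intro s hs
  have hs' : (3 / 2 : ℝ) < s.re := hs
  set a : ℝ := (3 / 2 + s.re) / 2 with ha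
  have ha1 : 3 / 2 < a := by rw [ha]; linarith
  have ha2 : a < s.re := by rw [ha]; linarith
  have hsum : Summable fun v : HeightOneSpectrum (𝓞 K) => 3 * (nm v : ℝ) ^ (-(a - 1 / 2)) :=
    (nm_summable (by linarith)).mul_left 3
  have h1 : HasProdLocallyUniformlyOn (fun v s => 1 + (lf V s v - 1))
      (fun s => ∏' v, (1 + (lf V s v - 1))) (HP a) := by
    refine hsum.hasProdLocallyUniformlyOn_one_add (isOpen_HP a) ?_ ?_
    · filter_upwards [hasse E hE V hV] with v hv
      intro t ht
      have ht' : a < t.re := ht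
      have hq : (2 : ℝ) ≤ (nm v : ℝ) := by exact_mod_cast two_le_nm v
      refine (lf_sub_one V t v hv).trans ?_
      have e1 : Real.sqrt (nm v) * (nm v : ℝ) ^ (-t.re) = (nm v : ℝ) ^ (-(t.re - 1 / 2)) := by
        rw [Real.sqrt_eq_rpow, ← Real.rpow_add (by linarith)]
        congr 1
        ring
      have e2 : (nm v : ℝ) ^ (1 - 2 * t.re) ≤ (nm v : ℝ) ^ (-(a - 1 / 2)) :=
        Real.rpow_le_rpow_of_exponent_le (by linarith) (by linarith)
      have e3 : (nm v : ℝ) ^ (-(t.re - 1 / 2)) ≤ (nm v : ℝ) ^ (-(a - 1 / 2)) :=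
        Real.rpow_le_rpow_of_exponent_le (by linarith) (by linarith)
      rw [mul_assoc, e1]
      linarith
    · intro v
      exact ((differentiable_lf V v).continuous.sub continuous_const).continuousOn
  have h2 : ContinuousOn (fun s => ∏' v, (1 + (lf V s v - 1))) (HP a) := by
    refine h1.continuousOn ?_
    refine Filter.Frequently.of_forall fun F => ?_
    refine continuousOn_finsetProd _ fun v _ => ?_
    exact (continuous_const.add
      ((differentiable_lf V v).continuous.sub continuous_const)).continuousOn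
  have h3 : ∀ t ∈ HP a, LL V t = (∏' v, (1 + (lf V t v - 1)))⁻¹ := by
    intro t ht
    have ht' : 3 / 2 < t.re := ha1.trans ht
    have h4 := (hasProd_lf E hE V hV ht').1
    have h5 : HasProd (fun v => 1 + (lf V t v - 1)) (∏' v, (1 + (lf V t v - 1))) :=
      h1.hasProd ht
    have h6 := h4.mul h5
    have h7 : (fun v => (lf V t v)⁻¹ * (1 + (lf V t v - 1))) = fun _ => 1 := by
      funext v
      have h8 := lf_ne_zero V ht' v
      rw [show (1 : ℂ) + (lf V t v - 1) = lf V t v by ring, inv_mul_cancel₀ h8]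
    rw [h7] at h6
    have h8 := h6.unique hasProd_one
    exact eq_inv_of_mul_eq_one_left h8
  have h4 : ContinuousAt (LL V) s := by
    have h5 : ContinuousAt (fun s => (∏' v, (1 + (lf V s v - 1)))⁻¹) s := by
      refine ContinuousAt.inv₀ (h2.continuousAt ((isOpen_HP a).mem_nhds ha2)) ?_
      intro h6
      have h7 := h3 s ha2
      rw [h6, inv_zero] at h7
      exact (LL_ne_zero hE hV hs') h7
    refine h5.congr ?_
    filter_upwards [(isOpen_HP a).mem_nhds ha2] with t ht
    exact (h3 t ht).symm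
  exact h4.continuousWithinAt

end

end Pool.Agent.N19.BR
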