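import Pool.Agent.N19.BR.Gal
import Pool.Agent.N19.BR.Zeros

/-! Relations between Euler products, and orders. -/

set_option autoImplicit false

namespace Pool.Agent.N19.BR

open NumberField IsDedekindDomain Complex Filter Topology
open Pool.Agent.H341R2.EC
open Pool.Agent.R433.MD
open Pool.Agent.R333.BR (nh_congr)

section
variable {K : Type} [Field K] [NumberField K]

/-- a nonzero product has no zero factor -/
theorem ne_of_hasProd {X : Type} {f : X → ℂ} {a : ℂ} (h : HasProd f a) (ha : a ≠ 0) (x : X) :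
    f x ≠ 0 := by
  classical
  intro hx
  apply ha
  refine h.unique ?_
  have h1 : Tendsto (fun s : Finset X => ∏ b ∈ s, f b) atTop (𝓝 0) := by
    refine tendsto_const_nhds.congr' ?_
    filter_upwards [eventually_ge_atTop ({x} : Finset X)] with s hs
    exact (Finset.prod_eq_zero (hs (Finset.mem_singleton_self x)) hx).symm
  exact h1

/-- **Relations between Euler products.** -/
theorem relation_abs {ι : Type} [Fintype ι] (F : ι → Type) [∀ i, Field (F i)]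
    [∀ i, NumberField (F i)] [∀ i, Algebra K (F i)] (a b : ι → ℕ) {D : 𝓞 K} (hD0 : D ≠ 0)
    (hD : ∀ (k : Type) [Field k] [Finite k] (φ : 𝓞 K →+* k), φ D ≠ 0 →
      ∑ i, a i * nh (F i) φ = ∑ i, b i * nh (F i) φ)
    (P : ∀ i, HeightOneSpectrum (𝓞 (F i)) → ℂ → ℂ) (hPd : ∀ i w, Differentiable ℂ (P i w))
    (hG : ∀ᶠ v : HeightOneSpectrum (𝓞 K) in cofinite, ∃ G : ℕ → ℂ → ℂ,
      ∀ i (w : Fib (F i) v), P i w.1 = G (fdeg w))
    (L : ι → ℂ → ℂ) {c : ℝ}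
    (hL : ∀ i (s : ℂ), c < s.re → HasProd (fun w => (P i w s)⁻¹) (L i s) ∧ L i s ≠ 0)
    {T : Set ℂ} (hT : ∀ s ∈ T, ∀ i w, P i w s ≠ 0) :
    ∃ R : ℂ → ℂ, MeromorphicOn R Set.univ ∧ (∀ s ∈ T, AnalyticAt ℂ R s ∧ R s ≠ 0) ∧
      ∀ s : ℂ, c < s.re → R s ≠ 0 ∧ ∏ i, L i s ^ a i = R s * ∏ i, L i s ^ b i := by
  classical
  have hfin : {v : HeightOneSpectrum (𝓞 K) | D ∈ v.asIdeal}.Finite := finite_mem hD0
  have hbad : ∀ᶠ v : HeightOneSpectrum (𝓞 K) in cofinite, D ∉ v.asIdeal ∧ ∃ G : ℕ → ℂ → ℂ,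
      ∀ i (w : Fib (F i) v), P i w.1 = G (fdeg w) := by
    filter_upwards [hfin.compl_mem_cofinite, hG] with v h1 h2 using ⟨h1, h2⟩
  rw [eventually_cofinite] at hbad
  set S := hbad.toFinset with hS
  have hgoodv : ∀ v, v ∉ S → D ∉ v.asIdeal ∧ ∃ G : ℕ → ℂ → ℂ,
      ∀ i (w : Fib (F i) v), P i w.1 = G (fdeg w) := by
    intro v hv
    by_contra h
    exact hv (hbad.mem_toFinset.2 h)
  -- local products
  let A : (ι → ℕ) → ℂ → HeightOneSpectrum (𝓞 K) → ℂ := fun e s v =>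
    ∏ i, (∏ w : Fib (F i) v, (P i w.1 s)⁻¹) ^ e i
  have hprod : ∀ (e : ι → ℕ) (s : ℂ), c < s.re → HasProd (A e s) (∏ i, L i s ^ e i) := by
    intro e s hs
    refine hasProd_prod fun i _ => ?_
    exact hasProd_pow (hasProd_fib (hL i s hs).1) (e i)
  have hgood : ∀ (s : ℂ) (v : HeightOneSpectrum (𝓞 K)), v ∉ S → A a s v = A b s v := by
    intro s v hv
    obtain ⟨hvD, G, hG⟩ := hgoodv v hv
    have hA : ∀ e : ι → ℕ, A e s v = ∏ i, (∏ w : Fib (F i) v, (G (fdeg w) s)⁻¹) ^ e i := by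
      intro e
      refine Finset.prod_congr rfl fun i _ => ?_
      congr 1
      refine Finset.prod_congr rfl fun w _ => ?_
      rw [hG i w]
    rw [hA, hA]
    refine comb (fun i => Fib (F i) v) (fun i w => fdeg w) (fun i w => fdeg_pos w) a b ?_
      (fun n => (G n s)⁻¹)
    intro m hm
    obtain ⟨k, iF, iFin, iA, hk⟩ := exists_ext (𝓞 K ⧸ v.asIdeal) hm
    have h1 := hD k (base v k) (by
      rw [base, RingHom.comp_apply]
      intro h
      rw [map_eq_zero_iff _ (algebraMap (𝓞 K ⧸ v.asIdeal) k).injective,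
        Ideal.Quotient.eq_zero_iff_mem] at h
      exact hvD h)
    simp only [nh_eq, hk] at h1
    exact h1
  -- the finite parts
  have hmer : ∀ e : ι → ℕ, MeromorphicOn (fun s => ∏ v ∈ S, A e s v) Set.univ := by
    intro e
    apply MeromorphicOn.fun_prod
    intro v _
    change MeromorphicOn (fun s => ∏ i, (∏ w : Fib (F i) v, (P i w.1 s)⁻¹) ^ e i) Set.univ
    apply MeromorphicOn.fun_prod
    intro i _
    apply MeromorphicOn.fun_pow
    apply MeromorphicOn.fun_prod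
    intro w _
    apply MeromorphicOn.fun_inv
    intro z _
    exact ((hPd i w.1).analyticAt z).meromorphicAt
  have hne : ∀ (e : ι → ℕ) (s : ℂ), (∀ i w, P i w s ≠ 0) → ∏ v ∈ S, A e s v ≠ 0 := by
    intro e s hs
    refine Finset.prod_ne_zero_iff.2 fun v _ => Finset.prod_ne_zero_iff.2 fun i _ => ?_
    exact pow_ne_zero _ (Finset.prod_ne_zero_iff.2 fun w _ => inv_ne_zero (hs i w.1))
  have hhalf : ∀ s : ℂ, c < s.re → ∀ i w, P i w s ≠ 0 := by
    intro s hs i w h0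
    have h1 := ne_of_hasProd (hL i s hs).1 (hL i s hs).2 w
    rw [h0, inv_zero] at h1
    exact h1 rfl
  have han : ∀ (e : ι → ℕ) (s : ℂ), (∀ i w, P i w s ≠ 0) →
      AnalyticAt ℂ (fun s => ∏ v ∈ S, A e s v) s := by
    intro e s hs
    apply Finset.analyticAt_fun_prod
    intro v _
    change AnalyticAt ℂ (fun s => ∏ i, (∏ w : Fib (F i) v, (P i w.1 s)⁻¹) ^ e i) s
    apply Finset.analyticAt_fun_prod
    intro i _
    apply AnalyticAt.fun_pow
    apply Finset.analyticAt_fun_prod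
    intro w _
    exact ((hPd i w.1).analyticAt s).fun_inv (hs i w.1)
  refine ⟨fun s => (∏ v ∈ S, A a s v) / (∏ v ∈ S, A b s v), (hmer a).fun_div (hmer b),
    fun s hs => ⟨(han a s (hT s hs)).fun_div (han b s (hT s hs)) (hne b s (hT s hs)),
      div_ne_zero (hne a s (hT s hs)) (hne b s (hT s hs))⟩, fun s hs => ?_⟩
  have h1 := compare (hprod a s hs) (hprod b s hs) S (hgood s)
  have h2 := hne b s (hhalf s hs)
  refine ⟨div_ne_zero (hne a s (hhalf s hs)) h2, ?_⟩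
  rw [div_mul_eq_mul_div, eq_div_iff h2, h1, mul_comm]

/-- the fields with `K` added -/
noncomputable def Opt {ι : Type} (Z : ι → Ext K) : Option ι → Ext K
  | none => Ext.self K
  | some i => Z i

/-- coefficients on the left -/
def ca {ι : Type} (e : ι → ℤ) : Option ι → ℕ
  | none => 0
  | some i => (e i).toNat

/-- coefficients on the right -/
def cb {ι : Type} (m : ℕ) (e : ι → ℤ) : Option ι → ℕ
  | none => m
  | some i => (-e i).toNat

/-- counting -/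
theorem count_rel {ι : Type} [Fintype ι] {Z : ι → Ext K} {e : ι → ℤ} {m : ℕ}
    (h : IsRel K Z e m) : ∃ D : 𝓞 K, D ≠ 0 ∧ ∀ (k : Type) [Field k] [Finite k] (φ : 𝓞 K →+* k),
      φ D ≠ 0 → ∑ i, ca e i * nh (Opt Z i).F φ = ∑ i, cb m e i * nh (Opt Z i).F φ := by
  classical
  obtain ⟨L, _, _, _, _, hL⟩ := exists_common Z
  have f : ∀ i, (Z i).F →ₐ[K] L := fun i => (hL i).some
  have hrel := fx_of_isRel h f
  obtain ⟨D, hD0, hD⟩ := frob_count K L
  refine ⟨D, hD0, fun k _ _ φ hφ => ?_⟩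
  obtain ⟨g, hg⟩ := hD k φ hφ
  simp only [Fintype.sum_option]
  have h3 : nh (Opt Z none).F φ = 1 := (nh_self K φ).2
  have h4 : ∀ i : ι, nh (Opt Z (some i)).F φ =
      Nat.card {c : Gal(L/K) ⧸ (f i).fieldRange.fixingSubgroup // g • c = c} := fun i => by
    rw [← hg (f i).fieldRange]
    exact nh_congr (AlgEquiv.ofInjectiveField (f i)) φ
  simp only [ca, cb, zero_add, h3, mul_one, h4]
  have h5 := hrel g
  have h6 : ((∑ i, (e i).toNat * Nat.card {c : Gal(L/K) ⧸ (f i).fieldRange.fixingSubgroup //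
      g • c = c} : ℕ) : ℤ) = ((m + ∑ i, (-e i).toNat *
      Nat.card {c : Gal(L/K) ⧸ (f i).fieldRange.fixingSubgroup // g • c = c} : ℕ) : ℤ) := by
    push_cast
    rw [← h5, ← Finset.sum_add_distrib]
    refine Finset.sum_congr rfl fun i _ => ?_
    have h7 := Int.toNat_sub_toNat_neg (e i)
    rw [fx]
    linear_combination (Nat.card {c : Gal(L/K) ⧸ (f i).fieldRange.fixingSubgroup //
      g • c = c} : ℤ) * h7
  exact_mod_cast h6

/-- **Relations between Euler products**, form with integral exponents. -/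
theorem rel_euler {ι : Type} [Fintype ι] {Z : ι → Ext K} {e : ι → ℤ} {m : ℕ}
    (h : IsRel K Z e m)
    (P : ∀ i : Option ι, HeightOneSpectrum (𝓞 (Opt Z i).F) → ℂ → ℂ)
    (hPd : ∀ i w, Differentiable ℂ (P i w))
    (hG : ∀ᶠ v : HeightOneSpectrum (𝓞 K) in cofinite, ∃ G : ℕ → ℂ → ℂ,
      ∀ i (w : Fib (Opt Z i).F v), P i w.1 = G (fdeg w))
    (L : Option ι → ℂ → ℂ) {c : ℝ}
    (hL : ∀ i (s : ℂ), c < s.re → HasProd (fun w => (P i w s)⁻¹) (L i s) ∧ L i s ≠ 0)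
    {T : Set ℂ} (hT : ∀ s ∈ T, ∀ i w, P i w s ≠ 0) :
    ∃ R : ℂ → ℂ, MeromorphicOn R Set.univ ∧ (∀ s ∈ T, AnalyticAt ℂ R s ∧ R s ≠ 0) ∧
      ∀ s : ℂ, c < s.re → R s ≠ 0 ∧ L none s ^ m = R s * ∏ i, L (some i) s ^ e i := by
  classical
  obtain ⟨D, hD0, hD⟩ := count_rel h
  obtain ⟨R, hR1, hR2, hR3⟩ := relation_abs (fun i => (Opt Z i).F) (ca e) (cb m e) hD0 hD P hPd hG
    L hL hT
  refine ⟨fun s => (R s)⁻¹, hR1.fun_inv, fun s hs => ⟨(hR2 s hs).1.fun_inv (hR2 s hs).2,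
    inv_ne_zero (hR2 s hs).2⟩, fun s hs => ⟨inv_ne_zero (hR3 s hs).1, ?_⟩⟩
  obtain ⟨h1, h2⟩ := hR3 s hs
  simp only [Fintype.prod_option] at h2
  have h3 : L none s ^ 0 * ∏ i, L (some i) s ^ (e i).toNat =
      R s * (L none s ^ m * ∏ i, L (some i) s ^ (-e i).toNat) := h2
  have hne : ∀ i, L (some i) s ≠ 0 := fun i => (hL (some i) s hs).2
  rw [pow_zero, one_mul] at h3
  have h4 : ∏ i, L (some i) s ^ e i =
      (∏ i, L (some i) s ^ (e i).toNat) / ∏ i, L (some i) s ^ (-e i).toNat := by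
    rw [← Finset.prod_div_distrib]
    refine Finset.prod_congr rfl fun i _ => ?_
    conv_lhs => rw [← Int.toNat_sub_toNat_neg (e i)]
    rw [zpow_sub₀ (hne _), zpow_natCast, zpow_natCast]
  have h5 : ∏ i, L (some i) s ^ (-e i).toNat ≠ 0 :=
    Finset.prod_ne_zero_iff.2 fun i _ => pow_ne_zero _ (hne _)
  rw [h4, h3]
  field_simp

end

section order

variable {U : Set ℂ} {c : ℝ} {s₀ : ℂ}

theorem half_nhds' (c : ℝ) : ∀ᶠ s in 𝓝 ((c + 1 : ℝ) : ℂ), c < s.re :=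
  (isOpen_HP c).mem_nhds (show c < ((c + 1 : ℝ) : ℂ).re by rw [Complex.ofReal_re]; linarith)

theorem order_eq' (hU : IsPreconnected U) (hH : ∀ s : ℂ, c < s.re → s ∈ U) (h1 : s₀ ∈ U)
    {f g : ℂ → ℂ} (hf : MeromorphicOn f U) (hg : MeromorphicOn g U)
    (h : ∀ s : ℂ, c < s.re → f s = g s) : meromorphicOrderAt f s₀ = meromorphicOrderAt g s₀ := by
  have hh : MeromorphicOn (fun s => f s - g s) U := hf.fun_sub hg
  have h2 : meromorphicOrderAt (fun s => f s - g s) ((c + 1 : ℝ) : ℂ) = ⊤ := by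
    rw [meromorphicOrderAt_eq_top_iff]
    apply eventually_nhdsWithin_of_eventually_nhds
    filter_upwards [half_nhds' c] with s hs
    rw [h s hs, sub_self]
  have h2U : ((c + 1 : ℝ) : ℂ) ∈ U := hH _ (by rw [Complex.ofReal_re]; linarith)
  have h4 : meromorphicOrderAt (fun s => f s - g s) s₀ = ⊤ := by
    by_contra h5
    exact hh.meromorphicOrderAt_ne_top_of_isPreconnected hU h1 h2U h5 h2
  rw [meromorphicOrderAt_eq_top_iff] at h4
  exact meromorphicOrderAt_congr (h4.mono fun s hs => sub_eq_zero.1 hs)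

theorem order_ne_top' (hU : IsPreconnected U) (hH : ∀ s : ℂ, c < s.re → s ∈ U)
    (h1 : s₀ ∈ U) {f : ℂ → ℂ} (hf : MeromorphicOn f U)
    (h : ∀ s : ℂ, c < s.re → f s ≠ 0) : meromorphicOrderAt f s₀ ≠ ⊤ := by
  have h2 : meromorphicOrderAt f ((c + 1 : ℝ) : ℂ) ≠ ⊤ := by
    rw [Ne, meromorphicOrderAt_eq_top_iff]
    intro h3
    have h4 : ∀ᶠ s in 𝓝[≠] ((c + 1 : ℝ) : ℂ), c < s.re :=
      eventually_nhdsWithin_of_eventually_nhds (half_nhds' c)
    obtain ⟨s, hs1, hs2⟩ := (h3.and h4).exists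
    exact h s hs2 hs1
  exact hf.meromorphicOrderAt_ne_top_of_isPreconnected hU
    (hH _ (by rw [Complex.ofReal_re]; linarith)) h1 h2

/-- **The orders.** -/
theorem order_rel_abs (hU : IsPreconnected U) (hH : ∀ s : ℂ, c < s.re → s ∈ U) (h1 : s₀ ∈ U)
    {ι : Type} [Fintype ι] {e : ι → ℤ} {m : ℕ} {R L₀ : ℂ → ℂ} {Λ : ι → ℂ → ℂ}
    (hR : MeromorphicOn R Set.univ) (hR0 : AnalyticAt ℂ R s₀ ∧ R s₀ ≠ 0)
    (hne : ∀ s : ℂ, c < s.re → L₀ s ≠ 0)
    (hrel : ∀ s : ℂ, c < s.re → L₀ s ^ m = R s * ∏ i, Λ i s ^ e i)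
    (hΛ : ∀ i, MeromorphicOn (Λ i) U) {r : ι → ℤ} (hr : ∀ i, meromorphicOrderAt (Λ i) s₀ = r i) :
    (∃ Λ₀ : ℂ → ℂ, MeromorphicOn Λ₀ U ∧ (∀ s : ℂ, c < s.re → Λ₀ s = L₀ s ^ m) ∧
      meromorphicOrderAt Λ₀ s₀ = ((∑ i, e i * r i : ℤ) : WithTop ℤ)) ∧
    ∀ Λ₀ : ℂ → ℂ, MeromorphicOn Λ₀ U → (∀ s : ℂ, c < s.re → Λ₀ s = L₀ s) →
      ∃ r₀ : ℤ, meromorphicOrderAt Λ₀ s₀ = r₀ ∧ (m : ℤ) * r₀ = ∑ i, e i * r i := by
  have hRU : MeromorphicOn R U := fun x _ => hR x trivial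
  have hmer : MeromorphicOn (R * ∏ i, (Λ i) ^ (e i)) U :=
    hRU.mul (MeromorphicOn.prod fun i _ => (hΛ i).zpow _)
  have hRo : meromorphicOrderAt R s₀ = 0 := by
    rw [hR0.1.meromorphicOrderAt_eq, hR0.1.analyticOrderAt_eq_zero.2 hR0.2]
    rfl
  have hord : meromorphicOrderAt (R * ∏ i, (Λ i) ^ (e i)) s₀ =
      ((∑ i, e i * r i : ℤ) : WithTop ℤ) := by
    rw [meromorphicOrderAt_mul (hR s₀ trivial)
      (MeromorphicAt.prod fun i _ => (hΛ i s₀ h1).zpow _), hRo, zero_add,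
      meromorphicOrderAt_prod fun i _ => (hΛ i s₀ h1).zpow _]
    have h4 : ∀ i, meromorphicOrderAt (Λ i ^ e i) s₀ = ((e i * r i : ℤ) : WithTop ℤ) := fun i => by
      rw [meromorphicOrderAt_zpow (hΛ i s₀ h1), hr i]
      rfl
    rw [Finset.sum_congr rfl fun i _ => h4 i, ← WithTop.coe_sum]
  have hval : ∀ s : ℂ, c < s.re → (R * ∏ i, (Λ i) ^ (e i)) s = L₀ s ^ m := by
    intro s hs
    rw [hrel s hs, Pi.mul_apply, Finset.prod_apply]
    rfl
  refine ⟨⟨_, hmer, hval, hord⟩, fun Λ₀ hΛ₀ hL₀ => ?_⟩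
  have h2 : meromorphicOrderAt (Λ₀ ^ m) s₀ = meromorphicOrderAt (R * ∏ i, (Λ i) ^ (e i)) s₀ := by
    refine order_eq' hU hH h1 (hΛ₀.pow m) hmer fun s hs => ?_
    rw [hval s hs, Pi.pow_apply, hL₀ s hs]
  have h3 : meromorphicOrderAt Λ₀ s₀ ≠ ⊤ := order_ne_top' hU hH h1 hΛ₀ fun s hs => by
    rw [hL₀ s hs]
    exact hne s hs
  obtain ⟨r₀, hr₀⟩ := WithTop.ne_top_iff_exists.1 h3
  refine ⟨r₀, hr₀.symm, ?_⟩
  rw [hord, meromorphicOrderAt_pow (hΛ₀ s₀ h1), ← hr₀] at h2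
  have h5 : (((m : ℤ) * r₀ : ℤ) : WithTop ℤ) = ((∑ i, e i * r i : ℤ) : WithTop ℤ) := by
    rw [← h2]
    rfl
  exact WithTop.coe_injective h5

end order

end Pool.Agent.N19.BR
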