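import Pool.Agent.N19.BR.Gal

/-! Relations with fields that have at most two real places. -/

set_option autoImplicit false

namespace Pool.Agent.N19.BR

open Pool.Agent.R433.MD
open Polynomial

/-- elements with prescribed signs -/
theorem exists_sign (F : Type) [Field F] [NumberField F] (u : F →+* ℝ) :
    ∃ a : F, 0 < u a ∧ ∀ u' : F →+* ℝ, u' ≠ u → u' a < 0 := by
  classical
  obtain ⟨θ, hθ⟩ := Field.exists_primitive_element ℚ F
  have hinj : ∀ u' : F →+* ℝ, u' θ = u θ → u' = u := by
    intro u' h
    have h1 : (u'.toRatAlgHom : F →ₐ[ℚ] ℝ) = u.toRatAlgHom := by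
      have h2 : ∀ x : F, x ∈ IntermediateField.adjoin ℚ {θ} →
          u'.toRatAlgHom x = u.toRatAlgHom x := by
        intro x hx
        induction hx using IntermediateField.adjoin_induction with
        | mem y hy =>
          rw [Set.mem_singleton_iff] at hy
          rw [hy]
          exact h
        | algebraMap q => rw [AlgHom.commutes, AlgHom.commutes]
        | add y z _ _ hy hz => rw [map_add, map_add, hy, hz]
        | inv y _ hy => rw [map_inv₀, map_inv₀, hy]
        | mul y z _ _ hy hz => rw [map_mul, map_mul, hy, hz]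
      ext x
      exact h2 x (by rw [hθ]; trivial)
    ext x
    exact DFunLike.congr_fun h1 x
  have hfin : Finite (F →+* ℝ) := by
    have h1 : Finite (F →ₐ[ℚ] ℝ) := inferInstance
    exact Finite.of_injective (fun φ : F →+* ℝ => φ.toRatAlgHom) (fun φ ψ h => by
      ext x
      exact DFunLike.congr_fun h x)
  obtain ⟨δ, hδ0, hδ⟩ : ∃ δ : ℝ, 0 < δ ∧ ∀ u' : F →+* ℝ, u' ≠ u → δ ≤ |u' θ - u θ| := by
    have h1 : ∀ s : Finset (F →+* ℝ), ∃ δ : ℝ, 0 < δ ∧ ∀ u' ∈ s, u' ≠ u → δ ≤ |u' θ - u θ| := by
      intro s
      induction s using Finset.induction_on with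
      | empty => exact ⟨1, one_pos, fun u' hu' => absurd hu' (Finset.notMem_empty _)⟩
      | insert w s _ ih =>
        obtain ⟨δ, hδ0, hδ⟩ := ih
        by_cases hw : w = u
        · refine ⟨δ, hδ0, fun u' hu' hne => ?_⟩
          rcases Finset.mem_insert.1 hu' with h | h
          · exact absurd (h.trans hw) hne
          · exact hδ u' h hne
        · have h2 : 0 < |w θ - u θ| := abs_pos.2 (sub_ne_zero.2 fun h => hw (hinj w h))
          refine ⟨min δ |w θ - u θ|, lt_min hδ0 h2, fun u' hu' hne => ?_⟩
          rcases Finset.mem_insert.1 hu' with h | h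
          · rw [h]
            exact min_le_right _ _
          · exact (min_le_left _ _).trans (hδ u' h hne)
    let _ : Fintype (F →+* ℝ) := Fintype.ofFinite _
    obtain ⟨δ, h2, h3⟩ := h1 Finset.univ
    exact ⟨δ, h2, fun u' => h3 u' (Finset.mem_univ _)⟩
  obtain ⟨q1, h1, h2⟩ := exists_rat_btwn (show u θ - δ < u θ by linarith)
  obtain ⟨q2, h3, h4⟩ := exists_rat_btwn (show u θ < u θ + δ by linarith)
  have hval : ∀ u' : F →+* ℝ, u' (-((θ - (q1 : F)) * (θ - (q2 : F)))) =
      -((u' θ - q1) * (u' θ - q2)) := by
    intro u'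
    simp
  refine ⟨-((θ - (q1 : F)) * (θ - (q2 : F))), ?_, fun u' hne => ?_⟩
  · rw [hval]
    nlinarith
  · rw [hval]
    have h5 := hδ u' hne
    rcases le_abs'.1 h5 with h6 | h6
    · have : u' θ - q1 < 0 := by linarith
      have : u' θ - q2 < 0 := by linarith
      nlinarith
    · have : 0 < u' θ - q1 := by linarith
      have : 0 < u' θ - q2 := by linarith
      nlinarith

theorem finite_real (F : Type) [Field F] [NumberField F] : Finite (F →+* ℝ) := by
  have h1 : Finite (F →ₐ[ℚ] ℝ) := inferInstance
  exact Finite.of_injective (fun φ : F →+* ℝ => φ.toRatAlgHom) (fun φ ψ h => by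
    ext x
    exact DFunLike.congr_fun h x)

section
variable {F L : Type} [Field F] [NumberField F] [Field L] [NumberField L] [Algebra F L]

/-- an embedding of `F(√a)` is determined by the embedding of `F` and the value at `√a` -/
theorem ext_adjoin {x : L} {ρ ρ' : IntermediateField.adjoin F {x} →+* ℝ}
    (h1 : ρ.comp (algebraMap F _) = ρ'.comp (algebraMap F _))
    (h2 : ρ (IntermediateField.AdjoinSimple.gen F x) =
      ρ' (IntermediateField.AdjoinSimple.gen F x)) : ρ = ρ' := by
  let _ : Algebra F ℝ := (ρ.comp (algebraMap F _)).toAlgebra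
  let φ : IntermediateField.adjoin F {x} →ₐ[F] ℝ := { ρ with commutes' := fun r => rfl }
  let φ' : IntermediateField.adjoin F {x} →ₐ[F] ℝ :=
    { ρ' with commutes' := fun r => (DFunLike.congr_fun h1 r).symm }
  have h3 : φ = φ' := by
    refine IntermediateField.adjoin_algHom_ext F ?_
    rintro y hy
    rw [Set.mem_singleton_iff] at hy
    subst hy
    exact h2
  ext z
  exact DFunLike.congr_fun h3 z

theorem card_real_adjoin {u : F →+* ℝ} {a : F} (ha : ∀ u' : F →+* ℝ, u' ≠ u → u' a < 0) {x : L}
    (hx : x ^ 2 = algebraMap F L a) :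
    Nat.card (IntermediateField.adjoin F {x} →+* ℝ) ≤ 2 := by
  classical
  have hgen : (IntermediateField.AdjoinSimple.gen F x) ^ 2 =
      algebraMap F (IntermediateField.adjoin F {x}) a := Subtype.ext hx
  have hres : ∀ ρ : IntermediateField.adjoin F {x} →+* ℝ, ρ.comp (algebraMap F _) = u := by
    intro ρ
    by_contra h
    have h1 := ha _ h
    rw [RingHom.comp_apply, ← hgen, map_pow] at h1
    exact absurd h1 (not_lt.2 (sq_nonneg _))
  let f : (IntermediateField.adjoin F {x} →+* ℝ) → Bool := fun ρ =>
    decide (0 ≤ ρ (IntermediateField.AdjoinSimple.gen F x))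
  have hf : Function.Injective f := by
    intro ρ ρ' h
    refine ext_adjoin ((hres ρ).trans (hres ρ').symm) ?_
    have h1 : ∀ ρ : IntermediateField.adjoin F {x} →+* ℝ,
        ρ (IntermediateField.AdjoinSimple.gen F x) ^ 2 = u a := by
      intro ρ
      rw [← map_pow, hgen, ← RingHom.comp_apply, hres]
    have h2 : ρ (IntermediateField.AdjoinSimple.gen F x) ^ 2 =
        ρ' (IntermediateField.AdjoinSimple.gen F x) ^ 2 := (h1 ρ).trans (h1 ρ').symm
    have h3 : (0 ≤ ρ (IntermediateField.AdjoinSimple.gen F x) ↔
        0 ≤ ρ' (IntermediateField.AdjoinSimple.gen F x)) := decide_eq_decide.1 h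
    rcases sq_eq_sq_iff_eq_or_eq_neg.1 h2 with h4 | h4
    · exact h4
    · rw [h4] at h3 ⊢
      rcases le_or_gt 0 (ρ' (IntermediateField.AdjoinSimple.gen F x)) with h5 | h5
      · have h6 := h3.2 h5
        linarith
      · have h6 : ¬ (0 ≤ -ρ' (IntermediateField.AdjoinSimple.gen F x)) := fun h =>
          absurd (h3.1 h) (not_le.2 h5)
        exact absurd (by linarith) h6
  have h1 := Nat.card_le_card_of_injective f hf
  rwa [Nat.card_eq_fintype_card (α := Bool), Fintype.card_bool] at h1

theorem adjoin_neg (x : L) : IntermediateField.adjoin F {-x} = IntermediateField.adjoin F {x} := by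
  apply le_antisymm
  · rw [IntermediateField.adjoin_simple_le_iff]
    exact neg_mem (IntermediateField.mem_adjoin_simple_self F x)
  · rw [IntermediateField.adjoin_simple_le_iff]
    have h := neg_mem (IntermediateField.mem_adjoin_simple_self F (-x))
    rwa [neg_neg] at h

/-- restriction of a real embedding -/
theorem real_le {M M' : IntermediateField F L} (h : M ≤ M') (hM : IsEmpty (M →+* ℝ)) :
    IsEmpty (M' →+* ℝ) :=
  ⟨fun ρ => hM.false (ρ.comp (IntermediateField.inclusion h).toRingHom)⟩

end

/-- in a commutative group -/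
theorem fx_comm {G : Type} [Group G] (hG : ∀ x y : G, x * y = y * x) (H : Subgroup G) {g : G}
    (hg : g ∈ H) : fx H g = (H.index : ℤ) := by
  rw [fx, Subgroup.index]
  congr 1
  refine Nat.card_congr (Equiv.subtypeUnivEquiv fun c => ?_)
  obtain ⟨x, rfl⟩ := QuotientGroup.mk_surjective c
  change ((g * x : G) : G ⧸ H) = x
  rw [hG, QuotientGroup.mk_mul_of_mem x hg]

theorem not_dvd_card {G : Type} [Group G] [Finite G] (hG : ∀ x : G, x * x = 1) {p : ℕ}
    (hp : p = 0 ∨ p.Prime) (hp2 : p ≠ 2) : ¬ p ∣ Nat.card G := by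
  rcases hp with hp | hp
  · rw [hp, zero_dvd_iff]
    exact Nat.card_pos.ne'
  · intro h
    have hfact : Fact p.Prime := ⟨hp⟩
    obtain ⟨x, hx⟩ := exists_prime_orderOf_dvd_card' (G := G) p h
    have h1 := orderOf_dvd_of_pow_eq_one (show x ^ 2 = 1 by rw [sq]; exact hG x)
    rw [hx] at h1
    exact hp2 ((Nat.prime_dvd_prime_iff_eq hp Nat.prime_two).1 h1)

/-- **Relations with fields that have at most two real places.** -/
theorem good_real {p : ℕ} (hp : p = 0 ∨ p.Prime) (hp2 : p ≠ 2) (F : Type) [Field F]
    [NumberField F] : Good p F (fun Y => Nat.card (Y.F →+* ℝ) ≤ 2) := by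
  classical
  have hfin := finite_real F
  rcases le_or_gt (Nat.card (F →+* ℝ)) 1 with hcard | hcard
  · refine Good.self hp ?_
    have h1 : Nat.card ((Ext.self F).F →+* ℝ) ≤ 1 := hcard
    omega
  choose a ha ha' using fun u : F →+* ℝ => exists_sign F u
  let _ : Fintype (F →+* ℝ) := Fintype.ofFinite _
  let q : F[X] := ∏ u : F →+* ℝ, (X ^ 2 - C (a u))
  let L := q.SplittingField
  have hfinL : FiniteDimensional F L := inferInstance
  have hch : CharZero L := charZero_of_injective_algebraMap (algebraMap F L).injective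
  have hnf : NumberField L := NumberField.of_module_finite F L
  have hn : Normal F L := inferInstance
  have hgal : IsGalois F L := ⟨⟩
  have hq0 : q ≠ 0 := Finset.prod_ne_zero_iff.2 fun u _ => X_pow_sub_C_ne_zero two_pos _
  have hsp : (q.map (algebraMap F L)).Splits := SplittingField.splits q
  have hs : ∀ u : F →+* ℝ, ∃ x : L, x ^ 2 = algebraMap F L (a u) := by
    intro u
    have hq1 : ((X ^ 2 - C (a u)).map (algebraMap F L)).Splits := by
      refine Splits.of_dvd hsp ?_ ?_
      · exact (Polynomial.map_ne_zero_iff (algebraMap F L).injective).2 hq0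
      · exact Polynomial.map_dvd _ (Finset.dvd_prod_of_mem _ (Finset.mem_univ u))
    obtain ⟨x, hx⟩ := hq1.exists_eval_eq_zero (by
      rw [degree_map, degree_X_pow_sub_C two_pos]
      norm_num)
    refine ⟨x, ?_⟩
    rw [Polynomial.map_sub, Polynomial.map_pow, map_X, map_C, eval_sub, eval_pow, eval_X, eval_C,
      sub_eq_zero] at hx
    exact hx
  choose s hs using hs
  have hq : q ≠ 0 := hq0
  have hneg : ∀ (u : F →+* ℝ) (g : Gal(L/F)), g (s u) = s u ∨ g (s u) = -s u := by
    intro u g
    apply sq_eq_sq_iff_eq_or_eq_neg.1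
    rw [← map_pow, hs, g.commutes]
  have hroot : ∀ y ∈ q.rootSet L, ∃ u, y = s u ∨ y = -s u := by
    intro y hy
    have h1 := (mem_rootSet.1 hy).2
    rw [map_prod, Finset.prod_eq_zero_iff] at h1
    obtain ⟨u, -, hu⟩ := h1
    refine ⟨u, sq_eq_sq_iff_eq_or_eq_neg.1 ?_⟩
    rw [map_sub, map_pow, aeval_X, aeval_C, sub_eq_zero] at hu
    rw [hu, hs]
  have hgg : ∀ g : Gal(L/F), g * g = 1 := by
    intro g
    have h1 : ∀ u, g (g (s u)) = s u := by
      intro u
      rcases hneg u g with h | h
      · rw [h, h]
      · rw [h, map_neg, h, neg_neg]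
    have hadj : Algebra.adjoin F (q.rootSet L) = ⊤ := SplittingField.adjoin_rootSet q
    ext y
    have hy : y ∈ Algebra.adjoin F (q.rootSet L) := by rw [hadj]; trivial
    rw [AlgEquiv.mul_apply, AlgEquiv.one_apply]
    induction hy using Algebra.adjoin_induction with
    | mem z hz =>
      obtain ⟨u, rfl | rfl⟩ := hroot z hz
      · exact h1 u
      · rw [map_neg, map_neg, h1]
    | algebraMap r => rw [g.commutes, g.commutes]
    | add a b _ _ ha hb => rw [map_add, map_add, ha, hb]
    | mul a b _ _ ha hb => rw [map_mul, map_mul, ha, hb]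
  have hcomm : ∀ g g' : Gal(L/F), g * g' = g' * g := by
    intro g g'
    have h1 := hgg (g * g')
    have h2 : g⁻¹ = g := inv_eq_of_mul_eq_one_left (hgg g)
    have h3 : g'⁻¹ = g' := inv_eq_of_mul_eq_one_left (hgg g')
    have h4 : (g * g')⁻¹ = g * g' := inv_eq_of_mul_eq_one_left h1
    rw [mul_inv_rev, h2, h3] at h4
    exact h4.symm
  have hcount : ∀ g : Gal(L/F), ∃ M ∈ {M : IntermediateField F L | IsEmpty (M →+* ℝ) ∨
      ∃ u, M = IntermediateField.adjoin F {s u}}, ¬ p ∣ emb M g := by
    intro g
    have hemb : ∀ M : IntermediateField F L, (∀ x ∈ M, g x = x) → ¬ p ∣ emb M g := by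
      intro M hM h
      have h1 : g ∈ M.fixingSubgroup := fun x => hM _ x.2
      have h2 := fx_comm hcomm M.fixingSubgroup h1
      rw [fx_eq_emb] at h2
      have h3 : emb M g = M.fixingSubgroup.index := by exact_mod_cast h2
      rw [h3] at h
      exact not_dvd_card hgg hp hp2 (h.trans (Subgroup.index_dvd_card _))
    have hfix : ∀ x ∈ IntermediateField.fixedField (Subgroup.zpowers g), g x = x := fun x hx =>
      hx ⟨g, Subgroup.mem_zpowers g⟩
    have hmem : ∀ x : L, g x = x → x ∈ IntermediateField.fixedField (Subgroup.zpowers g) := by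
      rintro x hx ⟨y, hy⟩
      have h1 : Subgroup.zpowers g ≤ MulAction.stabilizer Gal(L/F) x := by
        rw [Subgroup.zpowers_le]
        exact hx
      exact h1 hy
    rcases isEmpty_or_nonempty
      (IntermediateField.fixedField (Subgroup.zpowers g) →+* ℝ) with hM | ⟨⟨ρ⟩⟩
    · exact ⟨_, Or.inl hM, hemb _ hfix⟩
    · set v : F →+* ℝ := ρ.comp (algebraMap F _) with hv
      have hneq : ∃ u' : F →+* ℝ, u' ≠ v := by
        have : Nontrivial (F →+* ℝ) := by
          rw [← Finite.one_lt_card_iff_nontrivial]
          exact hcard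
        exact exists_ne v
      obtain ⟨u', hu'⟩ := hneq
      have hgv : g (s v) = s v := by
        rcases hneg v g with h | h
        · exact h
        exfalso
        have hv1 := ha v
        have hv2 := ha' u' v (Ne.symm hu')
        rcases hneg u' g with h' | h'
        · have h1 : algebraMap F (IntermediateField.fixedField (Subgroup.zpowers g)) (a u') =
              ⟨s u', hmem _ h'⟩ ^ 2 := Subtype.ext (hs u').symm
          have h2 : v (a u') = ρ ⟨s u', hmem _ h'⟩ ^ 2 := by
            rw [hv, RingHom.comp_apply, h1, map_pow]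
          rw [h2] at hv2
          exact absurd hv2 (not_lt.2 (sq_nonneg _))
        · have h3 : g (s v * s u') = s v * s u' := by
            rw [map_mul, h, h', neg_mul_neg]
          have h1 : algebraMap F (IntermediateField.fixedField (Subgroup.zpowers g))
              (a v * a u') = ⟨s v * s u', hmem _ h3⟩ ^ 2 := by
            apply Subtype.ext
            change algebraMap F L (a v * a u') = (s v * s u') ^ 2
            rw [map_mul, mul_pow, hs, hs]
          have h2 : v (a v * a u') = ρ ⟨s v * s u', hmem _ h3⟩ ^ 2 := by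
            rw [← map_pow, ← h1]
            rfl
          rw [map_mul] at h2
          have h4 : v (a v) * v (a u') < 0 := mul_neg_of_pos_of_neg hv1 hv2
          rw [h2] at h4
          exact absurd h4 (not_lt.2 (sq_nonneg _))
      refine ⟨_, Or.inr ⟨v, rfl⟩, hemb _ fun x hx => ?_⟩
      refine hfix x ?_
      have h1 : IntermediateField.adjoin F {s v} ≤
          IntermediateField.fixedField (Subgroup.zpowers g) := by
        rw [IntermediateField.adjoin_simple_le_iff]
        exact hmem _ hgv
      exact h1 hx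
  obtain ⟨m, T, n, hm0, hmP, hT, hsum⟩ := gal_unit
    {M : IntermediateField F L | IsEmpty (M →+* ℝ) ∨ ∃ u, M = IntermediateField.adjoin F {s u}}
    (by
      rintro M hM M' hM'
      rcases hM with hM | ⟨u, rfl⟩
      · exact Or.inl (real_le le_sup_left hM)
      rcases hM' with hM' | ⟨u', rfl⟩
      · exact Or.inl (real_le le_sup_right hM')
      by_cases huu : u = u'
      · subst huu
        exact Or.inr ⟨u, sup_idem _⟩
      · left
        refine ⟨fun ρ => huu ?_⟩
        have key : ∀ w : F →+* ℝ, s w ∈ IntermediateField.adjoin F {s u} ⊔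
            IntermediateField.adjoin F {s u'} → ρ.comp (algebraMap F _) = w := by
          intro w hw
          by_contra hne
          have h1 := ha' w _ hne
          have h2 : algebraMap F (IntermediateField.adjoin F {s u} ⊔
              IntermediateField.adjoin F {s u'} : IntermediateField F L) (a w) = ⟨s w, hw⟩ ^ 2 :=
            Subtype.ext (hs w).symm
          rw [RingHom.comp_apply, h2, map_pow] at h1
          exact absurd h1 (not_lt.2 (sq_nonneg _))
        exact (key u (le_sup_left (a := IntermediateField.adjoin F {s u})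
          (IntermediateField.mem_adjoin_simple_self F (s u)))).symm.trans
          (key u' (le_sup_right (b := IntermediateField.adjoin F {s u'})
          (IntermediateField.mem_adjoin_simple_self F (s u')))))
    (by
      rintro M hM g
      rcases hM with hM | ⟨u, rfl⟩
      · left
        exact ⟨fun ρ => hM.false (ρ.comp (M.equivMap (g : L →ₐ[F] L)).toRingHom)⟩
      · right
        refine ⟨u, ?_⟩
        rw [IntermediateField.adjoin_map, Set.image_singleton]
        rcases hneg u g with h | h
        · rw [show (g : L →ₐ[F] L) (s u) = s u from h]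
        · rw [show (g : L →ₐ[F] L) (s u) = -s u from h, adjoin_neg]) {p}
    (by
      intro g
      obtain ⟨M, hM, h⟩ := hcount g
      exact ⟨M, hM, fun h0 => h (h0 ▸ dvd_zero p)⟩)
    (by
      intro g r hr _
      rw [Set.mem_singleton_iff] at hr
      subst hr
      exact hcount g)
  have hpm : ¬ p ∣ m := by
    rcases hp with hp | hp
    · rw [hp, zero_dvd_iff]
      exact hm0
    · exact hmP p rfl hp
  refine ⟨{M // M ∈ T}, inferInstance, _, _, m, hpm, isRel_of_fx T n m hsum, fun M => ?_⟩
  rcases hT M.1 M.2 with h | ⟨u, hu⟩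
  · change Nat.card (M.1 →+* ℝ) ≤ 2
    rw [Nat.card_of_isEmpty]
    exact Nat.zero_le _
  · change Nat.card (M.1 →+* ℝ) ≤ 2
    rw [hu]
    exact card_real_adjoin (ha' u) (hs u)

end Pool.Agent.N19.BR
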