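import Pool.Agent.N19.BR.Plc
import Pool.Agent.N19.BR.Real

/-! Relations between the numbers of archimedean places. -/

set_option autoImplicit false

namespace Pool.Agent.N19.BR

open NumberField
open Pool.Agent.R433.MD
open scoped Classical ComplexConjugate

/-- the number of real places -/
theorem nrReal_eq (F : Type) [Field F] [NumberField F] :
    InfinitePlace.nrRealPlaces F = Nat.card (F →+* ℝ) := by
  rw [← InfinitePlace.card_real_embeddings, ← Nat.card_eq_fintype_card]
  refine Nat.card_congr
    { toFun := fun φ => φ.2.embedding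
      invFun := fun ψ => ⟨Complex.ofRealHom.comp ψ, ?_⟩
      left_inv := fun φ => ?_
      right_inv := fun ψ => ?_ }
  · rw [ComplexEmbedding.isReal_iff]
    ext x
    exact Complex.conj_ofReal _
  · apply Subtype.ext
    ext x
    exact φ.2.coe_embedding_apply x
  · ext x
    apply Complex.ofReal_injective
    exact ComplexEmbedding.IsReal.coe_embedding_apply _ x

theorem card_places (F : Type) [Field F] [NumberField F] :
    2 * Nat.card (InfinitePlace F) = Nat.card (F →+* ℝ) + Module.finrank ℚ F := by
  have h1 := InfinitePlace.card_eq_nrRealPlaces_add_nrComplexPlaces F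
  have h2 := InfinitePlace.card_add_two_mul_card_eq_rank F
  rw [← nrReal_eq, Nat.card_eq_fintype_card]
  omega

section
variable {K : Type} [Field K] [NumberField K] {ι : Type} [Fintype ι] {Z : ι → Ext K}
  {e : ι → ℤ} {m : ℕ}

theorem real_rel (h : IsRel K Z e m) :
    ∑ i, e i * (Nat.card ((Z i).F →+* ℝ) : ℤ) = m * Nat.card (K →+* ℝ) := by
  have hfK : Finite (K →+* ℝ) := finite_real K
  let _ : Fintype (K →+* ℝ) := Fintype.ofFinite _
  have key : ∀ φ : K →+* ℝ, ∑ i, e i * (Nat.card {ψ : (Z i).F →+* ℝ //
      ψ.comp (algebraMap K (Z i).F) = φ} : ℤ) = m := by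
    intro φ
    let _ : Algebra K ℂ := (Complex.ofRealHom.comp φ).toAlgebra
    have hal : ∀ x : K, algebraMap K ℂ x = (φ x : ℂ) := fun x => rfl
    let c : ℂ ≃ₐ[K] ℂ := AlgEquiv.ofRingEquiv (f := (starRingAut : RingAut ℂ)) (fun x => by
      rw [hal]
      exact Complex.conj_ofReal _)
    have hc : ∀ z : ℂ, c z = conj z := fun z => rfl
    rw [← h ℂ c]
    refine Finset.sum_congr rfl fun i _ => ?_
    congr 2
    have hr : ∀ τ : {τ : (Z i).F →ₐ[K] ℂ // ∀ x, c (τ x) = τ x},
        ComplexEmbedding.IsReal (τ.1 : (Z i).F →+* ℂ) := by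
      intro τ
      rw [ComplexEmbedding.isReal_iff]
      ext x
      exact τ.2 x
    refine Nat.card_congr
      { toFun := fun ψ => ⟨{ Complex.ofRealHom.comp ψ.1 with
          commutes' := fun x => congrArg Complex.ofReal (RingHom.congr_fun ψ.2 x) }, fun x => by
            rw [hc]
            exact Complex.conj_ofReal _⟩
        invFun := fun τ => ⟨(hr τ).embedding, ?_⟩
        left_inv := fun ψ => ?_
        right_inv := fun τ => ?_ }
    · ext x
      apply Complex.ofReal_injective
      rw [RingHom.comp_apply, (hr τ).coe_embedding_apply]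
      exact τ.1.commutes x
    · apply Subtype.ext
      ext x
      apply Complex.ofReal_injective
      exact (hr _).coe_embedding_apply x
    · apply Subtype.ext
      ext x
      exact (hr τ).coe_embedding_apply x
  have h1 : ∀ i, (Nat.card ((Z i).F →+* ℝ) : ℤ) = ∑ φ : K →+* ℝ, (Nat.card {ψ : (Z i).F →+* ℝ //
      ψ.comp (algebraMap K (Z i).F) = φ} : ℤ) := by
    intro i
    have hf : Finite ((Z i).F →+* ℝ) := finite_real _
    rw [← Nat.cast_sum, ← Nat.card_sigma]
    congr 1
    exact Nat.card_congr (Equiv.sigmaFiberEquiv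
      (fun ψ : (Z i).F →+* ℝ => ψ.comp (algebraMap K (Z i).F))).symm
  simp_rw [h1, Finset.mul_sum]
  rw [Finset.sum_comm, Finset.sum_congr rfl fun φ _ => key φ, Finset.sum_const, Finset.card_univ,
    nsmul_eq_mul, Nat.card_eq_fintype_card]
  ring

theorem degree_rel (h : IsRel K Z e m) :
    ∑ i, e i * (Module.finrank ℚ (Z i).F : ℤ) = m * Module.finrank ℚ K := by
  have h1 := rel_degree h
  have h2 : ∀ i, (Module.finrank ℚ (Z i).F : ℤ) =
      Module.finrank ℚ K * Module.finrank K (Z i).F := by
    intro i
    exact_mod_cast (Module.finrank_mul_finrank ℚ K (Z i).F).symm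
  simp_rw [h2]
  rw [← h1, Finset.sum_mul]
  refine Finset.sum_congr rfl fun i _ => ?_
  ring

/-- **The relation between the numbers of archimedean places.** -/
theorem places_rel (h : IsRel K Z e m) :
    ∑ i, e i * (Nat.card (InfinitePlace (Z i).F) : ℤ) = m * Nat.card (InfinitePlace K) := by
  have h1 := real_rel h
  have h2 := degree_rel h
  have h3 : ∀ (F : Type) [Field F] [NumberField F], 2 * (Nat.card (InfinitePlace F) : ℤ) =
      Nat.card (F →+* ℝ) + Module.finrank ℚ F := by
    intro F _ _
    exact_mod_cast card_places F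
  have h4 : 2 * ∑ i, e i * (Nat.card (InfinitePlace (Z i).F) : ℤ) =
      2 * (m * Nat.card (InfinitePlace K)) := by
    calc 2 * ∑ i, e i * (Nat.card (InfinitePlace (Z i).F) : ℤ)
        = ∑ i, e i * (2 * (Nat.card (InfinitePlace (Z i).F) : ℤ)) := by
          rw [Finset.mul_sum]
          exact Finset.sum_congr rfl fun i _ => by ring
      _ = ∑ i, (e i * (Nat.card ((Z i).F →+* ℝ) : ℤ) + e i * (Module.finrank ℚ (Z i).F : ℤ)) := by
          refine Finset.sum_congr rfl fun i _ => ?_
          rw [h3]
          ring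
      _ = m * (2 * Nat.card (InfinitePlace K)) := by
          rw [Finset.sum_add_distrib, h1, h2, h3]
          ring
      _ = _ := by ring
  linarith

end

end Pool.Agent.N19.BR
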