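import Pool.Agent.R433.MD.Step

/-!
# Finite extensions of a number field with restricted Galois action, local degrees and real places;
the rank formula for elliptic curves over number fields: definitions

`Pool.Agent.R433.MD.Ext K` is the type of the finite extensions of the number field `K`: `Z : Ext K` is
a number field `Z.F` with the structure of a `K`-algebra; for `Y : Ext Z.F`, `Z.restrict Y : Ext K` is the
field `Y.F` as an extension of `K`.
-/

set_option autoImplicit false

namespace Pool.Agent.N19.BR.Def

open NumberField IsDedekindDomain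
open Pool.Agent.R433.MD (Ext)
open scoped Classical

section fields
variable {K : Type} [Field K] [NumberField K]

/-- `L F / F` is cyclic for the extension `F = Z.F` of `K`: there is a cyclic Galois extension of `F`
that contains a field isomorphic to `L` over `K`. -/
def CyclicOver (L : Type) [Field L] [Algebra K L] (Z : Ext K) : Prop :=
  ∃ M : Ext Z.F, IsGalois Z.F M.F ∧ IsCyclic Gal(M.F/Z.F) ∧ Nonempty (L →ₐ[K] (Z.restrict M).F)

/-- The group `G` is `p`-hyperelementary: it has a cyclic normal subgroup of order prime to `p` whose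
index is a power of `p`. -/
def Hyperelementary (p : ℕ) (G : Type) [Group G] : Prop :=
  ∃ C : Subgroup G, C.Normal ∧ IsCyclic C ∧ (Nat.card C).Coprime p ∧ ∃ k : ℕ, C.index = p ^ k

/-- The Galois group of `L F / F` is `p`-hyperelementary for the extension `F = Z.F` of `K`: there is a
Galois extension of `F` with `p`-hyperelementary Galois group that contains a field isomorphic to `L`
over `K`. -/
def HyperelementaryOver (p : ℕ) (L : Type) [Field L] [Algebra K L] (Z : Ext K) : Prop :=
  ∃ M : Ext Z.F, IsGalois Z.F M.F ∧ Hyperelementary p Gal(M.F/Z.F) ∧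
    Nonempty (L →ₐ[K] (Z.restrict M).F)

/-- For all primes `w` of `F = Z.F` above the elements of `S` the degree `e(w) f(w)` of the completion
`F_w` over the completion of `K` is divisible by `n`. -/
def LocalDegreesDivisible (S : Set (HeightOneSpectrum (𝓞 K))) (n : ℕ) (Z : Ext K) : Prop :=
  ∀ v ∈ S, ∀ w : Ideal (𝓞 Z.F), w.IsPrime → w.LiesOver v.asIdeal →
    n ∣ w.ramificationIdx (𝓞 K) * w.inertiaDeg (𝓞 K)

/-- `F = Z.F` has at most two real places. -/
def AtMostTwoRealPlaces (Z : Ext K) : Prop := Nat.card (Z.F →+* ℝ) ≤ 2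

/-- For some prime number `p`, the Galois group of `L F / F`, `F = Z.F`, is `p`-hyperelementary, all
divisors of `n` prime to `p` divide the local degrees of `F / K` at the primes above `S`, and `F` has at
most two real places if `p ≠ 2`. -/
def HyperelementaryClass (L : Type) [Field L] [Algebra K L] (S : Set (HeightOneSpectrum (𝓞 K)))
    (n : ℕ) (Z : Ext K) : Prop :=
  ∃ p : ℕ, p.Prime ∧ HyperelementaryOver p L Z ∧
    (∀ k : ℕ, k ∣ n → k.Coprime p → LocalDegreesDivisible S k Z) ∧ (p ≠ 2 → AtMostTwoRealPlaces Z)

end fields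

section curves
variable {F : Type} [Field F] [NumberField F]

/-- `V v` is, for every prime `v`, an integral model of `E` with discriminant minimal at `v`. -/
def MinimalModels (E : WeierstrassCurve F)
    (V : HeightOneSpectrum (𝓞 F) → WeierstrassCurve (𝓞 F)) : Prop :=
  ∀ v : HeightOneSpectrum (𝓞 F),
    (∃ C : WeierstrassCurve.VariableChange F, C • (V v).map (algebraMap (𝓞 F) F) = E) ∧
    ∀ W : WeierstrassCurve (𝓞 F),
      (∃ C : WeierstrassCurve.VariableChange F, C • W.map (algebraMap (𝓞 F) F) = E) →
        ∀ n : ℕ, (V v).Δ ∈ v.asIdeal ^ n → W.Δ ∈ v.asIdeal ^ n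

/-- The Euler factor at `v`, computed from the reduction of `V v`: `(1 - a_v q_v^{-s} + q_v^{1-2s})⁻¹` if
the reduction is good and `(1 - a_v q_v^{-s})⁻¹` if it is bad, where `a_v` is `q_v` minus the number of
affine points of the reduction (so `a_v = 1`, `-1`, `0` in the cases of split multiplicative, non-split
multiplicative and additive reduction). -/
noncomputable def factor (V : HeightOneSpectrum (𝓞 F) → WeierstrassCurve (𝓞 F)) (s : ℂ)
    (v : HeightOneSpectrum (𝓞 F)) : ℂ :=
  (1 - ((Ideal.absNorm v.asIdeal : ℂ)
        - (Nat.card {xy : (𝓞 F ⧸ v.asIdeal) × (𝓞 F ⧸ v.asIdeal) //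
            ((V v).map (Ideal.Quotient.mk v.asIdeal)).toAffine.Equation xy.1 xy.2} : ℂ))
        * (Ideal.absNorm v.asIdeal : ℂ) ^ (-s)
    + (if (V v).Δ ∈ v.asIdeal then 0 else (Ideal.absNorm v.asIdeal : ℂ))
        * (Ideal.absNorm v.asIdeal : ℂ) ^ (-2 * s))⁻¹

/-- `Λ` is a meromorphic continuation to `U` of the `M`-th power of `L(E / F, s)`, the product of the
Euler factors of minimal models (minimal models exist, and it does not matter which ones are
chosen). -/
def Continues (U : Set ℂ) (M : ℕ) (E : WeierstrassCurve F) (Λ : ℂ → ℂ) : Prop :=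
  MeromorphicOn Λ U ∧
    (∃ V : HeightOneSpectrum (𝓞 F) → WeierstrassCurve (𝓞 F), MinimalModels E V) ∧
    ∀ V : HeightOneSpectrum (𝓞 F) → WeierstrassCurve (𝓞 F), MinimalModels E V →
      ∀ s : ℂ, 3 / 2 < s.re → Λ s = (∏' v, factor V s v) ^ M

/-- The rank formula for `L(E / F, s) ^ M`: it has a meromorphic continuation to `U`, and its order at
`s = 1` is `M` times the rank of `E(F)`.  For `M = 1` it is the conjecture of Birch and
Swinnerton-Dyer on the rank, with the meromorphic continuation to `U`. -/
def RankFormula (U : Set ℂ) (M : ℕ) (E : WeierstrassCurve F) : Prop :=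
  ∃ (Λ : ℂ → ℂ) (r : ℕ), Continues U M E Λ ∧ Module.rank ℤ E.toAffine.Point = r ∧
    meromorphicOrderAt Λ 1 = ((M * r : ℕ) : ℤ)

end curves

end Pool.Agent.N19.BR.Def
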