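import Pool.Agent.N19.BR.Core
import Pool.Agent.N19.BR.Defs
import Pool.Agent.R333.BR.Ord
import Pool.Agent.R333.BR.Rank

/-! Relations and the rank formula. -/

set_option autoImplicit false

namespace Pool.Agent.N19.BR

open NumberField IsDedekindDomain
open Pool.Agent.R433.MD
open Pool.Agent.R333.BR (L_rel ord_rel rank_rel Pt order_ne_top)
open Pool.Agent.H341R2.EC (IsModel IsMinAt red aff trc dlt)
open Pool.Agent.H921R2.TatePole (nm two_le_nm)
open Pool.Agent.N19.BR.Def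

section bridge
variable {K : Type} [Field K] [NumberField K]

omit [NumberField K] in
theorem isModel_iff (E : WeierstrassCurve K) (W : WeierstrassCurve (𝓞 K)) :
    (∃ C : WeierstrassCurve.VariableChange K, C • W.map (algebraMap (𝓞 K) K) = E) ↔
      IsModel E W := by
  constructor
  · rintro ⟨C, hC⟩
    exact ⟨C⁻¹, by rw [← hC, inv_smul_smul]⟩
  · rintro ⟨C, hC⟩
    exact ⟨C⁻¹, by rw [← hC, inv_smul_smul]⟩

theorem minimalModels_iff (E : WeierstrassCurve K)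
    (V : HeightOneSpectrum (𝓞 K) → WeierstrassCurve (𝓞 K)) :
    MinimalModels E V ↔ ∀ v, IsMinAt E v (V v) := by
  unfold MinimalModels IsMinAt
  simp only [isModel_iff]

theorem factor_eq (V : HeightOneSpectrum (𝓞 K) → WeierstrassCurve (𝓞 K)) (s : ℂ)
    (v : HeightOneSpectrum (𝓞 K)) : factor V s v = (lf V s v)⁻¹ := by
  unfold factor
  congr 1
  unfold lf trc dlt
  have h0 : ((nm v : ℕ) : ℂ) ≠ 0 := by
    have := two_le_nm v
    exact_mod_cast (by omega : nm v ≠ 0)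
  have e1 : Nat.card {xy : (𝓞 K ⧸ v.asIdeal) × (𝓞 K ⧸ v.asIdeal) //
      ((V v).map (Ideal.Quotient.mk v.asIdeal)).toAffine.Equation xy.1 xy.2} =
      aff (red v (V v)) := by
    unfold aff red
    refine Nat.card_congr (Equiv.subtypeEquivRight fun xy => ?_)
    rw [WeierstrassCurve.Affine.equation_iff]
  have e2 : ((nm v : ℕ) : ℂ) ^ (1 - 2 * s) = ((nm v : ℕ) : ℂ) * ((nm v : ℕ) : ℂ) ^ (-2 * s) := by
    rw [sub_eq_add_neg, Complex.cpow_add _ _ h0, Complex.cpow_one]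
    congr 2
    ring
  have e3 : (Ideal.absNorm v.asIdeal : ℂ) = ((nm v : ℕ) : ℂ) := rfl
  rw [e1, e2, e3]
  push_cast
  split_ifs with h
  · ring
  · ring

theorem prod_eq (V : HeightOneSpectrum (𝓞 K) → WeierstrassCurve (𝓞 K)) (s : ℂ) :
    ∏' v, factor V s v = LL V s := by
  unfold LL
  exact tprod_congr fun v => factor_eq V s v

theorem LL_minimal {E : WeierstrassCurve K} (hE : E.IsElliptic)
    {V V' : HeightOneSpectrum (𝓞 K) → WeierstrassCurve (𝓞 K)} (hV : ∀ v, IsMinAt E v (V v))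
    (hV' : ∀ v, IsMinAt E v (V' v)) (s : ℂ) : LL V s = LL V' s := by
  unfold LL
  refine tprod_congr fun v => ?_
  obtain ⟨h1, h2⟩ := aff_minimal v hE (hV v) (hV' v)
  have h3 : dlt V v = dlt V' v := by
    unfold dlt
    by_cases h : (V v).Δ ∈ v.asIdeal
    · rw [if_pos h, if_pos (h2.1 h)]
    · rw [if_neg h, if_neg fun h' => h (h2.2 h')]
  unfold lf trc
  rw [h1, h3]

theorem continues_iff {U : Set ℂ} {M : ℕ} {E : WeierstrassCurve K} (hE : E.IsElliptic)
    {Λ : ℂ → ℂ} {V : HeightOneSpectrum (𝓞 K) → WeierstrassCurve (𝓞 K)}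
    (hV : ∀ v, IsMinAt E v (V v)) : Continues U M E Λ ↔
      MeromorphicOn Λ U ∧ ∀ s : ℂ, 3 / 2 < s.re → Λ s = LL V s ^ M := by
  constructor
  · rintro ⟨h1, -, h2⟩
    refine ⟨h1, fun s hs => ?_⟩
    rw [h2 V ((minimalModels_iff E V).2 hV) s hs, prod_eq]
  · rintro ⟨h1, h2⟩
    refine ⟨h1, ⟨V, (minimalModels_iff E V).2 hV⟩, fun V' hV' s hs => ?_⟩
    rw [h2 s hs, prod_eq, LL_minimal hE hV ((minimalModels_iff E V').1 hV')]

end bridge

theorem nonempty_of_rel {K : Type} [Field K] [NumberField K] {ι : Type} [Fintype ι] {Z : ι → Ext K}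
    {e : ι → ℤ} {m : ℕ} (hm : m ≠ 0) (h : IsRel K Z e m) : Nonempty ι := by
  by_contra hcon
  rw [not_nonempty_iff] at hcon
  have h1 := h (AlgebraicClosure K) 1
  rw [Fintype.sum_empty] at h1
  exact hm (by exact_mod_cast h1.symm)

/-- **Relations and the rank formula.** -/
theorem rank_of_rel {K : Type} [Field K] [NumberField K] {ι : Type} [Fintype ι] {Z : ι → Ext K}
    {e : ι → ℤ} {m : ℕ} (hm : m ≠ 0) (h : IsRel K Z e m) {U : Set ℂ} (hU : IsPreconnected U)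
    (hH : ∀ s : ℂ, 3 / 2 < s.re → s ∈ U) (h1 : (1 : ℂ) ∈ U) {E : WeierstrassCurve K}
    (hE : E.IsElliptic)
    (hr : ∀ i, RankFormula U 1 (E.map (algebraMap K (Z i).F))) :
    RankFormula U m E ∧ ∀ Λ : ℂ → ℂ, Continues U 1 E Λ → RankFormula U 1 E := by
  classical
  have hne := nonempty_of_rel hm h
  obtain ⟨L, _, _, _, _, hL⟩ := exists_common Z
  have f : ∀ i, (Z i).F →ₐ[K] L := fun i => (hL i).some
  have hrel := fx_of_isRel h f
  obtain ⟨V0, hV0⟩ := exists_minimal E hE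
  have hVZ : ∀ i, ∃ V : HeightOneSpectrum (𝓞 (Z i).F) → WeierstrassCurve (𝓞 (Z i).F),
      ∀ w, IsMinAt (E.map (algebraMap K (Z i).F)) w (V w) := fun i =>
    exists_minimal _ inferInstance
  choose VZ hVZ using hVZ
  choose Λ r hΛ hrk hord using hr
  have hΛ' : ∀ i, MeromorphicOn (Λ i) U ∧ ∀ s : ℂ, 3 / 2 < s.re → Λ i s = LL (VZ i) s := by
    intro i
    have h2 := (continues_iff (U := U) (M := 1) (Λ := Λ i) inferInstance (hVZ i)).1 (hΛ i)
    exact ⟨h2.1, fun s hs => by rw [h2.2 s hs, pow_one]⟩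
  have hord' : ∀ i, meromorphicOrderAt (Λ i) 1 = ((r i : ℤ) : WithTop ℤ) := by
    intro i
    rw [hord i, one_mul]
  obtain ⟨r0, hr0, hsum⟩ := rank_rel E (fun i => (Z i).F) f e m (by exact_mod_cast hrel) r hrk
  obtain ⟨R, hR, hR1, hRL⟩ := L_rel Z f e m hrel E hE V0 hV0 VZ hVZ
  have hRU : MeromorphicOn R U := fun x _ => hR x trivial
  refine ⟨⟨R * ∏ i, (Λ i) ^ (e i), r0, ?_, hr0, ?_⟩, fun Λ0 hΛ0 => ?_⟩
  · rw [continues_iff hE hV0]
    refine ⟨hRU.mul (MeromorphicOn.prod fun i _ => (hΛ' i).1.zpow _), fun s hs => ?_⟩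
    rw [(hRL s hs).2, Pi.mul_apply, Finset.prod_apply]
    congr 1
    refine Finset.prod_congr rfl fun i _ => ?_
    rw [Pi.pow_apply, (hΛ' i).2 s hs]
  · rw [meromorphicOrderAt_mul (hR 1 trivial)
      (MeromorphicAt.prod fun i _ => ((hΛ' i).1 1 h1).zpow _), hR1, zero_add,
      meromorphicOrderAt_prod fun i _ => ((hΛ' i).1 1 h1).zpow _]
    have h4 : ∀ i, meromorphicOrderAt (Λ i ^ e i) 1 = ((e i * r i : ℤ) : WithTop ℤ) := fun i => by
      rw [meromorphicOrderAt_zpow ((hΛ' i).1 1 h1), hord' i]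
      rfl
    rw [Finset.sum_congr rfl fun i _ => h4 i, ← WithTop.coe_sum, ← hsum]
    push_cast
    rfl
  · have h2 := (continues_iff (U := U) (M := 1) hE hV0).1 hΛ0
    obtain ⟨r0', h3, h4⟩ := ord_rel hU hH h1 Z f e m hrel E hE V0 hV0 VZ hVZ h2.1
      (fun s hs => by rw [h2.2 s hs, pow_one]) (fun i => (hΛ' i).1) (fun i => (hΛ' i).2)
      (fun i => (r i : ℤ)) hord'
    refine ⟨Λ0, r0, hΛ0, hr0, ?_⟩
    rw [h3, one_mul]
    have h5 : (m : ℤ) * r0' = m * r0 := h4.trans hsum.symm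
    rw [mul_left_cancel₀ (by exact_mod_cast hm : (m : ℤ) ≠ 0) h5]

end Pool.Agent.N19.BR
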