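import Pool.Agent.N19.BR.Main

/-! The lists of fields inside the algebraic closure. -/

set_option autoImplicit false

namespace Pool.Agent.N19.BR

open NumberField IsDedekindDomain
open Pool.Agent.R433.MD
open Pool.Agent.N19.BR.Def

section
variable {K : Type} [Field K] [NumberField K]

/-- an isomorphic copy of `Z` -/
theorem copy_eq (Z : Ext K) {F : Type} [Field F] [NumberField F] [Algebra K F] (f : Z.F →ₐ[K] F) :
    ∃ Y : Ext Z.F, Z.restrict Y = (⟨F⟩ : Ext K) ∧ Y.F = F := by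
  let _ : Algebra Z.F F := f.toRingHom.toAlgebra
  refine ⟨⟨F⟩, ?_, rfl⟩
  have h : ((algebraMap Z.F F).comp (algebraMap K Z.F)).toAlgebra = (inferInstance : Algebra K F) := by
    refine Algebra.algebra_ext _ _ fun x => ?_
    exact f.commutes x
  change (@Ext.mk K _ _ F _ _ ((algebraMap Z.F F).comp (algebraMap K Z.F)).toAlgebra) = _
  rw [h]

theorem real_copy {F F' : Type} [Field F] [Field F'] (e : F ≃+* F') :
    Nat.card (F →+* ℝ) = Nat.card (F' →+* ℝ) := by
  refine Nat.card_congr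
    { toFun := fun ρ => ρ.comp (e.symm : F' →+* F)
      invFun := fun ρ => ρ.comp (e : F →+* F')
      left_inv := fun ρ => ?_
      right_inv := fun ρ => ?_ }
  · ext x
    exact congrArg ρ (e.symm_apply_apply x)
  · ext x
    exact congrArg ρ (e.apply_symm_apply x)

theorem cnt_copy {F F' : Type} [Field F] [Algebra K F] [Field F'] [Algebra K F'] (e : F ≃ₐ[K] F')
    {Ω : Type} [Field Ω] [Algebra K Ω] (σ : Ω ≃ₐ[K] Ω) : cnt F σ = cnt F' σ := by
  refine Nat.card_congr
    { toFun := fun τ => ⟨τ.1.comp (e.symm : F' →ₐ[K] F), fun x => τ.2 _⟩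
      invFun := fun τ => ⟨τ.1.comp (e : F →ₐ[K] F'), fun x => τ.2 _⟩
      left_inv := fun τ => ?_
      right_inv := fun τ => ?_ }
  · apply Subtype.ext
    ext x
    exact congrArg τ.1 (e.symm_apply_apply x)
  · apply Subtype.ext
    ext x
    exact congrArg τ.1 (e.apply_symm_apply x)

/-- the image of `Z` in the algebraic closure -/
noncomputable def img (Z : Ext K) : IntermediateField K (AlgebraicClosure K) :=
  (IsAlgClosed.lift (R := K) (S := Z.F) (M := AlgebraicClosure K)).fieldRange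

noncomputable def imgEquiv (Z : Ext K) : Z.F ≃ₐ[K] img Z :=
  AlgEquiv.ofInjectiveField (IsAlgClosed.lift (R := K) (S := Z.F) (M := AlgebraicClosure K))

instance img_nf (Z : Ext K) : NumberField (img Z) := by
  have : FiniteDimensional K (img Z) := Module.Finite.equiv (imgEquiv Z).toLinearEquiv
  exact NumberField.of_module_finite K (img Z)

theorem img_prop (Z : Ext K) {L : Type} [Field L] [Algebra K L]
    {S : Set (HeightOneSpectrum (𝓞 K))} {n : ℕ}
    (h : CyclicOver L Z ∧ LocalDegreesDivisible S n Z ∧ AtMostTwoRealPlaces Z) :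
    CyclicOver L (⟨img Z⟩ : Ext K) ∧ LocalDegreesDivisible S n (⟨img Z⟩ : Ext K) ∧
      AtMostTwoRealPlaces (⟨img Z⟩ : Ext K) := by
  obtain ⟨Y, hY, -⟩ := copy_eq Z ((imgEquiv Z : Z.F ≃ₐ[K] img Z) : Z.F →ₐ[K] img Z)
  obtain ⟨⟨M, hM, hc, g⟩, h2, h3⟩ := h
  refine ⟨?_, ?_, ?_⟩
  · have h4 : Cyc 0 L Z := by
      refine ⟨M, hM, Or.inl ⟨rfl, ?_⟩, g⟩
      exact isCyclic_of_surjective (Subgroup.topEquiv (G := Gal(M.F/Z.F))).symm.toMonoidHom
        (Subgroup.topEquiv (G := Gal(M.F/Z.F))).symm.surjective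
    have h5 := cyc_restrict Z Y h4
    rw [hY] at h5
    exact cyclicOver_of h5
  · have h4 := loc_restrict (S := S) (a := n) Z Y h2 (loc_one _ Y.F)
    rw [mul_one, hY] at h4
    exact h4
  · have h4 := real_copy ((imgEquiv Z : Z.F ≃ₐ[K] img Z) : Z.F ≃+* img Z)
    change Nat.card (img Z →+* ℝ) ≤ 2
    rw [← h4]
    exact h3

theorem isRel_img {ι : Type} [Fintype ι] {Z : ι → Ext K} {e : ι → ℤ} {m : ℕ} (h : IsRel K Z e m)
    (σ : Gal(AlgebraicClosure K/K)) : ∑ i, e i * (cnt (img (Z i)) σ : ℤ) = m := by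
  rw [← h (AlgebraicClosure K) σ]
  refine Finset.sum_congr rfl fun i _ => ?_
  rw [cnt_copy (imgEquiv (Z i)) σ]

end

end Pool.Agent.N19.BR
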