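import Pool.Agent.N19.BR.InvRel
import Pool.Agent.N19.BR.Sub

/-! The dimensions of the spaces fixed by the absolute Galois groups of the fields in a relation. -/

set_option autoImplicit false

namespace Pool.Agent.N19.BR

open Module Representation
open Pool.Agent.R433.MD (fx Ext)

section
variable {k : Type} [Field k] {V : Type} [AddCommGroup V] [Module k V]
  {K : Type} [Field K]

/-- the elements fixed by the absolute Galois group of `F` -/
noncomputable def inv (ρ : Representation k Gal(AlgebraicClosure K/K) V)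
    (F : IntermediateField K (AlgebraicClosure K)) : Submodule k V :=
  invariants (ρ.comp F.fixingSubgroup.subtype)

variable (ρ : Representation k Gal(AlgebraicClosure K/K) V)

theorem mem_inv {F : IntermediateField K (AlgebraicClosure K)} {v : V} :
    v ∈ inv ρ F ↔ ∀ σ : Gal(AlgebraicClosure K/K), (∀ x ∈ F, σ x = x) → ρ σ v = v := by
  unfold inv
  rw [mem_invariants]
  constructor
  · intro h σ hσ
    exact h ⟨σ, (IntermediateField.mem_fixingSubgroup_iff _ _).2 hσ⟩
  · rintro h ⟨σ, hσ⟩
    exact h σ ((IntermediateField.mem_fixingSubgroup_iff _ _).1 hσ)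

theorem inv_mono {F F' : IntermediateField K (AlgebraicClosure K)} (h : F ≤ F') :
    inv ρ F ≤ inv ρ F' := by
  intro v hv
  rw [mem_inv] at hv ⊢
  exact fun σ hσ => hv σ fun x hx => hσ x (h hx)

theorem inv_bot : inv ρ (⊥ : IntermediateField K (AlgebraicClosure K)) = invariants ρ := by
  ext v
  rw [mem_inv, mem_invariants]
  refine forall_congr' fun σ => ⟨fun h => h ?_, fun h _ => h⟩
  intro x hx
  obtain ⟨y, rfl⟩ := IntermediateField.mem_bot.1 hx
  exact σ.commutes y

variable (M : IntermediateField K (AlgebraicClosure K)) [Normal K M]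

theorem lift_fix (γ : Gal(M/K)) (σ : Gal(AlgebraicClosure K/K)) (h : σ.restrictNormal M = γ)
    {v : V} (hv : v ∈ inv ρ M) : ρ (γ.liftNormal (AlgebraicClosure K)) v = ρ σ v := by
  set τ := γ.liftNormal (AlgebraicClosure K) with hτ
  have h1 : ∀ x : M, σ x = τ x := by
    intro x
    have h2 := AlgEquiv.restrictNormal_commutes σ M x
    have h3 := AlgEquiv.liftNormal_commutes γ (AlgebraicClosure K) x
    rw [h] at h2
    exact h2.symm.trans h3.symm
  have h4 : ρ (σ⁻¹ * τ) v = v := by
    refine (mem_inv ρ).1 hv _ fun x hx => ?_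
    have h5 := h1 ⟨x, hx⟩
    change σ.symm (τ x) = x
    rw [← h5]
    exact σ.symm_apply_apply x
  have h6 : τ = σ * (σ⁻¹ * τ) := by group
  rw [h6, map_mul]
  change ρ σ (ρ (σ⁻¹ * τ) v) = ρ σ v
  rw [h4]

theorem inv_stable (σ : Gal(AlgebraicClosure K/K)) {v : V} (hv : v ∈ inv ρ M) :
    ρ σ v ∈ inv ρ M := by
  rw [mem_inv]
  intro τ hτ
  have h1 : ρ (σ⁻¹ * τ * σ) v = v := by
    refine (mem_inv ρ).1 hv _ fun x hx => ?_
    have h2 : σ x ∈ M := by
      have h3 := AlgEquiv.restrictNormal_commutes σ M ⟨x, hx⟩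
      rw [show σ x = algebraMap M (AlgebraicClosure K) (σ.restrictNormal M ⟨x, hx⟩) from h3.symm]
      exact (σ.restrictNormal M ⟨x, hx⟩).2
    change σ.symm (τ (σ x)) = x
    rw [hτ _ h2]
    exact σ.symm_apply_apply x
  have h2 : τ * σ = σ * (σ⁻¹ * τ * σ) := by group
  have h3 : ρ τ (ρ σ v) = ρ (τ * σ) v := by rw [map_mul]; rfl
  rw [h3, h2, map_mul]
  change ρ σ (ρ (σ⁻¹ * τ * σ) v) = ρ σ v
  rw [h1]

/-- the action of the Galois group of `M` on the elements fixed by the absolute Galois group of `M` -/
noncomputable def repM : Representation k Gal(M/K) (inv ρ M) where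
  toFun γ := (ρ (γ.liftNormal (AlgebraicClosure K))).restrict
    (fun _ hv => inv_stable ρ M _ hv)
  map_one' := by
    ext v
    change ρ ((1 : Gal(M/K)).liftNormal (AlgebraicClosure K)) v = v
    rw [lift_fix ρ M 1 1 (by
      ext x
      have h2 := AlgEquiv.restrictNormal_commutes (1 : Gal(AlgebraicClosure K/K)) M x
      exact h2) v.2, map_one]
    rfl
  map_mul' γ γ' := by
    ext v
    change ρ ((γ * γ').liftNormal (AlgebraicClosure K)) v =
      ρ (γ.liftNormal (AlgebraicClosure K)) (ρ (γ'.liftNormal (AlgebraicClosure K)) v)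
    rw [lift_fix ρ M (γ * γ') (γ.liftNormal (AlgebraicClosure K) *
      γ'.liftNormal (AlgebraicClosure K)) (by
        have h1 : (γ.liftNormal (AlgebraicClosure K) * γ'.liftNormal (AlgebraicClosure K) :
            Gal(AlgebraicClosure K/K)).restrictNormal M =
            (γ.liftNormal (AlgebraicClosure K)).restrictNormal M *
            (γ'.liftNormal (AlgebraicClosure K)).restrictNormal M :=
          map_mul (AlgEquiv.restrictNormalHom M) _ _
        rw [h1, AlgEquiv.restrict_liftNormal, AlgEquiv.restrict_liftNormal]) v.2, map_mul]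
    rfl

theorem repM_apply (σ : Gal(AlgebraicClosure K/K)) (v : inv ρ M) :
    ((repM ρ M (σ.restrictNormal M) v : inv ρ M) : V) = ρ σ v :=
  lift_fix ρ M _ σ rfl v.2

/-- the invariants of a subgroup -/
theorem inv_sub {F : IntermediateField K (AlgebraicClosure K)} (hF : F ≤ M) :
    invariants ((repM ρ M).comp
      ((IntermediateField.inclusion hF).fieldRange.fixingSubgroup).subtype) =
        (inv ρ F).comap (inv ρ M).subtype := by
  ext v
  rw [Submodule.mem_comap, mem_invariants, mem_inv]
  constructor
  · intro h σ hσ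
    have h1 := h ⟨σ.restrictNormal M, (IntermediateField.mem_fixingSubgroup_iff _ _).2 (by
      rintro _ ⟨x, rfl⟩
      apply Subtype.ext
      have h2 := AlgEquiv.restrictNormal_commutes σ M (IntermediateField.inclusion hF x)
      exact h2.trans (hσ x x.2))⟩
    have h2 := congrArg Subtype.val h1
    exact (repM_apply ρ M σ v).symm.trans h2
  · rintro h ⟨γ, hγ⟩
    apply Subtype.ext
    refine h (γ.liftNormal (AlgebraicClosure K)) fun x hx => ?_
    have h2 := AlgEquiv.liftNormal_commutes γ (AlgebraicClosure K)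
      (IntermediateField.inclusion hF ⟨x, hx⟩)
    have h3 := (IntermediateField.mem_fixingSubgroup_iff _ _).1 hγ
      (IntermediateField.inclusion hF ⟨x, hx⟩) ⟨⟨x, hx⟩, rfl⟩
    rw [h3] at h2
    exact h2

end

/-- **The relation for the dimensions.** -/
theorem inv_rel {k : Type} [Field k] [CharZero k] {V : Type} [AddCommGroup V] [Module k V]
    {K : Type} [Field K] [NumberField K] (ρ : Representation k Gal(AlgebraicClosure K/K) V)
    {ι : Type} [Fintype ι] [Nonempty ι] (F : ι → IntermediateField K (AlgebraicClosure K))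
    [∀ i, NumberField (F i)] {e : ι → ℤ} {m : ℕ}
    (h : IsRel K (fun i => (⟨F i⟩ : Ext K)) e m)
    (hfin : ∀ i, FiniteDimensional k (inv ρ (F i))) :
    FiniteDimensional k (invariants ρ) ∧
      m * (finrank k (invariants ρ) : ℤ) = ∑ i, e i * (finrank k (inv ρ (F i)) : ℤ) := by
  classical
  let M : IntermediateField K (AlgebraicClosure K) :=
    ⨆ i, IntermediateField.normalClosure K (F i) (AlgebraicClosure K)
  have hMfin : FiniteDimensional K M := IntermediateField.finiteDimensional_iSup_of_finite
  have hMn : Normal K M := IntermediateField.normal_iSup K (AlgebraicClosure K) _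
  have hMnf : NumberField M := NumberField.of_module_finite K M
  have hMg : IsGalois K M := ⟨⟩
  have hle : ∀ i, F i ≤ M := fun i => by
    refine le_trans ?_ (le_iSup (fun i =>
      IntermediateField.normalClosure K (F i) (AlgebraicClosure K)) i)
    exact IntermediateField.le_normalClosure (F i)
  let f : ∀ i, (⟨F i⟩ : Ext K).F →ₐ[K] M := fun i => IntermediateField.inclusion (hle i)
  have hrel := fx_of_isRel h f
  let H : ι → Subgroup Gal(M/K) := fun i => (f i).fieldRange.fixingSubgroup
  have hH : ∀ i, invariants ((repM ρ M).comp (H i).subtype) =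
      (inv ρ (F i)).comap (inv ρ M).subtype := fun i => inv_sub ρ M (hle i)
  have e1 : ∀ i, Nonempty (invariants ((repM ρ M).comp (H i).subtype) ≃ₗ[k] inv ρ (F i)) := by
    intro i
    rw [hH i]
    exact ⟨Submodule.comapSubtypeEquivOfLe (inv_mono ρ (hle i))⟩
  have e0 : Nonempty (invariants (repM ρ M) ≃ₗ[k] invariants ρ) := by
    have h1 : invariants (repM ρ M) = (invariants ρ).comap (inv ρ M).subtype := by
      rw [← inv_bot]
      ext v
      rw [Submodule.mem_comap, mem_invariants, mem_inv]
      constructor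
      · intro h2 σ _
        have h3 := congrArg Subtype.val (h2 (σ.restrictNormal M))
        exact (repM_apply ρ M σ v).symm.trans h3
      · intro h2 γ
        apply Subtype.ext
        refine h2 (γ.liftNormal (AlgebraicClosure K)) fun x hx => ?_
        obtain ⟨y, rfl⟩ := IntermediateField.mem_bot.1 hx
        exact AlgEquiv.commutes _ y
    rw [h1]
    refine ⟨Submodule.comapSubtypeEquivOfLe ?_⟩
    rw [← inv_bot]
    exact inv_mono ρ bot_le
  have h2 := rel_inv H e (m : ℤ) (repM ρ M) hrel (fun i => by
    obtain ⟨e1⟩ := e1 i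
    have := hfin i
    exact Module.Finite.equiv e1.symm)
  obtain ⟨e0⟩ := e0
  obtain ⟨h3, h4⟩ := h2
  refine ⟨Module.Finite.equiv e0, ?_⟩
  rw [← e0.finrank_eq, h4]
  refine Finset.sum_congr rfl fun i _ => ?_
  obtain ⟨e1⟩ := e1 i
  rw [e1.finrank_eq]

end Pool.Agent.N19.BR
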