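import Pool.Agent.N19.BR.Mot
import Pool.Agent.N19.BR.Inv
import Pool.Agent.N19.BR.BBDefs
import Pool.Agent.N19.BR.BSD

/-! Relations and rank formulas for projective varieties. -/

set_option autoImplicit false

namespace Pool.Agent.N19.BR

open NumberField IsDedekindDomain Polynomial
open Pool.Agent.R433.MD (Ext)
open Pool.Agent.N19.BR.MDef

theorem center {m : ℕ} (hm : 1 ≤ m) : (((2 * m - 1 : ℕ) : ℂ) + 1) / 2 = m := by
  rw [Nat.cast_sub (by omega)]
  push_cast
  ring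

/-- **The rank formula from a relation.** -/
theorem formula_of_rel {K : Type} [Field K] [NumberField K] {k V : Type} [Field k] [CharZero k]
    [AddCommGroup V] [Module k V] (ρ : Representation k Gal(AlgebraicClosure K/K) V)
    {ι : Type} [Fintype ι] (F : ι → IntermediateField K (AlgebraicClosure K))
    [∀ i, NumberField (F i)] {e : ι → ℤ} {c : ℕ} (hc : c ≠ 0)
    (h : IsRel K (fun i => (⟨F i⟩ : Ext K)) e c) {n d m N : ℕ}
    {X : Set (MvPolynomial (Fin n) (𝓞 K))} (hm : 1 ≤ m) (hmd : m ≤ d) {U : Set ℂ}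
    (hU : Domain (2 * m - 1) U) {δ : ι → ℤ} (hF : ∀ i, RankFormula ρ X d m N U (δ i) (F i)) :
    RankFormulaPow ρ X d m N U c (∑ i, e i * δ i) := by
  classical
  have hne : Nonempty ι := nonempty_of_rel hc h
  have hfin : ∀ i, FiniteDimensional k (inv ρ (F i)) := fun i => (hF i).1
  obtain ⟨h1, h2⟩ := inv_rel ρ F h hfin
  refine ⟨h1, fun B₀ hB₀ => ?_⟩
  have h3 : ∀ i, ∃ (B : HeightOneSpectrum (𝓞 (F i)) → ℂ[X]) (Λ : ℂ → ℂ),
      EulerFactors X d (2 * m - 1) N B ∧ Continues U B 1 Λ ∧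
      meromorphicOrderAt Λ (m : ℂ) =
        ((Module.finrank k (fixedBy ρ (F i)) + δ i : ℤ) : WithTop ℤ) := by
    intro i
    obtain ⟨-, _, B, Λ, hB, hΛ, ho⟩ := hF i
    exact ⟨B, Λ, hB, hΛ, ho⟩
  choose B Λ hB hΛ ho using h3
  have h4 := order_mot h (by omega) B hB hU hΛ
    (r := fun i => (Module.finrank k (fixedBy ρ (F i)) + δ i : ℤ)) (fun i => by
      rw [center hm]
      exact ho i) hB₀
  rw [center hm] at h4
  obtain ⟨⟨Λ₀, h5, h6⟩, h7⟩ := h4
  have h8 : ∑ i, e i * ((Module.finrank k (fixedBy ρ (F i)) : ℤ) + δ i) =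
      c * (Module.finrank k (Representation.invariants ρ) : ℤ) + ∑ i, e i * δ i := by
    rw [h2, ← Finset.sum_add_distrib]
    exact Finset.sum_congr rfl fun i _ => mul_add _ _ _
  constructor
  · refine ⟨Λ₀, h5, ?_⟩
    rw [h6]
    congr 1
  · intro Λ₁ hΛ₁
    obtain ⟨r₀, h9, h10⟩ := h7 Λ₁ hΛ₁
    refine ⟨r₀ - Module.finrank k (Representation.invariants ρ), ?_, ?_⟩
    · rw [mul_sub, h10, h8]
      ring
    · rw [h9]
      congr 1
      ring

end Pool.Agent.N19.BR
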