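import Pool.Agent.N19.BR.QDefs

/-!
# Central values of the L-functions of elliptic curves over number fields and periods: definitions
-/

set_option autoImplicit false

namespace Pool.Agent.N19.BR.QDef

open NumberField
open Pool.Agent.N19.BR.Def (Continues)
open scoped Classical

section
variable {K : Type} [Field K] (E : WeierstrassCurve K)

/-- `Ω(E / F) = |Δ_F|^{1/2} ∏ P_σ` up to a nonzero rational number, for the invariant differential
`dx / (2 y + a₁ x + a₃)`: the product of the square root of the absolute value of the discriminant of `F` and of the
periods at the real and the complex places of `F`. -/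
noncomputable def Omega (F : Type) [Field F] [NumberField F] [Algebra K F] : ℝ :=
  √|(discr F : ℝ)| * period (E.map (algebraMap K F))

/-- `L(E / F, s)` has a meromorphic continuation to `U`, its order at `s = 1` is `r`, and its leading coefficient
at `s = 1` is `κ Ω(E / F)`.  For `r = 0` the leading coefficient is the value `L(E / F, 1)`, and conjecturally
`κ` is a rational number. -/
def CentralFormula (U : Set ℂ) (F : Type) [Field F] [NumberField F] [Algebra K F] (r : ℤ) (κ : ℂ) :
    Prop :=
  ∃ Λ : ℂ → ℂ, Continues U 1 (E.map (algebraMap K F)) Λ ∧
    meromorphicOrderAt Λ 1 = (r : WithTop ℤ) ∧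
    meromorphicTrailingCoeffAt Λ 1 = κ * (Omega E F : ℂ)

end

end Pool.Agent.N19.BR.QDef
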