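import Pool.Agent.N19.BR.QDefs
import Pool.Agent.N19.BR.Arch

/-! The relation for the periods. -/

set_option autoImplicit false

namespace Pool.Agent.N19.BR

open NumberField
open Pool.Agent.R433.MD
open Pool.Agent.N19.BR.QDef
open scoped Classical ComplexConjugate

section
variable {K : Type} [Field K] [NumberField K]

/-- the embeddings of `F` over `φ` that are real -/
noncomputable def nre (F : Type) [Field F] [Algebra K F] (φ : K →+* ℂ) : ℕ :=
  Nat.card {τ : F →+* ℂ // τ.comp (algebraMap K F) = φ ∧ ComplexEmbedding.IsReal τ}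

/-- the embeddings of `F` over `φ` that are not real -/
noncomputable def nco (F : Type) [Field F] [Algebra K F] (φ : K →+* ℂ) : ℕ :=
  Nat.card {τ : F →+* ℂ // τ.comp (algebraMap K F) = φ ∧ ¬ ComplexEmbedding.IsReal τ}

omit [NumberField K] in
theorem isReal_comp {F : Type} [Field F] [Algebra K F] {τ : F →+* ℂ}
    (h : ComplexEmbedding.IsReal τ) : ComplexEmbedding.IsReal (τ.comp (algebraMap K F)) := by
  rw [ComplexEmbedding.isReal_iff] at h ⊢
  ext x
  exact RingHom.congr_fun h (algebraMap K F x)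

omit [NumberField K] in
theorem nre_zero (F : Type) [Field F] [Algebra K F] {φ : K →+* ℂ}
    (h : ¬ ComplexEmbedding.IsReal φ) : nre F φ = 0 := by
  unfold nre
  rw [Nat.card_eq_zero]
  left
  exact ⟨fun τ => h (τ.2.1 ▸ isReal_comp τ.2.2)⟩

theorem period_eq {F : Type} [Field F] [NumberField F] [Algebra K F] (E : WeierstrassCurve K) :
    period (E.map (algebraMap K F)) =
      ∏ φ : K →+* ℂ, realPeriod (E.map φ) ^ nre F φ * √(complexPeriod (E.map φ)) ^ nco F φ := by
  unfold period
  rw [← Finset.prod_fiberwise (Finset.univ : Finset (F →+* ℂ))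
    (fun τ => τ.comp (algebraMap K F))]
  refine Finset.prod_congr rfl fun φ _ => ?_
  have h1 : ∀ τ ∈ Finset.univ.filter (fun τ : F →+* ℂ => τ.comp (algebraMap K F) = φ),
      periodAt (E.map (algebraMap K F)) τ =
        if ComplexEmbedding.IsReal τ then realPeriod (E.map φ) else √(complexPeriod (E.map φ)) := by
    intro τ hτ
    rw [Finset.mem_filter] at hτ
    unfold periodAt
    rw [WeierstrassCurve.map_map, hτ.2]
  rw [Finset.prod_congr rfl h1, Finset.prod_ite, Finset.prod_const, Finset.prod_const]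
  congr 2
  · rw [nre, Nat.card_eq_fintype_card, Fintype.card_subtype, Finset.filter_filter]
  · rw [nco, Nat.card_eq_fintype_card, Fintype.card_subtype, Finset.filter_filter]

variable {ι : Type} [Fintype ι] {Z : ι → Ext K} {e : ι → ℤ} {m : ℕ}

theorem nre_rel (h : IsRel K Z e m) {φ : K →+* ℂ} (hφ : ComplexEmbedding.IsReal φ) :
    ∑ i, e i * (nre (Z i).F φ : ℤ) = m := by
  let _ : Algebra K ℂ := φ.toAlgebra
  have hal : ∀ x : K, algebraMap K ℂ x = φ x := fun x => rfl
  let c : ℂ ≃ₐ[K] ℂ := AlgEquiv.ofRingEquiv (f := (starRingAut : RingAut ℂ)) (fun x => by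
    rw [hal]
    exact RingHom.congr_fun (ComplexEmbedding.isReal_iff.1 hφ) x)
  have hc : ∀ z : ℂ, c z = conj z := fun z => rfl
  rw [← h ℂ c]
  refine Finset.sum_congr rfl fun i _ => ?_
  congr 2
  refine Nat.card_congr
    { toFun := fun τ => ⟨{ τ.1 with commutes' := fun x => RingHom.congr_fun τ.2.1 x }, fun x =>
        RingHom.congr_fun (ComplexEmbedding.isReal_iff.1 τ.2.2) x⟩
      invFun := fun τ => ⟨(τ.1 : (Z i).F →+* ℂ), RingHom.ext fun x => τ.1.commutes x, by
        rw [ComplexEmbedding.isReal_iff]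
        exact RingHom.ext fun x => τ.2 x⟩
      left_inv := fun τ => Subtype.ext (RingHom.ext fun x => rfl)
      right_inv := fun τ => Subtype.ext (AlgHom.ext fun x => rfl) }

theorem nto_rel (h : IsRel K Z e m) (φ : K →+* ℂ) :
    ∑ i, e i * ((nre (Z i).F φ : ℤ) + nco (Z i).F φ) = m := by
  let _ : Algebra K ℂ := φ.toAlgebra
  rw [← h ℂ 1]
  refine Finset.sum_congr rfl fun i _ => ?_
  congr 1
  have h1 : nre (Z i).F φ + nco (Z i).F φ =
      Nat.card {τ : (Z i).F →+* ℂ // τ.comp (algebraMap K (Z i).F) = φ} := by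
    rw [nre, nco, Nat.card_eq_fintype_card, Nat.card_eq_fintype_card, Nat.card_eq_fintype_card,
      Fintype.card_subtype, Fintype.card_subtype, Fintype.card_subtype, ← Finset.filter_filter,
      ← Finset.filter_filter, Finset.card_filter_add_card_filter_not]
  have h2 : Nat.card {τ : (Z i).F →+* ℂ // τ.comp (algebraMap K (Z i).F) = φ} =
      cnt (Z i).F (1 : ℂ ≃ₐ[K] ℂ) := by
    refine Nat.card_congr
      { toFun := fun τ => ⟨{ τ.1 with commutes' := fun x => RingHom.congr_fun τ.2 x }, fun x => rfl⟩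
        invFun := fun τ => ⟨(τ.1 : (Z i).F →+* ℂ), RingHom.ext fun x => τ.1.commutes x⟩
        left_inv := fun τ => Subtype.ext (RingHom.ext fun x => rfl)
        right_inv := fun τ => Subtype.ext (AlgHom.ext fun x => rfl) }
  rw [← h2, ← h1]
  push_cast
  rfl

/-- zero or a trivial exponent -/
theorem prod_zpow_pow {x : ℝ} (n : ι → ℕ) (h : x ≠ 0 ∨ ∀ i, n i = 0) :
    ∏ i, (x ^ n i) ^ e i = x ^ (∑ i, e i * (n i : ℤ)) := by
  rcases h with hx | hn
  · have h1 : ∀ i, (x ^ n i) ^ e i = x ^ (e i * (n i : ℤ)) := by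
      intro i
      rw [← zpow_natCast, ← zpow_mul, mul_comm]
    rw [Finset.prod_congr rfl fun i _ => h1 i]
    induction (Finset.univ : Finset ι) using Finset.induction_on with
    | empty => simp
    | insert i s his ih =>
      rw [Finset.prod_insert his, Finset.sum_insert his, zpow_add₀ hx, ih]
  · simp [hn]

/-- **The relation for the periods.** -/
theorem period_rel (h : IsRel K Z e m) (hm : m ≠ 0) (E : WeierstrassCurve K)
    (hne : ∀ i, period (E.map (algebraMap K (Z i).F)) ≠ 0) :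
    period (E.map (algebraMap K K)) ≠ 0 ∧
      ∏ i, period (E.map (algebraMap K (Z i).F)) ^ e i = period (E.map (algebraMap K K)) ^ m := by
  -- the numbers of the embeddings of `K` itself
  have hK : ∀ φ : K →+* ℂ, (ComplexEmbedding.IsReal φ → nre K φ = 1 ∧ nco K φ = 0) ∧
      (¬ ComplexEmbedding.IsReal φ → nre K φ = 0 ∧ nco K φ = 1) := by
    intro φ
    constructor
    · intro hφ
      constructor
      · rw [nre, Nat.card_eq_one_iff_unique]
        exact ⟨⟨fun a b => Subtype.ext (a.2.1.trans b.2.1.symm)⟩, ⟨⟨φ, rfl, hφ⟩⟩⟩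
      · rw [nco, Nat.card_eq_zero]
        left
        exact ⟨fun τ => τ.2.2 (by
          have h1 : τ.1 = φ := τ.2.1
          rw [h1]
          exact hφ)⟩
    · intro hφ
      refine ⟨nre_zero K hφ, ?_⟩
      rw [nco, Nat.card_eq_one_iff_unique]
      exact ⟨⟨fun a b => Subtype.ext (a.2.1.trans b.2.1.symm)⟩, ⟨⟨φ, rfl, hφ⟩⟩⟩
  have hne' : ∀ i (φ : K →+* ℂ), realPeriod (E.map φ) ^ nre (Z i).F φ *
      √(complexPeriod (E.map φ)) ^ nco (Z i).F φ ≠ 0 := by
    intro i φ h0
    apply hne i
    rw [period_eq]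
    exact Finset.prod_eq_zero (Finset.mem_univ φ) h0
  have hR : ∀ φ : K →+* ℂ, realPeriod (E.map φ) ≠ 0 ∨ ∀ i, nre (Z i).F φ = 0 := by
    intro φ
    by_contra hcon
    push Not at hcon
    obtain ⟨h1, i, h2⟩ := hcon
    exact hne' i φ (by rw [h1, zero_pow h2, zero_mul])
  have hC : ∀ φ : K →+* ℂ, √(complexPeriod (E.map φ)) ≠ 0 ∨ ∀ i, nco (Z i).F φ = 0 := by
    intro φ
    by_contra hcon
    push Not at hcon
    obtain ⟨h1, i, h2⟩ := hcon
    exact hne' i φ (by rw [h1, zero_pow h2, mul_zero])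
  have hmZ : (m : ℤ) ≠ 0 := by exact_mod_cast hm
  have key : ∀ φ : K →+* ℂ, realPeriod (E.map φ) ^ nre K φ *
      √(complexPeriod (E.map φ)) ^ nco K φ ≠ 0 ∧
      ∏ i, (realPeriod (E.map φ) ^ nre (Z i).F φ *
        √(complexPeriod (E.map φ)) ^ nco (Z i).F φ) ^ e i =
      (realPeriod (E.map φ) ^ nre K φ * √(complexPeriod (E.map φ)) ^ nco K φ) ^ m := by
    intro φ
    have h1 : ∏ i, (realPeriod (E.map φ) ^ nre (Z i).F φ *
        √(complexPeriod (E.map φ)) ^ nco (Z i).F φ) ^ e i =
        realPeriod (E.map φ) ^ (∑ i, e i * (nre (Z i).F φ : ℤ)) *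
          √(complexPeriod (E.map φ)) ^ (∑ i, e i * (nco (Z i).F φ : ℤ)) := by
      rw [← prod_zpow_pow _ (hR φ), ← prod_zpow_pow _ (hC φ), ← Finset.prod_mul_distrib]
      exact Finset.prod_congr rfl fun i _ => mul_zpow _ _ _
    have h2 := nto_rel h φ
    simp only [mul_add, Finset.sum_add_distrib] at h2
    by_cases hφ : ComplexEmbedding.IsReal φ
    · have h3 := nre_rel h hφ
      have h4 : ∑ i, e i * (nco (Z i).F φ : ℤ) = 0 := by linarith
      have h5 : realPeriod (E.map φ) ≠ 0 := by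
        rcases hR φ with h6 | h6
        · exact h6
        · exfalso
          apply hmZ
          rw [← h3]
          exact Finset.sum_eq_zero fun i _ => by rw [h6 i]; simp
      rw [h1, h3, h4, ((hK φ).1 hφ).1, ((hK φ).1 hφ).2, zpow_natCast, zpow_zero, pow_one, pow_zero,
        mul_one]
      exact ⟨h5, by rw [mul_one]⟩
    · have h3 : ∑ i, e i * (nre (Z i).F φ : ℤ) = 0 :=
        Finset.sum_eq_zero fun i _ => by rw [nre_zero _ hφ]; simp
      have h4 : ∑ i, e i * (nco (Z i).F φ : ℤ) = m := by linarith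
      have h5 : √(complexPeriod (E.map φ)) ≠ 0 := by
        rcases hC φ with h6 | h6
        · exact h6
        · exfalso
          apply hmZ
          rw [← h4]
          exact Finset.sum_eq_zero fun i _ => by rw [h6 i]; simp
      rw [h1, h3, h4, ((hK φ).2 hφ).1, ((hK φ).2 hφ).2, zpow_natCast, zpow_zero, pow_one, pow_zero,
        one_mul]
      exact ⟨h5, by rw [one_mul]⟩
  constructor
  · rw [period_eq]
    exact Finset.prod_ne_zero_iff.2 fun φ _ => (key φ).1
  · rw [period_eq (F := K), ← Finset.prod_pow, Finset.prod_congr rfl fun i _ =>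
      congrArg (· ^ e i) (period_eq (F := (Z i).F) E)]
    have h1 : ∀ i, (∏ φ : K →+* ℂ, realPeriod (E.map φ) ^ nre (Z i).F φ *
        √(complexPeriod (E.map φ)) ^ nco (Z i).F φ) ^ e i =
        ∏ φ : K →+* ℂ, (realPeriod (E.map φ) ^ nre (Z i).F φ *
        √(complexPeriod (E.map φ)) ^ nco (Z i).F φ) ^ e i := fun i =>
      (Finset.prod_zpow _ _ _).symm
    rw [Finset.prod_congr rfl fun i _ => h1 i, Finset.prod_comm]
    exact Finset.prod_congr rfl fun φ _ => (key φ).2

end

end Pool.Agent.N19.BR
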