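import Pool.Agent.N19.BR.QuotL
import Pool.Agent.N19.BR.Per
import Pool.Agent.N19.BR.CDefs

/-! Central values of the L-functions of elliptic curves modulo rational numbers, and relations. -/

set_option autoImplicit false

namespace Pool.Agent.N19.BR

open NumberField IsDedekindDomain Filter Topology Module
open Pool.Agent.R433.MD
open Pool.Agent.H341R2.EC (IsModel IsMinAt)
open Pool.Agent.N19.BR.Def Pool.Agent.N19.BR.QDef
open scoped Classical

section
variable {K : Type} [Field K] [NumberField K] {E : WeierstrassCurve K}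

/-- **Central values modulo rational numbers.** -/
theorem central_rel (hE : E.IsElliptic) {U : Set ℂ} (hU : IsPreconnected U)
    (hH : ∀ s : ℂ, 3 / 2 < s.re → s ∈ U) (h1U : (1 : ℂ) ∈ U) {ι : Type} [Fintype ι]
    {Z : ι → Ext K} {e : ι → ℤ} (h : IsRel K Z e 1) {r : ι → ℤ} {κ : ι → ℂ}
    (hκ : ∀ i, CentralFormula E U (Z i).F (r i) (κ i)) :
    ∃ q : ℚ, q ≠ 0 ∧ CentralFormula E U K (∑ i, e i * r i) (q * ∏ i, κ i ^ e i) := by
  have hne : Nonempty ι := nonempty_of_rel one_ne_zero h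
  choose Λ hΛ hord hlead using hκ
  obtain ⟨V0, hV0⟩ := exists_minimal E hE
  have hVZ : ∀ i, ∃ V : HeightOneSpectrum (𝓞 (Z i).F) → WeierstrassCurve (𝓞 (Z i).F),
      ∀ w, IsMinAt (E.map (algebraMap K (Z i).F)) w (V w) := fun i =>
    exists_minimal _ inferInstance
  choose VZ hVZ using hVZ
  have hΛ' : ∀ i, MeromorphicOn (Λ i) U ∧ ∀ s : ℂ, 3 / 2 < s.re → Λ i s = LL (VZ i) s := by
    intro i
    have h2 := (continues_iff (U := U) (M := 1) (Λ := Λ i) inferInstance (hVZ i)).1 (hΛ i)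
    exact ⟨h2.1, fun s hs => by rw [h2.2 s hs, pow_one]⟩
  obtain ⟨R, q1, hq1, hR1, hRm, hRa, hRL⟩ := L_rel_rat hE hV0 hVZ h
  have hq1' : (q1 : ℂ) ≠ 0 := by exact_mod_cast hq1
  have hR0 : AnalyticAt ℂ R 1 ∧ R 1 ≠ 0 := ⟨hRa, by rw [hR1]; exact hq1'⟩
  have hrel' : ∀ s : ℂ, 3 / 2 < s.re → LL V0 s ^ 1 = R s * ∏ i, Λ i s ^ e i := by
    intro s hs
    rw [(hRL s hs).2]
    congr 1
    refine Finset.prod_congr rfl fun i _ => ?_
    rw [(hΛ' i).2 s hs]
  obtain ⟨⟨Λ0, h2, h3, h4⟩, -⟩ := lead_rel_abs hU hH h1U hRm hR0 hrel' (fun i => (hΛ' i).1)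
  obtain ⟨-, h5⟩ := order_rel_abs hU hH h1U hRm hR0 (fun s hs => (hRL s hs).1) hrel'
    (fun i => (hΛ' i).1) (r := r) hord
  obtain ⟨r0, h6, h7⟩ := h5 Λ0 h2 (fun s hs => by rw [h3 s hs, pow_one])
  -- nonvanishing
  have hl : ∀ i, meromorphicTrailingCoeffAt (Λ i) 1 ≠ 0 := fun i =>
    ((hΛ' i).1 1 h1U).meromorphicTrailingCoeffAt_ne_zero (by
      rw [hord i]
      exact WithTop.coe_ne_top)
  have hΩ : ∀ i, Omega E (Z i).F ≠ 0 := by
    intro i h0
    have h8 := hlead i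
    rw [h0, Complex.ofReal_zero, mul_zero] at h8
    exact hl i h8
  have hper : ∀ i, period (E.map (algebraMap K (Z i).F)) ≠ 0 := fun i =>
    right_ne_zero_of_mul (hΩ i)
  obtain ⟨-, hper0⟩ := period_rel h one_ne_zero E hper
  have hdisc := sqrt_disc h
  rw [pow_one] at hper0 hdisc
  have hmap : E.map (algebraMap K K) = E := E.map_id
  have hr0 : r0 = ∑ i, e i * r i := by
    have h8 : ((1 : ℕ) : ℤ) * r0 = ∑ i, e i * r i := h7
    simpa using h8
  have hΩ0 : ∏ i, Omega E (Z i).F ^ e i = Omega E K := by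
    unfold Omega
    simp only [mul_zpow, Finset.prod_mul_distrib]
    rw [hdisc, hper0]
  refine ⟨q1, hq1, Λ0, ?_, ?_, ?_⟩
  · rw [hmap, continues_iff hE hV0]
    exact ⟨h2, h3⟩
  · rw [h6, hr0]
  · rw [h4, hR1, Finset.prod_congr rfl fun i _ => congrArg (· ^ e i) (hlead i)]
    simp only [mul_zpow, Finset.prod_mul_distrib]
    rw [← hΩ0]
    push_cast
    ring

end

end Pool.Agent.N19.BR
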