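import Pool.Agent.N19.BR.Poly
import Pool.Agent.N19.BR.Real

/-! Relations with fields with at most two real places, large local degrees, and a cyclic action. -/

set_option autoImplicit false

namespace Pool.Agent.N19.BR

open Pool.Agent.R433.MD
open NumberField IsDedekindDomain Polynomial

section tower
variable {K M L : Type} [Field K] [NumberField K] [Field M] [NumberField M] [Field L]
  [NumberField L] [Algebra K M] [Algebra M L] [Algebra K L] [IsScalarTower K M L]

/-- the primes above `S` -/
def above (S : Set (HeightOneSpectrum (𝓞 K))) (M : Type) [Field M] [NumberField M] [Algebra K M] :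
    Set (HeightOneSpectrum (𝓞 M)) :=
  {w | ∃ v ∈ S, w.asIdeal.LiesOver v.asIdeal}

omit [NumberField M] in
theorem above_finite [NumberField M] {S : Set (HeightOneSpectrum (𝓞 K))} (hS : S.Finite) :
    (above S M).Finite := by
  have h1 : above S M = ⋃ v ∈ S, {w : HeightOneSpectrum (𝓞 M) | w.asIdeal.LiesOver v.asIdeal} := by
    ext w
    simp [above]
  rw [h1]
  refine hS.biUnion fun v _ => ?_
  have : v.asIdeal.IsMaximal := v.isMaximal
  have h2 : (v.asIdeal.primesOver (𝓞 M)).Finite :=
    IsDedekindDomain.primesOver_finite v.asIdeal (𝓞 M)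
  refine Set.Finite.of_finite_image (f := fun w : HeightOneSpectrum (𝓞 M) => w.asIdeal)
    (h2.subset ?_) fun w _ w' _ h => HeightOneSpectrum.ext h
  rintro _ ⟨w, hw, rfl⟩
  exact ⟨w.isPrime, hw⟩

theorem loc_tower {S : Set (HeightOneSpectrum (𝓞 K))} {a b : ℕ} (h1 : LocDvd K S a M)
    (h2 : LocDvd M (above S M) b L) : LocDvd K S (a * b) L := by
  intro v hv W hW hWv
  let w : Ideal (𝓞 M) := W.under (𝓞 M)
  have hWw : W.LiesOver w := ⟨rfl⟩
  have hw : w.IsPrime := inferInstance
  have hwv : w.LiesOver v.asIdeal := by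
    constructor
    rw [hWv.over]
    exact (Ideal.under_under W).symm
  have hwbot : w ≠ ⊥ := by
    intro h
    apply v.ne_bot
    rw [hwv.over, h, Ideal.under_bot]
  have h3 := h1 v hv w hw hwv
  have h4 := h2 ⟨w, hw, hwbot⟩ ⟨v, hv, hwv⟩ W hW hWw
  rw [ram_tower (K := K) hWw, inert_tower (K := K) hWw]
  have h5 : w.ramificationIdx (𝓞 K) * W.ramificationIdx (𝓞 M) *
      (w.inertiaDeg (𝓞 K) * W.inertiaDeg (𝓞 M)) =
      (w.ramificationIdx (𝓞 K) * w.inertiaDeg (𝓞 K)) *
      (W.ramificationIdx (𝓞 M) * W.inertiaDeg (𝓞 M)) := by ring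
  rw [h5]
  exact mul_dvd_mul h3 h4

end tower

section
variable {K : Type} [Field K] [NumberField K]

theorem loc_restrict {S : Set (HeightOneSpectrum (𝓞 K))} {a b : ℕ} (Z : Ext K) (Y : Ext Z.F)
    (h1 : LocDvd K S a Z.F) (h2 : LocDvd Z.F (above S Z.F) b Y.F) :
    LocDvd K S (a * b) (Z.restrict Y).F := by
  let _ : Algebra K Y.F := ((algebraMap Z.F Y.F).comp (algebraMap K Z.F)).toAlgebra
  have _ : IsScalarTower K Z.F Y.F := IsScalarTower.of_algebraMap_eq' rfl
  exact loc_tower (K := K) (M := Z.F) (L := Y.F) h1 h2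

theorem loc_one (S : Set (HeightOneSpectrum (𝓞 K))) (F : Type) [Field F] [NumberField F]
    [Algebra K F] : LocDvd K S 1 F := fun _ _ _ _ _ => one_dvd _

theorem good_prime {p : ℕ} (hp : p = 0 ∨ p.Prime) {S : Set (HeightOneSpectrum (𝓞 K))}
    (hS : S.Finite) {ℓ : ℕ} (hℓ : ℓ.Prime) (hne : ℓ ≠ p) :
    Good p K (fun Z => LocDvd K S ℓ Z.F) := by
  obtain ⟨L, _, _, _, _, hL⟩ := exists_split hS.toFinset hℓ
  refine (artin hp K L).mono ?_
  rintro Z ⟨F, hF, rfl⟩
  have h1 := hL p F hne hF
  rw [Set.Finite.coe_toFinset] at h1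
  exact h1

end

/-- relations with large local degrees -/
theorem good_loc {p : ℕ} (hp : p = 0 ∨ p.Prime) (n : ℕ) : n ≠ 0 → (p.Prime → n.Coprime p) →
    ∀ (K : Type) [Field K] [NumberField K] (S : Set (HeightOneSpectrum (𝓞 K))), S.Finite →
      Good p K (fun Z => LocDvd K S n Z.F) := by
  induction n using Nat.strong_induction_on with
  | _ n ih =>
    intro hn hcop K _ _ S hS
    rcases Nat.eq_or_lt_of_le (Nat.succ_le_of_lt (Nat.pos_of_ne_zero hn)) with h1 | h1
    · subst h1
      exact Good.self hp (loc_one S _)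
    · obtain ⟨q, hq, m, rfl⟩ := Nat.exists_prime_and_dvd (n := n) (by omega)
      have hm : m ≠ 0 := fun h => by simp [h] at hn
      have hlt : m < q * m := by
        have := hq.two_le
        have := Nat.pos_of_ne_zero hm
        nlinarith
      have hqp : q ≠ p := by
        intro h
        subst h
        have h2 := Nat.Coprime.coprime_mul_right (hcop hq)
        exact hq.ne_one ((Nat.coprime_self q).1 h2)
      refine (good_prime hp hS hq hqp).comp hp (fun Z Y => LocDvd Z.F (above S Z.F) m Y.F) ?_ ?_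
      · intro Z _
        exact ih m hlt hm (fun h => Nat.Coprime.coprime_mul_left (hcop h)) Z.F _ (above_finite hS)
      · intro Z Y h2 h3
        exact loc_restrict Z Y h2 h3

section cyc
variable {K : Type} [Field K] [NumberField K]

/-- base change of a cyclic extension -/
theorem cyc_up {p : ℕ} (F : Type) [Field F] [NumberField F] (M : Ext F) (hM : IsGalois F M.F)
    (hc : Cl p (⊤ : Subgroup Gal(M.F/F))) (Y : Ext F) :
    ∃ N : Ext Y.F, IsGalois Y.F N.F ∧ Cl p (⊤ : Subgroup Gal(N.F/Y.F)) ∧
      ∃ j : M.F →+* N.F, ∀ x : F, j (algebraMap F M.F x) =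
        algebraMap Y.F N.F (algebraMap F Y.F x) := by
  obtain ⟨r, hr, hrs⟩ := IsGalois.is_separable_splitting_field F M.F
  let q : Y.F[X] := r.map (algebraMap F Y.F)
  let N := q.SplittingField
  have hfinN : FiniteDimensional Y.F N := inferInstance
  have hch : CharZero N := charZero_of_injective_algebraMap (algebraMap Y.F N).injective
  have hnf : NumberField N := NumberField.of_module_finite Y.F N
  have hn : Normal Y.F N := inferInstance
  have hgal : IsGalois Y.F N := ⟨⟩
  have _ : IsScalarTower F Y.F N := inferInstance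
  have hsp : (r.map (algebraMap F N)).Splits := by
    have h1 : (q.map (algebraMap Y.F N)).Splits := SplittingField.splits q
    rw [Polynomial.map_map, ← IsScalarTower.algebraMap_eq] at h1
    exact h1
  let j : M.F →ₐ[F] N := IsSplittingField.lift M.F r hsp
  refine ⟨⟨N⟩, hgal, ?_, j.toRingHom, fun x => (j.commutes x).trans
    (IsScalarTower.algebraMap_apply F Y.F N x)⟩
  let _ : Algebra M.F N := j.toRingHom.toAlgebra
  have _ : IsScalarTower F M.F N := IsScalarTower.of_algebraMap_eq fun x => (j.commutes x).symm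
  let f : Gal(N/Y.F) →* Gal(M.F/F) :=
    { toFun := fun σ => (σ.restrictScalars F).restrictNormal M.F
      map_one' := by
        ext x
        apply (algebraMap M.F N).injective
        rw [AlgEquiv.restrictNormal_commutes]
        rfl
      map_mul' := fun σ τ => by
        ext x
        apply (algebraMap M.F N).injective
        rw [AlgEquiv.mul_apply, AlgEquiv.restrictNormal_commutes,
          AlgEquiv.restrictNormal_commutes, AlgEquiv.restrictNormal_commutes]
        rfl }
  refine hc.of_injective f ?_ fun x _ => trivial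
  rw [injective_iff_map_eq_one]
  intro σ hσ
  have hfix : ∀ x : M.F, σ (j x) = j x := by
    intro x
    have h1 := AlgEquiv.restrictNormal_commutes (σ.restrictScalars F) M.F x
    have h2 : (σ.restrictScalars F).restrictNormal M.F = 1 := hσ
    rw [h2] at h1
    exact h1.symm
  have hroots : ∀ y ∈ q.rootSet N, σ y = y := by
    intro y hy
    have h1 : y ∈ (r.map (algebraMap F N)).roots := by
      have h2 := (mem_rootSet.1 hy)
      rw [mem_roots', IsRoot.def, eval_map_algebraMap]
      refine ⟨(Polynomial.map_ne_zero_iff (algebraMap F N).injective).2 hr.ne_zero, ?_⟩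
      have h3 := h2.2
      rw [aeval_map_algebraMap] at h3
      exact h3
    have h4 : (r.map (algebraMap F M.F)).Splits := hrs.splits
    have h5 : r.map (algebraMap F N) = (r.map (algebraMap F M.F)).map (algebraMap M.F N) := by
      rw [Polynomial.map_map, ← IsScalarTower.algebraMap_eq]
    rw [h5, Splits.roots_map h4] at h1
    obtain ⟨x, -, hx⟩ := Multiset.mem_map.1 h1
    rw [← hx]
    exact hfix x
  have hadj : Algebra.adjoin Y.F (q.rootSet N) = ⊤ := SplittingField.adjoin_rootSet q
  ext y
  have hy : y ∈ Algebra.adjoin Y.F (q.rootSet N) := by rw [hadj]; trivial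
  induction hy using Algebra.adjoin_induction with
  | mem z hz => exact hroots z hz
  | algebraMap r => exact σ.commutes r
  | add a b _ _ ha hb => rw [map_add, map_add, ha, hb]
  | mul a b _ _ ha hb => rw [map_mul, map_mul, ha, hb]

theorem cyc_restrict {p : ℕ} {L : Type} [Field L] [Algebra K L] (Z : Ext K) (Y : Ext Z.F)
    (h : Cyc p L Z) : Cyc p L (Z.restrict Y) := by
  obtain ⟨M, hM, hc, ⟨g⟩⟩ := h
  obtain ⟨N, hN, hNc, j, hj⟩ := cyc_up Z.F M hM hc Y
  refine ⟨N, hN, hNc, ⟨?_⟩⟩
  let g' : L →+* N.F := j.comp g.toRingHom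
  refine { g' with commutes' := fun x => ?_ }
  change j (g (algebraMap K L x)) = _
  rw [g.commutes]
  exact hj (algebraMap K Z.F x)

theorem good_cyc {p : ℕ} (hp : p = 0 ∨ p.Prime) (L : Type) [Field L] [NumberField L]
    [Algebra K L] [IsGalois K L] : Good p K (Cyc p L) := by
  refine (artin hp K L).mono ?_
  rintro Z ⟨F, hF, rfl⟩
  refine ⟨⟨L⟩, inferInstance, cl_gal hF, ⟨?_⟩⟩
  exact { RingHom.id L with commutes' := fun x => rfl }

end cyc

/-- **The main relations.** -/
theorem core {p : ℕ} (hp : p = 0 ∨ p.Prime) (K : Type) [Field K] [NumberField K] (L : Type)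
    [Field L] [NumberField L] [Algebra K L] [IsGalois K L] {S : Set (HeightOneSpectrum (𝓞 K))}
    (hS : S.Finite) {n : ℕ} (hn : n ≠ 0) (hnp : p.Prime → n.Coprime p) :
    Good p K (fun Z => Cyc p L Z ∧ LocDvd K S n Z.F ∧ (p ≠ 2 → Nat.card (Z.F →+* ℝ) ≤ 2)) := by
  have h1 : Good p K (fun Z => Cyc p L Z ∧ LocDvd K S n Z.F) := by
    refine (good_cyc hp L).comp hp (fun Z Y => LocDvd Z.F (above S Z.F) n Y.F)
      (fun Z _ => good_loc hp n hn hnp Z.F _ (above_finite hS)) ?_
    intro Z Y h2 h3
    have h4 := loc_restrict Z Y (loc_one S Z.F) h3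
    rw [one_mul] at h4
    exact ⟨cyc_restrict Z Y h2, h4⟩
  by_cases hp2 : p = 2
  · exact h1.mono fun Z h => ⟨h.1, h.2, fun h' => absurd hp2 h'⟩
  · refine h1.comp hp (fun Z Y => Nat.card (Y.F →+* ℝ) ≤ 2)
      (fun Z _ => good_real hp hp2 Z.F) ?_
    rintro Z Y ⟨h2, h3⟩ h4
    have h5 := loc_restrict Z Y h3 (loc_one _ Y.F)
    rw [mul_one] at h5
    exact ⟨cyc_restrict Z Y h2, h5, fun _ => h4⟩

end Pool.Agent.N19.BR
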