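import Pool.Agent.N19.BR.InvRel
import Mathlib.LinearAlgebra.Matrix.Charpoly.Coeff
import Mathlib.LinearAlgebra.Matrix.SchurComplement

/-! Relations between permutation characters give relations between determinants. -/

set_option autoImplicit false

namespace Pool.Agent.N19.BR

open Matrix Polynomial
open Pool.Agent.R433.MD (fx)

section poly
variable {k : Type} [Field k] {n : Type} [Fintype n] [DecidableEq n]

/-- the polynomial `det (1 + X A)` -/
noncomputable def pd (A : Matrix n n k) : k[X] := (1 + (X : k[X]) • A.map C).det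

theorem pd_eval (A : Matrix n n k) (t : k) : (pd A).eval t = (1 + t • A).det := by
  unfold pd
  rw [← Polynomial.coe_evalRingHom, RingHom.map_det]
  congr 1
  ext i j
  by_cases hij : i = j
  · simp [hij]
    ring
  · simp [hij]
    ring

theorem pd_deriv (A : Matrix n n k) (t : k) (h : (1 + t • A).det ≠ 0) :
    (derivative (pd A)).eval t = (1 + t • A).det * trace ((1 + t • A)⁻¹ * A) := by
  set M := (1 + t • A)⁻¹ * A with hM
  have hu : IsUnit (1 + t • A).det := isUnit_iff_ne_zero.2 h
  have h1 : (pd A).comp (X + C t) = C (1 + t • A).det * pd M := by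
    unfold pd
    have h2 : ((1 + (X : k[X]) • A.map C).det).comp (X + C t) =
        ((1 + (X + C t : k[X]) • A.map C).det) := by
      rw [← Polynomial.coe_compRingHom_apply, RingHom.map_det]
      congr 1
      refine Matrix.ext fun i j => ?_
      by_cases hij : i = j
      · simp [hij]
        ring
      · simp [hij]
        ring
    rw [h2]
    have h3 : (C (1 + t • A).det : k[X]) = ((1 + t • A).map C).det := by
      rw [RingHom.map_det]
      rfl
    rw [h3, ← det_mul]
    congr 1
    have h4 : (1 + t • A) * M = A := by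
      rw [hM, ← mul_assoc, Matrix.mul_nonsing_inv _ hu, one_mul]
    have h5 : (1 + t • A).map C * M.map C = A.map (C : k →+* k[X]) :=
      (Matrix.map_mul (f := (C : k →+* k[X]))).symm.trans (congrArg (fun B => B.map C) h4)
    rw [mul_add, mul_one, Matrix.mul_smul, h5]
    have h6 : ((1 + t • A).map C : Matrix n n k[X]) = 1 + (C t : k[X]) • A.map C := by
      refine Matrix.ext fun i j => ?_
      by_cases hij : i = j
      · simp [hij]
      · simp [hij]
    rw [h6, add_smul]
    abel
  have h2 : (derivative ((pd A).comp (X + C t))).eval 0 = (derivative (pd A)).eval t := by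
    rw [derivative_comp]
    simp
  rw [← h2, h1, derivative_C_mul, eval_mul, eval_C]
  congr 1
  exact derivative_det_one_add_X_smul M

/-- logarithmic derivatives of products -/
theorem deriv_prod {ι : Type} (s : Finset ι) (f : ι → k[X]) (a : ι → ℕ) (t : k) (c : ι → k)
    (h : ∀ i ∈ s, (derivative (f i)).eval t = (f i).eval t * c i) :
    (derivative (∏ i ∈ s, f i ^ a i)).eval t =
      (∏ i ∈ s, (f i).eval t ^ a i) * ∑ i ∈ s, (a i : k) * c i := by
  classical
  induction s using Finset.induction_on with
  | empty => simp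
  | insert i s his ih =>
    rw [Finset.prod_insert his, Finset.prod_insert his, Finset.sum_insert his, derivative_mul,
      eval_add, eval_mul, eval_mul, ih fun j hj => h j (Finset.mem_insert_of_mem hj), derivative_pow,
      eval_mul, eval_mul, eval_pow, eval_pow, eval_prod, h i (Finset.mem_insert_self i s)]
    simp only [eval_pow, eval_C]
    rcases Nat.eq_zero_or_pos (a i) with h0 | h0
    · rw [h0]
      simp
    · have h1 : (f i).eval t ^ a i = (f i).eval t ^ (a i - 1) * (f i).eval t := by
        rw [← pow_succ, Nat.sub_add_cancel h0]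
      rw [h1]
      ring

/-- equal logarithmic derivatives -/
theorem eq_of_wronskian [CharZero k] {A B : k[X]} (hA : A.eval 0 = 1) (hB : B.eval 0 = 1)
    (h : derivative A * B = A * derivative B) : A = B := by
  by_contra hne
  set D := A - B with hD
  have hD0 : D ≠ 0 := sub_ne_zero.2 hne
  have h1 : derivative D * B = D * derivative B := by
    rw [hD, derivative_sub]
    linear_combination h
  obtain ⟨E, hE, hE0⟩ := exists_eq_pow_rootMultiplicity_mul_and_not_dvd D hD0 0
  set r := rootMultiplicity 0 D with hr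
  have hr0 : 0 < r := by
    rw [hr, rootMultiplicity_pos hD0, IsRoot.def, hD, eval_sub, hA, hB, sub_self]
  rw [C_0, sub_zero] at hE hE0
  obtain ⟨q, hq⟩ : ∃ q, r = q + 1 := ⟨r - 1, by omega⟩
  rw [hE, hq, derivative_mul, derivative_X_pow] at h1
  have h2 : X ^ q * ((C ((q + 1 : ℕ) : k)) * E * B + X * (derivative E * B - E * derivative B)) =
      X ^ q * 0 := by
    have h3 : (q + 1 - 1 : ℕ) = q := by omega
    rw [h3] at h1
    rw [mul_zero]
    linear_combination h1
  have h3 := mul_left_cancel₀ (pow_ne_zero q X_ne_zero) h2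
  have h4 := congrArg (eval 0) h3
  simp only [eval_add, eval_mul, eval_C, eval_X, zero_mul, add_zero, eval_zero, hB, mul_one] at h4
  have h5 : ((q + 1 : ℕ) : k) ≠ 0 := by exact_mod_cast Nat.succ_ne_zero q
  have h6 : E.eval 0 = 0 := by
    rcases mul_eq_zero.1 h4 with h7 | h7
    · exact absurd h7 h5
    · exact h7
  exact hE0 (by
    have h7 := (dvd_iff_isRoot (p := E) (a := 0)).2 h6
    rwa [C_0, sub_zero] at h7)

end poly

section rel
variable {k : Type} [Field k] [CharZero k] {n : Type} [Fintype n] [DecidableEq n]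
  {G : Type} [Group G] [Fintype G] (ρ : G →* Matrix n n k)

/-- the projection to the invariants -/
noncomputable def pr (H : Subgroup G) : Matrix n n k := (Nat.card H : k)⁻¹ • ∑ᶠ h : H, ρ h

omit [CharZero k] in
theorem pr_mul_left (H : Subgroup G) (h : H) : ρ h * pr ρ H = pr ρ H := by
  classical
  let _ : Fintype H := Fintype.ofFinite _
  unfold pr
  rw [finsum_eq_sum_of_fintype, Matrix.mul_smul, Finset.mul_sum]
  congr 1
  rw [← Equiv.sum_comp (Equiv.mulLeft h) (fun h : H => ρ (h : G))]
  refine Finset.sum_congr rfl fun g _ => ?_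
  rw [← map_mul]
  rfl

omit [CharZero k] in
theorem pr_mul_right (H : Subgroup G) (h : H) : pr ρ H * ρ h = pr ρ H := by
  classical
  let _ : Fintype H := Fintype.ofFinite _
  unfold pr
  rw [finsum_eq_sum_of_fintype, Matrix.smul_mul, Finset.sum_mul]
  congr 1
  rw [← Equiv.sum_comp (Equiv.mulRight h) (fun h : H => ρ (h : G))]
  refine Finset.sum_congr rfl fun g _ => ?_
  rw [← map_mul]
  rfl

theorem pr_idem (H : Subgroup G) : pr ρ H * pr ρ H = pr ρ H := by
  classical
  let _ : Fintype H := Fintype.ofFinite _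
  have hH : (Nat.card H : k) ≠ 0 := by exact_mod_cast Nat.card_pos.ne'
  have h1 : (∑ᶠ h : H, ρ (h : G)) * pr ρ H = (Nat.card H : k) • pr ρ H := by
    rw [finsum_eq_sum_of_fintype, Finset.sum_mul, Finset.sum_congr rfl fun h _ => pr_mul_left ρ H h,
      Finset.sum_const, Finset.card_univ, ← Nat.card_eq_fintype_card, ← Nat.cast_smul_eq_nsmul k]
  conv_lhs => arg 1; unfold pr
  rw [Matrix.smul_mul, h1, smul_smul, inv_mul_cancel₀ hH, one_smul]

omit [CharZero k] in
theorem pr_comm (H : Subgroup G) {T : Matrix n n k} (hT : ∀ g, T * ρ g = ρ g * T) :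
    T * pr ρ H = pr ρ H * T := by
  classical
  let _ : Fintype H := Fintype.ofFinite _
  unfold pr
  rw [finsum_eq_sum_of_fintype, Matrix.smul_mul, Matrix.mul_smul, Finset.mul_sum, Finset.sum_mul]
  congr 1
  exact Finset.sum_congr rfl fun h _ => hT h

/-- the traces -/
theorem trace_rel {ι : Type} [Fintype ι] (H : ι → Subgroup G) (e : ι → ℤ) (m : ℕ)
    (h : ∀ g : G, ∑ i, e i * fx (H i) g = m) {Q : Matrix n n k} (hQ : ∀ g, Q * ρ g = ρ g * Q) :
    ∑ i, (e i : k) * trace (Q * pr ρ (H i)) = m * trace (Q * pr ρ ⊤) := by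
  classical
  have hG : (Nat.card G : k) ≠ 0 := by exact_mod_cast Nat.card_pos.ne'
  have h1 : ∀ K : Subgroup G, (Nat.card G : k) * trace (Q * pr ρ K) =
      ∑ g : G, (fx K g : k) * trace (Q * ρ g) := by
    intro K
    let _ : Fintype K := Fintype.ofFinite _
    rw [sum_fx K (fun g => trace (Q * ρ g)) (fun x g => by
      rw [map_mul, map_mul, ← mul_assoc, ← mul_assoc, trace_mul_comm, ← mul_assoc, ← mul_assoc,
        ← hQ, mul_assoc Q, ← map_mul, inv_mul_cancel, map_one, mul_one])]
    congr 1
    unfold pr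
    rw [Matrix.mul_smul, trace_smul, smul_eq_mul, finsum_eq_sum_of_fintype,
      finsum_eq_sum_of_fintype, Finset.mul_sum, trace_sum]
  have h2 : ∀ g : G, (fx (⊤ : Subgroup G) g : k) = 1 := by
    intro g
    have h3 : Nat.card {c : G ⧸ (⊤ : Subgroup G) // g • c = c} = 1 := by
      rw [Nat.card_eq_one_iff_unique]
      have : Subsingleton (G ⧸ (⊤ : Subgroup G)) := QuotientGroup.subsingleton_quotient_top
      exact ⟨⟨fun a b => Subtype.ext (Subsingleton.elim _ _)⟩,
        ⟨⟨((1 : G) : G ⧸ (⊤ : Subgroup G)), Subsingleton.elim _ _⟩⟩⟩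
    rw [fx, h3]
    norm_num
  apply mul_left_cancel₀ hG
  calc (Nat.card G : k) * ∑ i, (e i : k) * trace (Q * pr ρ (H i))
      = ∑ i, (e i : k) * ∑ g : G, (fx (H i) g : k) * trace (Q * ρ g) := by
        rw [Finset.mul_sum]
        refine Finset.sum_congr rfl fun i _ => ?_
        rw [← h1]
        ring
    _ = ∑ g : G, (∑ i, (e i : k) * fx (H i) g) * trace (Q * ρ g) := by
        simp_rw [Finset.sum_mul, Finset.mul_sum, mul_assoc]
        exact Finset.sum_comm
    _ = ∑ g : G, (m : k) * ((fx (⊤ : Subgroup G) g : k) * trace (Q * ρ g)) := by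
        refine Finset.sum_congr rfl fun g _ => ?_
        rw [h2 g, one_mul]
        congr 1
        exact_mod_cast h g
    _ = _ := by
        rw [← Finset.mul_sum, ← h1]
        ring

/-- **The relation for the determinants.** -/
theorem det_rel {ι : Type} [Fintype ι] (H : ι → Subgroup G) (e : ι → ℤ) (m : ℕ)
    (h : ∀ g : G, ∑ i, e i * fx (H i) g = m) {S : Matrix n n k} (hS : ∀ g, S * ρ g = ρ g * S) :
    ∏ i, (1 + S * pr ρ (H i)).det ^ (e i).toNat =
      (1 + S * pr ρ ⊤).det ^ m * ∏ i, (1 + S * pr ρ (H i)).det ^ (-e i).toNat := by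
  classical
  let X' : Option ι → Subgroup G := fun i => i.elim ⊤ H
  let a : Option ι → ℕ := fun i => i.elim 0 fun i => (e i).toNat
  let b : Option ι → ℕ := fun i => i.elim m fun i => (-e i).toNat
  let f : Option ι → k[X] := fun i => pd (S * pr ρ (X' i))
  have hf0 : ∀ i, (f i).eval 0 = 1 := by
    intro i
    rw [pd_eval, zero_smul, add_zero, det_one]
  have hS0 : (pd S) ≠ 0 := by
    intro h0
    have h1 := pd_eval S 0
    rw [h0, eval_zero, zero_smul, add_zero, det_one] at h1
    exact zero_ne_one h1
  have key : ∀ t : k, (1 + t • S).det ≠ 0 → ∃ c : Option ι → k,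
      (∀ i, (derivative (f i)).eval t = (f i).eval t * c i) ∧
      ∑ i, (a i : k) * c i = ∑ i, (b i : k) * c i := by
    intro t ht
    have hu : IsUnit (1 + t • S).det := isUnit_iff_ne_zero.2 ht
    set Q := (1 + t • S)⁻¹ * S with hQ
    have hQ1 : (1 + t • S) * Q = S := by
      rw [hQ, ← mul_assoc, Matrix.mul_nonsing_inv _ hu, one_mul]
    have hc1 : ∀ g, (1 + t • S) * ρ g = ρ g * (1 + t • S) := by
      intro g
      rw [add_mul, mul_add, one_mul, mul_one, Matrix.smul_mul, Matrix.mul_smul, hS g]
    have hQc : ∀ g, Q * ρ g = ρ g * Q := by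
      intro g
      have h1 : (1 + t • S) * (Q * ρ g) = (1 + t • S) * (ρ g * Q) := by
        rw [← mul_assoc, hQ1, ← mul_assoc, hc1, mul_assoc, hQ1, hS g]
      have h2 := congrArg (fun x => (1 + t • S)⁻¹ * x) h1
      simp only [← mul_assoc] at h2
      rw [Matrix.nonsing_inv_mul _ hu, one_mul, one_mul] at h2
      exact h2
    have hPQ : ∀ i, (1 + t • (S * pr ρ (X' i))) * (Q * pr ρ (X' i)) = S * pr ρ (X' i) := by
      intro i
      set P := pr ρ (X' i) with hP
      have h1 : P * Q = Q * P := (pr_comm ρ (X' i) hQc).symm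
      have h2 : P * P = P := pr_idem ρ (X' i)
      calc (1 + t • (S * P)) * (Q * P) = Q * P + t • (S * (P * Q) * P) := by
            rw [add_mul, one_mul, Matrix.smul_mul]
            simp only [mul_assoc]
        _ = Q * P + t • (S * Q * P) := by
            rw [h1]
            simp only [mul_assoc]
            rw [h2]
        _ = (1 + t • S) * Q * P := by
            rw [add_mul, add_mul, one_mul, Matrix.smul_mul, Matrix.smul_mul]
        _ = S * P := by rw [hQ1]
    have hinv : ∀ i, (1 + t • (S * pr ρ (X' i))) * (1 - t • (Q * pr ρ (X' i))) = 1 := by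
      intro i
      rw [mul_sub, mul_one, Matrix.mul_smul, hPQ i]
      abel
    have hdet : ∀ i, (1 + t • (S * pr ρ (X' i))).det ≠ 0 := by
      intro i h0
      have h1 := congrArg det (hinv i)
      rw [det_mul, h0, zero_mul, det_one] at h1
      exact zero_ne_one h1
    refine ⟨fun i => trace (Q * pr ρ (X' i)), fun i => ?_, ?_⟩
    · rw [pd_eval, pd_deriv _ _ (hdet i)]
      congr 2
      have hui : IsUnit (1 + t • (S * pr ρ (X' i))).det := isUnit_iff_ne_zero.2 (hdet i)
      have h1 := congrArg (fun x => (1 + t • (S * pr ρ (X' i)))⁻¹ * x) (hPQ i)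
      change _ * _ = _ * _ at h1
      rw [← h1, ← mul_assoc, Matrix.nonsing_inv_mul _ hui, one_mul]
    · have h1 := trace_rel ρ H e m h hQc
      simp only [Fintype.sum_option]
      change ((0 : ℕ) : k) * _ + ∑ i, ((e i).toNat : k) * trace (Q * pr ρ (H i)) =
        (m : k) * trace (Q * pr ρ ⊤) + ∑ i, ((-e i).toNat : k) * trace (Q * pr ρ (H i))
      rw [← h1, ← Finset.sum_add_distrib, Nat.cast_zero, zero_mul, zero_add]
      refine Finset.sum_congr rfl fun i _ => ?_
      have h2 := Int.toNat_sub_toNat_neg (e i)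
      have h3 : (e i : k) = ((e i).toNat : k) - ((-e i).toNat : k) := by
        exact_mod_cast h2.symm
      rw [h3]
      ring
  have hAB : ∏ i, f i ^ a i = ∏ i, f i ^ b i := by
    apply eq_of_wronskian
    · rw [eval_prod]
      exact Finset.prod_eq_one fun i _ => by rw [eval_pow, hf0, one_pow]
    · rw [eval_prod]
      exact Finset.prod_eq_one fun i _ => by rw [eval_pow, hf0, one_pow]
    · -- equality at infinitely many points
      have h1 : pd S * (derivative (∏ i, f i ^ a i) * (∏ i, f i ^ b i)) =
          pd S * ((∏ i, f i ^ a i) * derivative (∏ i, f i ^ b i)) := by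
        have : Infinite k := inferInstance
        apply Polynomial.funext
        intro t
        rw [eval_mul, eval_mul (p := pd S)]
        by_cases ht : (1 + t • S).det = 0
        · rw [pd_eval, ht, zero_mul, zero_mul]
        · obtain ⟨c, hc1, hc2⟩ := key t ht
          congr 1
          rw [eval_mul, eval_mul, deriv_prod _ f a t c fun i _ => hc1 i,
            deriv_prod _ f b t c fun i _ => hc1 i, hc2, eval_prod, eval_prod]
          simp only [eval_pow]
          ring
      exact mul_left_cancel₀ hS0 h1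
  have h1 := congrArg (eval 1) hAB
  rw [eval_prod, eval_prod] at h1
  simp only [eval_pow, Fintype.prod_option] at h1
  have h2 : ∀ i, (f i).eval 1 = (1 + S * pr ρ (X' i)).det := fun i => by
    rw [pd_eval, one_smul]
  simp only [h2] at h1
  change (1 + S * pr ρ ⊤).det ^ 0 * ∏ i, (1 + S * pr ρ (H i)).det ^ (e i).toNat =
    (1 + S * pr ρ ⊤).det ^ m * ∏ i, (1 + S * pr ρ (H i)).det ^ (-e i).toNat at h1
  rw [pow_zero, one_mul] at h1
  exact h1

end rel

end Pool.Agent.N19.BR
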