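import Pool.Agent.N19.BR.Rel

/-! Relations and Galois extensions. -/

set_option autoImplicit false

namespace Pool.Agent.N19.BR

open Pool.Agent.R433.MD

/-- There is a relation `∑ e_i [Z_i] = m [K]`, `m` not divisible by `p` (not zero, if `p = 0`), with
fields that have the property `P`. -/
def Good (p : ℕ) (K : Type) [Field K] [NumberField K] (P : Ext K → Prop) : Prop :=
  ∃ (ι : Type) (_ : Fintype ι) (Z : ι → Ext K) (e : ι → ℤ) (m : ℕ), ¬ p ∣ m ∧ IsRel K Z e m ∧
    ∀ i, P (Z i)

section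
variable {K : Type} [Field K] [NumberField K]

theorem Good.mono {p : ℕ} {P Q : Ext K → Prop} (h : Good p K P) (hPQ : ∀ Z, P Z → Q Z) :
    Good p K Q := by
  obtain ⟨ι, hι, Z, e, m, hm, hr, hP⟩ := h
  exact ⟨ι, hι, Z, e, m, hm, hr, fun i => hPQ _ (hP i)⟩

theorem Good.self {p : ℕ} (hp : p = 0 ∨ p.Prime) {P : Ext K → Prop} (h : P (Ext.self K)) :
    Good p K P := by
  refine ⟨Unit, inferInstance, fun _ => Ext.self K, fun _ => 1, 1, fun h1 => ?_, IsRel.self K,
    fun _ => h⟩
  have h2 := Nat.dvd_one.1 h1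
  subst h2
  rcases hp with hp | hp
  · exact absurd hp one_ne_zero
  · exact Nat.not_prime_one hp

theorem not_dvd_mul {p : ℕ} (hp : p = 0 ∨ p.Prime) {a b : ℕ} (ha : ¬ p ∣ a) (hb : ¬ p ∣ b) :
    ¬ p ∣ a * b := by
  rcases hp with rfl | hp
  · rw [zero_dvd_iff] at ha hb ⊢
    exact mul_ne_zero ha hb
  · rw [hp.dvd_mul]
    exact not_or.2 ⟨ha, hb⟩

theorem not_dvd_prod {p : ℕ} (hp : p = 0 ∨ p.Prime) {ι : Type} (s : Finset ι) (k : ι → ℕ)
    (hk : ∀ i ∈ s, ¬ p ∣ k i) : ¬ p ∣ ∏ i ∈ s, k i := by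
  classical
  induction s using Finset.induction_on with
  | empty =>
    rw [Finset.prod_empty]
    intro h1
    have h2 := Nat.dvd_one.1 h1
    subst h2
    rcases hp with hp | hp
    · exact absurd hp one_ne_zero
    · exact Nat.not_prime_one hp
  | insert a s ha ih =>
    rw [Finset.prod_insert ha]
    exact not_dvd_mul hp (hk a (Finset.mem_insert_self a s))
      (ih fun i hi => hk i (Finset.mem_insert_of_mem hi))

theorem Good.comp {p : ℕ} (hp : p = 0 ∨ p.Prime) {P R : Ext K → Prop} (h : Good p K P)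
    (Q : ∀ Z : Ext K, Ext Z.F → Prop) (hQ : ∀ Z, P Z → Good p Z.F (Q Z))
    (hR : ∀ Z Y, P Z → Q Z Y → R (Z.restrict Y)) : Good p K R := by
  obtain ⟨ι, hι, Z, e, m, hm, hr, hP⟩ := h
  choose κ hκ Y d k hk hY hQY using fun i => hQ (Z i) (hP i)
  refine ⟨Σ i, κ i, inferInstance, _, _, _, ?_, hr.comp Y d k hY, fun q => ?_⟩
  · exact not_dvd_mul hp hm (not_dvd_prod hp _ _ fun i _ => hk i)
  · exact hR _ _ (hP q.1) (hQY q.1 q.2)

/-- integral combinations of relations -/
theorem IsRel.add {ι κ : Type} [Fintype ι] [Fintype κ] {Z : ι → Ext K} {e : ι → ℤ} {m : ℕ}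
    (h : IsRel K Z e m) {Y : κ → Ext K} {d : κ → ℤ} {k : ℕ} (hY : IsRel K Y d k) {a b : ℤ} {c : ℕ}
    (hc : a * m + b * k = c) :
    IsRel K (Sum.elim Z Y) (Sum.elim (fun i => a * e i) (fun j => b * d j)) c := by
  intro Ω _ _ _ σ
  rw [Fintype.sum_sum_type]
  have h1 : ∑ i, a * e i * (cnt (Z i).F σ : ℤ) = a * m := by
    rw [← h Ω σ, Finset.mul_sum]
    exact Finset.sum_congr rfl fun i _ => mul_assoc _ _ _
  have h2 : ∑ j, b * d j * (cnt (Y j).F σ : ℤ) = b * k := by
    rw [← hY Ω σ, Finset.mul_sum]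
    exact Finset.sum_congr rfl fun i _ => mul_assoc _ _ _
  exact (congrArg₂ (· + ·) h1 h2).trans hc

/-- combination of the relations for all prime numbers -/
theorem exact_rel {P : Ext K → Prop} (h : ∀ p : ℕ, p.Prime → Good p K P) :
    ∃ (ι : Type) (_ : Fintype ι) (Z : ι → Ext K) (e : ι → ℤ), IsRel K Z e 1 ∧ ∀ i, P (Z i) := by
  classical
  let A : Set ℕ := {m | 0 < m ∧ ∃ (ι : Type) (_ : Fintype ι) (Z : ι → Ext K) (e : ι → ℤ),
    IsRel K Z e m ∧ ∀ i, P (Z i)}
  have hA : A.Nonempty := by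
    obtain ⟨ι, hι, Z, e, m, hm, hr, hP⟩ := h 2 Nat.prime_two
    exact ⟨m, Nat.pos_of_ne_zero fun h0 => hm (h0 ▸ dvd_zero 2), ι, hι, Z, e, hr, hP⟩
  obtain ⟨hpos, ι, hι, Z, e, hr, hP⟩ := Nat.sInf_mem hA
  have hmin : ∀ m ∈ A, sInf A ≤ m := fun m hm => Nat.sInf_le hm
  by_cases h1 : sInf A = 1
  · rw [h1] at hr
    exact ⟨ι, hι, Z, e, hr, hP⟩
  · exfalso
    obtain ⟨q, hq, hqd⟩ := Nat.exists_prime_and_dvd h1
    obtain ⟨κ, hκ, Y, d, k, hk, hY, hPY⟩ := h q hq
    have hg : IsRel K (Sum.elim Z Y) (Sum.elim (fun i => (sInf A).gcdA k * e i)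
        (fun j => (sInf A).gcdB k * d j)) ((sInf A).gcd k) := by
      refine hr.add hY ?_
      rw [Nat.gcd_eq_gcd_ab (sInf A) k]
      ring
    have hgA : (sInf A).gcd k ∈ A := by
      refine ⟨Nat.gcd_pos_of_pos_left _ hpos, _, _, _, _, hg, ?_⟩
      rintro (i | j)
      · exact hP i
      · exact hPY j
    have h2 := hmin _ hgA
    have h3 : (sInf A).gcd k = sInf A :=
      le_antisymm (Nat.le_of_dvd hpos (Nat.gcd_dvd_left _ _)) h2
    exact hk (hqd.trans (h3 ▸ Nat.gcd_dvd_right _ _))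

-- embeddings in a normal extension and in an algebraically closed field
omit [NumberField K] in
theorem cnt_normal {L : Type} [Field L] [Algebra K L] [Normal K L] (F : Type) [Field F] [Algebra K F]
    [Algebra.IsAlgebraic K F] (hF : Nonempty (F →ₐ[K] L)) {Ω : Type} [Field Ω] [Algebra K Ω]
    [Algebra L Ω] [IsScalarTower K L Ω] (σ : Ω ≃ₐ[K] Ω) :
    cnt F σ = Nat.card {τ : F →ₐ[K] L // ∀ x, σ.restrictNormal L (τ x) = τ x} := by
  obtain ⟨f⟩ := hF
  have hs : ∀ x : F, (Polynomial.map (algebraMap K L) (minpoly K x)).Splits := by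
    intro x
    have h1 := Normal.splits (F := K) (K := L) inferInstance (f x)
    rwa [minpoly.algHom_eq f f.injective] at h1
  let e := Algebra.IsAlgebraic.algHomEquivAlgHomOfSplits Ω L hs
  symm
  refine Nat.card_congr (Equiv.subtypeEquiv e fun τ => forall_congr' fun x => ?_)
  have h2 : e τ x = algebraMap L Ω (τ x) := rfl
  rw [h2, ← AlgEquiv.restrictNormal_commutes σ L (τ x)]
  exact ((algebraMap L Ω).injective.eq_iff).symm

/-- a relation from a finite Galois extension -/
theorem isRel_of_fx {L : Type} [Field L] [NumberField L] [Algebra K L] [IsGalois K L]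
    (S : Finset (IntermediateField K L)) (n : IntermediateField K L → ℤ) (m : ℕ)
    (h : ∀ g : Gal(L/K), ∑ F ∈ S, n F * fx F.fixingSubgroup g = m) :
    IsRel K (fun F : {F // F ∈ S} => (⟨F.1⟩ : Ext K)) (fun F => n F.1) m := by
  intro Ω _ _ _ σ
  let j : L →ₐ[K] Ω := IsAlgClosed.lift
  let _ : Algebra L Ω := j.toRingHom.toAlgebra
  have _ : IsScalarTower K L Ω := IsScalarTower.of_algebraMap_eq fun x => (j.commutes x).symm
  rw [← h (σ.restrictNormal L), ← Finset.sum_coe_sort S]
  refine Finset.sum_congr rfl fun F _ => ?_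
  have h1 := cnt_normal (L := L) F.1 ⟨F.1.val⟩ σ
  have h2 := fx_eq_emb F.1 (σ.restrictNormal L)
  rw [h2, emb, ← h1]

/-- from a relation to a finite Galois extension -/
theorem fx_of_isRel {ι : Type} [Fintype ι] {Z : ι → Ext K} {e : ι → ℤ} {m : ℕ} (h : IsRel K Z e m)
    {L : Type} [Field L] [NumberField L] [Algebra K L] [IsGalois K L] (f : ∀ i, (Z i).F →ₐ[K] L)
    (g : Gal(L/K)) : ∑ i, e i * fx (f i).fieldRange.fixingSubgroup g = m := by
  have hn : Normal K (AlgebraicClosure L) := by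
    have : IsAlgClosure K (AlgebraicClosure L) :=
      ⟨inferInstance, Algebra.IsAlgebraic.trans K L (AlgebraicClosure L)⟩
    exact IsAlgClosure.normal K (AlgebraicClosure L)
  let σ : AlgebraicClosure L ≃ₐ[K] AlgebraicClosure L := g.liftNormal (AlgebraicClosure L)
  have hσ : σ.restrictNormal L = g := AlgEquiv.restrict_liftNormal (AlgebraicClosure L) g
  have h1 := h (AlgebraicClosure L) σ
  rw [← h1]
  refine Finset.sum_congr rfl fun i _ => ?_
  congr 1
  rw [fx_eq_emb, cnt_normal (L := L) (Z i).F ⟨f i⟩ σ, hσ, emb]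
  let e' : (Z i).F ≃ₐ[K] (f i).fieldRange := AlgEquiv.ofInjectiveField (f i)
  congr 1
  refine Nat.card_congr
    { toFun := fun τ => ⟨τ.1.comp (e' : (Z i).F →ₐ[K] (f i).fieldRange), fun x => τ.2 _⟩
      invFun := fun τ => ⟨τ.1.comp (e'.symm : (f i).fieldRange →ₐ[K] (Z i).F), fun x => τ.2 _⟩
      left_inv := fun τ => ?_
      right_inv := fun τ => ?_ }
  · apply Subtype.ext
    ext x
    exact congrArg τ.1 (e'.apply_symm_apply x)
  · apply Subtype.ext
    ext x
    exact congrArg τ.1 (e'.symm_apply_apply x)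

/-- a common Galois extension -/
theorem exists_common {ι : Type} [Finite ι] (Z : ι → Ext K) :
    ∃ (L : Type) (_ : Field L) (_ : NumberField L) (_ : Algebra K L) (_ : IsGalois K L),
      ∀ i, Nonempty ((Z i).F →ₐ[K] L) := by
  classical
  let N : IntermediateField K (AlgebraicClosure K) :=
    ⨆ i, IntermediateField.normalClosure K (Z i).F (AlgebraicClosure K)
  have h1 : FiniteDimensional K N :=
    IntermediateField.finiteDimensional_iSup_of_finite
  have h2 : Normal K N := IntermediateField.normal_iSup K (AlgebraicClosure K) _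
  have h3 : NumberField N := NumberField.of_module_finite K N
  refine ⟨N, inferInstance, h3, inferInstance, ⟨⟩, fun i => ?_⟩
  let j : (Z i).F →ₐ[K] AlgebraicClosure K := IsAlgClosed.lift
  have hj : j.fieldRange ≤ N := (AlgHom.fieldRange_le_normalClosure j).trans
    (le_iSup (fun i => IntermediateField.normalClosure K (Z i).F (AlgebraicClosure K)) i)
  exact ⟨j.codRestrict N.toSubalgebra fun x => hj ⟨x, rfl⟩⟩

end

/-- the family of the subgroups: cyclic if `p = 0`, `p`-hyperelementary if `p` is prime -/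
def Cl (p : ℕ) {G : Type} [Group G] (H : Subgroup G) : Prop :=
  (p = 0 ∧ IsCyclic H) ∨ (p.Prime ∧ IsHyper p H)

theorem hyper_of_injective {p : ℕ} {G G' : Type} [Group G] [Finite G] [Group G'] (f : G' →* G)
    (hf : Function.Injective f) {H : Subgroup G} (h : IsHyper p H) {H' : Subgroup G'}
    (hr : ∀ x ∈ H', f x ∈ H) : IsHyper p H' := by
  obtain ⟨C, hC, hcyc, hcop, hnorm, hpow⟩ := h
  have hfin : Finite G' := Finite.of_injective f hf
  refine ⟨C.comap f ⊓ H', inf_le_right, ?_, ?_, ?_, ?_⟩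
  · let φ : (C.comap f ⊓ H' : Subgroup G') →* C :=
      (f.comp (Subgroup.subtype _)).codRestrict C fun x => x.2.1
    exact isCyclic_of_injective φ fun x y hxy =>
      Subtype.ext (hf (congrArg Subtype.val hxy))
  · refine Nat.Coprime.coprime_dvd_left ?_ hcop
    exact (Subgroup.card_dvd_of_le inf_le_left).trans (Subgroup.card_comap_dvd_of_injective C f hf)
  · intro x hx c hc
    refine ⟨?_, H'.mul_mem (H'.mul_mem hx hc.2) (H'.inv_mem hx)⟩
    change f (x * c * x⁻¹) ∈ C
    rw [map_mul, map_mul, map_inv]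
    exact hnorm _ (hr x hx) _ hc.1
  · intro x hx
    obtain ⟨k, hk⟩ := hpow _ (hr x hx)
    refine ⟨k, ?_, H'.pow_mem hx _⟩
    change f (x ^ p ^ k) ∈ C
    rw [map_pow]
    exact hk

theorem Cl.of_injective {p : ℕ} {G G' : Type} [Group G] [Finite G] [Group G'] (f : G' →* G)
    (hf : Function.Injective f) {H : Subgroup G} (h : Cl p H) {H' : Subgroup G'}
    (hr : ∀ x ∈ H', f x ∈ H) : Cl p H' := by
  rcases h with ⟨hp, h⟩ | ⟨hp, h⟩
  · left
    refine ⟨hp, ?_⟩
    let φ : H' →* H := (f.comp (Subgroup.subtype _)).codRestrict H fun x => hr x x.2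
    exact isCyclic_of_injective φ fun x y hxy => Subtype.ext (hf (congrArg Subtype.val hxy))
  · exact Or.inr ⟨hp, hyper_of_injective f hf h hr⟩

/-- the property that `L Z / Z` is contained in a Galois extension whose Galois group is cyclic (if
`p = 0`) or `p`-hyperelementary -/
def Cyc (p : ℕ) {K : Type} [Field K] [NumberField K] (L : Type) [Field L] [Algebra K L]
    (Z : Ext K) : Prop :=
  ∃ M : Ext Z.F, IsGalois Z.F M.F ∧ Cl p (⊤ : Subgroup Gal(M.F/Z.F)) ∧
    Nonempty (L →ₐ[K] (Z.restrict M).F)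

/-- **Artin and Brauer induction.** -/
theorem artin {p : ℕ} (hp : p = 0 ∨ p.Prime) (K L : Type) [Field K] [NumberField K] [Field L]
    [NumberField L] [Algebra K L] [IsGalois K L] :
    Good p K (fun Z => ∃ F : IntermediateField K L, Cl p F.fixingSubgroup ∧ Z = ⟨F⟩) := by
  have hcount : ∀ g : Gal(L/K), ∃ F : IntermediateField K L, Cl p F.fixingSubgroup ∧
      ¬ p ∣ emb F g := by
    intro g
    rcases hp with hp | hp
    · have e : (IntermediateField.fixedField (Subgroup.zpowers g)).fixingSubgroup =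
        Subgroup.zpowers g := IntermediateField.fixingSubgroup_fixedField _
      refine ⟨IntermediateField.fixedField (Subgroup.zpowers g), Or.inl ⟨hp, ?_⟩, ?_⟩
      · rw [e]
        infer_instance
      · have h1 : Nonempty {τ : IntermediateField.fixedField (Subgroup.zpowers g) →ₐ[K] L //
            ∀ x, g (τ x) = τ x} :=
          ⟨⟨IntermediateField.val _, fun x => x.2 ⟨g, Subgroup.mem_zpowers g⟩⟩⟩
        have h2 : Finite {τ : IntermediateField.fixedField (Subgroup.zpowers g) →ₐ[K] L //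
            ∀ x, g (τ x) = τ x} := by
          have : Finite (IntermediateField.fixedField (Subgroup.zpowers g) →ₐ[K] L) := inferInstance
          exact inferInstance
        rw [hp, zero_dvd_iff]
        exact Nat.card_pos.ne'
    · obtain ⟨H, hH, h⟩ := hyper_count hp g
      have e : (IntermediateField.fixedField H).fixingSubgroup = H :=
        IntermediateField.fixingSubgroup_fixedField _
      refine ⟨IntermediateField.fixedField H, Or.inr ⟨hp, ?_⟩, ?_⟩
      · rw [e]
        exact hH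
      · have h1 := fx_eq_emb (IntermediateField.fixedField H) g
        rw [e] at h1
        rw [h1] at h
        exact_mod_cast h
  obtain ⟨m, S, n, hm0, hmP, hS, hsum⟩ := gal_unit
    {F : IntermediateField K L | Cl p F.fixingSubgroup}
    (by
      intro F hF F' _
      refine Cl.of_injective (MonoidHom.id _) Function.injective_id hF fun x hx => ?_
      rw [IntermediateField.fixingSubgroup_sup] at hx
      exact hx.1)
    (by
      intro F hF σ
      have e : (F.map (σ : L →ₐ[K] L)).fixingSubgroup =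
          F.fixingSubgroup.map (MulAut.conj σ).toMonoidHom := IsGalois.map_fixingSubgroup F σ
      rw [Set.mem_ofPred_eq, e]
      refine Cl.of_injective (MulAut.conj σ⁻¹).toMonoidHom (MulAut.conj σ⁻¹).injective hF ?_
      rintro _ ⟨x, hx, rfl⟩
      have h1 : (MulAut.conj σ⁻¹).toMonoidHom ((MulAut.conj σ).toMonoidHom x) = x := by
        simp [MulAut.conj_apply, mul_assoc]
      rw [h1]
      exact hx) {p}
    (by
      intro g
      obtain ⟨F, hF, h⟩ := hcount g
      exact ⟨F, hF, fun h0 => h (h0 ▸ dvd_zero p)⟩)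
    (by
      intro g q hq _
      rw [Set.mem_singleton_iff] at hq
      subst hq
      exact hcount g)
  refine ⟨{F // F ∈ S}, inferInstance, _, _, m, ?_, isRel_of_fx S n m hsum,
    fun F => ⟨F.1, hS F.1 F.2, rfl⟩⟩
  rcases hp with hp | hp
  · rw [hp, zero_dvd_iff]
    exact hm0
  · exact hmP p rfl hp

end Pool.Agent.N19.BR
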