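import Pool.Agent.R433.MD.Burnside
import Pool.Agent.N19.BR.Gal

/-! Relations between permutation characters give relations between the dimensions of invariants, over
any field of characteristic zero. -/

set_option autoImplicit false

namespace Pool.Agent.N19.BR

open Module Representation TensorProduct
open Pool.Agent.R433.MD (fx)

section chars

variable {G : Type} [Group G] [Fintype G] {k : Type} [Field k] [CharZero k]

/-- class functions -/
theorem sum_fx (H : Subgroup G) (T : G → k) (hT : ∀ x g, T (x * g * x⁻¹) = T g) :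
    ∑ g : G, (fx H g : k) * T g = (Nat.card G : k) * ((Nat.card H : k)⁻¹ * ∑ᶠ h : H, T h) := by
  classical
  let _ : Fintype (G ⧸ H) := Fintype.ofFinite _
  let _ : Fintype H := Fintype.ofFinite _
  have h1 : ∀ g, (fx H g : k) = ∑ c : G ⧸ H, if g • c = c then (1 : k) else 0 := by
    intro g
    rw [Finset.sum_boole, fx, Nat.card_eq_fintype_card, Fintype.card_subtype]
    simp
  have h2 : ∀ c : G ⧸ H, ∑ g : G, (if g • c = c then (1 : k) else 0) * T g = ∑ h : H, T h := by
    intro c
    obtain ⟨x, rfl⟩ := QuotientGroup.mk_surjective c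
    rw [← Equiv.sum_comp (MulAut.conj x).toEquiv]
    have h3 : ∀ g : G, (if (MulAut.conj x).toEquiv g • (x : G ⧸ H) = x then (1 : k) else 0) *
        T ((MulAut.conj x).toEquiv g) = if g ∈ H then T g else 0 := by
      intro g
      have e : (MulAut.conj x).toEquiv g = x * g * x⁻¹ := rfl
      rw [e, hT]
      have h4 : (x * g * x⁻¹) • (x : G ⧸ H) = x ↔ g ∈ H := by
        change ((x * g * x⁻¹ * x : G) : G ⧸ H) = x ↔ g ∈ H
        rw [QuotientGroup.eq]
        have e2 : (x * g * x⁻¹ * x)⁻¹ * x = g⁻¹ := by group
        rw [e2, H.inv_mem_iff]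
      rw [if_congr h4 rfl rfl]
      split_ifs <;> simp
    rw [Finset.sum_congr rfl fun g _ => h3 g, ← Finset.sum_filter]
    exact Finset.sum_subtype _ (fun g => by simp) _
  have h3 : (Nat.card G : k) = Nat.card (G ⧸ H) * Nat.card H := by
    exact_mod_cast (H.card_eq_card_quotient_mul_card_subgroup)
  have h4 : (Nat.card H : k) ≠ 0 := by exact_mod_cast Nat.card_pos.ne'
  calc ∑ g : G, (fx H g : k) * T g
      = ∑ g : G, ∑ c : G ⧸ H, (if g • c = c then (1 : k) else 0) * T g := by
        refine Finset.sum_congr rfl fun g _ => ?_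
        rw [h1, Finset.sum_mul]
    _ = ∑ c : G ⧸ H, ∑ h : H, T h := by
        rw [Finset.sum_comm]
        exact Finset.sum_congr rfl fun c _ => h2 c
    _ = _ := by
        rw [Finset.sum_const, Finset.card_univ, nsmul_eq_mul, h3, finsum_eq_sum_of_fintype,
          ← Nat.card_eq_fintype_card]
        field_simp

variable {ι : Type} [Fintype ι] (H : ι → Subgroup G) (e : ι → ℤ) (m : ℤ)

theorem rel_fin {W : Type} [AddCommGroup W] [Module k W] [FiniteDimensional k W]
    (ρ : Representation k G W) (h : ∀ g : G, ∑ i, e i * fx (H i) g = m) :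
    m * (finrank k (invariants ρ) : ℤ) =
      ∑ i, e i * (finrank k (invariants (ρ.comp (H i).subtype)) : ℤ) := by
  classical
  have : NeZero (Nat.card G : k) := ⟨by exact_mod_cast Nat.card_pos.ne'⟩
  have hG : (Nat.card G : k) ≠ 0 := NeZero.ne _
  let _ : Invertible (Nat.card G : k) := invertibleOfNonzero hG
  have h1 := card_inv_mul_sum_char_eq_finrank ρ
  have h2 : ∀ i, (Nat.card G : k) * finrank k (invariants (ρ.comp (H i).subtype)) =
      ∑ g : G, (fx (H i) g : k) * ρ.character g := by
    intro i
    let _ : Fintype (H i) := Fintype.ofFinite _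
    have hH : (Nat.card (H i) : k) ≠ 0 := by exact_mod_cast Nat.card_pos.ne'
    let _ : Invertible (Nat.card (H i) : k) := invertibleOfNonzero hH
    have h3 := card_inv_mul_sum_char_eq_finrank (ρ.comp (H i).subtype)
    rw [sum_fx (H i) ρ.character fun x g => char_conj ρ g x, ← h3, finsum_eq_sum_of_fintype]
    rfl
  have h3 : (Nat.card G : k) * ((m : k) * finrank k (invariants ρ)) =
      (Nat.card G : k) * ∑ i, (e i : k) * finrank k (invariants (ρ.comp (H i).subtype)) := by
    calc (Nat.card G : k) * ((m : k) * finrank k (invariants ρ))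
        = m * ∑ g : G, ρ.character g := by
          rw [← h1]
          field_simp
      _ = ∑ g : G, (∑ i, (e i : k) * fx (H i) g) * ρ.character g := by
          rw [Finset.mul_sum]
          refine Finset.sum_congr rfl fun g _ => ?_
          congr 1
          exact_mod_cast (h g).symm
      _ = ∑ i, (e i : k) * ∑ g : G, (fx (H i) g : k) * ρ.character g := by
          simp_rw [Finset.sum_mul, Finset.mul_sum, mul_assoc]
          exact Finset.sum_comm
      _ = _ := by
          rw [Finset.mul_sum]
          refine Finset.sum_congr rfl fun i _ => ?_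
          rw [← h2]
          ring
  have h4 := mul_left_cancel₀ hG h3
  exact_mod_cast h4

/-- the relation for the dimensions of the invariants -/
theorem rel_inv [Nonempty ι] {V : Type} [AddCommGroup V] [Module k V]
    (ρ : Representation k G V) (h : ∀ g : G, ∑ i, e i * fx (H i) g = m)
    (hfin : ∀ i, FiniteDimensional k (invariants (ρ.comp (H i).subtype))) :
    FiniteDimensional k (invariants ρ) ∧ m * (finrank k (invariants ρ) : ℤ) =
      ∑ i, e i * (finrank k (invariants (ρ.comp (H i).subtype)) : ℤ) := by
  classical
  let S : Submodule k V := ⨆ i, invariants (ρ.comp (H i).subtype)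
  let W : Submodule k V := ⨆ g : G, S.map (ρ g)
  have hSfin : FiniteDimensional k S := inferInstance
  have hWfin : FiniteDimensional k W := inferInstance
  have hSW : S ≤ W := by
    refine le_trans ?_ (le_iSup (fun g : G => S.map (ρ g)) 1)
    intro x hx
    exact ⟨x, hx, by simp⟩
  have hW : ∀ g : G, ∀ x ∈ W, ρ g x ∈ W := by
    intro g x hx
    have h1 : W.map (ρ g) ≤ W := by
      rw [Submodule.map_iSup]
      refine iSup_le fun g' => ?_
      rw [← Submodule.map_comp]
      have e1 : (ρ g).comp (ρ g') = ρ (g * g') := by rw [map_mul]; rfl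
      rw [e1]
      exact le_iSup (fun g : G => S.map (ρ g)) (g * g')
    exact h1 ⟨x, hx, rfl⟩
  let ρW : Representation k G W :=
    { toFun := fun g => (ρ g).restrict (hW g)
      map_one' := by
        ext x
        simp [LinearMap.restrict_apply]
      map_mul' := by
        intro g g'
        ext x
        simp [LinearMap.restrict_apply] }
  have hρW : ∀ (g : G) (x : W), ((ρW g x : W) : V) = ρ g x := fun g x => rfl
  have key : ∀ K : Subgroup G, invariants (ρ.comp K.subtype) ≤ W →
      Nonempty (invariants (ρW.comp K.subtype) ≃ₗ[k] invariants (ρ.comp K.subtype)) := by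
    intro K hK
    have e1 : invariants (ρW.comp K.subtype) =
        (invariants (ρ.comp K.subtype)).comap W.subtype := by
      ext x
      rw [Submodule.mem_comap, mem_invariants, mem_invariants]
      refine forall_congr' fun k => ?_
      rw [← Subtype.coe_inj]
      rfl
    rw [e1]
    exact ⟨Submodule.comapSubtypeEquivOfLe hK⟩
  have hle : ∀ i, invariants (ρ.comp (H i).subtype) ≤ W := fun i =>
    (le_iSup (fun i => invariants (ρ.comp (H i).subtype)) i).trans hSW
  have hle0 : invariants ρ ≤ W := by
    obtain ⟨i⟩ := ‹Nonempty ι›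
    refine le_trans ?_ (hle i)
    intro x hx k
    exact hx k
  have e0 : Nonempty (invariants ρW ≃ₗ[k] invariants ρ) := by
    have e1 : invariants ρW = (invariants ρ).comap W.subtype := by
      ext x
      rw [Submodule.mem_comap, mem_invariants, mem_invariants]
      refine forall_congr' fun k => ?_
      rw [← Subtype.coe_inj]
      rfl
    rw [e1]
    exact ⟨Submodule.comapSubtypeEquivOfLe hle0⟩
  have h1 := rel_fin H e m ρW h
  obtain ⟨e0⟩ := e0
  refine ⟨Module.Finite.equiv e0, ?_⟩
  rw [e0.finrank_eq] at h1
  rw [h1]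
  refine Finset.sum_congr rfl fun i _ => ?_
  obtain ⟨ei⟩ := key (H i) (hle i)
  rw [ei.finrank_eq]

end chars


end Pool.Agent.N19.BR
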