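import Pool.Agent.N19.BR.Ram

/-! Exact relations, prime by prime. -/

set_option autoImplicit false

namespace Pool.Agent.N19.BR

open NumberField IsDedekindDomain
open Pool.Agent.R433.MD

theorem of_divisor_sums (X : ℕ → ℤ) (m : ℤ)
    (h : ∀ n : ℕ, 0 < n → ∑ f ∈ n.divisors, ((f : ℕ) : ℤ) * X f = m) (n : ℕ) :
    0 < n → X n = if n = 1 then m else 0 := by
  induction n using Nat.strong_induction_on with
  | _ n ih =>
    intro hn
    rcases eq_or_ne n 1 with h1 | h1
    · subst h1
      have h2 := h 1 one_pos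
      rw [Nat.divisors_one, Finset.sum_singleton, Nat.cast_one, one_mul] at h2
      rw [if_pos rfl, h2]
    · rw [if_neg h1]
      have h2 := h n hn
      have h3 : 1 ∈ n.divisors := Nat.one_mem_divisors.2 hn.ne'
      have h4 : n ∈ n.divisors := Nat.mem_divisors_self n hn.ne'
      have h5 : n ∈ n.divisors.erase 1 := Finset.mem_erase.2 ⟨h1, h4⟩
      rw [← Finset.add_sum_erase _ _ h3, ← Finset.add_sum_erase _ _ h5,
        Finset.sum_eq_zero (s := (n.divisors.erase 1).erase n) (fun f hf => by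
          rw [Finset.mem_erase, Finset.mem_erase] at hf
          have h6 := Nat.divisor_le hf.2.2
          rw [ih f (lt_of_le_of_ne h6 hf.1) (Nat.pos_of_mem_divisors hf.2.2), if_neg hf.2.1,
            mul_zero]), add_zero, ih 1 (by omega) one_pos, if_pos rfl, Nat.cast_one,
        one_mul] at h2
      have h7 : (n : ℤ) * X n = 0 := by linarith
      exact (mul_eq_zero.1 h7).resolve_left (by exact_mod_cast hn.ne')

section
variable {K : Type} [Field K] [NumberField K] {ι : Type} [Fintype ι] {Z : ι → Ext K}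
  {e : ι → ℤ} {m : ℕ}

/-- numbers of primes with given residue degree -/
theorem loc_count (h : IsRel K Z e m) (v : HeightOneSpectrum (𝓞 K)) (n : ℕ) (hn : 0 < n) :
    ∑ i, e i * ((Finset.univ.filter fun w : Fib (Z i).F v => fdeg w = n).card : ℤ) =
      if n = 1 then (m : ℤ) else 0 := by
  classical
  refine of_divisor_sums (fun n => ∑ i, e i *
    ((Finset.univ.filter fun w : Fib (Z i).F v => fdeg w = n).card : ℤ)) m ?_ n hn
  intro n hn
  obtain ⟨k, iF, iFin, iA, hk⟩ := exists_ext (𝓞 K ⧸ v.asIdeal) hn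
  have h1 := exact_count h k (base v k)
  simp only [nh_eq, hk] at h1
  rw [← h1]
  simp only [Finset.mul_sum]
  rw [Finset.sum_comm]
  refine Finset.sum_congr rfl fun i _ => ?_
  have h2 : ∀ w : Fib (Z i).F v, (if fdeg w ∣ n then fdeg w else 0) =
      ∑ f ∈ n.divisors, if fdeg w = f then f else 0 := by
    intro w
    rw [Finset.sum_ite_eq]
    simp only [Nat.mem_divisors]
    by_cases h4 : fdeg w ∣ n
    · rw [if_pos h4, if_pos ⟨h4, hn.ne'⟩]
    · rw [if_neg h4, if_neg (fun h5 => h4 h5.1)]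
  simp_rw [h2]
  push_cast
  rw [Finset.sum_comm, Finset.mul_sum]
  refine Finset.sum_congr rfl fun f _ => ?_
  rw [← Finset.sum_filter, Finset.sum_const, nsmul_eq_mul]
  ring

/-- **Relations, prime by prime.** -/
theorem loc_rel (h : IsRel K Z e m) (v : HeightOneSpectrum (𝓞 K)) {M : Type*} [AddCommGroup M]
    (g : ℕ → M) : ∑ i, e i • ∑ w : Fib (Z i).F v, g (fdeg w) = m • g 1 := by
  classical
  let S : Finset ℕ := insert 1 (Finset.univ.biUnion fun i => Finset.univ.image
    fun w : Fib (Z i).F v => fdeg w)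
  have hS : ∀ i (w : Fib (Z i).F v), fdeg w ∈ S := fun i w => Finset.mem_insert_of_mem
    (Finset.mem_biUnion.2 ⟨i, Finset.mem_univ _, Finset.mem_image.2 ⟨w, Finset.mem_univ _, rfl⟩⟩)
  have hS0 : ∀ n ∈ S, 0 < n := by
    intro n hn
    rw [Finset.mem_insert] at hn
    rcases hn with rfl | hn
    · exact one_pos
    · obtain ⟨i, -, hi⟩ := Finset.mem_biUnion.1 hn
      obtain ⟨w, -, rfl⟩ := Finset.mem_image.1 hi
      exact fdeg_pos w
  have h1 : ∀ i, ∑ w : Fib (Z i).F v, g (fdeg w) =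
      ∑ n ∈ S, ((Finset.univ.filter fun w : Fib (Z i).F v => fdeg w = n).card : ℤ) • g n := by
    intro i
    rw [← Finset.sum_fiberwise_of_maps_to (s := Finset.univ) (t := S)
      (g := fun w : Fib (Z i).F v => fdeg w) (fun w _ => hS i w)]
    refine Finset.sum_congr rfl fun n _ => ?_
    rw [Finset.sum_congr rfl (g := fun _ => g n) (fun w hw => by rw [(Finset.mem_filter.1 hw).2]),
      Finset.sum_const, natCast_zsmul]
  simp_rw [h1, Finset.smul_sum, smul_smul]
  rw [Finset.sum_comm]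
  simp_rw [← Finset.sum_smul]
  rw [Finset.sum_congr rfl fun n hn => by rw [loc_count h v n (hS0 n hn)]]
  simp only [ite_smul, zero_smul]
  rw [Finset.sum_ite_eq_of_mem' S 1 _ (Finset.mem_insert_self 1 _)]
  exact natCast_zsmul _ _

/-- multiplicative form -/
theorem loc_rel_mul (h : IsRel K Z e m) (v : HeightOneSpectrum (𝓞 K)) {M : Type*} [CommGroup M]
    (g : ℕ → M) : ∏ i, (∏ w : Fib (Z i).F v, g (fdeg w)) ^ e i = g 1 ^ m := by
  have h1 := congrArg Additive.toMul (loc_rel h v (M := Additive M) (fun n => Additive.ofMul (g n)))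
  rw [toMul_sum] at h1
  simp only [toMul_zsmul, toMul_sum, toMul_ofMul, toMul_nsmul] at h1
  exact h1

/-- counting, exactly -/
theorem count_exact (h : IsRel K Z e m) (k : Type) [Field k] [Finite k] (φ : 𝓞 K →+* k) :
    ∑ i, ca e i * nh (Opt Z i).F φ = ∑ i, cb m e i * nh (Opt Z i).F φ := by
  simp only [Fintype.sum_option]
  have h3 : nh (Opt Z none).F φ = 1 := (nh_self K φ).2
  have h4 : ∀ i : ι, nh (Opt Z (some i)).F φ = nh (Z i).F φ := fun i => rfl
  simp only [ca, cb, zero_add, h3, mul_one, h4]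
  have h5 := exact_count h k φ
  have h6 : ((∑ i, (e i).toNat * nh (Z i).F φ : ℕ) : ℤ) = ((m + ∑ i, (-e i).toNat *
      nh (Z i).F φ : ℕ) : ℤ) := by
    push_cast
    rw [← h5, ← Finset.sum_add_distrib]
    refine Finset.sum_congr rfl fun i _ => ?_
    have h7 := Int.toNat_sub_toNat_neg (e i)
    linear_combination (nh (Z i).F φ : ℤ) * h7
  exact_mod_cast h6

/-- **Exact relations between Euler products.** -/
theorem rel_euler_exact (h : IsRel K Z e m)
    (P : ∀ i : Option ι, HeightOneSpectrum (𝓞 (Opt Z i).F) → ℂ)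
    (hG : ∀ v : HeightOneSpectrum (𝓞 K), ∃ G : ℕ → ℂ, ∀ i (w : Fib (Opt Z i).F v),
      P i w.1 = G (fdeg w))
    (L : Option ι → ℂ) (hL : ∀ i, HasProd (fun w => (P i w)⁻¹) (L i) ∧ L i ≠ 0) :
    L none ^ m = ∏ i, L (some i) ^ e i := by
  classical
  let A : (Option ι → ℕ) → HeightOneSpectrum (𝓞 K) → ℂ := fun c v =>
    ∏ i, (∏ w : Fib (Opt Z i).F v, (P i w.1)⁻¹) ^ c i
  have hprod : ∀ c : Option ι → ℕ, HasProd (A c) (∏ i, L i ^ c i) := by
    intro c
    refine hasProd_prod fun i _ => ?_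
    exact hasProd_pow (hasProd_fib (hL i).1) (c i)
  have hAB : A (ca e) = A (cb m e) := by
    funext v
    obtain ⟨G, hG⟩ := hG v
    have hA : ∀ c : Option ι → ℕ, A c v =
        ∏ i, (∏ w : Fib (Opt Z i).F v, (G (fdeg w))⁻¹) ^ c i := by
      intro c
      refine Finset.prod_congr rfl fun i _ => ?_
      congr 1
      refine Finset.prod_congr rfl fun w _ => ?_
      rw [hG i w]
    rw [hA, hA]
    refine comb (fun i => Fib (Opt Z i).F v) (fun i w => fdeg w) (fun i w => fdeg_pos w) (ca e)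
      (cb m e) ?_ (fun n => (G n)⁻¹)
    intro n hn
    obtain ⟨k, iF, iFin, iA, hk⟩ := exists_ext (𝓞 K ⧸ v.asIdeal) hn
    have h1 := count_exact h k (base v k)
    simp only [nh_eq, hk] at h1
    exact h1
  have h1 := (hAB ▸ hprod (ca e)).unique (hprod (cb m e))
  simp only [Fintype.prod_option] at h1
  have h3 : L none ^ 0 * ∏ i, L (some i) ^ (e i).toNat =
      L none ^ m * ∏ i, L (some i) ^ (-e i).toNat := h1
  have hne : ∀ i, L (some i) ≠ 0 := fun i => (hL (some i)).2
  rw [pow_zero, one_mul] at h3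
  have h4 : ∏ i, L (some i) ^ e i =
      (∏ i, L (some i) ^ (e i).toNat) / ∏ i, L (some i) ^ (-e i).toNat := by
    rw [← Finset.prod_div_distrib]
    refine Finset.prod_congr rfl fun i _ => ?_
    conv_lhs => rw [← Int.toNat_sub_toNat_neg (e i)]
    rw [zpow_sub₀ (hne _), zpow_natCast, zpow_natCast]
  have h5 : ∏ i, L (some i) ^ (-e i).toNat ≠ 0 :=
    Finset.prod_ne_zero_iff.2 fun i _ => pow_ne_zero _ (hne _)
  rw [h4, h3]
  field_simp

/-- degrees -/
theorem rel_degree (h : IsRel K Z e m) : ∑ i, e i * (Module.finrank K (Z i).F : ℤ) = m := by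
  have h1 := h (AlgebraicClosure K) 1
  rw [← h1]
  refine Finset.sum_congr rfl fun i _ => ?_
  congr 1
  have h2 : cnt (Z i).F (1 : AlgebraicClosure K ≃ₐ[K] AlgebraicClosure K) =
      Nat.card ((Z i).F →ₐ[K] AlgebraicClosure K) :=
    Nat.card_congr (Equiv.subtypeUnivEquiv fun _ _ => rfl)
  rw [h2, Nat.card_eq_fintype_card, AlgHom.card]

end

end Pool.Agent.N19.BR
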