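import Pool.Agent.N19.BR.Hilb
import Pool.Agent.N19.BR.InvRel
import Pool.Agent.N19.BR.Plc

/-! Relations between discriminants. -/

set_option autoImplicit false

namespace Pool.Agent.N19.BR

open NumberField IsDedekindDomain
open Pool.Agent.R433.MD
open scoped Classical

/-- the logarithm of the absolute value of the discriminant -/
noncomputable def ldisc (F : Type) [Field F] [NumberField F] : ℝ :=
  Real.log ((discr F).natAbs : ℝ)

section
variable {L : Type} [Field L] [NumberField L]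

/-- the function on the Galois group -/
noncomputable def acl (σ : L → L) : ℝ :=
  if σ = id then -ldisc L else Real.log (Ideal.absNorm (dif σ) : ℝ)

omit [NumberField L] in
theorem coe_eq_id {F : Type} [Field F] [Algebra F L] (σ : Gal(L/F)) :
    (σ : L → L) = id ↔ σ = 1 := by
  constructor
  · intro h
    ext x
    exact congrFun h x
  · rintro rfl
    rfl

theorem dif_conj {F : Type} [Field F] [NumberField F] [Algebra F L] (σ τ : Gal(L/F)) :
    dif ((τ * σ * τ⁻¹ : Gal(L/F)) : L → L) =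
      (dif (σ : L → L)).map (MulSemiringAction.toRingEquiv Gal(L/F) (𝓞 L) τ) := by
  rw [dif_eq, dif_eq, Ideal.map_span]
  congr 1
  ext y
  constructor
  · rintro ⟨x, rfl⟩
    refine ⟨_, ⟨τ⁻¹ • x, rfl⟩, ?_⟩
    change τ • (τ⁻¹ • x - σ • τ⁻¹ • x) = x - (τ * σ * τ⁻¹) • x
    rw [smul_sub, smul_smul, smul_smul, smul_smul, mul_inv_cancel, one_smul, mul_assoc]
  · rintro ⟨_, ⟨x, rfl⟩, rfl⟩
    refine ⟨τ • x, ?_⟩
    change τ • x - (τ * σ * τ⁻¹) • τ • x = τ • (x - σ • x)
    rw [smul_sub, smul_smul, smul_smul, inv_mul_cancel_right]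

theorem absNorm_conj {F : Type} [Field F] [NumberField F] [Algebra F L] (σ τ : Gal(L/F)) :
    Ideal.absNorm (dif ((τ * σ * τ⁻¹ : Gal(L/F)) : L → L)) =
      Ideal.absNorm (dif (σ : L → L)) := by
  rw [Ideal.absNorm_apply, Ideal.absNorm_apply, Submodule.cardQuot_apply,
    Submodule.cardQuot_apply]
  exact Nat.card_congr (Ideal.quotientEquiv (dif (σ : L → L)) _
    (MulSemiringAction.toRingEquiv Gal(L/F) (𝓞 L) τ) (dif_conj σ τ)).symm.toEquiv

theorem acl_conj {F : Type} [Field F] [NumberField F] [Algebra F L] (τ σ : Gal(L/F)) :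
    acl ((τ * σ * τ⁻¹ : Gal(L/F)) : L → L) = acl (σ : L → L) := by
  unfold acl
  rw [absNorm_conj]
  refine if_congr ?_ rfl rfl
  rw [coe_eq_id, coe_eq_id]
  constructor
  · intro h
    have h1 : σ = τ⁻¹ * (τ * σ * τ⁻¹) * τ := by group
    rw [h1, h]
    group
  · rintro rfl
    group

/-- the discriminant of the base field -/
theorem ldisc_base (F : Type) [Field F] [NumberField F] [Algebra F L] [IsGalois F L] :
    (Nat.card Gal(L/F) : ℝ) * ldisc F = -∑ σ : Gal(L/F), acl (σ : L → L) := by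
  have h1 := natAbs_discr_eq_absNorm_differentIdeal_mul_natAbs_discr_pow F (𝓞 F) L (𝓞 L)
  have h2 : Real.log ((discr L).natAbs : ℝ) = Real.log (Ideal.absNorm
      (differentIdeal (𝓞 F) (𝓞 L)) : ℝ) + Module.finrank F L * ldisc F := by
    rw [h1]
    push_cast
    have hA : (Ideal.absNorm (differentIdeal (𝓞 F) (𝓞 L)) : ℝ) ≠ 0 := by
      intro h0
      have h3 : Ideal.absNorm (differentIdeal (𝓞 F) (𝓞 L)) = 0 := by exact_mod_cast h0
      rw [h3, zero_mul, Int.natAbs_eq_zero] at h1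
      exact discr_ne_zero L h1
    have hB : ((discr F).natAbs : ℝ) ≠ 0 := by
      exact_mod_cast Int.natAbs_ne_zero.2 (discr_ne_zero F)
    rw [Real.log_mul hA (pow_ne_zero _ hB), Real.log_pow]
    rfl
  have h3 : Real.log (Ideal.absNorm (differentIdeal (𝓞 F) (𝓞 L)) : ℝ) =
      ∑ σ ∈ (Finset.univ : Finset Gal(L/F)).erase 1,
        Real.log (Ideal.absNorm (dif (σ : L → L)) : ℝ) := by
    rw [different_eq, map_prod]
    push_cast
    refine Real.log_prod fun σ hσ => ?_
    have h4 := dif_ne_bot (Finset.mem_erase.1 hσ).1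
    exact_mod_cast fun h5 => h4 (Ideal.absNorm_eq_zero_iff.1 h5)
  have h4 : ∑ σ : Gal(L/F), acl (σ : L → L) = -ldisc L +
      ∑ σ ∈ (Finset.univ : Finset Gal(L/F)).erase 1,
        Real.log (Ideal.absNorm (dif (σ : L → L)) : ℝ) := by
    rw [← Finset.add_sum_erase _ _ (Finset.mem_univ (1 : Gal(L/F)))]
    congr 1
    · unfold acl
      rw [if_pos ((coe_eq_id _).2 rfl)]
    · refine Finset.sum_congr rfl fun σ hσ => ?_
      unfold acl
      rw [if_neg fun h => (Finset.mem_erase.1 hσ).1 ((coe_eq_id σ).1 h)]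
  rw [h4, ← h3, IsGalois.card_aut_eq_finrank]
  have h5 : ldisc L = Real.log ((discr L).natAbs : ℝ) := rfl
  rw [h5, h2]
  ring

end

section
variable {K : Type} [Field K] [NumberField K] {L : Type} [Field L] [NumberField L] [Algebra K L]
  [IsGalois K L]

theorem ldisc_sub (F : IntermediateField K L) : ∑ σ : Gal(L/K),
    (fx F.fixingSubgroup σ : ℝ) * acl (σ : L → L) = -(Nat.card Gal(L/K) : ℝ) * ldisc F := by
  have h1 := sum_fx (k := ℝ) F.fixingSubgroup (fun σ : Gal(L/K) => acl (σ : L → L))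
    (fun x g => acl_conj x g)
  have h2 := ldisc_base (L := L) F
  have h3 : ∑ᶠ h : F.fixingSubgroup, acl ((h : Gal(L/K)) : L → L) =
      ∑ σ : Gal(L/F), acl (σ : L → L) := by
    rw [finsum_eq_sum_of_fintype]
    exact Fintype.sum_equiv (IntermediateField.fixingSubgroupEquiv F).toEquiv _ _ fun h => rfl
  have h4 : Nat.card F.fixingSubgroup = Nat.card Gal(L/F) :=
    Nat.card_congr (IntermediateField.fixingSubgroupEquiv F).toEquiv
  have h5 : (Nat.card Gal(L/F) : ℝ) ≠ 0 := by exact_mod_cast Nat.card_pos.ne'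
  rw [h1, h3, h4]
  have h6 : ∑ σ : Gal(L/F), acl (σ : L → L) = -((Nat.card Gal(L/F) : ℝ) * ldisc F) := by
    rw [h2, neg_neg]
  rw [h6]
  field_simp

end

/-- **The relation between the discriminants.** -/
theorem disc_rel {K : Type} [Field K] [NumberField K] {ι : Type} [Fintype ι] {Z : ι → Ext K}
    {e : ι → ℤ} {m : ℕ} (h : IsRel K Z e m) :
    ∑ i, (e i : ℝ) * ldisc (Z i).F = m * ldisc K := by
  obtain ⟨L, _, _, _, _, hL⟩ := exists_common Z
  have f : ∀ i, (Z i).F →ₐ[K] L := fun i => (hL i).some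
  have hrel := fx_of_isRel h f
  have hG : (Nat.card Gal(L/K) : ℝ) ≠ 0 := by exact_mod_cast Nat.card_pos.ne'
  have h1 : ∀ i, ldisc (Z i).F = ldisc (f i).fieldRange := by
    intro i
    unfold ldisc
    let e' : (Z i).F ≃+* (f i).fieldRange := (AlgEquiv.ofInjectiveField (f i)).toRingEquiv
    rw [discr_eq_discr_of_algEquiv (Z i).F
      (AlgEquiv.ofRingEquiv (f := e') (fun q => by simp) : (Z i).F ≃ₐ[ℚ] (f i).fieldRange)]
  have h2 : ∀ i, (Nat.card Gal(L/K) : ℝ) * ldisc (Z i).F =
      -∑ σ : Gal(L/K), (fx (f i).fieldRange.fixingSubgroup σ : ℝ) * acl (σ : L → L) := by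
    intro i
    rw [ldisc_sub, h1]
    ring
  apply mul_left_cancel₀ hG
  rw [Finset.mul_sum]
  calc ∑ i, (Nat.card Gal(L/K) : ℝ) * ((e i : ℝ) * ldisc (Z i).F)
      = ∑ i, (e i : ℝ) * -∑ σ : Gal(L/K), (fx (f i).fieldRange.fixingSubgroup σ : ℝ) *
          acl (σ : L → L) := by
        refine Finset.sum_congr rfl fun i _ => ?_
        rw [← h2]
        ring
    _ = -∑ σ : Gal(L/K), (∑ i, (e i : ℝ) * (fx (f i).fieldRange.fixingSubgroup σ : ℝ)) *
          acl (σ : L → L) := by
        simp_rw [Finset.sum_mul, mul_neg, Finset.mul_sum, mul_assoc]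
        rw [Finset.sum_neg_distrib, Finset.sum_comm]
    _ = -∑ σ : Gal(L/K), (m : ℝ) * acl (σ : L → L) := by
        congr 1
        refine Finset.sum_congr rfl fun σ _ => ?_
        congr 1
        exact_mod_cast hrel σ
    _ = _ := by
        rw [← Finset.mul_sum]
        have h3 := ldisc_base (L := L) K
        have h4 : ∑ σ : Gal(L/K), acl (σ : L → L) = -((Nat.card Gal(L/K) : ℝ) * ldisc K) := by
          rw [h3, neg_neg]
        rw [h4]
        ring

end Pool.Agent.N19.BR
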