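import Pool.Agent.N19.BR.StDefs
import Mathlib.Analysis.SpecialFunctions.Trigonometric.Basic

/-!
# The equivariant Beilinson conjecture for `K_{2k-1}` of number fields: definitions

`M / K` is a finite Galois extension of number fields, `S` a finite set of primes of `K`, and `F` is a field
between `K` and `M`, given by an embedding `f : F →ₐ[K] M`.  The character `χ` of `Gal(M / K)` is given by a
representation `ρ` by matrices.
-/

set_option autoImplicit false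

namespace Pool.Agent.N19.BR.EqDef

open NumberField IsDedekindDomain Polynomial
open Pool.Agent.N19.BR.MDef (Continues)
open Pool.Agent.N19.BR.SDef (ArtinFactors conj)

section
variable {K : Type} [Field K] {M : Type} [Field M] [Algebra K M]

/-- The embedding `τ σ⁻¹` of `M` in `ℂ`. -/
def moveEmb (σ : Gal(M/K)) (τ : M →+* ℂ) : M →+* ℂ := τ.comp ((σ⁻¹ : Gal(M/K)) : M →+* M)

end

section
variable (k : ℕ) {M : Type} [Field M]

/-- `a = (a_τ)` belongs to `ℂ ⊗ V^+`, where `V^+` consists of the families of elements of `ℝ(k-1)` with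
`a_τ = (-1)^(k-1) a_{τ'}` for the conjugate embedding `τ'`. -/
def InV (a : (M →+* ℂ) → ℂ) : Prop :=
  ∀ τ : M →+* ℂ, a ((starRingEnd ℂ).comp τ) = (-1) ^ (k - 1) * a τ

/-- `a` belongs to `B^+`: it belongs to `ℂ ⊗ V^+`, and the `a_τ` are in `ℚ(k-1) = ℚ (2πi)^(k-1)`. -/
def InB (a : (M →+* ℂ) → ℂ) : Prop :=
  InV k a ∧ ∀ τ, ∃ q : ℚ, a τ = q * (2 * Real.pi * Complex.I) ^ (k - 1)

/-- The restriction of `T` to `ℂ ⊗ V^+` is the `ℂ`-linear extension of an isomorphism `φ : B^+ → H` of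
`ℚ[G]`-modules, `G = Gal(M / K)`, where `H` is a `G`-stable rational structure on `V^+` (for example the image of
`K_{2k-1}(M)` under Borel's regulator): it is an automorphism of `ℂ ⊗ V^+`, commutes with `G` and maps `B^+`
onto `H`. -/
def IsComparison (K : Type) [Field K] [Algebra K M] (H : Set ((M →+* ℂ) → ℂ))
    (T : ((M →+* ℂ) → ℂ) →ₗ[ℂ] ((M →+* ℂ) → ℂ)) : Prop :=
  (∀ a, InV k a → InV k (T a)) ∧ (∀ a, InV k a → T a = 0 → a = 0) ∧
    (∀ (σ : Gal(M/K)) (a), InV k a → T (a ∘ moveEmb σ) = T a ∘ moveEmb σ) ∧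
    T '' {a | InB k a} = H

end

section
variable (k : ℕ) {K : Type} [Field K] {M : Type} [Field M] [Algebra K M] {n : ℕ}
  (ρ : Gal(M/K) →* Matrix (Fin n) (Fin n) ℂ) (T : ((M →+* ℂ) → ℂ) →ₗ[ℂ] ((M →+* ℂ) → ℂ))
  {F : Type} [Field F] [Algebra K F] (f : F →ₐ[K] M)

/-- `u` belongs to `(V_χ ⊗ V^+)^H`, where `H = Gal(M / F)` and `ρ` is the action on `V_χ = ℂ^n`: it is an
`n`-tuple of elements of `ℂ ⊗ V^+` with `∑ ρ(σ)_ij σ(u_j) = u_i` for all `σ` in `H`, where `σ` acts on `ℂ ⊗ V^+` by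
`σ(a)_τ = a_{τσ}`; that is, `∑ ρ(σ)_ij (u_j)_τ = (u_i)_{τσ⁻¹}`. -/
def InHoms (u : Fin n → (M →+* ℂ) → ℂ) : Prop :=
  (∀ i, InV k (u i)) ∧ ∀ σ : Gal(M/K), (∀ x : F, σ (f x) = f x) →
    ∀ i τ, ∑ j, ρ σ i j * u j τ = u i (moveEmb σ τ)

/-- `R` is the determinant of `T` on `(V_χ ⊗ V^+)^H`, so the determinant of its matrix `A` for a basis `b`.  If
`χ` is one-dimensional and `F = K`, this is the determinant of `T` on the subspace of `ℂ ⊗ V^+` on which `G` acts
by `χ⁻¹`. -/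
def IsRegulator (R : ℂ) : Prop :=
  ∃ (r : ℕ) (b : Fin r → Fin n → (M →+* ℂ) → ℂ) (A : Matrix (Fin r) (Fin r) ℂ),
    LinearIndependent ℂ b ∧ (∀ u, u ∈ Submodule.span ℂ (Set.range b) ↔ InHoms k ρ f u) ∧
    (∀ j i, T (b j i) = ∑ l, A l j • b l i) ∧ A.det = R

end

section
variable (k : ℕ) {K : Type} [Field K] [NumberField K] (S : Set (HeightOneSpectrum (𝓞 K)))
  {M : Type} [Field M] [NumberField M] [Algebra K M] {n : ℕ}
  (ρ : Gal(M/K) →* Matrix (Fin n) (Fin n) ℂ) (T : ((M →+* ℂ) → ℂ) →ₗ[ℂ] ((M →+* ℂ) → ℂ))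
  {F : Type} [Field F] [NumberField F] [Algebra K F] (f : F →ₐ[K] M)

/-- `c = L_S^*(χ|_F, 1 - k)`: the leading coefficient at `s = 1 - k` of a meromorphic continuation `Λ` to the
complex plane of the Artin L-function of `χ|_F` without the Euler factors at the primes above `S`. -/
def IsLeading (c : ℂ) : Prop :=
  ∃ (B : HeightOneSpectrum (𝓞 F) → ℂ[X]) (Λ : ℂ → ℂ), ArtinFactors S ρ f B ∧
    Continues Set.univ B 1 Λ ∧ meromorphicTrailingCoeffAt Λ (1 - k) = c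

/-- `A = A(χ|_F, T)` is the quotient of the determinant of `T` on `(V_χ ⊗ V^+)^H`, `H = Gal(M / F)`, and of
`L_S^*(χ|_F, 1 - k)`. -/
def IsQuotient (A : ℂ) : Prop :=
  ∃ R c : ℂ, IsRegulator k ρ T f R ∧ IsLeading k S ρ f c ∧ A = R / c

/-- The equivariant Beilinson conjecture for `χ|_F`: the L-functions of all conjugates `χ^σ|_F` have
meromorphic continuations, and `A(χ|_F, T)^σ = A(χ^σ|_F, T)` for all `σ`. -/
def EquivariantBeilinson : Prop :=
  ∀ σ : ℂ ≃+* ℂ, ∃ A : ℂ, IsQuotient k S ρ T f A ∧ IsQuotient k S (conj ρ σ) T f (σ A)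

end

end Pool.Agent.N19.BR.EqDef
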