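import Pool.Agent.N19.BR.Mot
import Pool.Agent.N19.BR.ADefs

/-! Relations between the L-functions of motives over extension fields. -/

set_option autoImplicit false

namespace Pool.Agent.N19.BR

open NumberField IsDedekindDomain Filter Topology Polynomial
open Pool.Agent.R433.MD
open Pool.Agent.H921R2.TatePole (nm two_le_nm nm_summable)
open Pool.Agent.W353.EF (LFun)
open Pool.Agent.N19.BR.MDef

section
variable {F : Type} [Field F] [NumberField F]

/-- convergence -/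
theorem conv_gen {N : ℕ} {i : ℝ} {B : HeightOneSpectrum (𝓞 F) → ℂ[X]}
    (h1 : ∀ᶠ w in cofinite, ∃ α : Fin N → ℂ,
      (∀ l, ‖α l‖ = (nm w : ℝ) ^ (i / 2)) ∧ ∀ z : ℂ, (B w).eval z = ∏ l, (1 - α l * z))
    (h2 : ∀ w, (B w).eval 0 = 1) :
    ∃ c : ℝ, i / 2 + 1 ≤ c ∧ ∀ s : ℂ, c < s.re →
      HasProd (fun w => (ef B w s)⁻¹) (LFun B s) ∧ LFun B s ≠ 0 := by
  classical
  -- the good factors
  have hgood : ∀ᶠ w in cofinite, ∀ s : ℂ, i / 2 + 1 < s.re →
      ‖ef B w s - 1‖ ≤ (N * Real.exp N) * (nm w : ℝ) ^ (-(s.re - i / 2)) := by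
    filter_upwards [h1] with w hw s hs
    obtain ⟨α, hβn, hα⟩ := hw
    have hq : (2 : ℝ) ≤ (nm w : ℝ) := by exact_mod_cast two_le_nm w
    set x : ℝ := (nm w : ℝ) ^ (-(s.re - i / 2)) with hx
    have hx0 : 0 ≤ x := by positivity
    have hx1 : x ≤ 1 := Real.rpow_le_one_of_one_le_of_nonpos (by linarith) (by linarith)
    have hn : ∀ j, ‖-(α j * (Ideal.absNorm w.asIdeal : ℂ) ^ (-s))‖ = x := by
      intro j
      have h3 : ‖α j‖ = (nm w : ℝ) ^ (i / 2) := hβn j
      have h4 : ‖(Ideal.absNorm w.asIdeal : ℂ) ^ (-s)‖ = (nm w : ℝ) ^ (-s.re) := by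
        have h5 : 0 < Ideal.absNorm w.asIdeal := nm_pos w
        rw [Complex.norm_natCast_cpow_of_pos h5, Complex.neg_re]
        rfl
      rw [norm_neg, norm_mul, h3, h4, hx, ← Real.rpow_add (by linarith)]
      congr 1
      ring
    have e1 : ef B w s = ∏ j, (1 + -(α j * (Ideal.absNorm w.asIdeal : ℂ) ^ (-s))) := by
      rw [ef, hα]
      exact Finset.prod_congr rfl fun j _ => by ring
    rw [e1]
    refine (Finset.norm_prod_one_add_sub_one_le _ _).trans ?_
    rw [Finset.sum_congr rfl fun j _ => hn j, Finset.sum_const, Finset.card_univ,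
      Fintype.card_fin, nsmul_eq_mul]
    have h5 : Real.exp (N * x) - 1 ≤ N * x * Real.exp (N * x) := by
      have h6 := Real.add_one_le_exp (-(N * x))
      have h7 : Real.exp (-(N * x)) * Real.exp (N * x) = 1 := by
        rw [← Real.exp_add]
        simp
      nlinarith [Real.exp_pos (N * x)]
    have h6 : Real.exp (N * x) ≤ Real.exp N := by
      apply Real.exp_le_exp.2
      have : (0 : ℝ) ≤ N := Nat.cast_nonneg N
      nlinarith
    have h7 : (0 : ℝ) ≤ N * x := by positivity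
    nlinarith
  -- nonvanishing far to the right
  have hnz : ∃ c : ℝ, i / 2 + 1 ≤ c ∧ ∀ s : ℂ, c < s.re → ∀ w, ef B w s ≠ 0 := by
    -- uniformly at almost all primes
    have hg2 : ∀ᶠ w in cofinite, ∀ s : ℂ, i / 2 + 1 < s.re → ef B w s ≠ 0 := by
      filter_upwards [h1] with w hw s hs
      obtain ⟨α, hβn, hα⟩ := hw
      rw [ef, hα]
      refine Finset.prod_ne_zero_iff.2 fun j _ h0 => ?_
      have h3 : ‖α j‖ = (nm w : ℝ) ^ (i / 2) := hβn j
      have h4 : ‖(Ideal.absNorm w.asIdeal : ℂ) ^ (-s)‖ = (nm w : ℝ) ^ (-s.re) := by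
        have h5 : 0 < Ideal.absNorm w.asIdeal := nm_pos w
        rw [Complex.norm_natCast_cpow_of_pos h5, Complex.neg_re]
        rfl
      have hq : (2 : ℝ) ≤ (nm w : ℝ) := by exact_mod_cast two_le_nm w
      have h5 : ‖α j * (Ideal.absNorm w.asIdeal : ℂ) ^ (-s)‖ = 1 := by
        rw [← sub_eq_zero.1 h0, norm_one]
      rw [norm_mul, h3, h4, ← Real.rpow_add (by linarith)] at h5
      have h6 : (nm w : ℝ) ^ (i / 2 + -s.re) < 1 :=
        Real.rpow_lt_one_of_one_lt_of_neg (by linarith) (by linarith)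
      linarith
    rw [eventually_cofinite] at hg2
    set S := hg2.toFinset with hS
    have hloc : ∀ w : HeightOneSpectrum (𝓞 F), ∃ c : ℝ, 0 ≤ c ∧ ∀ s : ℂ, c < s.re → ef B w s ≠ 0 := by
      intro w
      have hq : (2 : ℝ) ≤ (nm w : ℝ) := by exact_mod_cast two_le_nm w
      have h3 : ∀ᶠ z in 𝓝 (0 : ℂ), (B w).eval z ≠ 0 := by
        refine ContinuousAt.eventually_ne (B w).continuous.continuousAt ?_
        rw [h2 w]
        exact one_ne_zero
      obtain ⟨δ, hδ, hball⟩ := Metric.eventually_nhds_iff.1 h3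
      have h4 : Tendsto (fun x : ℝ => (nm w : ℝ) ^ (-x)) atTop (𝓝 0) := by
        have h5 := tendsto_rpow_atTop_of_base_lt_one ((nm w : ℝ)⁻¹)
          (lt_trans (by norm_num) (inv_pos.2 (by linarith : (0 : ℝ) < nm w)))
          (inv_lt_one_of_one_lt₀ (by linarith))
        refine h5.congr fun x => ?_
        rw [Real.rpow_neg (by linarith), Real.inv_rpow (by linarith)]
      obtain ⟨c, hc⟩ := ((h4.eventually (gt_mem_nhds hδ)).and (eventually_ge_atTop 0)).exists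
      refine ⟨c, hc.2, fun s hs => hball ?_⟩
      have h5 : 0 < Ideal.absNorm w.asIdeal := nm_pos w
      rw [dist_zero_right, Complex.norm_natCast_cpow_of_pos h5, Complex.neg_re]
      refine lt_trans ?_ hc.1
      exact Real.rpow_lt_rpow_of_exponent_lt (by
        have : (1 : ℝ) < nm w := by linarith
        exact this) (by linarith)
    choose c hc0 hc using hloc
    refine ⟨|i / 2 + 1| + ∑ w ∈ S, c w, (le_abs_self _).trans (le_add_of_nonneg_right
      (Finset.sum_nonneg fun w _ => hc0 w)), fun s hs w => ?_⟩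
    by_cases hw : w ∈ S
    · refine hc w s ?_
      have h5 : c w ≤ ∑ w ∈ S, c w := Finset.single_le_sum (fun w _ => hc0 w) hw
      have h6 : (0 : ℝ) ≤ |i / 2 + 1| := abs_nonneg _
      linarith
    · have h5 : ∀ s : ℂ, i / 2 + 1 < s.re → ef B w s ≠ 0 := by
        by_contra h6
        exact hw (hg2.mem_toFinset.2 h6)
      refine h5 s ?_
      have h6 : 0 ≤ ∑ w ∈ S, c w := Finset.sum_nonneg fun w _ => hc0 w
      have h7 := le_abs_self (i / 2 + 1)
      linarith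
  obtain ⟨c, hc1, hc2⟩ := hnz
  refine ⟨c, hc1, fun s hs => ?_⟩
  have hsum : Summable fun w => ef B w s - 1 := by
    have h3 : Summable fun w : HeightOneSpectrum (𝓞 F) =>
        (N * Real.exp N) * (nm w : ℝ) ^ (-(s.re - i / 2)) :=
      (nm_summable (by linarith)).mul_left _
    refine Summable.of_norm_bounded_eventually h3 ?_
    filter_upwards [hgood] with w hw
    exact hw s (by linarith)
  have h4 := (Complex.summable_log_one_add_of_summable hsum).neg.hasSum.cexp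
  have h5 : (Complex.exp ∘ fun w => -Complex.log (1 + (ef B w s - 1))) =
      fun w => (ef B w s)⁻¹ := by
    funext w
    have h6 : (1 : ℂ) + (ef B w s - 1) = ef B w s := by ring
    rw [Function.comp_apply, h6, Complex.exp_neg, Complex.exp_log (hc2 s hs w)]
  rw [h5] at h4
  have h7 : LFun B s = ∏' w, (ef B w s)⁻¹ := rfl
  rw [h7, h4.tprod_eq]
  exact ⟨h4, Complex.exp_ne_zero _⟩

end

section
variable {K : Type} [Field K] [NumberField K] {N : ℕ} {i : ℤ}
  {α : HeightOneSpectrum (𝓞 K) → Fin N → ℂ}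

/-- finite fibres -/
theorem eventually_und {F : Type} [Field F] [NumberField F] [Algebra K F]
    {p : HeightOneSpectrum (𝓞 K) → Prop} (h : ∀ᶠ v in cofinite, p v) :
    ∀ᶠ w : HeightOneSpectrum (𝓞 F) in cofinite, p (und w) := by
  rw [eventually_cofinite] at h ⊢
  refine Set.Finite.preimage' (f := und (K := K) (F := F)) h fun v _ => ?_
  exact Set.finite_coe_iff.1 (finite_fib (F := F) v)

/-- the factors over an extension -/
theorem factor_alpha (hα : Pure i α) {F : Type} [Field F] [NumberField F] [Algebra K F]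
    {B : HeightOneSpectrum (𝓞 F) → ℂ[X]} (hB : FactorsOver α B) :
    ∀ᶠ w in cofinite, ∃ β : Fin N → ℂ, (∀ l, ‖β l‖ = (nm w : ℝ) ^ ((i : ℝ) / 2)) ∧
      ∀ z : ℂ, (B w).eval z = ∏ l, (1 - β l * z) := by
  filter_upwards [hB.1, eventually_und (F := F) hα] with w h1 h2
  have hn : nm w = nm (und (K := K) w) ^ fdeg (⟨w, rfl⟩ : Fib F (und (K := K) w)) :=
    nm_fib (⟨w, rfl⟩ : Fib F (und (K := K) w))
  refine ⟨fun l => α (und w) l ^ fdeg (⟨w, rfl⟩ : Fib F (und (K := K) w)), fun l => ?_,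
    h1 (und w) rfl _ hn⟩
  have h3 : ‖α (und w) l‖ = (nm (und (K := K) w) : ℝ) ^ ((i : ℝ) / 2) := h2 l
  rw [norm_pow, h3, hn]
  push_cast
  rw [← Real.rpow_natCast, ← Real.rpow_natCast, ← Real.rpow_mul (by positivity),
    ← Real.rpow_mul (by positivity)]
  congr 1
  ring

/-- **Good primes.** -/
theorem good_alpha {ι : Type} [Finite ι] {Z : ι → Ext K}
    (B : ∀ j : Option ι, HeightOneSpectrum (𝓞 (Opt Z j).F) → ℂ[X])
    (hB : ∀ j, FactorsOver α (B j)) :
    ∀ᶠ v : HeightOneSpectrum (𝓞 K) in cofinite, ∃ G : ℕ → ℂ → ℂ,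
      ∀ (j : Option ι) (w : Fib (Opt Z j).F v), ef (B j) w.1 = G (fdeg w) := by
  have h1 : ∀ᶠ v : HeightOneSpectrum (𝓞 K) in cofinite, ∀ (j : Option ι)
      (w : Fib (Opt Z j).F v), ∀ v' : HeightOneSpectrum (𝓞 K),
      w.1.asIdeal.comap (algebraMap (𝓞 K) (𝓞 (Opt Z j).F)) = v'.asIdeal → ∀ f : ℕ,
      Ideal.absNorm w.1.asIdeal = Ideal.absNorm v'.asIdeal ^ f →
        ∀ z : ℂ, (B j w.1).eval z = ∏ l, (1 - α v' l ^ f * z) :=
    eventually_all.2 fun j => eventually_fib (hB j).1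
  filter_upwards [h1] with v hv1
  refine ⟨fun n s => ∏ l, (1 - α v l ^ n * ((nm v ^ n : ℕ) : ℂ) ^ (-s)), fun j w => ?_⟩
  have hn : Ideal.absNorm w.1.asIdeal = nm v ^ fdeg w := nm_fib w
  funext s
  rw [ef, hv1 j w v (fib_le w).symm (fdeg w) hn, hn]

/-- **Continuation and orders for motives.** -/
theorem cont_alpha {ι : Type} [Fintype ι] {Z : ι → Ext K} {e : ι → ℤ} {m : ℕ}
    (h : IsRel K Z e m) (hα : Pure i α) (B : ∀ j : ι, HeightOneSpectrum (𝓞 (Z j).F) → ℂ[X])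
    (hB : ∀ j, FactorsOver α (B j)) {U : Set ℂ} (hU : Region i U) {Λ : ι → ℂ → ℂ}
    (hΛ : ∀ j, Continues U (B j) 1 (Λ j)) {B₀ : HeightOneSpectrum (𝓞 K) → ℂ[X]}
    (hB₀ : FactorsOver α B₀) :
    (∃ Λ₀ : ℂ → ℂ, Continues U B₀ m Λ₀) ∧
    ∀ Λ₀ : ℂ → ℂ, Continues U B₀ 1 Λ₀ → ∀ s₀ ∈ U, Regular B₀ s₀ → (∀ j, Regular (B j) s₀) →
      ∀ r : ι → ℤ, (∀ j, meromorphicOrderAt (Λ j) s₀ = r j) →
        ∃ r₀ : ℤ, meromorphicOrderAt Λ₀ s₀ = r₀ ∧ (m : ℤ) * r₀ = ∑ j, e j * r j := by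
  classical
  let BB : ∀ j : Option ι, HeightOneSpectrum (𝓞 (Opt Z j).F) → ℂ[X] := fun j =>
    match j with
    | none => B₀
    | some j => B j
  have hBB : ∀ j, FactorsOver α (BB j) := by
    rintro (_ | j)
    · exact hB₀
    · exact hB j
  choose hΛ1 c hc using hΛ
  obtain ⟨C, hC⟩ : ∃ C : ℝ, ∀ j, c j ≤ C := by
    obtain ⟨C, hC⟩ := (Set.finite_range c).bddAbove
    exact ⟨C, fun j => hC ⟨j, rfl⟩⟩
  have hconv : ∀ j, ∃ c : ℝ, (i : ℝ) / 2 + 1 ≤ c ∧ ∀ s : ℂ, c < s.re →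
      HasProd (fun w => (ef (BB j) w s)⁻¹) (LFun (BB j) s) ∧ LFun (BB j) s ≠ 0 := fun j =>
    conv_gen (factor_alpha hα (hBB j)) (hBB j).2
  choose a ha1 ha2 using hconv
  obtain ⟨A, hA⟩ : ∃ A : ℝ, ∀ j, a j ≤ A := by
    obtain ⟨A, hA⟩ := (Set.finite_range a).bddAbove
    exact ⟨A, fun j => hA ⟨j, rfl⟩⟩
  obtain ⟨hU1, hU2⟩ := hU
  have hrel : ∀ (T : Set ℂ), (∀ s ∈ T, ∀ j w, ef (BB j) w s ≠ 0) → ∀ b : ℝ, A ≤ b →
      ∃ R : ℂ → ℂ, MeromorphicOn R Set.univ ∧ (∀ s ∈ T, AnalyticAt ℂ R s ∧ R s ≠ 0) ∧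
      ∀ s : ℂ, b < s.re → R s ≠ 0 ∧
        LFun (BB none) s ^ m = R s * ∏ j, LFun (BB (some j)) s ^ e j := fun T hT b hb =>
    rel_euler h (fun j => ef (BB j)) (fun j w => differentiable_ef _ w)
      (good_alpha BB hBB) (fun j => LFun (BB j)) (c := b)
      (fun j s hs => ha2 j s (((hA j).trans hb).trans_lt hs)) hT
  constructor
  · obtain ⟨R, hR1, -, hR3⟩ := hrel ∅ (by simp) (max A C) (le_max_left _ _)
    have hRU : MeromorphicOn R U := fun x _ => hR1 x trivial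
    refine ⟨R * ∏ j, (Λ j) ^ (e j), hRU.mul (MeromorphicOn.prod fun j _ => (hΛ1 j).zpow _),
      max A C, fun s hs => ?_⟩
    have h1 : LFun B₀ s ^ m = R s * ∏ j, LFun (B j) s ^ e j := (hR3 s hs).2
    rw [h1, Pi.mul_apply, Finset.prod_apply]
    congr 1
    refine Finset.prod_congr rfl fun j _ => ?_
    rw [Pi.pow_apply, hc j s (((hC j).trans (le_max_right _ _)).trans_lt hs), pow_one]
  · rintro Λ₀ ⟨hΛ₀, c₀, hc₀⟩ s₀ hs₀ hreg₀ hreg r hr
    obtain ⟨R, hR1, hR2, hR3⟩ := hrel {s₀} (by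
      intro s hs
      rw [Set.mem_singleton_iff.1 hs]
      rintro (_ | j) w
      · exact hreg₀ w
      · exact hreg j w) (max A (max C c₀)) (le_max_left _ _)
    have hb1 : (i : ℝ) / 2 + 1 ≤ max A (max C c₀) :=
      ((ha1 none).trans (hA none)).trans (le_max_left _ _)
    have hb2 : C ≤ max A (max C c₀) := (le_max_left _ _).trans (le_max_right _ _)
    have hb3 : c₀ ≤ max A (max C c₀) := (le_max_right _ _).trans (le_max_right _ _)
    have h1 := order_rel_abs hU1 (c := max A (max C c₀))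
      (fun s hs => hU2 s (hb1.trans_lt hs)) hs₀ (m := m)
      (L₀ := LFun B₀) hR1 (hR2 s₀ (Set.mem_singleton _))
      (fun s hs => (ha2 none s (((hA none).trans (le_max_left _ _)).trans_lt hs)).2)
      (Λ := Λ) (e := e) (fun s hs => by
        refine (hR3 s hs).2.trans ?_
        congr 1
        refine Finset.prod_congr rfl fun j _ => ?_
        rw [hc j s (((hC j).trans hb2).trans_lt hs), pow_one]
        rfl) hΛ1 hr
    exact h1.2 Λ₀ hΛ₀ (fun s hs => by rw [hc₀ s (hb3.trans_lt hs), pow_one])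

end

end Pool.Agent.N19.BR
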