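import Pool.Agent.N19.BR.StFrob
import Pool.Agent.N19.BR.Plc
import Pool.Agent.N19.BR.Mot2

/-! The relation for the quotients in Stark's conjecture. -/

set_option autoImplicit false

namespace Pool.Agent.N19.BR

open NumberField IsDedekindDomain Module Filter
open Pool.Agent.R433.MD
open Pool.Agent.H921R2.TatePole (nm two_le_nm)
open Pool.Agent.W353.EF (LFun)
open Pool.Agent.N19.BR.SDef
open Pool.Agent.N19.BR.MDef (Continues)

section
variable {K : Type} [Field K] [NumberField K] {S : Set (HeightOneSpectrum (𝓞 K))}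
  {M : Type} [Field M] [NumberField M] [Algebra K M] [IsGalois K M] {n : ℕ}
  {ρ : Gal(M/K) →* Matrix (Fin n) (Fin n) ℂ}

/-- the factors in terms of the Frobenius elements over `K` -/
theorem artin_factor (hρ : Unramified S ρ) {v : HeightOneSpectrum (𝓞 K)} (hv : v ∉ S)
    {σv : Gal(M/K)} (hσv : IsFrobenius (Algebra.ofId K M) v σv) {F : Type} [Field F]
    [NumberField F] [Algebra K F] (f : F →ₐ[K] M) {B : HeightOneSpectrum (𝓞 F) → Polynomial ℂ}
    (hB : ArtinFactors S ρ f B) (w : Fib F v) (z : ℂ) :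
    (B w.1).eval z = (1 - z • ρ σv ^ fdeg w).det := by
  obtain ⟨σ, hσ⟩ := frob_exists f w.1
  have h1 : ¬ Above S w.1 := by
    rw [above_iff, w.2]
    exact hv
  rw [(hB w.1).2 h1 σ hσ z]
  exact frob_compare hρ hv hσv f w.1 w.2 (nm_fib w) hσ z

/-- all primes -/
theorem good_artin (hρ : Unramified S ρ) {ι : Type} {Z : ι → Ext K}
    (f : ∀ i : Option ι, (Opt Z i).F →ₐ[K] M)
    {B : ∀ i : Option ι, HeightOneSpectrum (𝓞 (Opt Z i).F) → Polynomial ℂ}
    (hB : ∀ i, ArtinFactors S ρ (f i) (B i)) (s : ℂ) (v : HeightOneSpectrum (𝓞 K)) :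
    ∃ G : ℕ → ℂ, ∀ (i : Option ι) (w : Fib (Opt Z i).F v), ef (B i) w.1 s = G (fdeg w) := by
  by_cases hv : v ∈ S
  · refine ⟨fun _ => 1, fun i w => ?_⟩
    have h1 : Above S w.1 := by
      rw [above_iff, w.2]
      exact hv
    rw [ef, ((hB i) w.1).1 h1, Polynomial.eval_one]
  · obtain ⟨σv, hσv⟩ := frob_exists (Algebra.ofId K M) v
    refine ⟨fun k => (1 - ((nm v ^ k : ℕ) : ℂ) ^ (-s) • ρ σv ^ k).det, fun i w => ?_⟩
    have h1 : Ideal.absNorm w.1.asIdeal = nm v ^ fdeg w := nm_fib w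
    rw [ef, artin_factor hρ hv hσv (f i) (hB i) w, h1]

/-- convergence -/
theorem conv_artin (hS : S.Finite) {F : Type} [Field F] [NumberField F]
    [Algebra K F] (f : F →ₐ[K] M) {B : HeightOneSpectrum (𝓞 F) → Polynomial ℂ}
    (hB : ArtinFactors S ρ f B) : ∃ c : ℝ, ∀ s : ℂ, c < s.re →
      HasProd (fun w => (ef B w s)⁻¹) (LFun B s) ∧ LFun B s ≠ 0 := by
  classical
  have hS' : ∀ᶠ v : HeightOneSpectrum (𝓞 K) in cofinite, v ∉ S := by
    rw [eventually_cofinite]
    simpa using hS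
  obtain ⟨c, -, hc⟩ := conv_gen (N := n) (i := 0) (B := B) (by
    filter_upwards [eventually_und (F := F) hS'] with w hw
    obtain ⟨σ, hσ⟩ := frob_exists f w
    have hfin : Finite Gal(M/K) := inferInstance
    obtain ⟨α, h1, h2⟩ := eig_unit (ρ σ) (m := Nat.card Gal(M/K)) Nat.card_pos.ne' (by
      rw [← map_pow, pow_card_eq_one', map_one])
    refine ⟨α, fun l => by rw [h1]; simp, fun z => ?_⟩
    rw [(hB w).2 (by rw [above_iff]; exact hw) σ hσ z, h2]) (by
    intro w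
    by_cases hw : Above S w
    · rw [(hB w).1 hw, Polynomial.eval_one]
    · obtain ⟨σ, hσ⟩ := frob_exists f w
      rw [(hB w).2 hw σ hσ 0, zero_smul, sub_zero, Matrix.det_one])
  exact ⟨c, hc⟩

/-- the Euler factors exist -/
theorem exists_factors (hρ : Unramified S ρ) :
    ∃ B : HeightOneSpectrum (𝓞 K) → Polynomial ℂ, ArtinFactors S ρ (Algebra.ofId K M) B := by
  classical
  choose σ hσ using fun v : HeightOneSpectrum (𝓞 K) => frob_exists (Algebra.ofId K M) v
  have hund : ∀ v : HeightOneSpectrum (𝓞 K), und (K := K) v = v := fun v =>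
    HeightOneSpectrum.ext (Ideal.comap_id _)
  refine ⟨fun v => if v ∈ S then 1 else (ρ (σ v)).charpolyRev, fun v => ⟨fun h => ?_, fun h τ hτ z => ?_⟩⟩
  · rw [above_iff, hund] at h
    exact if_pos h
  · rw [above_iff, hund] at h
    have h0 : (if v ∈ S then (1 : Polynomial ℂ) else (ρ (σ v)).charpolyRev) =
      (ρ (σ v)).charpolyRev := if_neg h
    change Polynomial.eval z (if v ∈ S then (1 : Polynomial ℂ) else (ρ (σ v)).charpolyRev) = _
    rw [h0]
    have h1 := frob_compare hρ h (hσ v) (Algebra.ofId K M) v (hund v) (k := 1)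
      (by rw [pow_one]) hτ z
    rw [h1, pow_one, Matrix.charpolyRev, ← Polynomial.coe_evalRingHom, RingHom.map_det]
    congr 1
    ext i j
    by_cases hij : i = j
    · simp [hij]
      ring
    · simp [hij]
      ring

/-- **The relation for the leading coefficients.** -/
theorem lead_rel_stark (hS : S.Finite) (hρ : Unramified S ρ) {ι : Type} [Fintype ι] {Z : ι → Ext K}
    {e : ι → ℤ} (h : IsRel K Z e 1) (f : ∀ i, (Z i).F →ₐ[K] M) {c : ι → ℂ}
    (hc : ∀ i, IsLeading S ρ (f i) (c i)) :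
    IsLeading S ρ (Algebra.ofId K M) (∏ i, c i ^ e i) := by
  classical
  choose B Λ hB hΛ hlead using hc
  obtain ⟨B₀, hB₀⟩ := exists_factors hρ
  let ff : ∀ i : Option ι, (Opt Z i).F →ₐ[K] M := fun i =>
    match i with
    | none => Algebra.ofId K M
    | some i => f i
  let BB : ∀ i : Option ι, HeightOneSpectrum (𝓞 (Opt Z i).F) → Polynomial ℂ := fun i =>
    match i with
    | none => B₀
    | some i => B i
  have hBB : ∀ i, ArtinFactors S ρ (ff i) (BB i) := by
    rintro (_ | i)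
    · exact hB₀
    · exact hB i
  choose hΛ1 d hd using hΛ
  obtain ⟨D, hD⟩ : ∃ D : ℝ, ∀ i, d i ≤ D := by
    obtain ⟨D, hD⟩ := (Set.finite_range d).bddAbove
    exact ⟨D, fun i => hD ⟨i, rfl⟩⟩
  choose a ha using fun i => conv_artin hS (ff i) (hBB i)
  obtain ⟨A, hA⟩ : ∃ A : ℝ, ∀ i, a i ≤ A := by
    obtain ⟨A, hA⟩ := (Set.finite_range a).bddAbove
    exact ⟨A, fun i => hA ⟨i, rfl⟩⟩
  have hrel : ∀ s : ℂ, max A D < s.re → LFun B₀ s ^ 1 = 1 * ∏ i, Λ i s ^ e i := by
    intro s hs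
    have h1 := rel_euler_exact h (fun i w => ef (BB i) w s) (good_artin hρ ff hBB s)
      (fun i => LFun (BB i) s) (fun i => ha i s (((hA i).trans (le_max_left A D)).trans_lt hs))
    rw [one_mul]
    refine Eq.trans h1 (Finset.prod_congr rfl fun i _ => ?_)
    rw [hd i s (((hD i).trans (le_max_right A D)).trans_lt hs), pow_one]
    rfl
  obtain ⟨⟨Λ0, h2, h3, h4⟩, -⟩ := lead_rel_abs (U := Set.univ) (c := max A D) (s₀ := 0)
    isPreconnected_univ (fun s _ => Set.mem_univ s) (Set.mem_univ _) (m := 1)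
    (L₀ := LFun B₀) (R := fun _ => 1) (fun x _ => analyticAt_const.meromorphicAt)
    ⟨analyticAt_const, one_ne_zero⟩ hrel (fun i => hΛ1 i)
  refine ⟨B₀, Λ0, hB₀, ⟨h2, max A D, h3⟩, ?_⟩
  rw [h4, one_mul]
  exact Finset.prod_congr rfl fun i _ => congrArg (· ^ e i) (hlead i)

/-- **The relation for the quotients.** -/
theorem quotient_rel (hS : S.Finite) (hρ : Unramified S ρ) {ι : Type} [Fintype ι] {Z : ι → Ext K}
    {e : ι → ℤ} (h : IsRel K Z e 1) (f : ∀ i, (Z i).F →ₐ[K] M) {T : (Place S M → ℂ) →ₗ[ℂ] (Place S M → ℂ)}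
    (hT : IsStarkMap S T) {A : ι → ℂ} (hA : ∀ i, IsStarkQuotient S ρ T (f i) (A i)) :
    IsStarkQuotient S ρ T (Algebra.ofId K M) (∏ i, A i ^ e i) := by
  choose R c hR hc hA using hA
  obtain ⟨-, R0, h1, -, h2⟩ := regulator_rel_stark ρ hS h f hT hR
  refine ⟨R0, ∏ i, c i ^ e i, h1, lead_rel_stark hS hρ h f hc, ?_⟩
  rw [pow_one] at h2
  rw [h2, ← Finset.prod_div_distrib]
  refine Finset.prod_congr rfl fun i _ => ?_
  rw [hA i, div_zpow]

omit [NumberField K] [NumberField M] [IsGalois K M] in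
theorem unramified_conj (hρ : Unramified S ρ) (σ : ℂ ≃+* ℂ) : Unramified S (conj ρ σ) := by
  intro P hP g hg
  have h1 := hρ P hP g hg
  change ((σ : ℂ →+* ℂ).mapMatrix : Matrix (Fin n) (Fin n) ℂ →+* Matrix (Fin n) (Fin n) ℂ) (ρ g) = 1
  rw [h1, map_one]

/-- **Stark's conjecture.** -/
theorem stark_of_rel (hS : S.Finite) (hρ : Unramified S ρ) {ι : Type} [Fintype ι] {Z : ι → Ext K}
    {e : ι → ℤ} (h : IsRel K Z e 1) (f : ∀ i, (Z i).F →ₐ[K] M) {T : (Place S M → ℂ) →ₗ[ℂ] (Place S M → ℂ)}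
    (hT : IsStarkMap S T) (hA : ∀ i, StarkConjecture S ρ T (f i)) :
    StarkConjecture S ρ T (Algebra.ofId K M) := by
  intro σ
  choose A hA1 hA2 using fun i => hA i σ
  refine ⟨∏ i, A i ^ e i, quotient_rel hS hρ h f hT hA1, ?_⟩
  have h1 := quotient_rel hS (unramified_conj hρ σ) h f hT hA2
  rw [map_prod]
  simp only [map_zpow₀]
  exact h1

end

end Pool.Agent.N19.BR
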