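import Pool.Agent.N19.BR.GenMod
import Pool.Agent.N19.BR.EqDefs
import Pool.Agent.N19.BR.StMain

/-! The equivariant Beilinson conjecture and relations. -/

set_option autoImplicit false

namespace Pool.Agent.N19.BR

open NumberField IsDedekindDomain Module Filter
open Pool.Agent.R433.MD
open Pool.Agent.W353.EF (LFun)
open Pool.Agent.N19.BR.SDef (ArtinFactors conj Unramified)
open Pool.Agent.N19.BR.MDef (Continues)
open Pool.Agent.N19.BR.EqDef

section
variable {K : Type} [Field K] [NumberField K] {S : Set (HeightOneSpectrum (𝓞 K))}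
  {M : Type} [Field M] [NumberField M] [Algebra K M] [IsGalois K M] {n : ℕ}
  {ρ : Gal(M/K) →* Matrix (Fin n) (Fin n) ℂ}

/-- **The relation for the leading coefficients at any point.** -/
theorem lead_rel_at (hS : S.Finite) (hρ : Unramified S ρ) {ι : Type} [Fintype ι] {Z : ι → Ext K}
    {e : ι → ℤ} (h : IsRel K Z e 1) (f : ∀ i, (Z i).F →ₐ[K] M) {c : ι → ℂ} {s₀ : ℂ}
    (hc : ∀ i, ∃ (B : HeightOneSpectrum (𝓞 (Z i).F) → Polynomial ℂ) (Λ : ℂ → ℂ),
      ArtinFactors S ρ (f i) B ∧ Continues Set.univ B 1 Λ ∧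
        meromorphicTrailingCoeffAt Λ s₀ = c i) :
    ∃ (B : HeightOneSpectrum (𝓞 K) → Polynomial ℂ) (Λ : ℂ → ℂ),
      ArtinFactors S ρ (Algebra.ofId K M) B ∧ Continues Set.univ B 1 Λ ∧
        meromorphicTrailingCoeffAt Λ s₀ = ∏ i, c i ^ e i := by
  classical
  choose B Λ hB hΛ hlead using hc
  obtain ⟨B₀, hB₀⟩ := exists_factors hρ
  let ff : ∀ i : Option ι, (Opt Z i).F →ₐ[K] M := fun i =>
    match i with
    | none => Algebra.ofId K M
    | some i => f i
  let BB : ∀ i : Option ι, HeightOneSpectrum (𝓞 (Opt Z i).F) → Polynomial ℂ := fun i =>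
    match i with
    | none => B₀
    | some i => B i
  have hBB : ∀ i, ArtinFactors S ρ (ff i) (BB i) := by
    rintro (_ | i)
    · exact hB₀
    · exact hB i
  choose hΛ1 d hd using hΛ
  obtain ⟨D, hD⟩ : ∃ D : ℝ, ∀ i, d i ≤ D := by
    obtain ⟨D, hD⟩ := (Set.finite_range d).bddAbove
    exact ⟨D, fun i => hD ⟨i, rfl⟩⟩
  choose a ha using fun i => conv_artin hS (ff i) (hBB i)
  obtain ⟨A, hA⟩ : ∃ A : ℝ, ∀ i, a i ≤ A := by
    obtain ⟨A, hA⟩ := (Set.finite_range a).bddAbove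
    exact ⟨A, fun i => hA ⟨i, rfl⟩⟩
  have hrel : ∀ s : ℂ, max A D < s.re → LFun B₀ s ^ 1 = 1 * ∏ i, Λ i s ^ e i := by
    intro s hs
    have h1 := rel_euler_exact h (fun i w => ef (BB i) w s) (good_artin hρ ff hBB s)
      (fun i => LFun (BB i) s) (fun i => ha i s (((hA i).trans (le_max_left A D)).trans_lt hs))
    rw [one_mul]
    refine Eq.trans h1 (Finset.prod_congr rfl fun i _ => ?_)
    rw [hd i s (((hD i).trans (le_max_right A D)).trans_lt hs), pow_one]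
    rfl
  obtain ⟨⟨Λ0, h2, h3, h4⟩, -⟩ := lead_rel_abs (U := Set.univ) (c := max A D) (s₀ := s₀)
    isPreconnected_univ (fun s _ => Set.mem_univ s) (Set.mem_univ _) (m := 1)
    (L₀ := LFun B₀) (R := fun _ => 1) (fun x _ => analyticAt_const.meromorphicAt)
    ⟨analyticAt_const, one_ne_zero⟩ hrel (fun i => hΛ1 i)
  refine ⟨B₀, Λ0, hB₀, ⟨h2, max A D, h3⟩, ?_⟩
  rw [h4, one_mul]
  exact Finset.prod_congr rfl fun i _ => congrArg (· ^ e i) (hlead i)

/-- `ℂ ⊗ V^+` -/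
def VV (k : ℕ) (M : Type) [Field M] : Submodule ℂ ((M →+* ℂ) → ℂ) where
  carrier := {a | InV k a}
  zero_mem' := fun τ => by simp
  add_mem' := fun {a b} ha hb τ => by
    change a _ + b _ = _ * (a τ + b τ)
    rw [ha τ, hb τ]
    ring
  smul_mem' := fun c a ha τ => by
    change c * a _ = _ * (c * a τ)
    rw [ha τ]
    ring

omit [NumberField K] [NumberField M] [IsGalois K M] in
theorem isAct_V (k : ℕ) : IsAct (moveEmb : Gal(M/K) → (M →+* ℂ) → (M →+* ℂ)) (VV k M) where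
  one τ := by
    ext x
    change τ (((1 : Gal(M/K))⁻¹ : Gal(M/K)) x) = τ x
    rw [inv_one]
    rfl
  mul σ σ' τ := by
    ext x
    change τ (((σ * σ')⁻¹ : Gal(M/K)) x) = τ ((σ'⁻¹ : Gal(M/K)) ((σ⁻¹ : Gal(M/K)) x))
    rw [mul_inv_rev]
    rfl
  stab σ a ha τ := by
    change a _ = _ * a _
    exact ha (moveEmb σ τ)

omit [NumberField K] [NumberField M] [IsGalois K M] in
theorem isRegulator_iff {k : ℕ} {T : ((M →+* ℂ) → ℂ) →ₗ[ℂ] ((M →+* ℂ) → ℂ)}
    {F : Type} [Field F] [Algebra K F] (f : F →ₐ[K] M) {R : ℂ} :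
    IsRegulator k ρ T f R ↔ IsDetW moveEmb (VV k M) ρ f.fieldRange.fixingSubgroup T R := by
  have h1 : ∀ u : Fin n → (M →+* ℂ) → ℂ, InHoms k ρ f u ↔
      InHomsW moveEmb (VV k M) ρ f.fieldRange.fixingSubgroup u := by
    intro u
    unfold InHoms InHomsW
    refine and_congr Iff.rfl ?_
    refine forall_congr' fun σ => ?_
    rw [mem_fixing]
  unfold IsRegulator IsDetW
  simp only [h1]

/-- **The relation for the quotients.** -/
theorem eq_quotient_rel {k : ℕ} (hS : S.Finite) (hρ : Unramified S ρ) {ι : Type} [Fintype ι]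
    {Z : ι → Ext K} {e : ι → ℤ} (h : IsRel K Z e 1) (f : ∀ i, (Z i).F →ₐ[K] M)
    {H : Set ((M →+* ℂ) → ℂ)} {T : ((M →+* ℂ) → ℂ) →ₗ[ℂ] ((M →+* ℂ) → ℂ)}
    (hT : IsComparison k K H T) {A : ι → ℂ} (hA : ∀ i, IsQuotient k S ρ T (f i) (A i)) :
    IsQuotient k S ρ T (Algebra.ofId K M) (∏ i, A i ^ e i) := by
  classical
  choose R c hR hc hA using hA
  have hfin : Finite (M →+* ℂ) := inferInstance
  have hfd : FiniteDimensional ℂ (VV k M) := inferInstance
  obtain ⟨-, R0, h1, -, h2⟩ := detW_rel (isAct_V (K := K) (M := M) k) ρ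
    (fun i => (f i).fieldRange.fixingSubgroup) e 1 (fx_of_isRel h f) (T := T) hT.1 hT.2.1
    hT.2.2.1 (fun i => (isRegulator_iff (f i)).1 (hR i))
    (Algebra.ofId K M).fieldRange.fixingSubgroup (fun σ => by
      rw [mem_fixing]
      exact fun x => σ.commutes x)
  refine ⟨R0, ∏ i, c i ^ e i, (isRegulator_iff _).2 h1, lead_rel_at hS hρ h f hc, ?_⟩
  rw [pow_one] at h2
  rw [h2, ← Finset.prod_div_distrib]
  refine Finset.prod_congr rfl fun i _ => ?_
  rw [hA i, div_zpow]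

/-- **The equivariant Beilinson conjecture.** -/
theorem beilinson_of_rel {k : ℕ} (hS : S.Finite) (hρ : Unramified S ρ) {ι : Type} [Fintype ι]
    {Z : ι → Ext K} {e : ι → ℤ} (h : IsRel K Z e 1) (f : ∀ i, (Z i).F →ₐ[K] M)
    {H : Set ((M →+* ℂ) → ℂ)} {T : ((M →+* ℂ) → ℂ) →ₗ[ℂ] ((M →+* ℂ) → ℂ)}
    (hT : IsComparison k K H T) (hA : ∀ i, EquivariantBeilinson k S ρ T (f i)) :
    EquivariantBeilinson k S ρ T (Algebra.ofId K M) := by
  intro σ
  choose A hA1 hA2 using fun i => hA i σ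
  refine ⟨∏ i, A i ^ e i, eq_quotient_rel hS hρ h f hT hA1, ?_⟩
  have h1 := eq_quotient_rel hS (unramified_conj hρ σ) h f hT hA2
  rw [map_prod]
  simp only [map_zpow₀]
  exact h1

end

end Pool.Agent.N19.BR
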