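import Pool.Agent.N19.BR.Defs

/-!
# The functional equation of semistable elliptic curves over number fields: definitions

`V v` is, for every prime `v` of the number field `F`, an integral Weierstrass equation of the elliptic
curve `E` with discriminant minimal at `v`.
-/

set_option autoImplicit false

namespace Pool.Agent.N19.BR.FDef

open NumberField IsDedekindDomain
open Pool.Agent.N19.BR.Def (MinimalModels Continues)

variable {F : Type} [Field F] [NumberField F]

/-- `E` is semistable: at every prime it has an integral Weierstrass equation whose reduction is smooth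
(the discriminant is not in `v`) or has a node (`c₄` is not in `v`). -/
def Semistable (E : WeierstrassCurve F) : Prop :=
  ∀ v : HeightOneSpectrum (𝓞 F), ∃ W : WeierstrassCurve (𝓞 F),
    (∃ C : WeierstrassCurve.VariableChange F, C • W.map (algebraMap (𝓞 F) F) = E) ∧
      (W.Δ ∉ v.asIdeal ∨ W.c₄ ∉ v.asIdeal)

/-- the primes of bad reduction -/
def badPrimes (V : HeightOneSpectrum (𝓞 F) → WeierstrassCurve (𝓞 F)) :
    Set (HeightOneSpectrum (𝓞 F)) := {v | (V v).Δ ∈ v.asIdeal}

/-- The primes of bad reduction with `a_v = 1` (split multiplicative reduction): the reduction of `V v` has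
`q_v - 1` affine points. -/
def splitPrimes (V : HeightOneSpectrum (𝓞 F) → WeierstrassCurve (𝓞 F)) :
    Set (HeightOneSpectrum (𝓞 F)) :=
  {v | (V v).Δ ∈ v.asIdeal ∧ Nat.card {xy : (𝓞 F ⧸ v.asIdeal) × (𝓞 F ⧸ v.asIdeal) //
    ((V v).map (Ideal.Quotient.mk v.asIdeal)).toAffine.Equation xy.1 xy.2} + 1 =
      Ideal.absNorm v.asIdeal}

/-- The number `N = |Δ_F| ^ 2 N(f)`, where the conductor ideal `f` of the semistable curve `E` is the
product of the primes of bad reduction. -/
noncomputable def level (V : HeightOneSpectrum (𝓞 F) → WeierstrassCurve (𝓞 F)) : ℕ :=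
  (discr F).natAbs ^ 2 * ∏ᶠ v ∈ badPrimes V, Ideal.absNorm v.asIdeal

/-- The root number of the semistable curve `E`: the product of a factor `-1` for every archimedean place
and for every prime of split multiplicative reduction. -/
noncomputable def rootNumber (V : HeightOneSpectrum (𝓞 F) → WeierstrassCurve (𝓞 F)) : ℤ :=
  (-1) ^ (Nat.card (InfinitePlace F) + (splitPrimes V).ncard)

/-- `L*(s) = N^{s/2} π^{-ds} (Γ(s/2) Γ((s+1)/2))^d L(s)`, `d = [F : ℚ]` -/
noncomputable def completed (V : HeightOneSpectrum (𝓞 F) → WeierstrassCurve (𝓞 F)) (Λ : ℂ → ℂ)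
    (s : ℂ) : ℂ :=
  (level V : ℂ) ^ (s / 2) * (Real.pi : ℂ) ^ (-(Module.finrank ℚ F : ℂ) * s) *
    (Complex.Gamma (s / 2) * Complex.Gamma ((s + 1) / 2)) ^ Module.finrank ℚ F * Λ s

/-- The Hasse-Weil conjecture for the semistable curve `E` with a meromorphic instead of an entire
continuation: `L(E / F, s)` has a meromorphic continuation `Λ` to the complex plane, and the
functional equation `w L*(s) = L*(2 - s)` holds for the completed function `L*`, as an equation between
meromorphic functions, i.e. for all `s` outside a closed discrete set. -/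
def HasseWeil (E : WeierstrassCurve F) : Prop :=
  ∃ Λ : ℂ → ℂ, Continues Set.univ 1 E Λ ∧
    ∀ V : HeightOneSpectrum (𝓞 F) → WeierstrassCurve (𝓞 F), MinimalModels E V →
      ∀ᶠ s in Filter.codiscrete ℂ,
        (rootNumber V : ℂ) * completed V Λ s = completed V Λ (2 - s)

end Pool.Agent.N19.BR.FDef
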