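import Pool.Agent.N19.BR.Core
import Pool.Agent.N19.BR.Defs

/-! The two lists of fields. -/

set_option autoImplicit false

namespace Pool.Agent.N19.BR

open NumberField IsDedekindDomain
open Pool.Agent.R433.MD
open Pool.Agent.N19.BR.Def

section
variable {K : Type} [Field K] [NumberField K]

theorem IsRel.reindex {ι κ : Type} [Fintype ι] [Fintype κ] (f : κ ≃ ι) {Z : ι → Ext K} {e : ι → ℤ}
    {m : ℕ} (h : IsRel K Z e m) : IsRel K (fun j => Z (f j)) (fun j => e (f j)) m := by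
  intro Ω _ _ _ σ
  rw [← h Ω σ]
  exact Equiv.sum_comp f (fun i => e i * (cnt (Z i).F σ : ℤ))

theorem cyclicOver_of {L : Type} [Field L] [Algebra K L] {Z : Ext K} (h : Cyc 0 L Z) :
    CyclicOver L Z := by
  obtain ⟨M, hM, hc, g⟩ := h
  refine ⟨M, hM, ?_, g⟩
  rcases hc with ⟨-, hc⟩ | ⟨h0, -⟩
  · exact isCyclic_of_surjective (Subgroup.topEquiv (G := Gal(M.F/Z.F))).toMonoidHom
      (Subgroup.topEquiv (G := Gal(M.F/Z.F))).surjective
  · exact absurd h0 Nat.not_prime_zero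

theorem hyperOver_of {p : ℕ} (hp : p.Prime) {L : Type} [Field L] [Algebra K L] {Z : Ext K}
    (h : Cyc p L Z) : HyperelementaryOver p L Z := by
  obtain ⟨M, hM, hc, g⟩ := h
  refine ⟨M, hM, ?_, g⟩
  rcases hc with ⟨h0, -⟩ | ⟨-, C, -, hcyc, hcop, hnorm, hpow⟩
  · exact absurd h0 hp.ne_zero
  · have hn : C.Normal := ⟨fun c hc g => hnorm g trivial c hc⟩
    refine ⟨C, hn, hcyc, hcop, ?_⟩
    have hfact : Fact p.Prime := ⟨hp⟩
    have hpg : IsPGroup p (Gal(M.F/Z.F) ⧸ C) := by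
      intro x
      obtain ⟨y, rfl⟩ := QuotientGroup.mk_surjective x
      obtain ⟨k, hk⟩ := hpow y trivial
      refine ⟨k, ?_⟩
      rw [← QuotientGroup.mk_pow, QuotientGroup.eq_one_iff]
      exact hk
    obtain ⟨k, hk⟩ := IsPGroup.iff_card.1 hpg
    exact ⟨k, hk⟩

variable (K) (L : Type) [Field L] [NumberField L] [Algebra K L] [IsGalois K L]
  {S : Set (HeightOneSpectrum (𝓞 K))} (hS : S.Finite) {n : ℕ} (hn : n ≠ 0)

include hS hn

/-- the list for cyclic groups -/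
theorem list_cyclic : ∃ (r : ℕ) (Z : Fin r → Ext K) (e : Fin r → ℤ) (m : ℕ), m ≠ 0 ∧
    IsRel K Z e m ∧ ∀ i, CyclicOver L (Z i) ∧ LocalDegreesDivisible S n (Z i) ∧
      AtMostTwoRealPlaces (Z i) := by
  obtain ⟨ι, hι, Z, e, m, hm, hr, hP⟩ := core (Or.inl rfl) K L hS hn
    (fun h => absurd h Nat.not_prime_zero)
  let f : Fin (Fintype.card ι) ≃ ι := (Fintype.equivFin ι).symm
  refine ⟨Fintype.card ι, fun j => Z (f j), fun j => e (f j), m,
    fun h => hm (by rw [h]), hr.reindex f, fun j => ?_⟩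
  obtain ⟨h1, h2, h3⟩ := hP (f j)
  exact ⟨cyclicOver_of h1, h2, h3 (by norm_num)⟩

/-- the list for hyperelementary groups -/
theorem list_hyper : ∃ (r : ℕ) (Z : Fin r → Ext K) (e : Fin r → ℤ), IsRel K Z e 1 ∧
    ∀ i, ∃ p : ℕ, p.Prime ∧ HyperelementaryOver p L (Z i) ∧
      (∀ k : ℕ, k ∣ n → k.Coprime p → LocalDegreesDivisible S k (Z i)) ∧
      (p ≠ 2 → AtMostTwoRealPlaces (Z i)) := by
  obtain ⟨ι, hι, Z, e, hr, hP⟩ := exact_rel (K := K) (P := fun Z => ∃ p : ℕ, p.Prime ∧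
      HyperelementaryOver p L Z ∧ (∀ k : ℕ, k ∣ n → k.Coprime p → LocalDegreesDivisible S k Z) ∧
      (p ≠ 2 → AtMostTwoRealPlaces Z)) (by
    intro p hp
    have hc0 : n / p ^ n.factorization p ≠ 0 :=
      (Nat.div_pos (Nat.le_of_dvd (Nat.pos_of_ne_zero hn) (Nat.ordProj_dvd n p))
        (pow_pos hp.pos _)).ne'
    refine (core (Or.inr hp) K L hS hc0
      (fun _ => (Nat.coprime_ordCompl hp hn).symm)).mono ?_
    rintro Z ⟨h1, h2, h3⟩
    refine ⟨p, hp, hyperOver_of hp h1, fun k hk hkp v hv w hw hwv => ?_, h3⟩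
    refine dvd_trans ?_ (h2 v hv w hw hwv)
    have h4 : k ∣ p ^ n.factorization p * (n / p ^ n.factorization p) := by
      rw [Nat.ordProj_mul_ordCompl_eq_self]
      exact hk
    exact (Nat.Coprime.pow_right _ hkp).dvd_of_dvd_mul_left h4)
  let f : Fin (Fintype.card ι) ≃ ι := (Fintype.equivFin ι).symm
  exact ⟨Fintype.card ι, fun j => Z (f j), fun j => e (f j), hr.reindex f, fun j => hP (f j)⟩

end

end Pool.Agent.N19.BR
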