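import Pool.Agent.N19.BR.SS
import Pool.Agent.N19.BR.Main

/-! Relations and the functional equation for semistable elliptic curves. -/

set_option autoImplicit false

namespace Pool.Agent.N19.BR

open NumberField IsDedekindDomain
open Pool.Agent.R433.MD
open Pool.Agent.H341R2.EC (IsModel IsMinAt red aff trc dlt finite_mem)
open Pool.Agent.H921R2.TatePole (nm two_le_nm)
open Pool.Agent.N19.BR.Def
open Pool.Agent.N19.BR.FDef
open scoped Classical

theorem ints_codiscrete : ∀ᶠ s : ℂ in Filter.codiscrete ℂ, ∀ n : ℤ, s ≠ (n : ℂ) := by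
  have h1 : Topology.IsClosedEmbedding (fun n : ℤ => ((n : ℝ) : ℂ)) :=
    Complex.isometry_ofReal.isClosedEmbedding.comp Int.isClosedEmbedding_coe_real
  have h2 : {s : ℂ | ∀ n : ℤ, s ≠ (n : ℂ)} = (Set.range fun n : ℤ => ((n : ℝ) : ℂ))ᶜ := by
    ext s
    simp only [Set.mem_ofPred_eq, Set.mem_compl_iff, Set.mem_range, not_exists]
    refine forall_congr' fun n => ?_
    rw [ne_comm]
    push_cast
    rfl
  rw [Filter.Eventually, h2, mem_codiscrete', compl_compl]
  exact ⟨h1.isClosed_range.isOpen_compl, ⟨h1.isEmbedding.toHomeomorph.discreteTopology⟩⟩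

/-- the factor for one dimension -/
noncomputable def gf (s : ℂ) : ℂ :=
  (Real.pi : ℂ) ^ (-s) * (Complex.Gamma (s / 2) * Complex.Gamma ((s + 1) / 2))

theorem prod_zpow_sum {ι : Type} (T : Finset ι) {x : ℂ} (hx : x ≠ 0) (f : ι → ℤ) :
    ∏ i ∈ T, x ^ f i = x ^ ∑ i ∈ T, f i := by
  induction T using Finset.induction_on with
  | empty => simp
  | insert a T ha ih => rw [Finset.prod_insert ha, Finset.sum_insert ha, zpow_add₀ hx, ih]

theorem gf_ne_zero {s : ℂ} (hs : ∀ n : ℤ, s ≠ n) : gf s ≠ 0 := by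
  refine mul_ne_zero ?_ (mul_ne_zero ?_ ?_)
  · rw [Ne, Complex.cpow_eq_zero_iff]
    rintro ⟨h, -⟩
    exact Real.pi_ne_zero (by exact_mod_cast h)
  · refine Complex.Gamma_ne_zero fun m hm => hs (-2 * m) ?_
    push_cast
    linear_combination 2 * hm
  · refine Complex.Gamma_ne_zero fun m hm => hs (-2 * m - 1) ?_
    push_cast
    linear_combination 2 * hm

section
variable {F : Type} [Field F] [NumberField F]

theorem aff_eq_card (V : HeightOneSpectrum (𝓞 F) → WeierstrassCurve (𝓞 F))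
    (v : HeightOneSpectrum (𝓞 F)) : Nat.card {xy : (𝓞 F ⧸ v.asIdeal) × (𝓞 F ⧸ v.asIdeal) //
      ((V v).map (Ideal.Quotient.mk v.asIdeal)).toAffine.Equation xy.1 xy.2} =
      aff (red v (V v)) := by
  unfold aff red
  refine Nat.card_congr (Equiv.subtypeEquivRight fun xy => ?_)
  rw [WeierstrassCurve.Affine.equation_iff]

theorem finprod_pos {A : Set (HeightOneSpectrum (𝓞 F))} (hA : A.Finite) :
    0 < ∏ᶠ v ∈ A, Ideal.absNorm v.asIdeal := by
  rw [finprod_mem_eq_finite_toFinset_prod _ hA]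
  exact Finset.prod_pos fun v _ => Nat.pos_of_ne_zero fun h =>
    v.ne_bot (Ideal.absNorm_eq_zero_iff.1 h)

theorem log_level {V : HeightOneSpectrum (𝓞 F) → WeierstrassCurve (𝓞 F)}
    (hA : (badPrimes V).Finite) : 0 < level V ∧ Real.log (level V : ℝ) = 2 * ldisc F +
      ∑ᶠ v, if v ∈ badPrimes V then Real.log (nm v : ℝ) else 0 := by
  have h0 : ((discr F).natAbs : ℝ) ≠ 0 := by
    exact_mod_cast Int.natAbs_ne_zero.2 (discr_ne_zero F)
  have h1 := finprod_pos hA
  refine ⟨Nat.mul_pos (pow_pos (Nat.pos_of_ne_zero (Int.natAbs_ne_zero.2 (discr_ne_zero F))) 2) h1,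
    ?_⟩
  unfold level
  rw [Nat.cast_mul, Nat.cast_pow, Real.log_mul (pow_ne_zero _ h0) (by exact_mod_cast h1.ne'),
    Real.log_pow]
  congr 1
  rw [finprod_mem_eq_finite_toFinset_prod _ hA, Nat.cast_prod, Real.log_prod (fun v _ => by
    exact_mod_cast fun h => v.ne_bot (Ideal.absNorm_eq_zero_iff.1 h))]
  rw [finsum_eq_sum_of_support_subset (s := hA.toFinset) _ (fun v hv => by
    rw [Set.Finite.coe_toFinset]
    by_contra h
    exact hv (if_neg h))]
  refine Finset.sum_congr rfl fun v hv => ?_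
  rw [if_pos (hA.mem_toFinset.1 hv)]
  rfl

theorem ncard_split {A : Set (HeightOneSpectrum (𝓞 F))} (hA : A.Finite) :
    ∑ᶠ v, (if v ∈ A then (1 : ℤ) else 0) = A.ncard := by
  rw [finsum_eq_sum_of_support_subset (s := hA.toFinset) _ (fun v hv => by
    rw [Set.Finite.coe_toFinset]
    by_contra h
    exact hv (if_neg h)), Set.ncard_eq_toFinset_card A hA]
  rw [Finset.sum_congr rfl fun v hv => if_pos (hA.mem_toFinset.1 hv), Finset.sum_const,
    nsmul_eq_mul, mul_one]

theorem completed_eq {V : HeightOneSpectrum (𝓞 F) → WeierstrassCurve (𝓞 F)} (h0 : 0 < level V)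
    (Λ : ℂ → ℂ) (s : ℂ) : completed V Λ s =
      Complex.exp ((Real.log (level V : ℝ) : ℂ) * (s / 2)) * gf s ^ Module.finrank ℚ F * Λ s := by
  unfold completed gf
  have h1 : (level V : ℂ) ≠ 0 := by exact_mod_cast h0.ne'
  have h2 : (level V : ℂ) = ((level V : ℝ) : ℂ) := by push_cast; rfl
  have h3 : -(Module.finrank ℚ F : ℂ) * s = (Module.finrank ℚ F : ℂ) * (-s) := by ring
  rw [Complex.cpow_def_of_ne_zero h1, h2, ← Complex.ofReal_log (Nat.cast_nonneg _), h3,
    Complex.cpow_nat_mul, mul_pow]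
  ring

end

section
variable {K : Type} [Field K] [NumberField K] {ι : Type} [Fintype ι] {Z : ι → Ext K}
  {e : ι → ℤ} {m : ℕ} {E : WeierstrassCurve K}

/-- the set of the bad primes is finite -/
theorem exists_bad (hE : E.IsElliptic) : ∃ S : Finset (HeightOneSpectrum (𝓞 K)),
    ∀ (F : Type) [Field F] [NumberField F] [Algebra K F]
      (V : HeightOneSpectrum (𝓞 F) → WeierstrassCurve (𝓞 F)),
      (∀ w, IsMinAt (E.map (algebraMap K F)) w (V w)) →
        (∀ w ∈ badPrimes V, und (K := K) w ∈ S) ∧ (badPrimes V).Finite := by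
  obtain ⟨W, hW, hΔ⟩ := exists_model E hE
  have hfin : {v : HeightOneSpectrum (𝓞 K) | W.Δ ∈ v.asIdeal}.Finite := finite_mem hΔ
  refine ⟨hfin.toFinset, fun F _ _ _ V hV => ?_⟩
  have h1 : ∀ w ∈ badPrimes V, algebraMap (𝓞 K) (𝓞 F) W.Δ ∈ w.asIdeal := by
    intro w hw
    have h2 := (hV w).2 _ (isModel_up hW) 1 (by rw [pow_one]; exact hw)
    rw [pow_one, WeierstrassCurve.map_Δ] at h2
    exact h2
  refine ⟨fun w hw => hfin.mem_toFinset.2 (h1 w hw), ?_⟩
  have h0 : algebraMap (𝓞 K) (𝓞 F) W.Δ ≠ 0 := by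
    rwa [Ne, map_eq_zero_iff _ (RingOfIntegers.algebraMap.injective K F)]
  exact (finite_mem h0).subset h1

/-- the system of models -/
noncomputable def optV (V0 : HeightOneSpectrum (𝓞 K) → WeierstrassCurve (𝓞 K))
    (VZ : ∀ i, HeightOneSpectrum (𝓞 (Z i).F) → WeierstrassCurve (𝓞 (Z i).F)) :
    ∀ i : Option ι, HeightOneSpectrum (𝓞 (Opt Z i).F) → WeierstrassCurve (𝓞 (Opt Z i).F)
  | none => V0
  | some i => VZ i

variable (hE : E.IsElliptic) (hs : Semistable E)
  {V0 : HeightOneSpectrum (𝓞 K) → WeierstrassCurve (𝓞 K)} (hV0 : ∀ v, IsMinAt E v (V0 v))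
  {VZ : ∀ i, HeightOneSpectrum (𝓞 (Z i).F) → WeierstrassCurve (𝓞 (Z i).F)}
  (hVZ : ∀ i w, IsMinAt (E.map (algebraMap K (Z i).F)) w (VZ i w))

include hV0 hVZ in
omit [Fintype ι] in
theorem optV_min : ∀ i w, IsMinAt (E.map (algebraMap K (Opt Z i).F)) w (optV V0 VZ i w) := by
  rintro (_ | i)
  · intro w
    change IsMinAt (E.map (algebraMap K (Ext.self K).F)) w (V0 w)
    rw [map_self]
    exact hV0 w
  · exact hVZ i

include hE hs hV0 hVZ

/-- **Exact relation between the L-functions.** -/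
theorem LL_exact (h : IsRel K Z e m) {s : ℂ} (hs' : 3 / 2 < s.re) :
    LL V0 s ^ m = ∏ i, LL (VZ i) s ^ e i := by
  have hmin := optV_min hV0 hVZ
  have h1 := rel_euler_exact h (fun i w => lf (optV V0 VZ i) s w) (by
    intro v
    obtain ⟨g, b, hg⟩ := ss_data hE hs v
    refine ⟨fun n => 1 - (((nm v : ℤ) ^ n - (g n : ℤ) : ℤ) : ℂ) * ((nm v ^ n : ℕ) : ℂ) ^ (-s) +
      (if b then 0 else 1) * ((nm v ^ n : ℕ) : ℂ) ^ (1 - 2 * s), fun i w => ?_⟩
    obtain ⟨h1, h2⟩ := hg (Opt Z i).F (optV V0 VZ i) (hmin i) w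
    unfold lf trc dlt
    rw [h1, nm_fib w, if_congr h2 rfl rfl]
    push_cast
    rfl) (fun i => LL (optV V0 VZ i) s)
    (fun i => hasProd_lf _ inferInstance (optV V0 VZ i) (hmin i) hs')
  exact h1

/-- the relation between the levels -/
theorem level_rel (h : IsRel K Z e m) :
    ∑ i, (e i : ℝ) * Real.log (level (VZ i) : ℝ) = m * Real.log (level V0 : ℝ) := by
  have hmin := optV_min hV0 hVZ
  obtain ⟨S, hS⟩ := exists_bad hE
  have h1 := glob_rel h (M := ℝ) (fun i w =>
      if w ∈ badPrimes (optV V0 VZ i) then Real.log (nm w : ℝ) else 0) S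
    (fun i w hw => (hS (Opt Z i).F (optV V0 VZ i) (hmin i)).1 w (by
      by_contra h
      exact hw (if_neg h))) (by
    intro v
    obtain ⟨g, b, hg⟩ := ss_data hE hs v
    refine ⟨fun n => if b then Real.log ((nm v : ℝ) ^ n) else 0, fun i w => ?_⟩
    obtain ⟨h1, h2⟩ := hg (Opt Z i).F (optV V0 VZ i) (hmin i) w
    rw [nm_fib w]
    push_cast
    exact if_congr h2 rfl rfl)
  have h2 : Real.log (level V0 : ℝ) = 2 * ldisc K +
      ∑ᶠ w, (if w ∈ badPrimes V0 then Real.log (nm w : ℝ) else 0) :=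
    (log_level (hS (Opt Z none).F (optV V0 VZ none) (hmin none)).2).2
  have h3 : ∀ i, Real.log (level (VZ i) : ℝ) = 2 * ldisc (Z i).F +
      ∑ᶠ w, (if w ∈ badPrimes (VZ i) then Real.log (nm w : ℝ) else 0) := fun i =>
    (log_level (hS (Opt Z (some i)).F (optV V0 VZ (some i)) (hmin (some i))).2).2
  have h4 := disc_rel h
  have h5 : ∑ i, (e i : ℝ) * ∑ᶠ w, (if w ∈ badPrimes (VZ i) then Real.log (nm w : ℝ) else 0) =
      m * ∑ᶠ w, (if w ∈ badPrimes V0 then Real.log (nm w : ℝ) else 0) := by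
    rw [← nsmul_eq_mul]
    refine Eq.trans ?_ h1
    refine Finset.sum_congr rfl fun i _ => ?_
    rw [zsmul_eq_mul]
    rfl
  simp_rw [h3, h2]
  rw [mul_add, ← h5, mul_left_comm, ← h4, Finset.mul_sum, ← Finset.sum_add_distrib]
  refine Finset.sum_congr rfl fun i _ => ?_
  ring

/-- the relation between the exponents of the root numbers -/
theorem sign_rel (h : IsRel K Z e m) :
    ∑ i, e i * ((Nat.card (InfinitePlace (Z i).F) + (splitPrimes (VZ i)).ncard : ℕ) : ℤ) =
      m * ((Nat.card (InfinitePlace K) + (splitPrimes V0).ncard : ℕ) : ℤ) := by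
  have hmin := optV_min hV0 hVZ
  obtain ⟨S, hS⟩ := exists_bad hE
  have hsub : ∀ {F : Type} [Field F] [NumberField F]
      (V : HeightOneSpectrum (𝓞 F) → WeierstrassCurve (𝓞 F)), splitPrimes V ⊆ badPrimes V :=
    fun V v hv => hv.1
  have h1 := glob_rel h (M := ℤ) (fun i w => if w ∈ splitPrimes (optV V0 VZ i) then 1 else 0) S
    (fun i w hw => (hS (Opt Z i).F (optV V0 VZ i) (hmin i)).1 w (by
      by_contra h
      exact hw (if_neg fun h' => h (hsub _ h')))) (by
    intro v
    obtain ⟨g, b, hg⟩ := ss_data hE hs v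
    refine ⟨fun n => if b ∧ g n + 1 = nm v ^ n then 1 else 0, fun i w => ?_⟩
    obtain ⟨h1, h2⟩ := hg (Opt Z i).F (optV V0 VZ i) (hmin i) w
    refine if_congr ?_ rfl rfl
    unfold splitPrimes
    rw [Set.mem_ofPred_eq, aff_eq_card, h1, h2]
    have h3 : Ideal.absNorm w.1.asIdeal = nm v ^ fdeg w := nm_fib w
    rw [h3])
  have hf0 : (splitPrimes V0).Finite :=
    ((hS (Opt Z none).F (optV V0 VZ none) (hmin none)).2).subset (hsub V0)
  have hfi : ∀ i, (splitPrimes (VZ i)).Finite := fun i =>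
    ((hS (Opt Z (some i)).F (optV V0 VZ (some i)) (hmin (some i))).2).subset (hsub (VZ i))
  have h5 : ∑ i, e i * ((splitPrimes (VZ i)).ncard : ℤ) = m * ((splitPrimes V0).ncard : ℤ) := by
    rw [← nsmul_eq_mul, ← ncard_split hf0]
    refine Eq.trans ?_ h1
    refine Finset.sum_congr rfl fun i _ => ?_
    rw [← ncard_split (hfi i), smul_eq_mul]
    rfl
  push_cast
  rw [mul_add, ← h5, ← places_rel h, ← Finset.sum_add_distrib]
  refine Finset.sum_congr rfl fun i _ => ?_
  ring

end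

/-- **Relations and the functional equation.** -/
theorem hasseWeil_of_rel {K : Type} [Field K] [NumberField K] {ι : Type} [Fintype ι]
    {Z : ι → Ext K} {e : ι → ℤ} (h : IsRel K Z e 1) {E : WeierstrassCurve K} (hE : E.IsElliptic)
    (hs : Semistable E) (hZ : ∀ i, HasseWeil (E.map (algebraMap K (Z i).F))) : HasseWeil E := by
  obtain ⟨V0, hV0⟩ := exists_minimal E hE
  have hVZ : ∀ i, ∃ V : HeightOneSpectrum (𝓞 (Z i).F) → WeierstrassCurve (𝓞 (Z i).F),
      ∀ w, IsMinAt (E.map (algebraMap K (Z i).F)) w (V w) := fun i =>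
    exists_minimal _ inferInstance
  choose VZ hVZ using hVZ
  choose Λ hΛ hfe using hZ
  have hΛ' : ∀ i, MeromorphicOn (Λ i) Set.univ ∧
      ∀ s : ℂ, 3 / 2 < s.re → Λ i s = LL (VZ i) s := by
    intro i
    have h2 := (continues_iff (U := Set.univ) (M := 1) (Λ := Λ i) inferInstance (hVZ i)).1 (hΛ i)
    exact ⟨h2.1, fun s hs => by rw [h2.2 s hs, pow_one]⟩
  let Λ0 : ℂ → ℂ := fun s => ∏ i, Λ i s ^ e i
  have hmer : MeromorphicOn Λ0 Set.univ :=
    MeromorphicOn.fun_prod fun i _ => (hΛ' i).1.fun_zpow _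
  refine ⟨Λ0, (continues_iff hE hV0).2 ⟨hmer, fun s hs' => ?_⟩, fun V hV => ?_⟩
  · rw [LL_exact hE hs hV0 hVZ h hs']
    exact Finset.prod_congr rfl fun i _ => by rw [(hΛ' i).2 s hs']
  · have hV' : ∀ v, IsMinAt E v (V v) := (minimalModels_iff E V).1 hV
    obtain ⟨S, hS⟩ := exists_bad hE
    have hmin := optV_min hV' hVZ
    have hl0 : 0 < level V :=
      (log_level (hS (Opt Z none).F (optV V VZ none) (hmin none)).2).1
    have hli : ∀ i, 0 < level (VZ i) := fun i =>
      (log_level (hS (Opt Z (some i)).F (optV V VZ (some i)) (hmin (some i))).2).1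
    have hlev := level_rel hE hs hV' hVZ h
    have hsig := sign_rel hE hs hV' hVZ h
    have hdeg := degree_rel h
    -- the product formula for the completed functions
    have hprod : ∀ s : ℂ, (∀ n : ℤ, s ≠ n) →
        completed V Λ0 s = ∏ i, completed (VZ i) (Λ i) s ^ e i := by
      intro s hs'
      have hg := gf_ne_zero hs'
      rw [completed_eq hl0]
      simp_rw [fun i => completed_eq (hli i) (Λ i) s, mul_zpow]
      rw [Finset.prod_mul_distrib, Finset.prod_mul_distrib]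
      congr 2
      · simp_rw [← Complex.exp_int_mul]
        rw [← Complex.exp_sum]
        congr 1
        have h1 := congrArg (Complex.ofReal) hlev
        push_cast at h1
        rw [one_mul] at h1
        push_cast
        rw [← h1, Finset.sum_mul]
        exact Finset.sum_congr rfl fun i _ => by ring
      · have h1 : ∀ i, (gf s ^ Module.finrank ℚ (Z i).F) ^ e i =
            gf s ^ (e i * (Module.finrank ℚ (Z i).F : ℤ)) := by
          intro i
          rw [← zpow_natCast, ← zpow_mul, mul_comm]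
        simp_rw [h1]
        rw [prod_zpow_sum Finset.univ hg, hdeg]
        push_cast
        rw [one_mul, zpow_natCast]
    have hw : (rootNumber V : ℂ) = ∏ i, (rootNumber (VZ i) : ℂ) ^ e i := by
      have hroot : ∀ {F : Type} [Field F] [NumberField F]
          (V : HeightOneSpectrum (𝓞 F) → WeierstrassCurve (𝓞 F)), (rootNumber V : ℂ) =
          (-1 : ℂ) ^ ((Nat.card (InfinitePlace F) + (splitPrimes V).ncard : ℕ) : ℤ) := by
        intro F _ _ V
        unfold rootNumber
        rw [zpow_natCast, Int.cast_pow, Int.cast_neg, Int.cast_one]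
      simp_rw [hroot, ← zpow_mul, mul_comm _ (e _)]
      rw [prod_zpow_sum Finset.univ (neg_ne_zero.2 one_ne_zero), hsig, Nat.cast_one, one_mul]
    have hev : ∀ᶠ s in Filter.codiscrete ℂ, ∀ i, (rootNumber (VZ i) : ℂ) *
        completed (VZ i) (Λ i) s = completed (VZ i) (Λ i) (2 - s) :=
      Filter.eventually_all.2 fun i => hfe i (VZ i) ((minimalModels_iff _ _).2 (hVZ i))
    filter_upwards [hev, ints_codiscrete] with s h1 h2
    have h3 : ∀ n : ℤ, 2 - s ≠ n := by
      intro n hn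
      apply h2 (2 - n)
      push_cast
      rw [← hn]
      ring
    rw [hprod s h2, hprod _ h3, hw, ← Finset.prod_mul_distrib]
    refine Finset.prod_congr rfl fun i _ => ?_
    rw [← mul_zpow, h1 i]

end Pool.Agent.N19.BR
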