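import Pool.Agent.N19.BR.StInt

/-! Modules of functions on a set with an action of a group, and determinants (general form of `StInt`). -/

set_option autoImplicit false

namespace Pool.Agent.N19.BR

open Module
open Pool.Agent.R433.MD

section
variable {G : Type} [Group G] {X : Type} (mv : G → X → X) (W : Submodule ℂ (X → ℂ))

/-- an action that preserves `W` -/
structure IsAct : Prop where
  one : ∀ x, mv 1 x = x
  mul : ∀ σ τ x, mv (σ * τ) x = mv σ (mv τ x)
  stab : ∀ σ a, a ∈ W → a ∘ mv σ ∈ W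

variable {mv W} (h : IsAct mv W)

include h in
theorem IsAct.inv_move (σ : G) (x : X) : mv σ⁻¹ (mv σ x) = x := by
  rw [← h.mul, inv_mul_cancel, h.one]

include h in
theorem IsAct.move_inv (σ : G) (x : X) : mv σ (mv σ⁻¹ x) = x := by
  rw [← h.mul, mul_inv_cancel, h.one]

/-- the action on `W` -/
def galW (σ : G) : W →ₗ[ℂ] W where
  toFun a := ⟨(a : X → ℂ) ∘ mv σ⁻¹, h.stab σ⁻¹ _ a.2⟩
  map_add' _ _ := rfl
  map_smul' _ _ := rfl

theorem galW_mul (σ τ : G) (a : W) : galW h (σ * τ) a = galW h σ (galW h τ a) := by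
  apply Subtype.ext
  funext w
  change (a : X → ℂ) (mv (σ * τ)⁻¹ w) = (a : X → ℂ) (mv τ⁻¹ (mv σ⁻¹ w))
  rw [mul_inv_rev, h.mul]

theorem galW_one (a : W) : galW h (1 : G) a = a := by
  apply Subtype.ext
  funext w
  change (a : X → ℂ) (mv (1 : G)⁻¹ w) = (a : X → ℂ) w
  rw [inv_one, h.one]

variable {n : ℕ} (ρ : G →* Matrix (Fin n) (Fin n) ℂ)

/-- the representation on `V ⊗ W` -/
noncomputable def tensW : Representation ℂ G (Fin n → W) where
  toFun σ :=
    { toFun := fun u i => ∑ j, ρ σ i j • galW h σ (u j)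
      map_add' := fun u u' => by
        ext i : 1
        simp only [Pi.add_apply, map_add, smul_add, Finset.sum_add_distrib]
      map_smul' := fun c u => by
        ext i : 1
        simp only [Pi.smul_apply, map_smul, RingHom.id_apply]
        rw [Finset.smul_sum]
        exact Finset.sum_congr rfl fun j _ => smul_comm _ _ _ }
  map_one' := by
    apply LinearMap.ext
    intro u
    funext i
    change ∑ j, ρ 1 i j • galW h 1 (u j) = u i
    simp only [map_one, galW_one, Matrix.one_apply, ite_smul, one_smul, zero_smul]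
    rw [Finset.sum_ite_eq]
    simp
  map_mul' σ τ := by
    apply LinearMap.ext
    intro u
    funext i
    change ∑ j, ρ (σ * τ) i j • galW h (σ * τ) (u j) =
      ∑ j, ρ σ i j • galW h σ (∑ l, ρ τ j l • galW h τ (u l))
    simp only [map_sum, map_smul, galW_mul, map_mul, Matrix.mul_apply, Finset.sum_smul,
      Finset.smul_sum, smul_smul]
    rw [Finset.sum_comm]

/-- `T` on `V ⊗ W` -/
noncomputable def tensMapW (n : ℕ) (T : W →ₗ[ℂ] W) : (Fin n → W) →ₗ[ℂ] (Fin n → W) where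
  toFun u i := T (u i)
  map_add' u u' := by
    ext i : 1
    simp
  map_smul' c u := by
    ext i : 1
    simp

theorem tensMapW_comm {T : W →ₗ[ℂ] W} (hT : ∀ (σ : G) (x : W), T (galW h σ x) = galW h σ (T x))
    (σ : G) (u : Fin n → W) : tensMapW n T (tensW h ρ σ u) = tensW h ρ σ (tensMapW n T u) := by
  funext i
  change T (∑ j, ρ σ i j • galW h σ (u j)) = ∑ j, ρ σ i j • galW h σ (T (u j))
  simp only [map_sum, map_smul, hT]

theorem tensMapW_inj {T : W →ₗ[ℂ] W} (hT : Function.Injective T) :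
    Function.Injective (tensMapW n T) := by
  intro u u' h
  funext i
  exact hT (congrFun h i)

variable (U : Subgroup G)

/-- the invariants -/
noncomputable def hmW : Submodule ℂ (Fin n → W) where
  carrier := {u | ∀ σ ∈ U, tensW h ρ σ u = u}
  zero_mem' := fun σ _ => map_zero _
  add_mem' := fun {u u'} hu hu' σ hσ => by rw [map_add, hu σ hσ, hu' σ hσ]
  smul_mem' := fun c u hu σ hσ => by rw [map_smul, hu σ hσ]

theorem mem_hmW (u : Fin n → W) : u ∈ hmW h ρ U ↔ ∀ σ ∈ U, tensW h ρ σ u = u := Iff.rfl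

/-- the tuples of functions -/
def InHomsW (mv : G → X → X) (W : Submodule ℂ (X → ℂ)) (ρ : G →* Matrix (Fin n) (Fin n) ℂ)
    (U : Subgroup G) (u : Fin n → X → ℂ) : Prop :=
  (∀ i, u i ∈ W) ∧ ∀ σ ∈ U, ∀ i x, ∑ j, ρ σ i j * u j x = u i (mv σ x)

theorem mem_hmW_iff (u : Fin n → W) : u ∈ hmW h ρ U ↔
    InHomsW mv W ρ U (fun i => (u i : X → ℂ)) := by
  constructor
  · intro h0
    refine ⟨fun i => (u i).2, fun σ hσ i w => ?_⟩
    have h1 := congrFun (h0 σ hσ) i
    have h2 := congrFun (congrArg Subtype.val h1) (mv σ w)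
    refine Eq.trans ?_ h2
    change _ = ((∑ j, ρ σ i j • galW h σ (u j) : W) : X → ℂ) (mv σ w)
    rw [AddSubmonoidClass.coe_finsetSum, Finset.sum_apply]
    refine Finset.sum_congr rfl fun j _ => ?_
    change _ = ρ σ i j * (u j : X → ℂ) (mv σ⁻¹ (mv σ w))
    rw [h.inv_move]
  · intro h0 σ hσ
    funext i
    apply Subtype.ext
    funext w
    change ((∑ j, ρ σ i j • galW h σ (u j) : W) : X → ℂ) w = _
    rw [AddSubmonoidClass.coe_finsetSum, Finset.sum_apply]
    have h1 := h0.2 σ hσ i (mv σ⁻¹ w)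
    rw [h.move_inv] at h1
    exact h1

/-- the inclusion of `V ⊗ W` in the functions -/
def inclW (W : Submodule ℂ (X → ℂ)) (n : ℕ) : (Fin n → W) →ₗ[ℂ] (Fin n → X → ℂ) where
  toFun u i := (u i : X → ℂ)
  map_add' _ _ := rfl
  map_smul' _ _ := rfl

theorem inclW_inj : Function.Injective (inclW W n) := by
  intro u u' h
  funext i
  exact Subtype.ext (congrFun h i)

/-- the determinant of `T` on the invariants -/
def IsDetW (mv : G → X → X) (W : Submodule ℂ (X → ℂ)) (ρ : G →* Matrix (Fin n) (Fin n) ℂ)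
    (U : Subgroup G) (T : (X → ℂ) →ₗ[ℂ] (X → ℂ)) (R : ℂ) : Prop :=
  ∃ (r : ℕ) (b : Fin r → Fin n → X → ℂ) (A : Matrix (Fin r) (Fin r) ℂ),
    LinearIndependent ℂ b ∧ (∀ u, u ∈ Submodule.span ℂ (Set.range b) ↔ InHomsW mv W ρ U u) ∧
    (∀ j i, T (b j i) = ∑ k, A k j • b k i) ∧ A.det = R

theorem isDetW_iff {T : (X → ℂ) →ₗ[ℂ] (X → ℂ)} (T' : W →ₗ[ℂ] W)
    (hT : ∀ x, ((T' x : W) : X → ℂ) = T x) {R : ℂ} :
    IsDetW mv W ρ U T R ↔ ∃ (r : ℕ) (b : Basis (Fin r) ℂ (hmW h ρ U))
      (A : Matrix (Fin r) (Fin r) ℂ), (∀ j, tensMapW n T' (b j) =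
        ∑ l, A l j • (b l : Fin n → W)) ∧ A.det = R := by
  have key := basis_iff (inclW W n) inclW_inj (hmW h ρ U)
    (P := fun u => InHomsW mv W ρ U u) (fun w => by
      constructor
      · intro hw
        exact ⟨fun i => ⟨w i, hw.1 i⟩, (mem_hmW_iff h ρ U _).2 hw, rfl⟩
      · rintro ⟨u, hu, rfl⟩
        exact (mem_hmW_iff h ρ U u).1 hu) (tensMapW n T') (fun u i => T (u i)) (fun u => by
      funext i
      exact hT (u i)) (R := R)
  rw [← key]
  unfold IsDetW
  refine exists_congr fun r => exists_congr fun b => exists_congr fun A => ?_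
  refine and_congr_right fun _ => and_congr_right fun _ => and_congr_left fun _ => ?_
  refine forall_congr' fun j => ?_
  constructor
  · intro h
    funext i
    rw [Finset.sum_apply]
    exact h i
  · intro h i
    have h1 := congrFun h i
    rw [Finset.sum_apply] at h1
    exact h1

include h in
/-- **The relation for the determinants.** -/
theorem detW_rel [Fintype G] [FiniteDimensional ℂ W] {ι : Type} [Fintype ι] (H : ι → Subgroup G)
    (e : ι → ℤ) (m : ℕ) (hrel : ∀ g : G, ∑ i, e i * fx (H i) g = m)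
    {T : (X → ℂ) →ₗ[ℂ] (X → ℂ)} (hTW : ∀ x ∈ W, T x ∈ W) (hTi : ∀ x ∈ W, T x = 0 → x = 0)
    (hTc : ∀ σ, ∀ x ∈ W, T (x ∘ mv σ) = T x ∘ mv σ)
    {R : ι → ℂ} (hR : ∀ i, IsDetW mv W ρ (H i) T (R i)) (U : Subgroup G) (hU : ∀ g, g ∈ U) :
    (∀ i, R i ≠ 0) ∧ ∃ R0, IsDetW mv W ρ U T R0 ∧ R0 ≠ 0 ∧ R0 ^ m = ∏ i, R i ^ e i := by
  classical
  let T' : W →ₗ[ℂ] W := T.restrict hTW
  have hT' : ∀ x, ((T' x : W) : X → ℂ) = T x := fun x => rfl
  have hTi' : Function.Injective T' := by
    rw [injective_iff_map_eq_zero]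
    intro x hx
    apply Subtype.ext
    exact hTi x x.2 (by rw [← hT', hx]; rfl)
  have hTc' : ∀ (σ : G) (x : W), T' (galW h σ x) = galW h σ (T' x) := by
    intro σ x
    apply Subtype.ext
    exact hTc σ⁻¹ x x.2
  choose r b A hA hdet using fun i => (isDetW_iff h ρ (H i) T' hT').1 (hR i)
  have hinj := tensMapW_inj (n := n) hTi'
  have hT0 : ∀ u ∈ hmW h ρ U, tensMapW n T' u ∈ hmW h ρ U := by
    intro u hu
    rw [mem_hmW] at hu ⊢
    intro σ hσ
    rw [← tensMapW_comm h ρ hTc', hu σ hσ]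
  have hfree : Module.Free ℂ (hmW h ρ U) := Module.Free.of_divisionRing ℂ (hmW h ρ U)
  let b0 := Module.finBasis ℂ (hmW h ρ U)
  let T0 := (tensMapW n T').restrict hT0
  let A0 := LinearMap.toMatrix b0 b0 T0
  have hA0 : ∀ j, tensMapW n T' (b0 j) = ∑ l, A0 l j • (b0 l : Fin n → W) := by
    intro j
    have h1 := b0.sum_repr (T0 (b0 j))
    have h2 := congrArg Subtype.val h1
    have h3 : ((T0 (b0 j) : hmW h ρ U) : Fin n → W) = tensMapW n T' (b0 j) := rfl
    rw [h3] at h2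
    rw [← h2]
    push_cast
    refine Finset.sum_congr rfl fun l _ => ?_
    congr 1
    exact (LinearMap.toMatrix_apply b0 b0 T0 l j).symm
  refine ⟨fun i => ?_, A0.det, (isDetW_iff h ρ U T' hT').2 ⟨_, b0, A0, hA0, rfl⟩, ?_, ?_⟩
  · rw [← hdet i]
    exact det_ne hinj _ (b i) (A i) (hA i)
  · exact det_ne hinj _ b0 A0 hA0
  · rw [fix_rel (tensW h ρ) H e m hrel hinj
      (tensMapW_comm h ρ hTc') (fun i => hmW h ρ (H i)) (fun i u => mem_hmW h ρ (H i) u) b A hA
      (hmW h ρ U) (fun u => by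
        rw [mem_hmW]
        exact ⟨fun h g => h g (hU g), fun h g _ => h g⟩) b0 A0 hA0]
    exact Finset.prod_congr rfl fun i _ => congrArg (· ^ e i) (hdet i)

end

end Pool.Agent.N19.BR
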