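import Pool.Agent.N19.BR.BBDefs

/-!
# Lists of fields with hyperelementary Galois action; Beilinson's formula: definitions
-/

set_option autoImplicit false

namespace Pool.Agent.N19.BR.MDef

open NumberField IsDedekindDomain Polynomial
open Pool.Agent.R433.MD (Ext)
open Pool.Agent.N19.BR.Def

/-- A finite list of number fields between `K` and its algebraic closure, such that for every `F` in the
list there is a prime number `p` for which the Galois group of `L F / F` is `p`-hyperelementary, the
divisors of `k` prime to `p` divide the local degrees of `F / K` at the primes above `S`, and `F` has at most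
two real places if `p ≠ 2`. -/
def SpecialList {K : Type} [Field K] [NumberField K] (L : Type) [Field L] [Algebra K L]
    (S : Set (HeightOneSpectrum (𝓞 K))) (k : ℕ)
    (Y : Set (IntermediateField K (AlgebraicClosure K))) : Prop :=
  Y.Finite ∧ ∀ F ∈ Y, ∃ _ : NumberField F, HyperelementaryClass L S k (⟨F⟩ : Ext K)

section
variable {K : Type} [Field K] {k V : Type} [Field k] [AddCommGroup V] [Module k V]
  (ρ : Representation k Gal(AlgebraicClosure K/K) V)

/-- Beilinson's formula over `F` for `X` of dimension `2 i + 1`: the space of the elements of `V` fixed by the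
absolute Galois group of `F` has finite dimension, and `L(H^{2i+1}(X_F), s)` has a meromorphic continuation
to `U` with order at `s = i + 1` equal to this dimension. -/
def BeilinsonFormula {n : ℕ} (X : Set (MvPolynomial (Fin n) (𝓞 K))) (i N : ℕ) (U : Set ℂ)
    (F : IntermediateField K (AlgebraicClosure K)) : Prop :=
  FiniteDimensional k (fixedBy ρ F) ∧
    ∃ (_ : NumberField F) (B : HeightOneSpectrum (𝓞 F) → ℂ[X]) (Λ : ℂ → ℂ),
      EulerFactors X (2 * i + 1) (2 * i + 1) N B ∧ Continues U B 1 Λ ∧
      meromorphicOrderAt Λ ((i : ℂ) + 1) = ((Module.finrank k (fixedBy ρ F) : ℤ) : WithTop ℤ)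

/-- Beilinson's formula over `K` for all Euler factors: the space of the elements of `V` fixed by the
absolute Galois group of `K` has finite dimension, `L(H^{2i+1}(X), s)` has a meromorphic continuation to
`U`, and every such continuation has order at `s = i + 1` equal to this dimension. -/
def BeilinsonOverBase [NumberField K] {n : ℕ} (X : Set (MvPolynomial (Fin n) (𝓞 K))) (i N : ℕ)
    (U : Set ℂ) : Prop :=
  FiniteDimensional k (Representation.invariants ρ) ∧
    ∀ B : HeightOneSpectrum (𝓞 K) → ℂ[X], EulerFactors X (2 * i + 1) (2 * i + 1) N B →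
      (∃ Λ : ℂ → ℂ, Continues U B 1 Λ) ∧
      ∀ Λ : ℂ → ℂ, Continues U B 1 Λ → meromorphicOrderAt Λ ((i : ℂ) + 1) =
        ((Module.finrank k (Representation.invariants ρ) : ℤ) : WithTop ℤ)

end

end Pool.Agent.N19.BR.MDef
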