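import Pool.Agent.N19.BR.BB
import Pool.Agent.N19.BR.HDefs
import Pool.Agent.N19.BR.Sub2

/-! The exact relation and Beilinson's formula. -/

set_option autoImplicit false

namespace Pool.Agent.N19.BR

open NumberField IsDedekindDomain Polynomial
open Pool.Agent.R433.MD (Ext)
open Pool.Agent.N19.BR.MDef

/-- the exact relation as a set of fields -/
theorem beilinson_of_rel {K : Type} [Field K] [NumberField K] {k V : Type} [Field k] [CharZero k]
    [AddCommGroup V] [Module k V] (ρ : Representation k Gal(AlgebraicClosure K/K) V)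
    {ι : Type} [Fintype ι] (F : ι → IntermediateField K (AlgebraicClosure K))
    [∀ j, NumberField (F j)] {e : ι → ℤ} (h : IsRel K (fun j => (⟨F j⟩ : Ext K)) e 1) {n i N : ℕ}
    {X : Set (MvPolynomial (Fin n) (𝓞 K))} {U : Set ℂ}
    (hU : Domain (2 * i + 1) U) (hF : ∀ j, BeilinsonFormula ρ X i N U (F j)) :
    BeilinsonOverBase ρ X i N U := by
  have e1 : 2 * (i + 1) - 1 = 2 * i + 1 := by omega
  have e2 : ((i : ℂ) + 1) = ((i + 1 : ℕ) : ℂ) := by push_cast; rfl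
  have h1 : ∀ j, RankFormula ρ X (2 * i + 1) (i + 1) N U 0 (F j) := by
    intro j
    obtain ⟨h2, h3, B, Λ, hB, hΛ, ho⟩ := hF j
    refine ⟨h2, h3, B, Λ, ?_, hΛ, ?_⟩
    · rw [e1]
      exact hB
    · rw [← e2, ho, add_zero]
  have hc : (1 : ℕ) ≠ 0 := one_ne_zero
  obtain ⟨h2, h3⟩ := formula_of_rel ρ F hc h (by omega) (by omega) (by rw [e1]; exact hU) h1
  refine ⟨h2, fun B hB => ?_⟩
  obtain ⟨⟨Λ₀, h4, -⟩, h5⟩ := h3 B (by rw [e1]; exact hB)
  refine ⟨⟨Λ₀, h4⟩, fun Λ hΛ => ?_⟩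
  obtain ⟨δ₀, h6, h7⟩ := h5 Λ hΛ
  have h8 : δ₀ = 0 := by simpa using h6
  rw [e2, h7, h8, add_zero]

end Pool.Agent.N19.BR
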