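import Pool.Agent.R333.BR.LRel
import Pool.Agent.N19.BR.BSD

/-! Relations between L-series; the correcting factor has neither zeros nor poles in `Re s > 1`. -/

set_option autoImplicit false

namespace Pool.Agent.N19.BR

open NumberField IsDedekindDomain Complex Filter Topology ComplexConjugate
open Pool.Agent.H921R2.TatePole (nm two_le_nm nm_summable)
open Pool.Agent.H341R2.EC
open Pool.Agent.H341R2 (finite_v card_v)
open Pool.Agent.R433.MD
open Pool.Agent.R333.BR (nh_congr)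

section
variable {K : Type} [Field K] [NumberField K]

/-- no zeros of the local factors in `Re s > 1` -/
theorem lf_ne_zero_one (V : HeightOneSpectrum (𝓞 K) → WeierstrassCurve (𝓞 K)) {s : ℂ}
    (hs : 1 < s.re) (v : HeightOneSpectrum (𝓞 K)) : lf V s v ≠ 0 := by
  classical
  have h1 := trc_le V v
  have h1' : |(trc V v : ℝ)| ≤ (nm v : ℝ) := by exact_mod_cast h1
  have hq : (2 : ℝ) ≤ (nm v : ℝ) := by exact_mod_cast two_le_nm v
  have hq0 : ((nm v : ℕ) : ℂ) ≠ 0 := by exact_mod_cast (nm_pos v).ne'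
  set T : ℂ := ((nm v : ℕ) : ℂ) ^ (-s) with hT
  have hTn : ‖T‖ < (nm v : ℝ)⁻¹ := by
    rw [hT, norm_nm_cpow, ← Real.rpow_neg_one]
    refine Real.rpow_lt_rpow_of_exponent_lt (by linarith) ?_
    rw [Complex.neg_re]
    linarith
  have hT2 : ((nm v : ℕ) : ℂ) ^ (1 - 2 * s) = ((nm v : ℕ) : ℂ) * T ^ 2 := by
    rw [sub_eq_add_neg, Complex.cpow_add _ _ hq0, Complex.cpow_one, hT, ← Complex.cpow_nat_mul]
    congr 2
    push_cast
    ring
  have hqT : (nm v : ℝ) * ‖T‖ < 1 := by
    have h2 := mul_lt_mul_of_pos_left hTn (show (0 : ℝ) < nm v by linarith)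
    rwa [mul_inv_cancel₀ (by linarith)] at h2
  have haT : |(trc V v : ℝ)| * ‖T‖ < 1 :=
    lt_of_le_of_lt (mul_le_mul_of_nonneg_right h1' (norm_nonneg _)) hqT
  intro h0
  unfold lf at h0
  rw [hT2, ← hT] at h0
  unfold dlt at h0
  split_ifs at h0 with hΔ
  · rw [zero_mul, add_zero] at h0
    have h2 : (trc V v : ℂ) * T = 1 := by linear_combination -h0
    have h3 := congrArg norm h2
    rw [norm_mul, norm_one] at h3
    have e3 : ‖(trc V v : ℂ)‖ = |(trc V v : ℝ)| := by
      rw [← Complex.ofReal_intCast, Complex.norm_real, Real.norm_eq_abs]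
    rw [e3] at h3
    linarith
  · rw [one_mul] at h0
    by_cases him : T.im = 0
    · -- real
      have hTr : T = (T.re : ℂ) := by
        apply Complex.ext
        · simp
        · simpa using him
      have h2 : (1 : ℝ) - trc V v * T.re + nm v * T.re ^ 2 = 0 := by
        rw [hTr] at h0
        exact_mod_cast h0
      have h3 : |T.re| ≤ ‖T‖ := Complex.abs_re_le_norm T
      have h4 : |(trc V v : ℝ) * T.re| < 1 := by
        rw [abs_mul]
        exact lt_of_le_of_lt (mul_le_mul_of_nonneg_left h3 (abs_nonneg _)) haT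
      have h5 := (abs_lt.1 h4).2
      have h6 : (0 : ℝ) ≤ nm v * T.re ^ 2 := by positivity
      linarith
    · -- not real
      have h2 : (1 : ℂ) - (trc V v : ℂ) * conj T + ((nm v : ℕ) : ℂ) * conj T ^ 2 = 0 := by
        have h3 := congrArg (starRingEnd ℂ) h0
        simpa using h3
      have hne : T - conj T ≠ 0 := by
        intro h3
        have h4 := congrArg Complex.im h3
        simp at h4
        exact him (by linarith)
      have h3 : (T - conj T) * (((nm v : ℕ) : ℂ) * (T + conj T) - (trc V v : ℂ)) = 0 := by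
        linear_combination h0 - h2
      have h4 := (mul_eq_zero.1 h3).resolve_left hne
      have h5 : ((nm v : ℕ) : ℂ) * (T * conj T) = 1 := by
        linear_combination -h0 + T * h4
      rw [Complex.mul_conj, Complex.normSq_eq_norm_sq] at h5
      have h6 : (nm v : ℝ) * ‖T‖ ^ 2 = 1 := by exact_mod_cast h5
      have h7 : ‖T‖ < 1 := by nlinarith [norm_nonneg T]
      nlinarith [norm_nonneg T]

/-- **Relations between L-series.** -/
theorem relation_half {ι : Type} [Fintype ι] (F : ι → Type) [∀ i, Field (F i)]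
    [∀ i, NumberField (F i)] [∀ i, Algebra K (F i)] (a b : ι → ℕ) {D : 𝓞 K} (hD0 : D ≠ 0)
    (hD : ∀ (k : Type) [Field k] [Finite k] (φ : 𝓞 K →+* k), φ D ≠ 0 →
      ∑ i, a i * nh (F i) φ = ∑ i, b i * nh (F i) φ)
    (E : WeierstrassCurve K) (hE : E.IsElliptic)
    (V : ∀ i, HeightOneSpectrum (𝓞 (F i)) → WeierstrassCurve (𝓞 (F i)))
    (hV : ∀ i w, IsMinAt (E.map (algebraMap K (F i))) w (V i w)) :
    ∃ R : ℂ → ℂ, (∀ s : ℂ, 1 < s.re → AnalyticAt ℂ R s ∧ R s ≠ 0) ∧
      ∀ s : ℂ, 3 / 2 < s.re →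
      ∏ i, (∏' w, (lf (V i) s w)⁻¹) ^ a i = R s * ∏ i, (∏' w, (lf (V i) s w)⁻¹) ^ b i := by
  classical
  obtain ⟨W, hW, hWΔ⟩ := exists_model E hE
  have h6 : (6 : 𝓞 K) ≠ 0 := by norm_num
  have hbad : {v : HeightOneSpectrum (𝓞 K) | 6 * W.Δ * D ∈ v.asIdeal}.Finite :=
    finite_mem (mul_ne_zero (mul_ne_zero h6 hWΔ) hD0)
  set S := hbad.toFinset with hS
  -- local products
  let A : (ι → ℕ) → ℂ → HeightOneSpectrum (𝓞 K) → ℂ := fun e s v =>
    ∏ i, (∏ w : Fib (F i) v, (lf (V i) s w.1)⁻¹) ^ e i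
  have hprod : ∀ (e : ι → ℕ) (s : ℂ), 3 / 2 < s.re →
      HasProd (A e s) (∏ i, (∏' w, (lf (V i) s w)⁻¹) ^ e i) := by
    intro e s hs
    refine hasProd_prod fun i _ => ?_
    have hEi : (E.map (algebraMap K (F i))).IsElliptic := inferInstance
    exact hasProd_pow (hasProd_fib (hasProd_lf _ hEi (V i) (hV i) hs).1) (e i)
  have hgood : ∀ (s : ℂ) (v : HeightOneSpectrum (𝓞 K)), v ∉ S → A a s v = A b s v := by
    intro s v hv
    have hv' : 6 * W.Δ * D ∉ v.asIdeal := fun h => hv (hbad.mem_toFinset.2 h)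
    have hvD : D ∉ v.asIdeal := fun h => hv' (v.asIdeal.mul_mem_left _ h)
    have hvΔ : W.Δ ∉ v.asIdeal := fun h =>
      hv' (v.asIdeal.mul_mem_right _ (v.asIdeal.mul_mem_left _ h))
    have hv6 : (6 : 𝓞 K) ∉ v.asIdeal := fun h =>
      hv' (v.asIdeal.mul_mem_right _ (v.asIdeal.mul_mem_right _ h))
    obtain ⟨g, hg⟩ := exists_count v W
    let G : ℕ → ℂ := fun n => (1 - (((nm v : ℤ) ^ n - (g n : ℤ) : ℤ) : ℂ) *
      ((nm v ^ n : ℕ) : ℂ) ^ (-s) + ((nm v ^ n : ℕ) : ℂ) ^ (1 - 2 * s))⁻¹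
    have hA : ∀ e : ι → ℕ, A e s v = ∏ i, (∏ w : Fib (F i) v, G (fdeg w)) ^ e i := by
      intro e
      refine Finset.prod_congr rfl fun i _ => ?_
      congr 1
      refine Finset.prod_congr rfl fun w _ => ?_
      rw [lf_good hW hv6 hvΔ hg (hV i) w s]
    rw [hA, hA]
    refine comb (fun i => Fib (F i) v) (fun i w => fdeg w) (fun i w => fdeg_pos w) a b ?_ G
    intro m hm
    obtain ⟨k, iF, iFin, iA, hk⟩ := exists_ext (𝓞 K ⧸ v.asIdeal) hm
    have h1 := hD k (base v k) (by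
      rw [base, RingHom.comp_apply]
      intro h
      rw [map_eq_zero_iff _ (algebraMap (𝓞 K ⧸ v.asIdeal) k).injective,
        Ideal.Quotient.eq_zero_iff_mem] at h
      exact hvD h)
    simp only [nh_eq, hk] at h1
    exact h1
  -- the finite parts
  have hne : ∀ (e : ι → ℕ) (s : ℂ), 1 < s.re → ∏ v ∈ S, A e s v ≠ 0 := by
    intro e s hs
    refine Finset.prod_ne_zero_iff.2 fun v _ => Finset.prod_ne_zero_iff.2 fun i _ => ?_
    refine pow_ne_zero _ (Finset.prod_ne_zero_iff.2 fun w _ => inv_ne_zero (lf_ne_zero_one _ hs _))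
  have han : ∀ (e : ι → ℕ) (s : ℂ), 1 < s.re → AnalyticAt ℂ (fun s => ∏ v ∈ S, A e s v) s := by
    intro e s hs
    apply Finset.analyticAt_fun_prod
    intro v _
    change AnalyticAt ℂ (fun s => ∏ i, (∏ w : Fib (F i) v, (lf (V i) s w.1)⁻¹) ^ e i) s
    apply Finset.analyticAt_fun_prod
    intro i _
    apply AnalyticAt.fun_pow
    apply Finset.analyticAt_fun_prod
    intro w _
    exact ((differentiable_lf (V i) w.1).analyticAt s).fun_inv (lf_ne_zero_one _ hs _)
  refine ⟨fun s => (∏ v ∈ S, A a s v) / (∏ v ∈ S, A b s v),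
    fun s hs => ⟨(han a s hs).fun_div (han b s hs) (hne b s hs), div_ne_zero (hne a s hs) (hne b s hs)⟩,
    fun s hs => ?_⟩
  have h1 := compare (hprod a s hs) (hprod b s hs) S (hgood s)
  have h2 := hne b s (by linarith)
  rw [div_mul_eq_mul_div, eq_div_iff h2, h1, mul_comm]

variable {L : Type} [Field L] [NumberField L] [Algebra K L] [IsGalois K L]

/-- relations of permutation characters give relations of L-series -/
theorem L_rel_half {ι : Type} [Fintype ι] (Z : ι → Ext K) (f : ∀ i, (Z i).F →ₐ[K] L) (e : ι → ℤ)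
    (m : ℕ) (h : ∀ g : Gal(L/K), ∑ i, e i * fx (f i).fieldRange.fixingSubgroup g = m)
    (E : WeierstrassCurve K) (hE : E.IsElliptic)
    (V0 : HeightOneSpectrum (𝓞 K) → WeierstrassCurve (𝓞 K)) (hV0 : ∀ v, IsMinAt E v (V0 v))
    (VZ : ∀ i, HeightOneSpectrum (𝓞 (Z i).F) → WeierstrassCurve (𝓞 (Z i).F))
    (hVZ : ∀ i w, IsMinAt (E.map (algebraMap K (Z i).F)) w (VZ i w)) :
    ∃ R : ℂ → ℂ, (∀ s : ℂ, 1 < s.re → AnalyticAt ℂ R s ∧ R s ≠ 0) ∧
      ∀ s : ℂ, 3 / 2 < s.re → LL V0 s ^ m = R s * ∏ i, LL (VZ i) s ^ e i := by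
  classical
  obtain ⟨D, hD0, hD⟩ := frob_count K L
  let X : Option ι → Ext K := fun i =>
    match i with
    | none => Ext.self K
    | some i => Z i
  let a : Option ι → ℕ := fun i =>
    match i with
    | none => 0
    | some i => (e i).toNat
  let b : Option ι → ℕ := fun i =>
    match i with
    | none => m
    | some i => (-e i).toNat
  let V : ∀ i, HeightOneSpectrum (𝓞 (X i).F) → WeierstrassCurve (𝓞 (X i).F) := fun i =>
    match i with
    | none => V0
    | some i => VZ i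
  have hV : ∀ i w, IsMinAt (E.map (algebraMap K (X i).F)) w (V i w) := by
    rintro (_ | i)
    · intro w
      have e : E.map (algebraMap K (Ext.self K).F) = E := E.map_id
      change IsMinAt (E.map (algebraMap K (Ext.self K).F)) w (V0 w)
      rw [e]
      exact hV0 w
    · exact hVZ i
  obtain ⟨R, hR, hRL⟩ := relation_half (fun i => (X i).F) a b hD0 (by
    intro k _ _ φ hφ
    obtain ⟨g, hg⟩ := hD k φ hφ
    simp only [Fintype.sum_option]
    have h2 := (nh_self K φ).2
    have h3 : nh (X none).F φ = 1 := h2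
    have h4 : ∀ i : ι, nh (X (some i)).F φ =
        Nat.card {c : Gal(L/K) ⧸ (f i).fieldRange.fixingSubgroup // g • c = c} := fun i => by
      rw [← hg (f i).fieldRange]
      exact nh_congr (AlgEquiv.ofInjectiveField (f i)) φ
    simp only [a, b, zero_add, h3, mul_one, h4]
    have h5 := h g
    have h6 : ((∑ i, (e i).toNat * Nat.card {c : Gal(L/K) ⧸ (f i).fieldRange.fixingSubgroup //
        g • c = c} : ℕ) : ℤ) = ((m + ∑ i, (-e i).toNat *
        Nat.card {c : Gal(L/K) ⧸ (f i).fieldRange.fixingSubgroup // g • c = c} : ℕ) : ℤ) := by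
      push_cast
      rw [← h5, ← Finset.sum_add_distrib]
      refine Finset.sum_congr rfl fun i _ => ?_
      have h7 := Int.toNat_sub_toNat_neg (e i)
      rw [fx]
      linear_combination (Nat.card {c : Gal(L/K) ⧸ (f i).fieldRange.fixingSubgroup //
        g • c = c} : ℤ) * h7
    exact_mod_cast h6) E hE V hV
  refine ⟨fun s => (R s)⁻¹, fun s hs => ⟨(hR s hs).1.fun_inv (hR s hs).2,
    inv_ne_zero (hR s hs).2⟩, fun s hs => ?_⟩
  have h1 := (hR s (by linarith)).2
  have h2 := hRL s hs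
  simp only [Fintype.prod_option] at h2
  have h3 : LL V0 s ^ 0 * ∏ i, LL (VZ i) s ^ (e i).toNat =
      R s * (LL V0 s ^ m * ∏ i, LL (VZ i) s ^ (-e i).toNat) := h2
  have hne : ∀ i, LL (VZ i) s ≠ 0 := fun i =>
    LL_ne_zero inferInstance (hVZ i) hs
  rw [pow_zero, one_mul] at h3
  have h4 : ∏ i, LL (VZ i) s ^ e i =
      (∏ i, LL (VZ i) s ^ (e i).toNat) / ∏ i, LL (VZ i) s ^ (-e i).toNat := by
    rw [← Finset.prod_div_distrib]
    refine Finset.prod_congr rfl fun i _ => ?_
    conv_lhs => rw [← Int.toNat_sub_toNat_neg (e i)]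
    rw [zpow_sub₀ (hne _), zpow_natCast, zpow_natCast]
  have h5 : ∏ i, LL (VZ i) s ^ (-e i).toNat ≠ 0 :=
    Finset.prod_ne_zero_iff.2 fun i _ => pow_ne_zero _ (hne _)
  rw [h4, h3]
  field_simp


end

end Pool.Agent.N19.BR
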