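import Pool.Agent.N19.BR.Mono

/-! The different of a Galois extension of number fields. -/

set_option autoImplicit false

namespace Pool.Agent.N19.BR

open NumberField IsDedekindDomain Polynomial
open Pool.Agent.R433.MD
open scoped Classical

variable {F L : Type} [Field F] [NumberField F] [Field L] [NumberField L] [Algebra F L]

/-- the ideal generated by the elements `σ x - x` -/
def dif (σ : L → L) : Ideal (𝓞 L) := Ideal.span {y | ∃ x : 𝓞 L,
  algebraMap (𝓞 L) L y = σ (algebraMap (𝓞 L) L x) - algebraMap (𝓞 L) L x}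

omit [NumberField F] [NumberField L] in
theorem coe_smul' (σ : Gal(L/F)) (x : 𝓞 L) :
    algebraMap (𝓞 L) L (σ • x) = σ (algebraMap (𝓞 L) L x) := rfl

theorem sub_mem_dif (σ : Gal(L/F)) (x : 𝓞 L) : x - σ • x ∈ dif (σ : L → L) := by
  rw [← neg_sub]
  refine Ideal.neg_mem_iff _ |>.2 (Ideal.subset_span ⟨x, ?_⟩)
  rw [map_sub]
  rfl

theorem dif_eq (σ : Gal(L/F)) :
    dif (σ : L → L) = Ideal.span (Set.range fun x : 𝓞 L => x - σ • x) := by
  apply le_antisymm
  · rw [dif, Ideal.span_le]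
    rintro y ⟨x, hx⟩
    have h1 : y = -(x - σ • x) := by
      apply RingOfIntegers.coe_injective (K := L)
      rw [map_neg, map_sub]
      refine hx.trans ?_
      change σ (algebraMap (𝓞 L) L x) - algebraMap (𝓞 L) L x =
        -(algebraMap (𝓞 L) L x - σ (algebraMap (𝓞 L) L x))
      ring
    rw [h1]
    exact (Ideal.neg_mem_iff _).2 (Ideal.subset_span ⟨x, rfl⟩)
  · rw [Ideal.span_le]
    rintro _ ⟨x, rfl⟩
    exact sub_mem_dif σ x

theorem dif_ne_bot {σ : Gal(L/F)} (hσ : σ ≠ 1) : dif (σ : L → L) ≠ ⊥ := by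
  intro h
  apply hσ
  have h1 : ∀ x : 𝓞 L, σ (algebraMap (𝓞 L) L x) = algebraMap (𝓞 L) L x := by
    intro x
    have h2 := sub_mem_dif σ x
    rw [h, Ideal.mem_bot] at h2
    have h3 := congrArg (algebraMap (𝓞 L) L) h2
    rw [map_sub, map_zero, sub_eq_zero] at h3
    exact h3.symm
  ext y
  obtain ⟨a, b, hb, rfl⟩ := IsFractionRing.div_surjective (A := 𝓞 L) y
  rw [map_div₀]
  have h2 : σ (algebraMap (𝓞 L) L a) = algebraMap (𝓞 L) L a := h1 a
  have h3 : σ (algebraMap (𝓞 L) L b) = algebraMap (𝓞 L) L b := h1 b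
  rw [h2, h3]
  rfl

/-- **the first inclusion** -/
theorem prod_le_different [IsGalois F L] :
    ∏ σ ∈ (Finset.univ : Finset Gal(L/F)).erase 1, dif (σ : L → L) ≤
      differentIdeal (𝓞 F) (𝓞 L) := by
  classical
  simp_rw [dif_eq]
  rw [Ideal.prod_span, Ideal.span_le]
  intro b hb
  rw [Set.mem_finsetProd] at hb
  obtain ⟨g, hg, rfl⟩ := hb
  have hx : ∀ σ : Gal(L/F), ∃ x : 𝓞 L, σ ≠ 1 → g σ = x - σ • x := by
    intro σ
    by_cases h : σ = 1
    · exact ⟨0, fun h' => absurd h h'⟩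
    · obtain ⟨x, hx⟩ := hg (Finset.mem_erase.2 ⟨h, Finset.mem_univ σ⟩)
      exact ⟨x, fun _ => hx.symm⟩
  choose x hx using hx
  set S : Finset Gal(L/F) := Finset.univ.erase 1 with hS
  set b : 𝓞 L := ∏ σ ∈ S, g σ with hb
  have hmem : algebraMap (𝓞 L) L b ∈ IsLocalization.coeSubmodule L (differentIdeal (𝓞 F) (𝓞 L)) := by
    rw [coeSubmodule_differentIdeal (𝓞 F) F, Submodule.mem_div_iff_forall_mul_mem]
    intro c hc
    rw [Submodule.mem_traceDual] at hc
    -- expansion
    have hΦ : ∀ τ : Gal(L/F), (∏ σ ∈ S, (algebraMap (𝓞 L) L (x σ) + -(τ (σ (algebraMap (𝓞 L) L (x σ)))))) =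
        if τ = 1 then algebraMap (𝓞 L) L b else 0 := by
      intro τ
      split_ifs with h
      · subst h
        rw [hb, map_prod]
        refine Finset.prod_congr rfl fun σ hσ => ?_
        rw [hx σ (Finset.mem_erase.1 hσ).1, map_sub]
        change _ = algebraMap (𝓞 L) L (x σ) - σ (algebraMap (𝓞 L) L (x σ))
        rw [AlgEquiv.one_apply, sub_eq_add_neg]
      · refine Finset.prod_eq_zero (i := τ⁻¹) (Finset.mem_erase.2 ⟨fun h1 => h ?_,
          Finset.mem_univ _⟩) ?_
        · rw [← inv_inv τ, h1, inv_one]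
        · rw [← AlgEquiv.mul_apply, mul_inv_cancel, AlgEquiv.one_apply, add_neg_cancel]
    have hexp : ∀ τ : Gal(L/F), (∏ σ ∈ S, (algebraMap (𝓞 L) L (x σ) + -(τ (σ (algebraMap (𝓞 L) L (x σ)))))) =
        ∑ T ∈ S.powerset, algebraMap (𝓞 L) L (∏ σ ∈ T, x σ) *
          τ (algebraMap (𝓞 L) L (∏ σ ∈ S \ T, -(σ • x σ))) := by
      intro τ
      rw [Finset.prod_add]
      refine Finset.sum_congr rfl fun T _ => ?_
      rw [map_prod, map_prod, map_prod]
      congr 1
      refine Finset.prod_congr rfl fun σ _ => ?_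
      rw [map_neg, map_neg]
      rfl
    have h1 : algebraMap (𝓞 L) L b * c = ∑ T ∈ S.powerset, algebraMap (𝓞 L) L (∏ σ ∈ T, x σ) *
        algebraMap F L (Algebra.trace F L (c * algebraMap (𝓞 L) L (∏ σ ∈ S \ T, -(σ • x σ)))) := by
      have h2 : algebraMap (𝓞 L) L b * c = ∑ τ : Gal(L/F), (∏ σ ∈ S, (algebraMap (𝓞 L) L (x σ) + -(τ (σ (algebraMap (𝓞 L) L (x σ)))))) * τ c := by
        simp_rw [hΦ]
        rw [Finset.sum_eq_single (1 : Gal(L/F))]
        · rw [if_pos rfl, AlgEquiv.one_apply]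
        · intro τ _ hτ
          rw [if_neg hτ, zero_mul]
        · intro h
          exact absurd (Finset.mem_univ _) h
      rw [h2]
      simp_rw [hexp, Finset.sum_mul]
      rw [Finset.sum_comm]
      refine Finset.sum_congr rfl fun T _ => ?_
      rw [trace_eq_sum_automorphisms, Finset.mul_sum]
      refine Finset.sum_congr rfl fun τ _ => ?_
      rw [map_mul]
      ring
    change algebraMap (𝓞 L) L b * c ∈ _
    rw [h1, Submodule.mem_one]
    have h3 : ∀ T ∈ S.powerset, ∃ y : 𝓞 L, algebraMap (𝓞 L) L y = algebraMap (𝓞 L) L (∏ σ ∈ T, x σ) *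
        algebraMap F L (Algebra.trace F L (c * algebraMap (𝓞 L) L (∏ σ ∈ S \ T, -(σ • x σ)))) := by
      intro T _
      have h4 := hc (algebraMap (𝓞 L) L (∏ σ ∈ S \ T, -(σ • x σ)))
        (Submodule.mem_one.2 ⟨_, rfl⟩)
      rw [Algebra.traceForm_apply] at h4
      obtain ⟨a, ha⟩ := h4
      refine ⟨(∏ σ ∈ T, x σ) * algebraMap (𝓞 F) (𝓞 L) a, ?_⟩
      rw [map_mul, ← ha]
      rfl
    choose! y hy using h3
    refine ⟨∑ T ∈ S.powerset, y T, ?_⟩
    rw [map_sum]
    exact Finset.sum_congr rfl fun T hT => hy T hT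
  rw [IsLocalization.mem_coeSubmodule] at hmem
  obtain ⟨b', hb', h⟩ := hmem
  rw [← RingOfIntegers.coe_injective h]
  exact hb'

theorem adjoin_top_of_gen {x r : 𝓞 L} (hr0 : r ≠ 0)
    (hr : ∀ b, r * b ∈ Algebra.adjoin (𝓞 F) {x}) :
    IntermediateField.adjoin F {algebraMap (𝓞 L) L x} = ⊤ := by
  have h1 : ∀ y : 𝓞 L, y ∈ Algebra.adjoin (𝓞 F) {x} →
      algebraMap (𝓞 L) L y ∈ IntermediateField.adjoin F {algebraMap (𝓞 L) L x} := by
    intro y hy
    induction hy using Algebra.adjoin_induction with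
    | mem z hz =>
      rw [Set.mem_singleton_iff] at hz
      rw [hz]
      exact IntermediateField.mem_adjoin_simple_self F _
    | algebraMap r => exact IntermediateField.algebraMap_mem _ (r : F)
    | add a b _ _ ha hb =>
      rw [map_add]
      exact add_mem ha hb
    | mul a b _ _ ha hb =>
      rw [map_mul]
      exact mul_mem ha hb
  rw [eq_top_iff]
  intro y _
  obtain ⟨a, b, hb, rfl⟩ := IsFractionRing.div_surjective (A := 𝓞 L) y
  have hrL : algebraMap (𝓞 L) L r ≠ 0 := by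
    intro h
    exact hr0 (RingOfIntegers.coe_injective (by rw [h, map_zero]))
  have e1 : algebraMap (𝓞 L) L a / algebraMap (𝓞 L) L b =
      algebraMap (𝓞 L) L (r * a) / algebraMap (𝓞 L) L (r * b) := by
    rw [map_mul, map_mul, mul_div_mul_left _ _ hrL]
  rw [e1]
  exact div_mem (h1 _ (hr a)) (h1 _ (hr b))

/-- the derivative of the minimal polynomial -/
theorem aeval_deriv [IsGalois F L] {x : 𝓞 L} (h : IntermediateField.adjoin F {algebraMap (𝓞 L) L x} = ⊤) :
    aeval x (derivative (minpoly (𝓞 F) x)) =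
      ∏ σ ∈ (Finset.univ : Finset Gal(L/F)).erase 1, (x - σ • x) := by
  classical
  have hint : IsIntegral (𝓞 F) x := integral_over x
  have hintF : IsIntegral F (algebraMap (𝓞 L) L x) := Algebra.IsIntegral.isIntegral _
  have hmin := minpoly.isIntegrallyClosed_eq_field_fractions F L hint
  have hinj : Function.Injective fun σ : Gal(L/F) => σ (algebraMap (𝓞 L) L x) := by
    intro σ τ hστ
    apply AlgEquiv.coe_toAlgHom_injective
    have h1 : ∀ y ∈ (⊤ : IntermediateField F L), (σ : L →ₐ[F] L) y = (τ : L →ₐ[F] L) y := by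
      rw [← h]
      intro y hy
      have h2 : IntermediateField.adjoin F {algebraMap (𝓞 L) L x} ≤
          IntermediateField.fixedField (Subgroup.zpowers (τ⁻¹ * σ)) := by
        rw [IntermediateField.adjoin_le_iff, Set.singleton_subset_iff]
        rintro ⟨g, hg⟩
        have h3 : (τ⁻¹ * σ) (algebraMap (𝓞 L) L x) = algebraMap (𝓞 L) L x := by
          rw [AlgEquiv.mul_apply]
          have h4 : σ (algebraMap (𝓞 L) L x) = τ (algebraMap (𝓞 L) L x) := hστ
          rw [h4, ← AlgEquiv.mul_apply, inv_mul_cancel, AlgEquiv.one_apply]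
        obtain ⟨n, rfl⟩ := Subgroup.mem_zpowers_iff.1 hg
        change ((τ⁻¹ * σ) ^ n) • algebraMap (𝓞 L) L x = algebraMap (𝓞 L) L x
        have h5 : (τ⁻¹ * σ) ∈ MulAction.stabilizer Gal(L/F) (algebraMap (𝓞 L) L x) := h3
        exact Subgroup.zpow_mem _ h5 n
      have h3 := h2 hy ⟨τ⁻¹ * σ, Subgroup.mem_zpowers _⟩
      have h4 : (τ⁻¹ * σ) y = y := h3
      rw [AlgEquiv.mul_apply] at h4
      have h5 := congrArg τ h4
      rw [← AlgEquiv.mul_apply, mul_inv_cancel, AlgEquiv.one_apply] at h5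
      exact h5
    ext y
    exact h1 y IntermediateField.mem_top
  have hprod : (minpoly F (algebraMap (𝓞 L) L x)).map (algebraMap F L) =
      ∏ σ : Gal(L/F), (X - C (σ (algebraMap (𝓞 L) L x))) := by
    refine Polynomial.eq_of_monic_of_dvd_of_natDegree_le ?_ ?_ ?_ ?_
    · exact monic_prod_of_monic _ _ fun σ _ => monic_X_sub_C _
    · exact (minpoly.monic hintF).map _
    · refine Finset.prod_dvd_of_coprime ?_ fun σ _ => ?_
      · intro σ _ τ _ hστ
        exact Polynomial.isCoprime_X_sub_C_of_isUnit_sub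
          (isUnit_iff_ne_zero.2 (sub_ne_zero.2 fun h1 => hστ (hinj h1)))
      · rw [dvd_iff_isRoot, IsRoot.def, eval_map_algebraMap]
        have h1 := minpoly.aeval F (algebraMap (𝓞 L) L x)
        have h2 := congrArg σ h1
        rw [map_zero, ← AlgEquiv.coe_toAlgHom, ← Polynomial.aeval_algHom_apply] at h2
        exact h2
    · rw [natDegree_map, Polynomial.natDegree_prod_of_monic _ _ fun σ _ => monic_X_sub_C _]
      simp only [natDegree_X_sub_C, Finset.sum_const, smul_eq_mul, mul_one, Finset.card_univ]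
      rw [← IntermediateField.adjoin.finrank hintF, h, IntermediateField.finrank_top',
        ← Nat.card_eq_fintype_card, IsGalois.card_aut_eq_finrank]
  apply RingOfIntegers.coe_injective (K := L)
  have e1 : algebraMap (𝓞 L) L (aeval x (derivative (minpoly (𝓞 F) x))) =
      (derivative ((minpoly F (algebraMap (𝓞 L) L x)).map (algebraMap F L))).eval (algebraMap (𝓞 L) L x) := by
    rw [hmin, derivative_map, derivative_map, Polynomial.map_map, eval_map,
      ← aeval_algebraMap_apply, aeval_def]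
    rfl
  rw [e1, hprod, ← Finset.mul_prod_erase Finset.univ _ (Finset.mem_univ (1 : Gal(L/F))),
    derivative_mul, eval_add, eval_mul, eval_mul, derivative_sub, derivative_X, derivative_C,
    AlgEquiv.one_apply, eval_sub, eval_sub, eval_X, eval_C, sub_self, zero_mul, add_zero,
    eval_one, eval_zero, sub_zero, one_mul, eval_prod, map_prod]
  refine Finset.prod_congr rfl fun σ _ => ?_
  rw [eval_sub, eval_X, eval_C, map_sub]
  rfl

/-- **Hilbert's formula.** -/
theorem different_eq [IsGalois F L] : differentIdeal (𝓞 F) (𝓞 L) =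
    ∏ σ ∈ (Finset.univ : Finset Gal(L/F)).erase 1, dif (σ : L → L) := by
  classical
  refine le_antisymm ?_ prod_le_different
  set J := ∏ σ ∈ (Finset.univ : Finset Gal(L/F)).erase 1, dif (σ : L → L) with hJ
  intro d hd
  have hJ0 : J ≠ ⊥ := by
    rw [hJ, Ne, ← Ideal.zero_eq_bot, Finset.prod_eq_zero_iff]
    rintro ⟨σ, hσ, h⟩
    exact dif_ne_bot (Finset.mem_erase.1 hσ).1 h
  let a : Ideal (𝓞 L) := Submodule.comap (LinearMap.toSpanSingleton (𝓞 L) (𝓞 L) d) J
  have ha : ∀ r, r ∈ a ↔ r * d ∈ J := fun r => Iff.rfl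
  suffices h : a = ⊤ by
    have h1 : (1 : 𝓞 L) ∈ a := h ▸ Submodule.mem_top
    rw [ha, one_mul] at h1
    exact h1
  by_contra hne
  obtain ⟨W, hW, haW⟩ := Ideal.exists_le_maximal a hne
  have hJa : J ≤ a := fun r hr => (ha r).2 (J.mul_mem_right d hr)
  have hWbot : W ≠ ⊥ := by
    rintro rfl
    exact hJ0 (le_bot_iff.1 (hJa.trans haW))
  obtain ⟨x, r, hr, hrb⟩ := exists_gen F (⟨W, hW.isPrime, hWbot⟩ : HeightOneSpectrum (𝓞 L))
  have hr0 : r ≠ 0 := fun h => hr (by rw [h]; exact Ideal.zero_mem _)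
  have htop := adjoin_top_of_gen hr0 hrb
  have htop' : Algebra.adjoin F {algebraMap (𝓞 L) L x} = ⊤ := by
    have h1 := congrArg IntermediateField.toSubalgebra htop
    rw [IntermediateField.adjoin_simple_toSubalgebra_of_isAlgebraic
      (Algebra.IsAlgebraic.isAlgebraic _)] at h1
    exact h1
  have hcond := conductor_mul_differentIdeal (𝓞 F) F L x htop'
  have h1 : r * d ∈ Ideal.span {aeval x (derivative (minpoly (𝓞 F) x))} := by
    rw [← hcond]
    exact Ideal.mul_mem_mul (mem_conductor_iff.2 hrb) hd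
  apply hr
  apply haW
  rw [ha]
  refine (Ideal.span_singleton_le_iff_mem J |>.2 ?_) h1
  rw [aeval_deriv htop]
  exact Ideal.prod_mem_prod fun σ _ => sub_mem_dif σ x

end Pool.Agent.N19.BR
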