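import Pool.Agent.N19.BR.Loc
import Pool.Agent.N19.BR.Gal

/-! Local degrees in hyperelementary extensions. -/

set_option autoImplicit false

namespace Pool.Agent.N19.BR

open NumberField IsDedekindDomain Polynomial
open Pool.Agent.R433.MD (IsHyper)

section
variable {M F : Type} [Field M] [NumberField M] [Field F] [NumberField F] [Algebra M F]

/-- in a Galois extension `e f` divides the degree -/
theorem ef_dvd [IsGalois M F] {w : Ideal (𝓞 M)} (hw : w.IsMaximal) {W : Ideal (𝓞 F)}
    (hW : W.IsPrime) (hWw : W.LiesOver w) :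
    W.ramificationIdx (𝓞 M) * W.inertiaDeg (𝓞 M) ∣ Module.finrank M F := by
  have h1 := Ideal.ncard_primesOver_mul_ramificationIdxIn_mul_inertiaDegIn w (𝓞 F) Gal(F/M)
  rw [Ideal.ramificationIdxIn_eq_ramificationIdx w W Gal(F/M),
    Ideal.inertiaDegIn_eq_inertiaDeg w W Gal(F/M), IsGalois.card_aut_eq_finrank] at h1
  exact ⟨_, by rw [← h1, mul_comm]⟩

end

section
variable {K M L : Type} [Field K] [NumberField K] [Field M] [NumberField M] [Field L]
  [NumberField L] [Algebra K M] [Algebra M L] [Algebra K L] [IsScalarTower K M L]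

/-- **Local degrees in hyperelementary extensions.** -/
theorem loc_dvd_hyper [IsGalois M L] {p : ℕ} (hC : Cl p (⊤ : Subgroup Gal(L/M)))
    {v : HeightOneSpectrum (𝓞 K)} {ℓ : ℕ} (hℓ : ℓ.Prime) (hne : ℓ ≠ p) {a : 𝓞 K}
    (ha : a ∈ v.asIdeal) (ha2 : a ∉ v.asIdeal ^ 2) {α : L}
    (hα : α ^ ℓ = algebraMap K L a) {h : (𝓞 K)[X]} (hm : h.Monic) (hd : h.natDegree = ℓ)
    (hirr : Irreducible (h.map (Ideal.Quotient.mk v.asIdeal))) {β : L}
    (hβ : aeval β (h.map (algebraMap (𝓞 K) K)) = 0) {w : Ideal (𝓞 M)} (hw : w.IsPrime)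
    (hv : w.LiesOver v.asIdeal) : ℓ ∣ w.ramificationIdx (𝓞 K) * w.inertiaDeg (𝓞 K) := by
  rcases hC with ⟨-, hcyc⟩ | ⟨hp, C, -, hcyc, hcop, hnorm, hpow⟩
  · have _ : IsCyclic Gal(L/M) := isCyclic_of_surjective
      (Subgroup.topEquiv (G := Gal(L/M))).toMonoidHom
      (Subgroup.topEquiv (G := Gal(L/M))).surjective
    exact loc_dvd (K := K) (M := M) (L := L) hℓ ha ha2 hα hm hd hirr hβ hw hv
  · have hmaxw := isMaximal_of_over hw hv
    have hCn : C.Normal := ⟨fun c hc g => hnorm g trivial c hc⟩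
    let F : IntermediateField M L := IntermediateField.fixedField C
    have hgal : IsGalois M F := IsGalois.of_fixedField_normal_subgroup C
    have hfix : F.fixingSubgroup = C := IntermediateField.fixingSubgroup_fixedField C
    have hcycF : IsCyclic Gal(L/F) := by
      have _ : IsCyclic F.fixingSubgroup := by rw [hfix]; exact hcyc
      exact isCyclic_of_surjective (IntermediateField.fixingSubgroupEquiv F).toMonoidHom
        (IntermediateField.fixingSubgroupEquiv F).surjective
    -- the degree of `F / M` is a power of `p`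
    have hdeg : Module.finrank M F = C.index := by
      have h1 := Module.finrank_mul_finrank M F L
      have h2 : Module.finrank F L = Nat.card C :=
        IntermediateField.finrank_fixedField_eq_card C
      have h3 := C.index_mul_card
      rw [IsGalois.card_aut_eq_finrank, ← h1, h2] at h3
      exact (Nat.eq_of_mul_eq_mul_right Nat.card_pos h3).symm
    have hndvd : ¬ ℓ ∣ C.index := by
      intro hdvd
      have hfact : Fact ℓ.Prime := ⟨hℓ⟩
      obtain ⟨x, hx⟩ := exists_prime_orderOf_dvd_card' (G := Gal(L/M) ⧸ C) ℓ hdvd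
      obtain ⟨g, rfl⟩ := QuotientGroup.mk_surjective x
      obtain ⟨k, hk⟩ := hpow g trivial
      have h1 : (g : Gal(L/M) ⧸ C) ^ p ^ k = 1 := by
        rw [← QuotientGroup.mk_pow, QuotientGroup.eq_one_iff]
        exact hk
      have h2 := orderOf_dvd_of_pow_eq_one h1
      rw [hx] at h2
      have h3 := (Nat.prime_dvd_prime_iff_eq hℓ hp).1 (hℓ.dvd_of_dvd_pow h2)
      exact hne h3
    obtain ⟨W, hWm, hWw⟩ := Ideal.exists_maximal_ideal_liesOver_of_isIntegral (S := 𝓞 F) w
    have hW : W.IsPrime := hWm.isPrime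
    have hWv : W.LiesOver v.asIdeal := Ideal.LiesOver.trans W w v.asIdeal
    have _ : IsScalarTower K F L := IsScalarTower.of_algebraMap_eq fun x => rfl
    have h1 := loc_dvd (K := K) (M := F) (L := L) hℓ ha ha2 hα hm hd hirr hβ hW hWv
    rw [ram_tower (K := K) (M := M) (L := F) hWw, inert_tower (K := K) (M := M) (L := F) hWw] at h1
    have h5 : w.ramificationIdx (𝓞 K) * W.ramificationIdx (𝓞 M) *
        (w.inertiaDeg (𝓞 K) * W.inertiaDeg (𝓞 M)) =
        (w.ramificationIdx (𝓞 K) * w.inertiaDeg (𝓞 K)) *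
        (W.ramificationIdx (𝓞 M) * W.inertiaDeg (𝓞 M)) := by ring
    rw [h5] at h1
    refine (hℓ.dvd_mul.1 h1).resolve_right fun h => hndvd ?_
    rw [← hdeg]
    exact h.trans (ef_dvd hmaxw hW hWw)

end

end Pool.Agent.N19.BR
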