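import Pool.Agent.N19.BR.ADefs

/-!
# The Bloch–Kato formula over extension fields: definitions

`M` is a polarized motive over a number field `K` (weight `-1`, central point `s = 0`), given by the
eigenvalues `α v` of the geometric Frobenius at the primes `v` of `K`, and `p` a prime number.  `ρ₁` and `ρ₀`
are the representations of the absolute Galois group of `K` over `k = ℚ_p` on the unions of the spaces
`H¹_f(F, M_p)` and `H⁰(F, M_p)` over all finite extensions `F` of `K` in `K̄`.  By Galois descent
`H¹_f(F, M_p)` and `H⁰(F, M_p)` are the spaces of the elements fixed by the absolute Galois group of `F`.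
In the definitions `ρ₁` and `ρ₀` are any representations.
-/

set_option autoImplicit false

namespace Pool.Agent.N19.BR.MDef

open NumberField IsDedekindDomain Polynomial

section
variable {K : Type} [Field K] [NumberField K] {k V₁ V₀ : Type} [Field k] [AddCommGroup V₁]
  [Module k V₁] [AddCommGroup V₀] [Module k V₀]
  (ρ₁ : Representation k Gal(AlgebraicClosure K/K) V₁)
  (ρ₀ : Representation k Gal(AlgebraicClosure K/K) V₀) {N : ℕ}

/-- The Bloch–Kato formula over `F` with defect `δ`: the spaces fixed by the absolute Galois group of `F` have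
finite dimensions `h₁`, `h₀`, and `L(M_F, s)` has a meromorphic continuation to `U` of order `h₁ - h₀ + δ` at
`s = 0`.  The conjecture is that this holds with `δ = 0`. -/
def BlochKato (α : HeightOneSpectrum (𝓞 K) → Fin N → ℂ) (U : Set ℂ) (δ : ℤ)
    (F : IntermediateField K (AlgebraicClosure K)) : Prop :=
  FiniteDimensional k (fixedBy ρ₁ F) ∧ FiniteDimensional k (fixedBy ρ₀ F) ∧
    ∃ (_ : NumberField F) (B : HeightOneSpectrum (𝓞 F) → ℂ[X]) (Λ : ℂ → ℂ),
      FactorsOver α B ∧ Regular B 0 ∧ Continues U B 1 Λ ∧
      meromorphicOrderAt Λ 0 = ((Module.finrank k (fixedBy ρ₁ F) -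
        Module.finrank k (fixedBy ρ₀ F) + δ : ℤ) : WithTop ℤ)

/-- The Bloch–Kato formula over `K` with defect `δ`, for all Euler factors without pole at `s = 0`: the spaces
fixed by the absolute Galois group of `K` have finite dimensions `h₁`, `h₀`, the function `L(M, s)` has a
meromorphic continuation to `U`, and every such continuation has order `h₁ - h₀ + δ` at `s = 0`. -/
def BlochKatoOverBase (α : HeightOneSpectrum (𝓞 K) → Fin N → ℂ) (U : Set ℂ) (δ : ℤ) : Prop :=
  FiniteDimensional k (Representation.invariants ρ₁) ∧
    FiniteDimensional k (Representation.invariants ρ₀) ∧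
    ∀ B : HeightOneSpectrum (𝓞 K) → ℂ[X], FactorsOver α B → Regular B 0 →
      (∃ Λ : ℂ → ℂ, Continues U B 1 Λ) ∧
      ∀ Λ : ℂ → ℂ, Continues U B 1 Λ → meromorphicOrderAt Λ 0 =
        ((Module.finrank k (Representation.invariants ρ₁) -
          Module.finrank k (Representation.invariants ρ₀) + δ : ℤ) : WithTop ℤ)

end

end Pool.Agent.N19.BR.MDef
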