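import Pool.Agent.N19.BR.AMain
import Pool.Agent.N19.BR.KDefs
import Pool.Agent.N19.BR.BSD
import Pool.Agent.N19.BR.Inv

/-! The Bloch–Kato formula from a relation. -/

set_option autoImplicit false

namespace Pool.Agent.N19.BR

open NumberField IsDedekindDomain Polynomial
open Pool.Agent.R433.MD (Ext)
open Pool.Agent.N19.BR.MDef Pool.Agent.N19.BR.TDef

theorem blochKato_of_rel {K : Type} [Field K] [NumberField K] {k V₁ V₀ : Type} [Field k]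
    [CharZero k] [AddCommGroup V₁] [Module k V₁] [AddCommGroup V₀] [Module k V₀]
    (ρ₁ : Representation k Gal(AlgebraicClosure K/K) V₁)
    (ρ₀ : Representation k Gal(AlgebraicClosure K/K) V₀) {Y : FieldList K}
    (h : IsRel K (fun j => (⟨Y.F j⟩ : Ext K)) Y.e 1) {N : ℕ}
    {α : HeightOneSpectrum (𝓞 K) → Fin N → ℂ} (hα : Pure (-1) α) {U : Set ℂ}
    (hU : Region (-1) U) (h0 : (0 : ℂ) ∈ U) {δ : Fin Y.r → ℤ}
    (hF : ∀ j, BlochKato ρ₁ ρ₀ α U (δ j) (Y.F j)) :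
    BlochKatoOverBase ρ₁ ρ₀ α U (∑ j, Y.e j * δ j) := by
  classical
  have hne : Nonempty (Fin Y.r) := nonempty_of_rel one_ne_zero h
  obtain ⟨h1, h2⟩ := inv_rel ρ₁ Y.F h (fun j => (hF j).1)
  obtain ⟨h3, h4⟩ := inv_rel ρ₀ Y.F h (fun j => (hF j).2.1)
  refine ⟨h1, h3, fun B₀ hB₀ hr₀ => ?_⟩
  have h5 : ∀ j, ∃ (B : HeightOneSpectrum (𝓞 (Y.F j)) → ℂ[X]) (Λ : ℂ → ℂ),
      FactorsOver α B ∧ Regular B 0 ∧ Continues U B 1 Λ ∧
      meromorphicOrderAt Λ 0 = ((Module.finrank k (fixedBy ρ₁ (Y.F j)) -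
        Module.finrank k (fixedBy ρ₀ (Y.F j)) + δ j : ℤ) : WithTop ℤ) := fun j => by
    obtain ⟨-, -, _, B, Λ, hB, hr, hΛ, ho⟩ := hF j
    exact ⟨B, Λ, hB, hr, hΛ, ho⟩
  choose B Λ hB hr hΛ ho using h5
  obtain ⟨h6, h7⟩ := cont_alpha h hα B hB hU hΛ hB₀
  refine ⟨h6, fun Λ₀ hΛ₀ => ?_⟩
  obtain ⟨r₀, h8, h9⟩ := h7 Λ₀ hΛ₀ 0 h0 hr₀ hr _ ho
  rw [h8]
  congr 1
  have h10 : ∑ j, Y.e j * ((Module.finrank k (fixedBy ρ₁ (Y.F j)) : ℤ) -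
        Module.finrank k (fixedBy ρ₀ (Y.F j)) + δ j) =
      ∑ j, Y.e j * (Module.finrank k (inv ρ₁ (Y.F j)) : ℤ) -
        ∑ j, Y.e j * (Module.finrank k (inv ρ₀ (Y.F j)) : ℤ) + ∑ j, Y.e j * δ j := by
    rw [← Finset.sum_sub_distrib, ← Finset.sum_add_distrib]
    refine Finset.sum_congr rfl fun j _ => ?_
    rw [mul_add, mul_sub]
    rfl
  rw [h10, ← h2, ← h4] at h9
  push_cast at h9
  linarith

end Pool.Agent.N19.BR
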