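import Pool.Agent.N19.BR.Abs
import Mathlib.Analysis.Meromorphic.TrailingCoefficient

/-! Relations between Euler products with values in a field, and leading coefficients. -/

set_option autoImplicit false

namespace Pool.Agent.N19.BR

open NumberField IsDedekindDomain Complex Filter Topology
open Pool.Agent.H341R2.EC
open Pool.Agent.R433.MD
open Pool.Agent.R333.BR (nh_congr)

section
variable {K : Type} [Field K] [NumberField K]

/-- **Relations between Euler products.** -/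
theorem relation_fld {ι : Type} [Fintype ι] (F : ι → Type) [∀ i, Field (F i)]
    [∀ i, NumberField (F i)] [∀ i, Algebra K (F i)] (a b : ι → ℕ) {D : 𝓞 K} (hD0 : D ≠ 0)
    (hD : ∀ (k : Type) [Field k] [Finite k] (φ : 𝓞 K →+* k), φ D ≠ 0 →
      ∑ i, a i * nh (F i) φ = ∑ i, b i * nh (F i) φ)
    (P : ∀ i, HeightOneSpectrum (𝓞 (F i)) → ℂ → ℂ) (hPd : ∀ i w, Differentiable ℂ (P i w))
    (hG : ∀ᶠ v : HeightOneSpectrum (𝓞 K) in cofinite, ∃ G : ℕ → ℂ → ℂ,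
      ∀ i (w : Fib (F i) v), P i w.1 = G (fdeg w))
    (L : ι → ℂ → ℂ) {c : ℝ}
    (hL : ∀ i (s : ℂ), c < s.re → HasProd (fun w => (P i w s)⁻¹) (L i s) ∧ L i s ≠ 0)
    {T : Set ℂ} (hT : ∀ s ∈ T, ∀ i w, P i w s ≠ 0) :
    ∃ R : ℂ → ℂ, MeromorphicOn R Set.univ ∧ (∀ s ∈ T, AnalyticAt ℂ R s ∧ R s ≠ 0) ∧
      (∀ (s : ℂ) (𝔽 : Subfield ℂ), (∀ i w, P i w s ∈ 𝔽) → R s ∈ 𝔽) ∧
      ∀ s : ℂ, c < s.re → R s ≠ 0 ∧ ∏ i, L i s ^ a i = R s * ∏ i, L i s ^ b i := by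
  classical
  have hfin : {v : HeightOneSpectrum (𝓞 K) | D ∈ v.asIdeal}.Finite := finite_mem hD0
  have hbad : ∀ᶠ v : HeightOneSpectrum (𝓞 K) in cofinite, D ∉ v.asIdeal ∧ ∃ G : ℕ → ℂ → ℂ,
      ∀ i (w : Fib (F i) v), P i w.1 = G (fdeg w) := by
    filter_upwards [hfin.compl_mem_cofinite, hG] with v h1 h2 using ⟨h1, h2⟩
  rw [eventually_cofinite] at hbad
  set S := hbad.toFinset with hS
  have hgoodv : ∀ v, v ∉ S → D ∉ v.asIdeal ∧ ∃ G : ℕ → ℂ → ℂ,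
      ∀ i (w : Fib (F i) v), P i w.1 = G (fdeg w) := by
    intro v hv
    by_contra h
    exact hv (hbad.mem_toFinset.2 h)
  -- local products
  let A : (ι → ℕ) → ℂ → HeightOneSpectrum (𝓞 K) → ℂ := fun e s v =>
    ∏ i, (∏ w : Fib (F i) v, (P i w.1 s)⁻¹) ^ e i
  have hprod : ∀ (e : ι → ℕ) (s : ℂ), c < s.re → HasProd (A e s) (∏ i, L i s ^ e i) := by
    intro e s hs
    refine hasProd_prod fun i _ => ?_
    exact hasProd_pow (hasProd_fib (hL i s hs).1) (e i)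
  have hgood : ∀ (s : ℂ) (v : HeightOneSpectrum (𝓞 K)), v ∉ S → A a s v = A b s v := by
    intro s v hv
    obtain ⟨hvD, G, hG⟩ := hgoodv v hv
    have hA : ∀ e : ι → ℕ, A e s v = ∏ i, (∏ w : Fib (F i) v, (G (fdeg w) s)⁻¹) ^ e i := by
      intro e
      refine Finset.prod_congr rfl fun i _ => ?_
      congr 1
      refine Finset.prod_congr rfl fun w _ => ?_
      rw [hG i w]
    rw [hA, hA]
    refine comb (fun i => Fib (F i) v) (fun i w => fdeg w) (fun i w => fdeg_pos w) a b ?_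
      (fun n => (G n s)⁻¹)
    intro m hm
    obtain ⟨k, iF, iFin, iA, hk⟩ := exists_ext (𝓞 K ⧸ v.asIdeal) hm
    have h1 := hD k (base v k) (by
      rw [base, RingHom.comp_apply]
      intro h
      rw [map_eq_zero_iff _ (algebraMap (𝓞 K ⧸ v.asIdeal) k).injective,
        Ideal.Quotient.eq_zero_iff_mem] at h
      exact hvD h)
    simp only [nh_eq, hk] at h1
    exact h1
  -- the finite parts
  have hmer : ∀ e : ι → ℕ, MeromorphicOn (fun s => ∏ v ∈ S, A e s v) Set.univ := by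
    intro e
    apply MeromorphicOn.fun_prod
    intro v _
    change MeromorphicOn (fun s => ∏ i, (∏ w : Fib (F i) v, (P i w.1 s)⁻¹) ^ e i) Set.univ
    apply MeromorphicOn.fun_prod
    intro i _
    apply MeromorphicOn.fun_pow
    apply MeromorphicOn.fun_prod
    intro w _
    apply MeromorphicOn.fun_inv
    intro z _
    exact ((hPd i w.1).analyticAt z).meromorphicAt
  have hne : ∀ (e : ι → ℕ) (s : ℂ), (∀ i w, P i w s ≠ 0) → ∏ v ∈ S, A e s v ≠ 0 := by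
    intro e s hs
    refine Finset.prod_ne_zero_iff.2 fun v _ => Finset.prod_ne_zero_iff.2 fun i _ => ?_
    exact pow_ne_zero _ (Finset.prod_ne_zero_iff.2 fun w _ => inv_ne_zero (hs i w.1))
  have hhalf : ∀ s : ℂ, c < s.re → ∀ i w, P i w s ≠ 0 := by
    intro s hs i w h0
    have h1 := ne_of_hasProd (hL i s hs).1 (hL i s hs).2 w
    rw [h0, inv_zero] at h1
    exact h1 rfl
  have han : ∀ (e : ι → ℕ) (s : ℂ), (∀ i w, P i w s ≠ 0) →
      AnalyticAt ℂ (fun s => ∏ v ∈ S, A e s v) s := by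
    intro e s hs
    apply Finset.analyticAt_fun_prod
    intro v _
    change AnalyticAt ℂ (fun s => ∏ i, (∏ w : Fib (F i) v, (P i w.1 s)⁻¹) ^ e i) s
    apply Finset.analyticAt_fun_prod
    intro i _
    apply AnalyticAt.fun_pow
    apply Finset.analyticAt_fun_prod
    intro w _
    exact ((hPd i w.1).analyticAt s).fun_inv (hs i w.1)
  refine ⟨fun s => (∏ v ∈ S, A a s v) / (∏ v ∈ S, A b s v), (hmer a).fun_div (hmer b),
    fun s hs => ⟨(han a s (hT s hs)).fun_div (han b s (hT s hs)) (hne b s (hT s hs)),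
      div_ne_zero (hne a s (hT s hs)) (hne b s (hT s hs))⟩, fun s 𝔽 h𝔽 => ?_, fun s hs => ?_⟩
  · have hmem : ∀ e : ι → ℕ, ∏ v ∈ S, A e s v ∈ 𝔽 := fun e =>
      prod_mem fun v _ => prod_mem fun i _ => pow_mem (prod_mem fun w _ => inv_mem (h𝔽 i w.1)) _
    exact div_mem (hmem a) (hmem b)
  have h1 := compare (hprod a s hs) (hprod b s hs) S (hgood s)
  have h2 := hne b s (hhalf s hs)
  refine ⟨div_ne_zero (hne a s (hhalf s hs)) h2, ?_⟩
  rw [div_mul_eq_mul_div, eq_div_iff h2, h1, mul_comm]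

/-- **Relations between Euler products**, form with integral exponents. -/
theorem rel_euler_fld {ι : Type} [Fintype ι] {Z : ι → Ext K} {e : ι → ℤ} {m : ℕ}
    (h : IsRel K Z e m)
    (P : ∀ i : Option ι, HeightOneSpectrum (𝓞 (Opt Z i).F) → ℂ → ℂ)
    (hPd : ∀ i w, Differentiable ℂ (P i w))
    (hG : ∀ᶠ v : HeightOneSpectrum (𝓞 K) in cofinite, ∃ G : ℕ → ℂ → ℂ,
      ∀ i (w : Fib (Opt Z i).F v), P i w.1 = G (fdeg w))
    (L : Option ι → ℂ → ℂ) {c : ℝ}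
    (hL : ∀ i (s : ℂ), c < s.re → HasProd (fun w => (P i w s)⁻¹) (L i s) ∧ L i s ≠ 0)
    {T : Set ℂ} (hT : ∀ s ∈ T, ∀ i w, P i w s ≠ 0) :
    ∃ R : ℂ → ℂ, MeromorphicOn R Set.univ ∧ (∀ s ∈ T, AnalyticAt ℂ R s ∧ R s ≠ 0) ∧
      (∀ (s : ℂ) (𝔽 : Subfield ℂ), (∀ i w, P i w s ∈ 𝔽) → R s ∈ 𝔽) ∧
      ∀ s : ℂ, c < s.re → R s ≠ 0 ∧ L none s ^ m = R s * ∏ i, L (some i) s ^ e i := by
  classical
  obtain ⟨D, hD0, hD⟩ := count_rel h
  obtain ⟨R, hR1, hR2, hR4, hR3⟩ := relation_fld (fun i => (Opt Z i).F) (ca e) (cb m e) hD0 hD P hPd hG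
    L hL hT
  refine ⟨fun s => (R s)⁻¹, hR1.fun_inv, fun s hs => ⟨(hR2 s hs).1.fun_inv (hR2 s hs).2,
    inv_ne_zero (hR2 s hs).2⟩, fun s 𝔽 h𝔽 => inv_mem (hR4 s 𝔽 h𝔽),
    fun s hs => ⟨inv_ne_zero (hR3 s hs).1, ?_⟩⟩
  obtain ⟨h1, h2⟩ := hR3 s hs
  simp only [Fintype.prod_option] at h2
  have h3 : L none s ^ 0 * ∏ i, L (some i) s ^ (e i).toNat =
      R s * (L none s ^ m * ∏ i, L (some i) s ^ (-e i).toNat) := h2
  have hne : ∀ i, L (some i) s ≠ 0 := fun i => (hL (some i) s hs).2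
  rw [pow_zero, one_mul] at h3
  have h4 : ∏ i, L (some i) s ^ e i =
      (∏ i, L (some i) s ^ (e i).toNat) / ∏ i, L (some i) s ^ (-e i).toNat := by
    rw [← Finset.prod_div_distrib]
    refine Finset.prod_congr rfl fun i _ => ?_
    conv_lhs => rw [← Int.toNat_sub_toNat_neg (e i)]
    rw [zpow_sub₀ (hne _), zpow_natCast, zpow_natCast]
  have h5 : ∏ i, L (some i) s ^ (-e i).toNat ≠ 0 :=
    Finset.prod_ne_zero_iff.2 fun i _ => pow_ne_zero _ (hne _)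
  rw [h4, h3]
  field_simp

end

section lead

variable {U : Set ℂ} {c : ℝ} {s₀ : ℂ}

theorem nhds_eq (hU : IsPreconnected U) (hH : ∀ s : ℂ, c < s.re → s ∈ U) (h1 : s₀ ∈ U)
    {f g : ℂ → ℂ} (hf : MeromorphicOn f U) (hg : MeromorphicOn g U)
    (h : ∀ s : ℂ, c < s.re → f s = g s) : f =ᶠ[𝓝[≠] s₀] g := by
  have hh : MeromorphicOn (fun s => f s - g s) U := hf.fun_sub hg
  have h2 : meromorphicOrderAt (fun s => f s - g s) ((c + 1 : ℝ) : ℂ) = ⊤ := by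
    rw [meromorphicOrderAt_eq_top_iff]
    apply eventually_nhdsWithin_of_eventually_nhds
    filter_upwards [half_nhds' c] with s hs
    rw [h s hs, sub_self]
  have h2U : ((c + 1 : ℝ) : ℂ) ∈ U := hH _ (by rw [Complex.ofReal_re]; linarith)
  have h4 : meromorphicOrderAt (fun s => f s - g s) s₀ = ⊤ := by
    by_contra h5
    exact hh.meromorphicOrderAt_ne_top_of_isPreconnected hU h1 h2U h5 h2
  rw [meromorphicOrderAt_eq_top_iff] at h4
  exact h4.mono fun s hs => sub_eq_zero.1 hs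

/-- **The leading coefficients.** -/
theorem lead_rel_abs (hU : IsPreconnected U) (hH : ∀ s : ℂ, c < s.re → s ∈ U) (h1 : s₀ ∈ U)
    {ι : Type} [Fintype ι] {e : ι → ℤ} {m : ℕ} {R L₀ : ℂ → ℂ} {Λ : ι → ℂ → ℂ}
    (hR : MeromorphicOn R Set.univ) (hR0 : AnalyticAt ℂ R s₀ ∧ R s₀ ≠ 0)
    (hrel : ∀ s : ℂ, c < s.re → L₀ s ^ m = R s * ∏ i, Λ i s ^ e i)
    (hΛ : ∀ i, MeromorphicOn (Λ i) U) :
    (∃ Λ₀ : ℂ → ℂ, MeromorphicOn Λ₀ U ∧ (∀ s : ℂ, c < s.re → Λ₀ s = L₀ s ^ m) ∧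
      meromorphicTrailingCoeffAt Λ₀ s₀ = R s₀ * ∏ i, meromorphicTrailingCoeffAt (Λ i) s₀ ^ e i) ∧
    ∀ Λ₀ : ℂ → ℂ, MeromorphicOn Λ₀ U → (∀ s : ℂ, c < s.re → Λ₀ s = L₀ s) →
      meromorphicTrailingCoeffAt Λ₀ s₀ ^ m =
        R s₀ * ∏ i, meromorphicTrailingCoeffAt (Λ i) s₀ ^ e i := by
  have hRU : MeromorphicOn R U := fun x _ => hR x trivial
  have hmer : MeromorphicOn (R * ∏ i, (Λ i) ^ (e i)) U :=
    hRU.mul (MeromorphicOn.prod fun i _ => (hΛ i).zpow _)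
  have hRl : meromorphicTrailingCoeffAt R s₀ = R s₀ :=
    hR0.1.meromorphicTrailingCoeffAt_of_ne_zero hR0.2
  have hlead : meromorphicTrailingCoeffAt (R * ∏ i, (Λ i) ^ (e i)) s₀ =
      R s₀ * ∏ i, meromorphicTrailingCoeffAt (Λ i) s₀ ^ e i := by
    rw [(hR s₀ trivial).meromorphicTrailingCoeffAt_mul
      (MeromorphicAt.prod fun i _ => (hΛ i s₀ h1).zpow _), hRl,
      meromorphicTrailingCoeffAt_prod fun i _ => (hΛ i s₀ h1).zpow _]
    congr 1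
    exact Finset.prod_congr rfl fun i _ => (hΛ i s₀ h1).meromorphicTrailingCoeffAt_zpow
  have hval : ∀ s : ℂ, c < s.re → (R * ∏ i, (Λ i) ^ (e i)) s = L₀ s ^ m := by
    intro s hs
    rw [hrel s hs, Pi.mul_apply, Finset.prod_apply]
    rfl
  refine ⟨⟨_, hmer, hval, hlead⟩, fun Λ₀ hΛ₀ hL₀ => ?_⟩
  rw [← hlead, ← (hΛ₀ s₀ h1).meromorphicTrailingCoeffAt_pow]
  apply meromorphicTrailingCoeffAt_congr_nhdsNE
  refine nhds_eq hU hH h1 (hΛ₀.pow m) hmer fun s hs => ?_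
  rw [hval s hs, Pi.pow_apply, hL₀ s hs]

end lead

end Pool.Agent.N19.BR
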