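import Mathlib

/-! Local degrees in cyclic extensions. -/

set_option autoImplicit false

namespace Pool.Agent.N19.BR

open NumberField IsDedekindDomain Polynomial

/-- the local degree -/
noncomputable def ldeg (K : Type) [Field K] [NumberField K] {F : Type} [Field F] [NumberField F]
    [Algebra K F] (w : Ideal (𝓞 F)) : ℕ := w.ramificationIdx (𝓞 K) * w.inertiaDeg (𝓞 K)

/-- `n` divides the local degrees of `F / K` at the primes above `S`. -/
def LocDvd (K : Type) [Field K] [NumberField K] (S : Set (HeightOneSpectrum (𝓞 K))) (n : ℕ)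
    (F : Type) [Field F] [NumberField F] [Algebra K F] : Prop :=
  ∀ v ∈ S, ∀ w : Ideal (𝓞 F), w.IsPrime → w.LiesOver v.asIdeal →
    n ∣ w.ramificationIdx (𝓞 K) * w.inertiaDeg (𝓞 K)

section
variable {K : Type} [Field K] [NumberField K] {F : Type} [Field F] [NumberField F] [Algebra K F]

theorem isMaximal_of_over {v : HeightOneSpectrum (𝓞 K)} {w : Ideal (𝓞 F)} (hw : w.IsPrime)
    (hv : w.LiesOver v.asIdeal) : w.IsMaximal := by
  refine hw.isMaximal fun h => v.ne_bot ?_
  rw [hv.over, h, Ideal.under_bot]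

theorem ef_le {v : HeightOneSpectrum (𝓞 K)} {w : Ideal (𝓞 F)} (hw : w.IsPrime)
    (hv : w.LiesOver v.asIdeal) :
    w.ramificationIdx (𝓞 K) * w.inertiaDeg (𝓞 K) ≤ Module.finrank K F := by
  classical
  have : v.asIdeal.IsMaximal := v.isMaximal
  have hfin : (v.asIdeal.primesOver (𝓞 F)).Finite :=
    IsDedekindDomain.primesOver_finite v.asIdeal (𝓞 F)
  let _ : Fintype (v.asIdeal.primesOver (𝓞 F)) := hfin.fintype
  have h1 := Ideal.sum_ramification_inertia_eq_finrank v.asIdeal (𝓞 F)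
  rw [IsFractionRing.finrank_eq (𝓞 K) K (𝓞 F) F, ← h1]
  exact Finset.single_le_sum (f := fun q : v.asIdeal.primesOver (𝓞 F) =>
    q.1.ramificationIdx (𝓞 K) * q.1.inertiaDeg (𝓞 K)) (fun _ _ => Nat.zero_le _)
    (Finset.mem_univ ⟨w, hw, hv⟩)

/-- a root of a uniformizer gives ramification -/
theorem dvd_ram {v : HeightOneSpectrum (𝓞 K)} {a : 𝓞 K} (ha : a ∈ v.asIdeal)
    (ha2 : a ∉ v.asIdeal ^ 2) {ℓ : ℕ} {α : 𝓞 F} (hα : α ^ ℓ = algebraMap (𝓞 K) (𝓞 F) a)
    {w : Ideal (𝓞 F)} (hw : w.IsPrime) (hv : w.LiesOver v.asIdeal) :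
    ℓ ∣ w.ramificationIdx (𝓞 K) := by
  classical
  have hmax := isMaximal_of_over hw hv
  have ha0 : a ≠ 0 := fun h => ha2 (by rw [h]; exact Ideal.zero_mem _)
  have hinj : Function.Injective (algebraMap (𝓞 K) (𝓞 F)) := FaithfulSMul.algebraMap_injective _ _
  have hvm : v.asIdeal.map (algebraMap (𝓞 K) (𝓞 F)) ≠ ⊥ := by
    intro h
    rw [Ideal.map_eq_bot_iff_of_injective hinj] at h
    exact v.ne_bot h
  obtain ⟨I, hI⟩ : v.asIdeal ∣ Ideal.span {a} := by
    rw [Ideal.dvd_iff_le, Ideal.span_singleton_le_iff_mem]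
    exact ha
  have hIv : ¬ I ≤ v.asIdeal := by
    intro h
    apply ha2
    rw [← Ideal.span_singleton_le_iff_mem, hI, sq]
    exact Ideal.mul_mono_right h
  have hI0 : I.map (algebraMap (𝓞 K) (𝓞 F)) ≠ ⊥ := by
    intro h
    rw [Ideal.map_eq_bot_iff_of_injective hinj] at h
    exact hIv (by rw [h]; exact bot_le)
  have h1 : Ideal.span {α} ^ ℓ = v.asIdeal.map (algebraMap (𝓞 K) (𝓞 F)) *
      I.map (algebraMap (𝓞 K) (𝓞 F)) := by
    rw [← Ideal.map_mul, ← hI, Ideal.map_span, Set.image_singleton, ← hα,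
      Ideal.span_singleton_pow]
  have h2 : (UniqueFactorizationMonoid.normalizedFactors (Ideal.span {α} ^ ℓ)).count w =
      (UniqueFactorizationMonoid.normalizedFactors (v.asIdeal.map (algebraMap (𝓞 K) (𝓞 F)) *
      I.map (algebraMap (𝓞 K) (𝓞 F)))).count w := by rw [h1]
  rw [UniqueFactorizationMonoid.normalizedFactors_mul hvm hI0,
    UniqueFactorizationMonoid.normalizedFactors_pow, Multiset.count_nsmul, Multiset.count_add,
    ← Ideal.IsDedekindDomain.ramificationIdx_eq_normalizedFactors_count v.asIdeal w hvm] at h2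
  have h3 : (UniqueFactorizationMonoid.normalizedFactors
      (I.map (algebraMap (𝓞 K) (𝓞 F)))).count w = 0 := by
    rw [Multiset.count_eq_zero]
    intro h
    have h4 := UniqueFactorizationMonoid.dvd_of_mem_normalizedFactors h
    rw [Ideal.dvd_iff_le, Ideal.map_le_iff_le_comap] at h4
    refine hIv (h4.trans ?_)
    rw [hv.over]
  rw [h3, add_zero] at h2
  exact ⟨_, h2.symm⟩

/-- a root of an irreducible polynomial gives inertia -/
theorem dvd_inert {v : HeightOneSpectrum (𝓞 K)} {h : (𝓞 K)[X]} (hm : h.Monic)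
    (hirr : Irreducible (h.map (Ideal.Quotient.mk v.asIdeal))) {β : 𝓞 F} (hβ : aeval β h = 0)
    {w : Ideal (𝓞 F)} (hw : w.IsPrime) (hv : w.LiesOver v.asIdeal) :
    h.natDegree ∣ w.inertiaDeg (𝓞 K) := by
  have hmax := isMaximal_of_over hw hv
  have hvmax : v.asIdeal.IsMaximal := v.isMaximal
  rw [Ideal.inertiaDeg_eq_of_isMaximal v.asIdeal w]
  let _ : Field (𝓞 K ⧸ v.asIdeal) := Ideal.Quotient.field _
  let _ : Field (𝓞 F ⧸ w) := Ideal.Quotient.field _
  have hroot : aeval (Ideal.Quotient.mk w β) (h.map (Ideal.Quotient.mk v.asIdeal)) = 0 := by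
    rw [aeval_def, eval₂_map, ← Ideal.Quotient.algebraMap_eq v.asIdeal]
    have h1 : (algebraMap (𝓞 K ⧸ v.asIdeal) (𝓞 F ⧸ w)).comp
        (algebraMap (𝓞 K) (𝓞 K ⧸ v.asIdeal)) =
        (Ideal.Quotient.mk w).comp (algebraMap (𝓞 K) (𝓞 F)) := by
      ext x
      rfl
    rw [h1, ← hom_eval₂, ← aeval_def, hβ, map_zero]
  have hmm : (h.map (Ideal.Quotient.mk v.asIdeal)).Monic := hm.map _
  have hmin := minpoly.eq_of_irreducible_of_monic hirr hroot hmm
  have hint : IsIntegral (𝓞 K ⧸ v.asIdeal) (Ideal.Quotient.mk w β) :=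
    ⟨_, hmm, by rw [← aeval_def]; exact hroot⟩
  have h2 := minpoly.degree_dvd hint
  rw [← hmin, hm.natDegree_map] at h2
  exact h2

end

/-- subgroups of cyclic groups -/
theorem cyc_eq {G : Type} [Group G] [Finite G] [IsCyclic G] {H H' : Subgroup G}
    (h : Nat.card H = Nat.card H') : H = H' := by
  classical
  let _ : Fintype G := Fintype.ofFinite _
  have key : ∀ A : Subgroup G, (A : Set G).toFinset =
      Finset.univ.filter fun a : G => a ^ Nat.card A = 1 := by
    intro A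
    refine Finset.eq_of_subset_of_card_le ?_ ?_
    · intro x hx
      rw [Set.mem_toFinset] at hx
      rw [Finset.mem_filter]
      exact ⟨Finset.mem_univ _, by
        have h1 := pow_card_eq_one' (x := (⟨x, hx⟩ : A))
        exact congrArg Subtype.val h1⟩
    · refine (IsCyclic.card_pow_eq_one_le Nat.card_pos).trans ?_
      rw [Set.toFinset_card, Nat.card_eq_fintype_card]
      exact le_rfl
  have h1 := key H
  rw [h, ← key H'] at h1
  exact SetLike.coe_injective (Set.toFinset_inj.1 h1)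

theorem cyc_field_eq {M L : Type} [Field M] [Field L] [Algebra M L] [FiniteDimensional M L]
    [IsGalois M L] [IsCyclic Gal(L/M)] {A B : IntermediateField M L}
    (h : Module.finrank M A = Module.finrank M B) : A = B := by
  have h1 : Nat.card A.fixingSubgroup = Nat.card B.fixingSubgroup := by
    rw [IsGalois.card_fixingSubgroup_eq_finrank, IsGalois.card_fixingSubgroup_eq_finrank]
    have h2 := Module.finrank_mul_finrank M A L
    have h3 := Module.finrank_mul_finrank M B L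
    rw [← h3, ← h] at h2
    exact Nat.eq_of_mul_eq_mul_left Module.finrank_pos h2
  rw [← IsGalois.fixedField_fixingSubgroup A, cyc_eq h1, IsGalois.fixedField_fixingSubgroup]

section
variable {K M L : Type} [Field K] [NumberField K] [Field M] [NumberField M] [Field L]
  [NumberField L] [Algebra K M] [Algebra M L] [Algebra K L] [IsScalarTower K M L]

theorem ram_tower {w : Ideal (𝓞 M)} {W : Ideal (𝓞 L)} (hW : W.LiesOver w) :
    W.ramificationIdx (𝓞 K) = w.ramificationIdx (𝓞 K) * W.ramificationIdx (𝓞 M) :=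
  Ideal.ramificationIdx_tower w W

theorem inert_tower {w : Ideal (𝓞 M)} {W : Ideal (𝓞 L)} (hW : W.LiesOver w) :
    W.inertiaDeg (𝓞 K) = w.inertiaDeg (𝓞 K) * W.inertiaDeg (𝓞 M) :=
  Ideal.inertiaDeg_tower w W

theorem ram_step {v : HeightOneSpectrum (𝓞 K)} {ℓ : ℕ} (hℓ : ℓ.Prime) {a : 𝓞 K}
    (ha : a ∈ v.asIdeal) (ha2 : a ∉ v.asIdeal ^ 2) {α : L} (hα : α ^ ℓ = algebraMap K L a)
    {w : Ideal (𝓞 M)} (hv : w.LiesOver v.asIdeal) (he : ¬ ℓ ∣ w.ramificationIdx (𝓞 K))
    {W : Ideal (𝓞 L)} (hW : W.IsPrime) (hWw : W.LiesOver w) : ℓ ∣ W.ramificationIdx (𝓞 M) := by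
  have hint : IsIntegral ℤ α := by
    apply IsIntegral.of_pow hℓ.pos
    rw [hα]
    exact (RingOfIntegers.isIntegral_coe a).map (algebraMap K L).toIntAlgHom
  obtain ⟨α', rfl⟩ : ∃ α' : 𝓞 L, (α' : L) = α := ⟨⟨α, hint⟩, rfl⟩
  have h1 : α' ^ ℓ = algebraMap (𝓞 K) (𝓞 L) a := by
    apply RingOfIntegers.coe_injective (K := L)
    rw [map_pow]
    exact hα
  have hWv : W.LiesOver v.asIdeal := Ideal.LiesOver.trans W w v.asIdeal
  have h2 := dvd_ram ha ha2 h1 hW hWv
  rw [ram_tower hWw] at h2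
  exact (hℓ.dvd_mul.1 h2).resolve_left he

theorem inert_step {v : HeightOneSpectrum (𝓞 K)} {ℓ : ℕ} (hℓ : ℓ.Prime) {h : (𝓞 K)[X]}
    (hm : h.Monic) (hd : h.natDegree = ℓ)
    (hirr : Irreducible (h.map (Ideal.Quotient.mk v.asIdeal))) {β : L}
    (hβ : aeval β (h.map (algebraMap (𝓞 K) K)) = 0)
    {w : Ideal (𝓞 M)} (hv : w.LiesOver v.asIdeal) (hf : ¬ ℓ ∣ w.inertiaDeg (𝓞 K))
    {W : Ideal (𝓞 L)} (hW : W.IsPrime) (hWw : W.LiesOver w) : ℓ ∣ W.inertiaDeg (𝓞 M) := by
  have hβ' : aeval β h = 0 := by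
    rw [aeval_map_algebraMap] at hβ
    exact hβ
  have hint0 : IsIntegral (𝓞 K) β := ⟨h, hm, by rw [← aeval_def]; exact hβ'⟩
  have hint : IsIntegral ℤ β := isIntegral_trans (R := ℤ) (A := 𝓞 K) β hint0
  obtain ⟨β', rfl⟩ : ∃ β' : 𝓞 L, (β' : L) = β := ⟨⟨β, hint⟩, rfl⟩
  have h1 : aeval β' h = 0 := by
    apply RingOfIntegers.coe_injective (K := L)
    rw [map_zero, ← hβ']
    exact (aeval_algebraMap_apply L β' h).symm
  have hWv : W.LiesOver v.asIdeal := Ideal.LiesOver.trans W w v.asIdeal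
  have h2 := dvd_inert hm hirr h1 hW hWv
  rw [inert_tower hWw, hd] at h2
  exact (hℓ.dvd_mul.1 h2).resolve_left hf

theorem finrank_adjoin_le {M L : Type} [Field M] [Field L] [Algebra M L] [FiniteDimensional M L]
    {x : L} {q : M[X]} (hq : q ≠ 0) (hx : aeval x q = 0) :
    Module.finrank M (IntermediateField.adjoin M {x}) ≤ q.natDegree := by
  rw [IntermediateField.adjoin.finrank (Algebra.IsIntegral.isIntegral x)]
  exact natDegree_le_of_dvd (minpoly.dvd M x hx) hq

/-- **Local degrees in cyclic extensions.** -/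
theorem loc_dvd [IsGalois M L] [IsCyclic Gal(L/M)] {v : HeightOneSpectrum (𝓞 K)} {ℓ : ℕ}
    (hℓ : ℓ.Prime) {a : 𝓞 K} (ha : a ∈ v.asIdeal) (ha2 : a ∉ v.asIdeal ^ 2) {α : L}
    (hα : α ^ ℓ = algebraMap K L a) {h : (𝓞 K)[X]} (hm : h.Monic) (hd : h.natDegree = ℓ)
    (hirr : Irreducible (h.map (Ideal.Quotient.mk v.asIdeal))) {β : L}
    (hβ : aeval β (h.map (algebraMap (𝓞 K) K)) = 0) {w : Ideal (𝓞 M)} (hw : w.IsPrime)
    (hv : w.LiesOver v.asIdeal) : ℓ ∣ w.ramificationIdx (𝓞 K) * w.inertiaDeg (𝓞 K) := by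
  by_contra hcon
  have hmaxw := isMaximal_of_over hw hv
  have hwbot : w ≠ ⊥ := by
    intro h
    apply v.ne_bot
    rw [hv.over, h, Ideal.under_bot]
  let w' : HeightOneSpectrum (𝓞 M) := ⟨w, hw, hwbot⟩
  have he : ¬ ℓ ∣ w.ramificationIdx (𝓞 K) := fun h => hcon (h.mul_right _)
  have hf : ¬ ℓ ∣ w.inertiaDeg (𝓞 K) := fun h => hcon (h.mul_left _)
  -- the two fields
  have hfα : Module.finrank M (IntermediateField.adjoin M {α}) ≤ ℓ := by
    have h1 := finrank_adjoin_le (M := M) (x := α)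
      (X_pow_sub_C_ne_zero hℓ.pos (algebraMap K M a)) (by
        rw [map_sub, map_pow, aeval_X, aeval_C, hα, ← IsScalarTower.algebraMap_apply K M L,
          sub_self])
    rwa [natDegree_X_pow_sub_C] at h1
  have hfβ : Module.finrank M (IntermediateField.adjoin M {β}) ≤ ℓ := by
    have h0 : (h.map (algebraMap (𝓞 K) K)).Monic := hm.map _
    have h1 := finrank_adjoin_le (M := M) (x := β) (q := (h.map (algebraMap (𝓞 K) K)).map
      (algebraMap K M)) (h0.map _).ne_zero (by rw [aeval_map_algebraMap]; exact hβ)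
    rwa [h0.natDegree_map, hm.natDegree_map, hd] at h1
  -- ramification and inertia in an extension of `M`
  have key1 : ∀ A : IntermediateField M L, α ∈ A → ∀ W : Ideal (𝓞 A), W.IsPrime → W.LiesOver w →
      ℓ ∣ W.ramificationIdx (𝓞 M) := by
    intro A hA W hW hWw
    refine ram_step (K := K) (M := M) (L := A) hℓ ha ha2 (α := ⟨α, hA⟩) ?_ hv he hW hWw
    apply Subtype.ext
    exact hα
  have key2 : ∀ A : IntermediateField M L, β ∈ A → ∀ W : Ideal (𝓞 A), W.IsPrime → W.LiesOver w →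
      ℓ ∣ W.inertiaDeg (𝓞 M) := by
    intro A hA W hW hWw
    refine inert_step (K := K) (M := M) (L := A) hℓ hm hd hirr (β := ⟨β, hA⟩) ?_ hv hf hW hWw
    have h1 : (A.val.restrictScalars K) (aeval (⟨β, hA⟩ : A) (h.map (algebraMap (𝓞 K) K))) =
        aeval β (h.map (algebraMap (𝓞 K) K)) :=
      (aeval_algHom_apply (A.val.restrictScalars K) (⟨β, hA⟩ : A) _).symm
    rw [hβ] at h1
    exact (map_eq_zero_iff A.val A.val.injective).1 h1
  have hex : ∀ A : IntermediateField M L, ∃ W : Ideal (𝓞 A), W.IsPrime ∧ W.LiesOver w := by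
    intro A
    obtain ⟨W, hW, hWw⟩ := Ideal.exists_maximal_ideal_liesOver_of_isIntegral (S := 𝓞 A) w
    exact ⟨W, hW.isPrime, hWw⟩
  have hpos1 : ∀ (A : IntermediateField M L) (W : Ideal (𝓞 A)), W.IsPrime →
      0 < W.ramificationIdx (𝓞 M) := fun A W hW => W.ramificationIdx_pos (𝓞 M)
  have hpos2 : ∀ (A : IntermediateField M L) (W : Ideal (𝓞 A)), W.IsPrime →
      0 < W.inertiaDeg (𝓞 M) := fun A W hW => W.inertiaDeg_pos (𝓞 M)
  have hA : Module.finrank M (IntermediateField.adjoin M {α}) = ℓ := by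
    refine le_antisymm hfα ?_
    obtain ⟨W, hW, hWw⟩ := hex (IntermediateField.adjoin M {α})
    have h1 := ef_le (v := w') hW hWw
    have h2 := Nat.le_of_dvd (hpos1 _ W hW)
      (key1 _ (IntermediateField.mem_adjoin_simple_self M α) W hW hWw)
    have h3 := hpos2 _ W hW
    nlinarith
  have hB : Module.finrank M (IntermediateField.adjoin M {β}) = ℓ := by
    refine le_antisymm hfβ ?_
    obtain ⟨W, hW, hWw⟩ := hex (IntermediateField.adjoin M {β})
    have h1 := ef_le (v := w') hW hWw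
    have h2 := Nat.le_of_dvd (hpos2 _ W hW)
      (key2 _ (IntermediateField.mem_adjoin_simple_self M β) W hW hWw)
    have h3 := hpos1 _ W hW
    nlinarith
  have hAB : IntermediateField.adjoin M {α} = IntermediateField.adjoin M {β} :=
    cyc_field_eq (hA.trans hB.symm)
  obtain ⟨W, hW, hWw⟩ := hex (IntermediateField.adjoin M {α})
  have h1 := ef_le (v := w') hW hWw
  have h2 := Nat.le_of_dvd (hpos1 _ W hW)
    (key1 _ (IntermediateField.mem_adjoin_simple_self M α) W hW hWw)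
  have h3 := Nat.le_of_dvd (hpos2 _ W hW)
    (key2 _ (by rw [hAB]; exact IntermediateField.mem_adjoin_simple_self M β) W hW hWw)
  have h4 := hℓ.two_le
  rw [hA] at h1
  nlinarith

end

end Pool.Agent.N19.BR
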