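import Pool.Agent.N19.BR.PDefs
import Pool.Agent.N19.BR.FE
import Pool.Agent.N19.BR.Inv
import Pool.Agent.N19.BR.Sub2

/-! Parity of ranks of semistable elliptic curves and relations with an odd coefficient. -/

set_option autoImplicit false

namespace Pool.Agent.N19.BR

open NumberField IsDedekindDomain
open Pool.Agent.R433.MD
open Pool.Agent.H341R2.EC (IsModel IsMinAt)
open Pool.Agent.N19.BR.Def Pool.Agent.N19.BR.MDef
open Pool.Agent.N19.BR.FDef
open scoped Classical

theorem parity_prod {ι : Type} [Fintype ι] (e : ι → ℤ) {m : ℕ} (hm : Odd m) (x : ι → ℤ) {x0 : ℤ}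
    (h : ∑ i, e i * x i = m * x0) :
    (-1 : ℤˣ) ^ x0 = ∏ i with Odd (e i), (-1 : ℤˣ) ^ x i := by
  have h1 : ((-1 : ℤˣ) ^ ((m : ℤ) * x0)) = (-1 : ℤˣ) ^ x0 := by
    rw [zpow_mul, zpow_natCast, hm.neg_one_pow]
  have h2 : ∀ i, (-1 : ℤˣ) ^ (e i * x i) = if Odd (e i) then (-1 : ℤˣ) ^ x i else 1 := by
    intro i
    split_ifs with h3
    · rw [zpow_mul, h3.neg_one_zpow]
    · rw [zpow_mul, (Int.not_odd_iff_even.1 h3).neg_one_zpow, one_zpow]
  have h3 : ∀ T : Finset ι, (-1 : ℤˣ) ^ (∑ i ∈ T, e i * x i) =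
      ∏ i ∈ T, (-1 : ℤˣ) ^ (e i * x i) := by
    intro T
    induction T using Finset.induction_on with
    | empty => simp
    | insert a T ha ih => rw [Finset.prod_insert ha, Finset.sum_insert ha, zpow_add, ih]
  rw [← h1, ← h, h3 Finset.univ, Finset.prod_congr rfl fun i _ => h2 i, ← Finset.prod_filter]

theorem root_unit {F : Type} [Field F] [NumberField F]
    (V : HeightOneSpectrum (𝓞 F) → WeierstrassCurve (𝓞 F)) (r : ℕ) :
    (-1) ^ r * rootNumber V = (((-1 : ℤˣ) ^ ((r + (Nat.card (InfinitePlace F) +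
      (splitPrimes V).ncard : ℕ) : ℕ) : ℤ) : ℤˣ) : ℤ) := by
  unfold rootNumber
  rw [zpow_natCast, ← pow_add]
  push_cast
  rfl

/-- The list of the fields. -/
theorem list_two (K : Type) [Field K] [NumberField K] (L : Type) [Field L] [NumberField L]
    [Algebra K L] [IsGalois K L] {S : Set (HeightOneSpectrum (𝓞 K))} (hS : S.Finite) {n : ℕ}
    (hn : Odd n) : ∃ (N : ℕ) (Z : Fin N → Ext K) (e : Fin N → ℤ) (m : ℕ), Odd m ∧
      IsRel K Z e m ∧ ∀ i, TwoClass L S n (Z i) := by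
  obtain ⟨ι, hι, Z, e, m, hm, hr, hP⟩ := core (Or.inr Nat.prime_two) K L hS (n := n)
    hn.pos.ne' (fun _ => Nat.coprime_two_right.2 hn)
  let f : Fin (Fintype.card ι) ≃ ι := (Fintype.equivFin ι).symm
  refine ⟨Fintype.card ι, fun j => Z (f j), fun j => e (f j), m,
    Nat.not_even_iff_odd.1 fun h => hm h.two_dvd, hr.reindex f, fun j => ?_⟩
  obtain ⟨h1, h2, -⟩ := hP (f j)
  exact ⟨hyperOver_of Nat.prime_two h1, h2⟩

/-- **The parity formula.** -/
theorem parity_of_rel {K : Type} [Field K] [NumberField K] {ι : Type} [Fintype ι] {Z : ι → Ext K}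
    {e : ι → ℤ} {m : ℕ} {E : WeierstrassCurve K} (hm : Odd m) (h : IsRel K Z e m)
    (hE : E.IsElliptic) (hs : Semistable E)
    {V0 : HeightOneSpectrum (𝓞 K) → WeierstrassCurve (𝓞 K)} (hV0 : MinimalModels E V0)
    {x : ι → ℕ} {x0 : ℕ} (hx : ∑ i, e i * (x i : ℤ) = m * x0)
    (V : ∀ i, HeightOneSpectrum (𝓞 (Z i).F) → WeierstrassCurve (𝓞 (Z i).F))
    (hV : ∀ i, MinimalModels (E.map (algebraMap K (Z i).F)) (V i)) :
    (-1) ^ x0 * rootNumber V0 = ∏ i with Odd (e i), (-1) ^ x i * rootNumber (V i) := by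
  have h1 := sign_rel hE hs ((minimalModels_iff E V0).1 hV0)
    (fun i => (minimalModels_iff _ _).1 (hV i)) h
  have h2 : ∑ i, e i * ((x i + (Nat.card (InfinitePlace (Z i).F) +
      (splitPrimes (V i)).ncard : ℕ) : ℕ) : ℤ) = m * ((x0 + (Nat.card (InfinitePlace K) +
      (splitPrimes V0).ncard : ℕ) : ℕ) : ℤ) := by
    have h3 : ∀ i, e i * ((x i + (Nat.card (InfinitePlace (Z i).F) +
      (splitPrimes (V i)).ncard : ℕ) : ℕ) : ℤ) = e i * (x i : ℤ) +
        e i * ((Nat.card (InfinitePlace (Z i).F) + (splitPrimes (V i)).ncard : ℕ) : ℤ) := by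
      intro i
      rw [Nat.cast_add]
      ring
    rw [Finset.sum_congr rfl fun i _ => h3 i, Finset.sum_add_distrib, hx, h1, Nat.cast_add x0]
    ring
  have h3 := parity_prod e hm _ h2
  rw [root_unit, h3, Units.coe_prod]
  refine Finset.prod_congr rfl fun i _ => ?_
  rw [root_unit]

/-- ranks -/
theorem rank_of_rel' {K : Type} [Field K] [NumberField K] {ι : Type} [Fintype ι] {Z : ι → Ext K}
    {e : ι → ℤ} {m : ℕ} (hm : m ≠ 0) (h : IsRel K Z e m) (E : WeierstrassCurve K) {r : ι → ℕ}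
    (hr : ∀ i, Module.rank ℤ (E.map (algebraMap K (Z i).F)).toAffine.Point = r i) :
    ∃ r0 : ℕ, Module.rank ℤ E.toAffine.Point = r0 ∧ ∑ i, e i * (r i : ℤ) = m * r0 := by
  have hne := nonempty_of_rel hm h
  obtain ⟨L, _, _, _, _, hL⟩ := exists_common Z
  have f : ∀ i, (Z i).F →ₐ[K] L := fun i => (hL i).some
  have hrel := fx_of_isRel h f
  obtain ⟨r0, hr0, hsum⟩ := Pool.Agent.R333.BR.rank_rel E (fun i => (Z i).F) f e m
    (by exact_mod_cast hrel) r hr
  exact ⟨r0, hr0, hsum.symm⟩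

/-- **The parity formula for ranks.** -/
theorem parity_ranks {K : Type} [Field K] [NumberField K] {N : ℕ} {Z : Fin N → Ext K}
    {e : Fin N → ℤ} {m : ℕ} (hm : Odd m) (h : IsRel K Z e m) {E : WeierstrassCurve K}
    (hE : E.IsElliptic) (hs : Semistable E) :
    ParityFormula E Z (Finset.univ.filter fun i => Odd (e i)) := by
  intro V0 V hV0 hV r hr
  obtain ⟨r0, hr0, hx⟩ := rank_of_rel' hm.pos.ne' h E hr
  exact ⟨r0, hr0, parity_of_rel hm h hE hs hV0 hx V hV⟩

theorem root_sq {F : Type} [Field F] [NumberField F]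
    (V : HeightOneSpectrum (𝓞 F) → WeierstrassCurve (𝓞 F)) : rootNumber V * rootNumber V = 1 := by
  unfold rootNumber
  rw [← pow_add, ← two_mul, pow_mul]
  norm_num

theorem eq_root {F : Type} [Field F] [NumberField F]
    {V : HeightOneSpectrum (𝓞 F) → WeierstrassCurve (𝓞 F)} {x : ℤ} :
    x * rootNumber V = 1 ↔ x = rootNumber V := by
  constructor
  · intro h
    calc x = x * (rootNumber V * rootNumber V) := by rw [root_sq, mul_one]
      _ = (x * rootNumber V) * rootNumber V := by ring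
      _ = rootNumber V := by rw [h, one_mul]
  · rintro rfl
    exact root_sq V

/-- the parity conjecture from the formula -/
theorem parity_of_formula {K : Type} [Field K] [NumberField K] {N : ℕ} {Z : Fin N → Ext K}
    {J : Finset (Fin N)} {E : WeierstrassCurve K} (h : ParityFormula E Z J)
    (hE : E.IsElliptic) (hZ : ∀ j, Parity (E.map (algebraMap K (Z j).F))) : Parity E := by
  have hVZ : ∀ j, ∃ V : HeightOneSpectrum (𝓞 (Z j).F) → WeierstrassCurve (𝓞 (Z j).F),
      MinimalModels (E.map (algebraMap K (Z j).F)) V := fun j => by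
    obtain ⟨V, hV⟩ := exists_minimal (E.map (algebraMap K (Z j).F)) inferInstance
    exact ⟨V, (minimalModels_iff _ _).2 hV⟩
  choose VZ hVZ using hVZ
  obtain ⟨V1, hV1⟩ := exists_minimal E hE
  choose r hr hp using hZ
  obtain ⟨r0, hr0, -⟩ := h V1 VZ ((minimalModels_iff _ _).2 hV1) hVZ r hr
  refine ⟨r0, hr0, fun V0 hV0 => ?_⟩
  obtain ⟨r0', hr0', h1⟩ := h V0 VZ hV0 hVZ r hr
  have h2 : r0' = r0 := by
    rw [hr0] at hr0'
    exact_mod_cast hr0'.symm
  rw [h2] at h1
  rw [← eq_root, h1]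
  refine Finset.prod_eq_one fun j _ => ?_
  rw [eq_root]
  exact hp j (VZ j) (hVZ j)

end Pool.Agent.N19.BR
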