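import Pool.Agent.N19.BR.Defs
import Pool.Agent.W353.TD.Defs

/-!
# Tate's formula for the pole over a list of extension fields: definitions

`X` is a smooth projective variety over a number field `K`, and `V`, with the action `ρ` of the absolute
Galois group of `K`, is the space of the classes of the algebraic cycles of codimension `m`, tensored with
`ℚ`, defined over the algebraic closure (see `Pool.Agent.W353.TD.Defs`).
-/

set_option autoImplicit false

namespace Pool.Agent.N19.BR.TDef

open NumberField IsDedekindDomain Filter Topology Polynomial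
open Pool.Agent.R433.MD (Ext)
open Pool.Agent.W353.EF (IsEulerSystem size)
open Pool.Agent.W353.TD (Defect rank)
open Pool.Agent.N19.BR.Def

/-- A list of number fields `F_1, …, F_r` between `K` and its algebraic closure, integers `e_1, …, e_r` and
a positive integer `c`. -/
structure FieldList (K : Type) [Field K] where
  r : ℕ
  F : Fin r → IntermediateField K (AlgebraicClosure K)
  nf : ∀ i, NumberField (F i)
  e : Fin r → ℤ
  c : ℕ
  c_ne_zero : c ≠ 0

attribute [instance] FieldList.nf

/-- `L F_i / F_i` is cyclic, `n` divides the local degrees of `F_i / K` at the primes above `S`, and `F_i`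
has at most two real places, for all fields `F_i` in the list. -/
def Special {K : Type} [Field K] [NumberField K] (L : Type) [Field L] [Algebra K L]
    (S : Set (HeightOneSpectrum (𝓞 K))) (n : ℕ) (Y : FieldList K) : Prop :=
  ∀ i, CyclicOver L (⟨Y.F i⟩ : Ext K) ∧ LocalDegreesDivisible S n (⟨Y.F i⟩ : Ext K) ∧
    AtMostTwoRealPlaces (⟨Y.F i⟩ : Ext K)

section
variable {K : Type} [Field K] [NumberField K] {n : ℕ} (X : Set (MvPolynomial (Fin n) (𝓞 K)))
  (d m N : ℕ) {V : Type} [AddCommGroup V] [Module ℚ V]
  (ρ : Representation ℚ Gal(AlgebraicClosure K/K) V) (Y : FieldList K)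

/-- Let `x_i(ε)` and `x(ε)` be the values of `log |L(m + 1 + ε)| / log(1/ε)` for `L(H^{2m}(X), s)` over `F_i`
and over `K`.  Then `∑ e_i (x_i(ε) - rank F_i) - c (x(ε) - rank K)` tends to `0` as `ε → 0+`. -/
def ValuesRelated : Prop :=
  ∀ [NumberField (⊥ : IntermediateField K (AlgebraicClosure K))]
    (B : ∀ i, HeightOneSpectrum (𝓞 (Y.F i)) → ℂ[X])
    (B₀ : HeightOneSpectrum (𝓞 (⊥ : IntermediateField K (AlgebraicClosure K))) → ℂ[X]),
    (∀ i, IsEulerSystem X d (2 * m) N (B i)) → IsEulerSystem X d (2 * m) N B₀ →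
    Tendsto (fun ε : ℝ => ∑ i, (Y.e i : ℝ) * (size (2 * m) (B i) ε - rank ρ (Y.F i)) -
      Y.c * (size (2 * m) B₀ ε - rank ρ ⊥)) (𝓝[>] 0) (𝓝 0)

/-- If there are defects `δ_i` over all `F_i`, then `x(ε)` tends to `rank K - ∑ e_i δ_i / c`.  In particular,
if Tate's conjecture on the pole holds over all `F_i` (`δ_i = 0`), then it holds over `K`. -/
def DefectsRelated : Prop :=
  ∀ δ : Fin Y.r → ℤ, (∀ i, Defect X d m N ρ (Y.F i) (δ i)) →
    ∀ [NumberField (⊥ : IntermediateField K (AlgebraicClosure K))]
      (B₀ : HeightOneSpectrum (𝓞 (⊥ : IntermediateField K (AlgebraicClosure K))) → ℂ[X]),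
      IsEulerSystem X d (2 * m) N B₀ →
      Tendsto (size (2 * m) B₀) (𝓝[>] 0)
        (𝓝 ((rank ρ (⊥ : IntermediateField K (AlgebraicClosure K)) : ℝ) -
          (∑ i, (Y.e i : ℝ) * δ i) / Y.c))

end

end Pool.Agent.N19.BR.TDef
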