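import Pool.Agent.W353.EF.Defs
import Pool.Agent.N19.BR.TDefs

/-!
# L-functions of the cohomology of smooth projective varieties over number fields: definitions

`X` is a smooth projective variety over a number field `K` (see `Pool.Agent.W353.EF.Defs` for the
description of the Frobenius eigenvalues on `H^i(X)` by point counts), `F` a finite extension of `K`.
-/

set_option autoImplicit false

namespace Pool.Agent.N19.BR.MDef

open NumberField IsDedekindDomain Filter Topology Polynomial
open Pool.Agent.W353.EF (IsFrobenius LFun)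

section
variable {K : Type} [Field K] {n : ℕ}

/-- The polynomials `B v` are the Euler factors of `L(H^i(X_F), s)`, `B_v(z) = ∏ (1 - α_j z)` for almost
all primes `v` of `F`; at the other primes `B v` is an arbitrary polynomial with constant term `1`,
and no factor `1 / B_v(q_v^{-s})` has a pole at the central point `s = (i + 1) / 2`. -/
def EulerFactors (X : Set (MvPolynomial (Fin n) (𝓞 K))) (d i N : ℕ) {F : Type} [Field F]
    [NumberField F] [Algebra K F] (B : HeightOneSpectrum (𝓞 F) → ℂ[X]) : Prop :=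
  (∀ᶠ v in cofinite, ∃ α : Fin N → ℂ, IsFrobenius X d i v α ∧
    ∀ z : ℂ, (B v).eval z = ∏ j, (1 - α j * z)) ∧
  ∀ v, (B v).eval 0 = 1 ∧
    (B v).eval ((Ideal.absNorm v.asIdeal : ℂ) ^ (-(((i : ℂ) + 1) / 2))) ≠ 0

/-- `Λ` is a meromorphic continuation to `U` of the `M`-th power of the Euler product
`L(s) = ∏_v B_v(q_v^{-s})⁻¹`: it is meromorphic on `U` and equal to `L(s) ^ M` in some right
half-plane. -/
def Continues (U : Set ℂ) {F : Type} [Field F] [NumberField F]
    (B : HeightOneSpectrum (𝓞 F) → ℂ[X]) (M : ℕ) (Λ : ℂ → ℂ) : Prop :=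
  MeromorphicOn Λ U ∧ ∃ c : ℝ, ∀ s : ℂ, c < s.re → Λ s = LFun B s ^ M

end

/-- `U` is connected and contains the half-plane `Re s > i/2 + 1` and the central point `(i + 1)/2` of
`L(H^i(X), s)`. -/
def Domain (i : ℕ) (U : Set ℂ) : Prop :=
  IsPreconnected U ∧ (∀ s : ℂ, (i : ℝ) / 2 + 1 < s.re → s ∈ U) ∧ ((i : ℂ) + 1) / 2 ∈ U

end Pool.Agent.N19.BR.MDef
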