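import Pool.Agent.N19.BR.Reg2
import Pool.Agent.N19.BR.Inv

/-! Determinants of Galois invariant pairings. -/

set_option autoImplicit false

namespace Pool.Agent.N19.BR

open Module Representation
open Pool.Agent.R433.MD (fx Ext)

/-- **The relation for regulators.** -/
theorem reg_rel {V W : Type} [AddCommGroup V] [Module ℚ V] [AddCommGroup W] [Module ℚ W]
    {K : Type} [Field K] [NumberField K] (ρ : Representation ℚ Gal(AlgebraicClosure K/K) V)
    (τ : Representation ℚ Gal(AlgebraicClosure K/K) W) {β : V →ₗ[ℚ] W →ₗ[ℚ] ℝ}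
    (hβ : ∀ g v w, β (ρ g v) (τ g w) = β v w)
    {ι : Type} [Fintype ι] [Nonempty ι] (F : ι → IntermediateField K (AlgebraicClosure K))
    [∀ i, NumberField (F i)] {e : ι → ℤ} {m : ℕ} (hm : m ≠ 0)
    (h : IsRel K (fun i => (⟨F i⟩ : Ext K)) e m) {n : ι → ℕ}
    (v : ∀ i, Basis (Fin (n i)) ℚ (inv ρ (F i))) (w : ∀ i, Basis (Fin (n i)) ℚ (inv τ (F i)))
    (hdet : ∀ i, (Matrix.of fun j l => β (v i j : V) (w i l : W)).det ≠ 0) {n0 : ℕ}
    (v0 : Basis (Fin n0) ℚ (invariants ρ)) (w0 : Basis (Fin n0) ℚ (invariants τ)) :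
    (Matrix.of fun j l => β (v0 j : V) (w0 l : W)).det ≠ 0 ∧ ∃ q : ℚ, q ≠ 0 ∧
      (Matrix.of fun j l => β (v0 j : V) (w0 l : W)).det ^ m =
        q * ∏ i, (Matrix.of fun j l => β (v i j : V) (w i l : W)).det ^ e i := by
  classical
  let M : IntermediateField K (AlgebraicClosure K) :=
    ⨆ i, IntermediateField.normalClosure K (F i) (AlgebraicClosure K)
  have hMfin : FiniteDimensional K M := IntermediateField.finiteDimensional_iSup_of_finite
  have hMn : Normal K M := IntermediateField.normal_iSup K (AlgebraicClosure K) _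
  have hMnf : NumberField M := NumberField.of_module_finite K M
  have hMg : IsGalois K M := ⟨⟩
  have hle : ∀ i, F i ≤ M := fun i => by
    refine le_trans ?_ (le_iSup (fun i =>
      IntermediateField.normalClosure K (F i) (AlgebraicClosure K)) i)
    exact IntermediateField.le_normalClosure (F i)
  let f : ∀ i, (⟨F i⟩ : Ext K).F →ₐ[K] M := fun i => IntermediateField.inclusion (hle i)
  have hrel := fx_of_isRel h f
  let H : ι → Subgroup Gal(M/K) := fun i => (f i).fieldRange.fixingSubgroup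
  -- the equivalences
  have eq1 : ∀ {V : Type} [AddCommGroup V] [Module ℚ V]
      (ρ : Representation ℚ Gal(AlgebraicClosure K/K) V) (i : ι),
      ∃ ε : iv (repM ρ M) (H i) ≃ₗ[ℚ] inv ρ (F i), ∀ x, ((ε.symm x : inv ρ M) : V) = x := by
    intro V _ _ ρ i
    have h1 : iv (repM ρ M) (H i) = (inv ρ (F i)).comap (inv ρ M).subtype := inv_sub ρ M (hle i)
    refine ⟨(LinearEquiv.ofEq _ _ h1).trans
      (Submodule.comapSubtypeEquivOfLe (inv_mono ρ (hle i))), fun x => rfl⟩
  have eq0 : ∀ {V : Type} [AddCommGroup V] [Module ℚ V]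
      (ρ : Representation ℚ Gal(AlgebraicClosure K/K) V),
      ∃ ε : iv (repM ρ M) ⊤ ≃ₗ[ℚ] invariants ρ, ∀ x, ((ε.symm x : inv ρ M) : V) = x := by
    intro V _ _ ρ
    have h1 : iv (repM ρ M) ⊤ = (invariants ρ).comap (inv ρ M).subtype := by
      rw [← inv_bot]
      ext v
      rw [Submodule.mem_comap, mem_invariants, mem_inv]
      constructor
      · intro h2 σ _
        have h3 := congrArg Subtype.val (h2 ⟨σ.restrictNormal M, Subgroup.mem_top _⟩)
        exact (repM_apply ρ M σ v).symm.trans h3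
      · intro h2 γ
        apply Subtype.ext
        refine h2 (γ.1.liftNormal (AlgebraicClosure K)) fun x hx => ?_
        obtain ⟨y, rfl⟩ := IntermediateField.mem_bot.1 hx
        exact AlgEquiv.commutes _ y
    have h2 : invariants ρ ≤ inv ρ M := by
      rw [← inv_bot]
      exact inv_mono ρ bot_le
    exact ⟨(LinearEquiv.ofEq _ _ h1).trans (Submodule.comapSubtypeEquivOfLe h2), fun x => rfl⟩
  choose ερ hερ using fun i => eq1 ρ i
  choose ετ hετ using fun i => eq1 τ i
  obtain ⟨ερ0, hερ0⟩ := eq0 ρ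
  obtain ⟨ετ0, hετ0⟩ := eq0 τ
  let βM : inv ρ M →ₗ[ℚ] inv τ M →ₗ[ℚ] ℝ := β.domRestrict₁₂ (inv ρ M) (inv τ M)
  have hβM : ∀ (g : Gal(M/K)) (x : inv ρ M) (y : inv τ M),
      βM (repM ρ M g x) (repM τ M g y) = βM x y := by
    intro g x y
    exact hβ (g.liftNormal (AlgebraicClosure K)) x y
  have key := pair_abs (β := βM) hβM hm hrel (fun i => (v i).map (ερ i).symm)
    (fun i => (w i).map (ετ i).symm) (fun i => by
      have h1 : (Matrix.of fun j l => βM (((v i).map (ερ i).symm j : iv (repM ρ M) (H i)) : inv ρ M)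
          (((w i).map (ετ i).symm l : iv (repM τ M) (H i)) : inv τ M)) =
          Matrix.of fun j l => β (v i j : V) (w i l : W) := by
        ext j l
        change β ((((ερ i).symm (v i j) : iv (repM ρ M) (H i)) : inv ρ M) : V)
          ((((ετ i).symm (w i l) : iv (repM τ M) (H i)) : inv τ M) : W) = _
        rw [hερ, hετ]
        rfl
      exact fun h0 => hdet i ((congrArg Matrix.det h1).symm.trans h0)) (v0.map ερ0.symm)
      (w0.map ετ0.symm)
  have e1 : ∀ i, (Matrix.of fun j l =>
      βM (((v i).map (ερ i).symm j : iv (repM ρ M) (H i)) : inv ρ M)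
        (((w i).map (ετ i).symm l : iv (repM τ M) (H i)) : inv τ M)) =
      Matrix.of fun j l => β (v i j : V) (w i l : W) := by
    intro i
    ext j l
    change β ((((ερ i).symm (v i j) : iv (repM ρ M) (H i)) : inv ρ M) : V)
      ((((ετ i).symm (w i l) : iv (repM τ M) (H i)) : inv τ M) : W) = _
    rw [hερ, hετ]
    rfl
  have e0 : (Matrix.of fun j l => βM ((v0.map ερ0.symm j : iv (repM ρ M) ⊤) : inv ρ M)
      ((w0.map ετ0.symm l : iv (repM τ M) ⊤) : inv τ M)) =
      Matrix.of fun j l => β (v0 j : V) (w0 l : W) := by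
    ext j l
    change β (((ερ0.symm (v0 j) : iv (repM ρ M) ⊤) : inv ρ M) : V)
      (((ετ0.symm (w0 l) : iv (repM τ M) ⊤) : inv τ M) : W) = _
    rw [hερ0, hετ0]
    rfl
  rw [e0, Finset.prod_congr rfl fun i _ => congrArg (fun A => Matrix.det A ^ e i) (e1 i)] at key
  exact key

end Pool.Agent.N19.BR
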