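import Pool.Agent.N19.BR.QuotL
import Pool.Agent.N19.BR.AMain
import Pool.Agent.N19.BR.Reg3

/-! Leading coefficients of the L-functions of motives modulo rational numbers. -/

set_option autoImplicit false

namespace Pool.Agent.N19.BR

open NumberField IsDedekindDomain Filter Topology Polynomial
open Pool.Agent.R433.MD
open Pool.Agent.H921R2.TatePole (nm two_le_nm nm_summable)
open Pool.Agent.W353.EF (LFun)
open Pool.Agent.N19.BR.MDef

section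
variable {F : Type} [Field F] [NumberField F]

theorem ef_rat (B : HeightOneSpectrum (𝓞 F) → ℂ[X]) (n : ℤ) (w : HeightOneSpectrum (𝓞 F))
    (hB : ∃ P : ℚ[X], B w = P.map (algebraMap ℚ ℂ)) : ef B w (n : ℂ) ∈ QQ := by
  obtain ⟨P, hP⟩ := hB
  refine ⟨P.eval ((Ideal.absNorm w.asIdeal : ℚ) ^ (-n)), ?_⟩
  have h1 : ef B w (n : ℂ) = (P.map (algebraMap ℚ ℂ)).eval
      ((Ideal.absNorm w.asIdeal : ℂ) ^ (-(n : ℂ))) := by
    rw [ef, hP]
  have h2 : (Ideal.absNorm w.asIdeal : ℂ) ^ (-(n : ℂ)) =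
      algebraMap ℚ ℂ ((Ideal.absNorm w.asIdeal : ℚ) ^ (-n)) := by
    rw [map_zpow₀, map_natCast, ← Int.cast_neg, Complex.cpow_intCast]
  rw [h1, h2, eval_map, eval₂_at_apply]

end

section
variable {K : Type} [Field K] [NumberField K] {N : ℕ} {i : ℤ}
  {α : HeightOneSpectrum (𝓞 K) → Fin N → ℂ}

/-- **Leading coefficients for motives.** -/
theorem lead_alpha {ι : Type} [Fintype ι] {Z : ι → Ext K} {e : ι → ℤ}
    (h : IsRel K Z e 1) (hα : Pure i α) (B : ∀ j : ι, HeightOneSpectrum (𝓞 (Z j).F) → ℂ[X])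
    (hB : ∀ j, FactorsOver α (B j)) {U : Set ℂ} (hU : Region i U) {Λ : ι → ℂ → ℂ}
    (hΛ : ∀ j, Continues U (B j) 1 (Λ j)) {B₀ : HeightOneSpectrum (𝓞 K) → ℂ[X]}
    (hB₀ : FactorsOver α B₀) {n : ℤ} (hn : (n : ℂ) ∈ U)
    (hBr : ∀ j w, ∃ P : ℚ[X], B j w = P.map (algebraMap ℚ ℂ))
    (hB₀r : ∀ w, ∃ P : ℚ[X], B₀ w = P.map (algebraMap ℚ ℂ))
    (hreg : ∀ j, Regular (B j) (n : ℂ)) (hreg₀ : Regular B₀ (n : ℂ)) :
    ∃ q : ℚ, q ≠ 0 ∧ ∀ Λ₀ : ℂ → ℂ, Continues U B₀ 1 Λ₀ →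
      meromorphicTrailingCoeffAt Λ₀ (n : ℂ) =
        (q : ℂ) * ∏ j, meromorphicTrailingCoeffAt (Λ j) (n : ℂ) ^ e j := by
  classical
  let BB : ∀ j : Option ι, HeightOneSpectrum (𝓞 (Opt Z j).F) → ℂ[X] := fun j =>
    match j with
    | none => B₀
    | some j => B j
  have hBB : ∀ j, FactorsOver α (BB j) := by
    rintro (_ | j)
    · exact hB₀
    · exact hB j
  choose hΛ1 c hc using hΛ
  obtain ⟨C, hC⟩ : ∃ C : ℝ, ∀ j, c j ≤ C := by
    obtain ⟨C, hC⟩ := (Set.finite_range c).bddAbove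
    exact ⟨C, fun j => hC ⟨j, rfl⟩⟩
  have hconv : ∀ j, ∃ c : ℝ, (i : ℝ) / 2 + 1 ≤ c ∧ ∀ s : ℂ, c < s.re →
      HasProd (fun w => (ef (BB j) w s)⁻¹) (LFun (BB j) s) ∧ LFun (BB j) s ≠ 0 := fun j =>
    conv_gen (factor_alpha hα (hBB j)) (hBB j).2
  choose a ha1 ha2 using hconv
  obtain ⟨A, hA⟩ : ∃ A : ℝ, ∀ j, a j ≤ A := by
    obtain ⟨A, hA⟩ := (Set.finite_range a).bddAbove
    exact ⟨A, fun j => hA ⟨j, rfl⟩⟩
  obtain ⟨hU1, hU2⟩ := hU
  obtain ⟨R, hR1, hR2, hRq, hR3⟩ := rel_euler_fld h (fun j => ef (BB j))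
    (fun j w => differentiable_ef _ w) (good_alpha BB hBB) (fun j => LFun (BB j)) (c := A)
    (fun j s hs => ha2 j s ((hA j).trans_lt hs)) (T := {(n : ℂ)}) (by
      intro s hs
      rw [Set.mem_singleton_iff.1 hs]
      rintro (_ | j) w
      · exact hreg₀ w
      · exact hreg j w)
  obtain ⟨q, hq⟩ : R (n : ℂ) ∈ QQ := hRq n QQ (by
    rintro (_ | j) w
    · exact ef_rat B₀ n w (hB₀r w)
    · exact ef_rat (B j) n w (hBr j w))
  have hq' : ((q : ℚ) : ℂ) = R (n : ℂ) := hq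
  have h2 := hR2 _ (Set.mem_singleton _)
  refine ⟨q, ?_, ?_⟩
  · rintro rfl
    exact h2.2 (by rw [← hq', Rat.cast_zero])
  · rintro Λ₀ ⟨hΛ₀, c₀, hc₀⟩
    have hb1 : (i : ℝ) / 2 + 1 ≤ max A (max C c₀) :=
      ((ha1 none).trans (hA none)).trans (le_max_left _ _)
    have hb2 : C ≤ max A (max C c₀) := (le_max_left _ _).trans (le_max_right _ _)
    have hb3 : c₀ ≤ max A (max C c₀) := (le_max_right _ _).trans (le_max_right _ _)
    have h1 := lead_rel_abs hU1 (c := max A (max C c₀))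
      (fun s hs => hU2 s (hb1.trans_lt hs)) hn (m := 1)
      (L₀ := LFun B₀) hR1 h2 (Λ := Λ) (e := e) (fun s hs => by
        refine (hR3 s ((le_max_left _ _).trans_lt hs)).2.trans ?_
        congr 1
        refine Finset.prod_congr rfl fun j _ => ?_
        rw [hc j s (((hC j).trans hb2).trans_lt hs), pow_one]
        rfl) hΛ1
    have h3 := h1.2 Λ₀ hΛ₀ (fun s hs => by rw [hc₀ s (hb3.trans_lt hs), pow_one])
    rw [pow_one] at h3
    rw [h3, hq']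

end

end Pool.Agent.N19.BR
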