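import Pool.Agent.R433.MD.Fiber

/-! Local generators of rings of integers. -/

set_option autoImplicit false

namespace Pool.Agent.N19.BR

open NumberField IsDedekindDomain Polynomial
open Pool.Agent.R433.MD

variable {F L : Type} [Field F] [NumberField F] [Field L] [NumberField L] [Algebra F L]

/-- an element with `x ^ q - x` of order one at `W` -/
theorem exists_gen_one (W : HeightOneSpectrum (𝓞 L)) : ∃ x : 𝓞 L,
    (∀ y : 𝓞 L, y ∈ W.asIdeal ∨ ∃ n : ℕ, y - x ^ n ∈ W.asIdeal) ∧ x ∉ W.asIdeal ∧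
    x ^ (Nat.card (𝓞 L ⧸ W.asIdeal)) - x ∉ W.asIdeal ^ 2 := by
  classical
  set q := Nat.card (𝓞 L ⧸ W.asIdeal) with hq
  have hq1 : 1 < q := Finite.one_lt_card
  obtain ⟨u, hu⟩ := IsCyclic.exists_generator (α := (𝓞 L ⧸ W.asIdeal)ˣ)
  obtain ⟨x0, hx0⟩ := Ideal.Quotient.mk_surjective (u : 𝓞 L ⧸ W.asIdeal)
  have hgen : ∀ x : 𝓞 L, x - x0 ∈ W.asIdeal →
      (∀ y : 𝓞 L, y ∈ W.asIdeal ∨ ∃ n : ℕ, y - x ^ n ∈ W.asIdeal) ∧ x ∉ W.asIdeal := by
    intro x hx
    have hxu : Ideal.Quotient.mk W.asIdeal x = u := by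
      rw [← hx0]
      exact Ideal.Quotient.eq.2 hx
    refine ⟨fun y => ?_, fun h => ?_⟩
    · by_cases hy : y ∈ W.asIdeal
      · exact Or.inl hy
      · right
        have hy' : Ideal.Quotient.mk W.asIdeal y ≠ 0 := fun h1 =>
          hy (Ideal.Quotient.eq_zero_iff_mem.1 h1)
        obtain ⟨n, hn⟩ : ∃ n : ℕ, u ^ n = Units.mk0 _ hy' := by
          have h1 := hu (Units.mk0 _ hy')
          rw [← mem_powers_iff_mem_zpowers] at h1
          exact h1
        refine ⟨n, ?_⟩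
        rw [← Ideal.Quotient.eq, map_pow, hxu]
        have h3 := congrArg Units.val hn
        rw [Units.val_pow_eq_pow_val, Units.val_mk0] at h3
        exact h3.symm
    · rw [← Ideal.Quotient.eq_zero_iff_mem, hxu] at h
      exact u.ne_zero h
  by_cases h1 : x0 ^ q - x0 ∈ W.asIdeal ^ 2
  · obtain ⟨π, hπ, hπ2⟩ : ∃ π ∈ W.asIdeal, π ∉ W.asIdeal ^ 2 := by
      have h2 : W.asIdeal ^ 2 < W.asIdeal :=
        Ideal.pow_lt_self W.asIdeal W.ne_bot W.isPrime.ne_top 2 le_rfl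
      exact SetLike.exists_of_lt h2
    have h2 : x0 + π - x0 ∈ W.asIdeal := by rwa [add_sub_cancel_left]
    refine ⟨x0 + π, (hgen _ h2).1, (hgen _ h2).2, fun h3 => hπ2 ?_⟩
    obtain ⟨k, hk⟩ := powAddExpansion x0 π q
    have hqW : (q : 𝓞 L) ∈ W.asIdeal := by
      rw [← Ideal.Quotient.eq_zero_iff_mem, map_natCast]
      have : Fintype (𝓞 L ⧸ W.asIdeal) := Fintype.ofFinite _
      rw [hq, Nat.card_eq_fintype_card]
      exact FiniteField.cast_card_eq_zero _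
    have e1 : π = (x0 ^ q - x0) + (q : 𝓞 L) * π * x0 ^ (q - 1) + k * π ^ 2 -
        ((x0 + π) ^ q - (x0 + π)) := by
      rw [hk]
      ring
    rw [e1]
    refine Ideal.sub_mem _ (Ideal.add_mem _ (Ideal.add_mem _ h1 ?_) ?_) h3
    · exact Ideal.mul_mem_right _ _ (by rw [sq]; exact Ideal.mul_mem_mul hqW hπ)
    · exact Ideal.mul_mem_left _ _ (Ideal.pow_mem_pow hπ 2)
  · have h2 : x0 - x0 ∈ W.asIdeal := by rw [sub_self]; exact Ideal.zero_mem _
    exact ⟨x0, (hgen _ h2).1, (hgen _ h2).2, h1⟩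

/-- an element which moreover lies in the other primes above the same prime -/
theorem exists_gen_two (W : HeightOneSpectrum (𝓞 L)) : ∃ x : 𝓞 L,
    (∀ y : 𝓞 L, y ∈ W.asIdeal ∨ ∃ n : ℕ, y - x ^ n ∈ W.asIdeal) ∧ x ∉ W.asIdeal ∧
    x ^ (Nat.card (𝓞 L ⧸ W.asIdeal) - 1) - 1 ∈ W.asIdeal ∧
    x ^ (Nat.card (𝓞 L ⧸ W.asIdeal) - 1) - 1 ∉ W.asIdeal ^ 2 ∧
    ∀ Q : HeightOneSpectrum (𝓞 L), (und (K := F) W).asIdeal.map (algebraMap (𝓞 F) (𝓞 L)) ≤ Q.asIdeal →
      Q ≠ W → x ∈ Q.asIdeal := by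
  classical
  obtain ⟨x1, hx1, hx1W, hx12⟩ := exists_gen_one W
  set q := Nat.card (𝓞 L ⧸ W.asIdeal) with hq
  have hq1 : 1 < q := Finite.one_lt_card
  have hfin : {Q : HeightOneSpectrum (𝓞 L) | (und (K := F) W).asIdeal.map
      (algebraMap (𝓞 F) (𝓞 L)) ≤ Q.asIdeal}.Finite := by
    have h1 := Ideal.finite_factors (map_ne_bot (F := L) (und (K := F) W))
    refine h1.subset fun Q hQ => ?_
    rw [Set.mem_ofPred_eq, Ideal.dvd_iff_le]
    exact hQ
  let B : Finset (HeightOneSpectrum (𝓞 L)) := hfin.toFinset.erase W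
  have hsup : W.asIdeal ^ 2 ⊔ ∏ Q ∈ B, Q.asIdeal = ⊤ := by
    refine Ideal.sup_prod_eq_top fun Q hQ => ?_
    refine Ideal.pow_sup_eq_top ?_
    refine W.isMaximal.coprime_of_ne Q.isMaximal fun h => ?_
    exact (Finset.mem_erase.1 hQ).1 (HeightOneSpectrum.ext h.symm)
  obtain ⟨a, ha, x, hx, hax⟩ := Submodule.mem_sup.1 (hsup ▸ Submodule.mem_top (x := x1))
  have haW : a ∈ W.asIdeal := Ideal.pow_le_self two_ne_zero ha
  have hmk : Ideal.Quotient.mk W.asIdeal x = Ideal.Quotient.mk W.asIdeal x1 := by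
    rw [← hax, map_add, Ideal.Quotient.eq_zero_iff_mem.2 haW, zero_add]
  have hmk2 : Ideal.Quotient.mk (W.asIdeal ^ 2) x = Ideal.Quotient.mk (W.asIdeal ^ 2) x1 := by
    rw [← hax, map_add, Ideal.Quotient.eq_zero_iff_mem.2 ha, zero_add]
  have hxW : x ∉ W.asIdeal := by
    rw [← Ideal.Quotient.eq_zero_iff_mem, hmk, Ideal.Quotient.eq_zero_iff_mem]
    exact hx1W
  have hxq : x ^ q - x ∉ W.asIdeal ^ 2 := by
    rw [← Ideal.Quotient.eq_zero_iff_mem, map_sub, map_pow, hmk2, ← map_pow, ← map_sub,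
      Ideal.Quotient.eq_zero_iff_mem]
    exact hx12
  have e1 : x ^ q - x = x * (x ^ (q - 1) - 1) := by
    have e2 : x ^ q = x * x ^ (q - 1) := by
      rw [← pow_succ']
      congr 1
      omega
    rw [e2]
    ring
  refine ⟨x, fun y => ?_, hxW, ?_, fun h => hxq ?_, fun Q hQ hQW => ?_⟩
  · rcases hx1 y with h | ⟨n, h⟩
    · exact Or.inl h
    · refine Or.inr ⟨n, ?_⟩
      rw [← Ideal.Quotient.eq, map_pow, hmk, ← map_pow, Ideal.Quotient.eq]
      exact h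
  · have : Fintype (𝓞 L ⧸ W.asIdeal) := Fintype.ofFinite _
    rw [← Ideal.Quotient.eq_zero_iff_mem, map_sub, map_pow, map_one, hq,
      Nat.card_eq_fintype_card, FiniteField.pow_card_sub_one_eq_one _
        (fun h => hxW (Ideal.Quotient.eq_zero_iff_mem.1 h)), sub_self]
  · rw [e1]
    exact Ideal.mul_mem_left _ _ h
  · have h1 : Q ∈ B := Finset.mem_erase.2 ⟨hQW, hfin.mem_toFinset.2 hQ⟩
    exact Ideal.prod_le_inf.trans (Finset.inf_le h1) hx

/-- **Local generators.** -/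
theorem exists_gen (F : Type) [Field F] [NumberField F] [Algebra F L]
    (W : HeightOneSpectrum (𝓞 L)) : ∃ x r : 𝓞 L,
    r ∉ W.asIdeal ∧ ∀ b, r * b ∈ Algebra.adjoin (𝓞 F) {x} := by
  classical
  obtain ⟨x, hgen, hxW, ht1, ht2, hQ⟩ := exists_gen_two (F := F) W
  set q := Nat.card (𝓞 L ⧸ W.asIdeal) with hq
  have hq1 : 1 < q := Finite.one_lt_card
  set t := x ^ (q - 1) - 1 with ht
  set C := Algebra.adjoin (𝓞 F) {x} with hC
  have hxC : x ∈ C := Algebra.self_mem_adjoin_singleton _ x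
  let P : Ideal C := W.asIdeal.comap (algebraMap C (𝓞 L))
  have hmem : ∀ c : C, c ∈ P ↔ (c : 𝓞 L) ∈ W.asIdeal := fun c => Iff.rfl
  have hfin : Module.Finite C (𝓞 L) := Module.Finite.of_restrictScalars_finite (𝓞 F) C (𝓞 L)
  -- the ideal generated by `P`
  have hmap : P.map (algebraMap C (𝓞 L)) = W.asIdeal := by
    refine le_antisymm (Ideal.map_le_iff_le_comap.2 le_rfl) ?_
    let J : Ideal (𝓞 L) := Ideal.span {t} ⊔
      (und (K := F) W).asIdeal.map (algebraMap (𝓞 F) (𝓞 L))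
    have hJP : J ≤ P.map (algebraMap C (𝓞 L)) := by
      refine sup_le ?_ ?_
      · rw [Ideal.span_singleton_le_iff_mem]
        have h1 : (⟨t, C.sub_mem (C.pow_mem hxC _) C.one_mem⟩ : C) ∈ P := ht1
        exact Ideal.mem_map_of_mem (algebraMap C (𝓞 L)) h1
      · rw [Ideal.map_le_iff_le_comap]
        intro a ha
        have h1 : algebraMap (𝓞 F) C a ∈ P := ha
        exact Ideal.mem_map_of_mem (algebraMap C (𝓞 L)) h1
    have hJW : J ≤ W.asIdeal := by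
      refine sup_le ?_ ?_
      · rw [Ideal.span_singleton_le_iff_mem]
        exact ht1
      · rw [Ideal.map_le_iff_le_comap]
        exact le_rfl
    refine le_trans ?_ hJP
    obtain ⟨J', hJ'⟩ := Ideal.dvd_iff_le.2 hJW
    suffices h : J' = ⊤ by
      rw [hJ', h, Ideal.mul_top]
    by_contra hne
    obtain ⟨Q, hQmax, hJQ⟩ := Ideal.exists_le_maximal J' hne
    have hJQ' : J ≤ W.asIdeal * Q := by
      rw [hJ']
      exact Ideal.mul_mono_right hJQ
    have htJ : t ∈ J := Ideal.mem_sup_left (Ideal.mem_span_singleton_self t)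
    have hQbot : Q ≠ ⊥ := by
      intro h
      rw [h, Ideal.mul_bot] at hJQ'
      have h1 := hJQ' htJ
      rw [Ideal.mem_bot] at h1
      rw [h1] at ht2
      exact ht2 (Ideal.zero_mem _)
    by_cases hQW : Q = W.asIdeal
    · rw [hQW, ← sq] at hJQ'
      exact ht2 (hJQ' htJ)
    · have h1 : x ∈ Q := by
        refine hQ ⟨Q, hQmax.isPrime, hQbot⟩ ?_ fun h => hQW (congrArg HeightOneSpectrum.asIdeal h)
        exact (le_sup_right.trans hJQ').trans Ideal.mul_le_right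
      have h2 : t ∈ Q := (hJQ'.trans Ideal.mul_le_right) htJ
      apply hQmax.ne_top
      rw [Ideal.eq_top_iff_one]
      have e1 : (1 : 𝓞 L) = x ^ (q - 1) - t := by rw [ht]; ring
      rw [e1]
      exact Q.sub_mem (Ideal.pow_mem_of_mem Q h1 _ (by omega)) h2
  -- Nakayama
  let S : Submodule C (𝓞 L) := LinearMap.range (Algebra.linearMap C (𝓞 L))
  have hS : ∀ y, y ∈ S ↔ y ∈ C := by
    intro y
    constructor
    · rintro ⟨c, rfl⟩
      exact c.2
    · intro hy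
      exact ⟨⟨y, hy⟩, rfl⟩
  have hN : (⊤ : Submodule C (𝓞 L ⧸ S)) ≤ P • (⊤ : Submodule C (𝓞 L ⧸ S)) := by
    intro y _
    obtain ⟨y, rfl⟩ := Submodule.Quotient.mk_surjective S y
    obtain ⟨c, hc, z, hz, hyz⟩ : ∃ c ∈ C, ∃ z ∈ W.asIdeal, y = c + z := by
      rcases hgen y with h | ⟨n, h⟩
      · exact ⟨0, C.zero_mem, y, h, (zero_add y).symm⟩
      · exact ⟨x ^ n, C.pow_mem hxC n, _, h, (add_sub_cancel _ _).symm⟩
    have h1 : z ∈ P • (⊤ : Submodule C (𝓞 L)) := by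
      rw [Ideal.smul_top_eq_map, hmap]
      exact hz
    have h2 : (Submodule.Quotient.mk y : 𝓞 L ⧸ S) = Submodule.Quotient.mk z := by
      rw [hyz, Submodule.Quotient.mk_add, (Submodule.Quotient.mk_eq_zero S).2 ((hS c).2 hc),
        zero_add]
    rw [h2]
    have h3 : (P • (⊤ : Submodule C (𝓞 L))).map S.mkQ ≤ P • (⊤ : Submodule C (𝓞 L ⧸ S)) := by
      rw [Submodule.map_smul'']
      exact Submodule.smul_mono le_rfl le_top
    exact h3 ⟨z, h1, rfl⟩
  obtain ⟨r, hr1, hr2⟩ := Submodule.exists_sub_one_mem_and_smul_eq_zero_of_fg_of_le_smul P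
    (⊤ : Submodule C (𝓞 L ⧸ S)) Module.Finite.fg_top hN
  refine ⟨x, r, fun h => ?_, fun b => ?_⟩
  · apply W.isPrime.ne_top
    rw [Ideal.eq_top_iff_one]
    have h1 : ((r - 1 : C) : 𝓞 L) ∈ W.asIdeal := (hmem _).1 hr1
    have e1 : (1 : 𝓞 L) = r - ((r - 1 : C) : 𝓞 L) := by push_cast; ring
    rw [e1]
    exact Ideal.sub_mem _ h h1
  · have h1 := hr2 (Submodule.Quotient.mk b) trivial
    rw [← Submodule.Quotient.mk_smul, Submodule.Quotient.mk_eq_zero, hS] at h1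
    exact h1

end Pool.Agent.N19.BR
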