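import Pool.Agent.N19.BR.Abs
import Pool.Agent.N19.BR.MDefs
import Pool.Agent.W353.PV.Eig
import Mathlib.Analysis.SpecialFunctions.Log.Summable

/-! Relations between the L-functions of a projective variety. -/

set_option autoImplicit false

namespace Pool.Agent.N19.BR

open NumberField IsDedekindDomain Filter Topology Polynomial
open Pool.Agent.R433.MD
open Pool.Agent.H921R2.TatePole (nm two_le_nm nm_summable)
open Pool.Agent.W353.EF (IsFrobenius LFun)
open Pool.Agent.W353.PV (Eig mult_unique)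
open Pool.Agent.N19.BR.MDef

section
variable {K : Type} [Field K] [NumberField K] {n : ℕ} {X : Set (MvPolynomial (Fin n) (𝓞 K))}
  {d i N : ℕ} {F : Type} [Field F] [NumberField F] [Algebra K F]

/-- the Frobenius at a prime above `v` -/
theorem frob_fib {v : HeightOneSpectrum (𝓞 K)} {α : Fin N → ℂ}
    (h : IsFrobenius (F := K) X d i v α) (w : Fib F v) :
    IsFrobenius (F := F) X d i w.1 (fun j => α j ^ fdeg w) := by
  obtain ⟨β, h1, h2, h3⟩ := h
  have hn : Ideal.absNorm w.1.asIdeal = Ideal.absNorm v.asIdeal ^ fdeg w := nm_fib w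
  refine ⟨fun k => (β k).map fun z => z ^ fdeg w, ?_, ?_, ?_⟩
  · simp only [h1, Multiset.map_map]
    rfl
  · intro k z hz
    obtain ⟨y, hy, rfl⟩ := Multiset.mem_map.1 hz
    rw [norm_pow, h2 k y hy, hn]
    push_cast
    rw [← Real.rpow_natCast, ← Real.rpow_natCast, ← Real.rpow_mul (by positivity),
      ← Real.rpow_mul (by positivity)]
    congr 1
    ring
  · intro κ _ _ φ e hk hc
    have hk' : RingHom.ker (φ.comp (algebraMap (𝓞 K) (𝓞 F))) = v.asIdeal := by
      rw [← RingHom.comap_ker, hk]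
      exact (fib_le w).symm
    have h4 := h3 κ (φ.comp (algebraMap (𝓞 K) (𝓞 F))) (fdeg w * e) hk' (by
      rw [hc, hn, pow_mul])
    refine (Eq.trans (congrArg (Nat.cast : ℕ → ℂ) (congrArg (Pool.Agent.W353.EF.cone X)
      (RingHom.ext fun x => rfl))) h4).trans ?_
    rw [hn]
    push_cast
    rw [pow_mul]
    congr 1
    refine Finset.sum_congr rfl fun k _ => ?_
    rw [Multiset.map_map]
    congr 3
    funext z
    simp only [Function.comp_apply]
    rw [pow_mul]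

theorem frob_unique (hi : i ≤ 2 * d) {v : HeightOneSpectrum (𝓞 F)} {α α' : Fin N → ℂ}
    (h : IsFrobenius X d i v α) (h' : IsFrobenius X d i v α') :
    Finset.univ.val.map α = Finset.univ.val.map α' :=
  Pool.Agent.W353.PV.Eig.unique' hi h h'

theorem prod_unique {α α' : Fin N → ℂ} (h : Finset.univ.val.map α = Finset.univ.val.map α')
    (z : ℂ) : ∏ j, (1 - α j * z) = ∏ j, (1 - α' j * z) := by
  have h4 := congrArg (fun s : Multiset ℂ => (s.map fun a => 1 - a * z).prod) h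
  simp only [Multiset.map_map] at h4
  exact h4

/-- almost all primes of `K` have only primes of a cofinite set above them -/
theorem eventually_fib {p : HeightOneSpectrum (𝓞 F) → Prop} (h : ∀ᶠ w in cofinite, p w) :
    ∀ᶠ v : HeightOneSpectrum (𝓞 K) in cofinite, ∀ w : Fib F v, p w.1 := by
  rw [eventually_cofinite] at h ⊢
  refine (h.image (und (K := K))).subset ?_
  intro v hv
  simp only [Set.mem_ofPred_eq, not_forall] at hv
  obtain ⟨w, hw⟩ := hv
  exact ⟨w.1, hw, w.2⟩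

/-- the inverse Euler factor as a function of `s` -/
noncomputable def ef (B : HeightOneSpectrum (𝓞 F) → ℂ[X]) (w : HeightOneSpectrum (𝓞 F)) (s : ℂ) :
    ℂ := (B w).eval ((Ideal.absNorm w.asIdeal : ℂ) ^ (-s))

theorem differentiable_ef (B : HeightOneSpectrum (𝓞 F) → ℂ[X]) (w : HeightOneSpectrum (𝓞 F)) :
    Differentiable ℂ (ef B w) := by
  have h0 : ((Ideal.absNorm w.asIdeal : ℕ) : ℂ) ≠ 0 := by
    have h1 : 2 ≤ Ideal.absNorm w.asIdeal := two_le_nm w
    exact_mod_cast (by omega : Ideal.absNorm w.asIdeal ≠ 0)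
  have h1 : Differentiable ℂ fun s : ℂ => ((Ideal.absNorm w.asIdeal : ℕ) : ℂ) ^ (-s) :=
    (differentiable_id.neg).const_cpow (Or.inl h0)
  exact (B w).differentiable.comp h1

omit [NumberField K] in
/-- convergence -/
theorem euler_conv {B : HeightOneSpectrum (𝓞 F) → ℂ[X]} (hB : EulerFactors X d i N B) :
    ∃ c : ℝ, (i : ℝ) / 2 + 1 ≤ c ∧ ∀ s : ℂ, c < s.re →
      HasProd (fun w => (ef B w s)⁻¹) (LFun B s) ∧ LFun B s ≠ 0 := by
  classical
  obtain ⟨h1, h2⟩ := hB
  -- the good factors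
  have hgood : ∀ᶠ w in cofinite, ∀ s : ℂ, (i : ℝ) / 2 + 1 < s.re →
      ‖ef B w s - 1‖ ≤ (N * Real.exp N) * (nm w : ℝ) ^ (-(s.re - i / 2)) := by
    filter_upwards [h1] with w hw s hs
    obtain ⟨α, ⟨β, hβ, hβn, -⟩, hα⟩ := hw
    have hq : (2 : ℝ) ≤ (nm w : ℝ) := by exact_mod_cast two_le_nm w
    set x : ℝ := (nm w : ℝ) ^ (-(s.re - i / 2)) with hx
    have hx0 : 0 ≤ x := by positivity
    have hx1 : x ≤ 1 := Real.rpow_le_one_of_one_le_of_nonpos (by linarith) (by linarith)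
    have hn : ∀ j, ‖-(α j * (Ideal.absNorm w.asIdeal : ℂ) ^ (-s))‖ = x := by
      intro j
      have h3 : ‖α j‖ = (nm w : ℝ) ^ ((i : ℝ) / 2) := by
        refine hβn i (α j) ?_
        rw [hβ, Multiset.mem_map]
        exact ⟨j, Finset.mem_univ_val j, rfl⟩
      have h4 : ‖(Ideal.absNorm w.asIdeal : ℂ) ^ (-s)‖ = (nm w : ℝ) ^ (-s.re) := by
        have h5 : 0 < Ideal.absNorm w.asIdeal := nm_pos w
        rw [Complex.norm_natCast_cpow_of_pos h5, Complex.neg_re]
        rfl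
      rw [norm_neg, norm_mul, h3, h4, hx, ← Real.rpow_add (by linarith)]
      congr 1
      ring
    have e1 : ef B w s = ∏ j, (1 + -(α j * (Ideal.absNorm w.asIdeal : ℂ) ^ (-s))) := by
      rw [ef, hα]
      exact Finset.prod_congr rfl fun j _ => by ring
    rw [e1]
    refine (Finset.norm_prod_one_add_sub_one_le _ _).trans ?_
    rw [Finset.sum_congr rfl fun j _ => hn j, Finset.sum_const, Finset.card_univ,
      Fintype.card_fin, nsmul_eq_mul]
    have h5 : Real.exp (N * x) - 1 ≤ N * x * Real.exp (N * x) := by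
      have h6 := Real.add_one_le_exp (-(N * x))
      have h7 : Real.exp (-(N * x)) * Real.exp (N * x) = 1 := by
        rw [← Real.exp_add]
        simp
      nlinarith [Real.exp_pos (N * x)]
    have h6 : Real.exp (N * x) ≤ Real.exp N := by
      apply Real.exp_le_exp.2
      have : (0 : ℝ) ≤ N := Nat.cast_nonneg N
      nlinarith
    have h7 : (0 : ℝ) ≤ N * x := by positivity
    nlinarith
  -- nonvanishing far to the right
  have hnz : ∃ c : ℝ, (i : ℝ) / 2 + 1 ≤ c ∧ ∀ s : ℂ, c < s.re → ∀ w, ef B w s ≠ 0 := by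
    -- uniformly at almost all primes
    have hg2 : ∀ᶠ w in cofinite, ∀ s : ℂ, (i : ℝ) / 2 + 1 < s.re → ef B w s ≠ 0 := by
      filter_upwards [h1] with w hw s hs
      obtain ⟨α, ⟨β, hβ, hβn, -⟩, hα⟩ := hw
      rw [ef, hα]
      refine Finset.prod_ne_zero_iff.2 fun j _ h0 => ?_
      have h3 : ‖α j‖ = (nm w : ℝ) ^ ((i : ℝ) / 2) := by
        refine hβn i (α j) ?_
        rw [hβ, Multiset.mem_map]
        exact ⟨j, Finset.mem_univ_val j, rfl⟩
      have h4 : ‖(Ideal.absNorm w.asIdeal : ℂ) ^ (-s)‖ = (nm w : ℝ) ^ (-s.re) := by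
        have h5 : 0 < Ideal.absNorm w.asIdeal := nm_pos w
        rw [Complex.norm_natCast_cpow_of_pos h5, Complex.neg_re]
        rfl
      have hq : (2 : ℝ) ≤ (nm w : ℝ) := by exact_mod_cast two_le_nm w
      have h5 : ‖α j * (Ideal.absNorm w.asIdeal : ℂ) ^ (-s)‖ = 1 := by
        rw [← sub_eq_zero.1 h0, norm_one]
      rw [norm_mul, h3, h4, ← Real.rpow_add (by linarith)] at h5
      have h6 : (nm w : ℝ) ^ ((i : ℝ) / 2 + -s.re) < 1 :=
        Real.rpow_lt_one_of_one_lt_of_neg (by linarith) (by linarith)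
      linarith
    rw [eventually_cofinite] at hg2
    set S := hg2.toFinset with hS
    have hloc : ∀ w : HeightOneSpectrum (𝓞 F), ∃ c : ℝ, 0 ≤ c ∧ ∀ s : ℂ, c < s.re → ef B w s ≠ 0 := by
      intro w
      have hq : (2 : ℝ) ≤ (nm w : ℝ) := by exact_mod_cast two_le_nm w
      have h3 : ∀ᶠ z in 𝓝 (0 : ℂ), (B w).eval z ≠ 0 := by
        refine ContinuousAt.eventually_ne (B w).continuous.continuousAt ?_
        rw [(h2 w).1]
        exact one_ne_zero
      obtain ⟨δ, hδ, hball⟩ := Metric.eventually_nhds_iff.1 h3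
      have h4 : Tendsto (fun x : ℝ => (nm w : ℝ) ^ (-x)) atTop (𝓝 0) := by
        have h5 := tendsto_rpow_atTop_of_base_lt_one ((nm w : ℝ)⁻¹)
          (lt_trans (by norm_num) (inv_pos.2 (by linarith : (0 : ℝ) < nm w)))
          (inv_lt_one_of_one_lt₀ (by linarith))
        refine h5.congr fun x => ?_
        rw [Real.rpow_neg (by linarith), Real.inv_rpow (by linarith)]
      obtain ⟨c, hc⟩ := ((h4.eventually (gt_mem_nhds hδ)).and (eventually_ge_atTop 0)).exists
      refine ⟨c, hc.2, fun s hs => hball ?_⟩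
      have h5 : 0 < Ideal.absNorm w.asIdeal := nm_pos w
      rw [dist_zero_right, Complex.norm_natCast_cpow_of_pos h5, Complex.neg_re]
      refine lt_trans ?_ hc.1
      exact Real.rpow_lt_rpow_of_exponent_lt (by
        have : (1 : ℝ) < nm w := by linarith
        exact this) (by linarith)
    choose c hc0 hc using hloc
    refine ⟨(i : ℝ) / 2 + 1 + ∑ w ∈ S, c w, le_add_of_nonneg_right
      (Finset.sum_nonneg fun w _ => hc0 w), fun s hs w => ?_⟩
    by_cases hw : w ∈ S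
    · refine hc w s ?_
      have h5 : c w ≤ ∑ w ∈ S, c w := Finset.single_le_sum (fun w _ => hc0 w) hw
      have h6 : (0 : ℝ) ≤ (i : ℝ) / 2 := by positivity
      linarith
    · have h5 : ∀ s : ℂ, (i : ℝ) / 2 + 1 < s.re → ef B w s ≠ 0 := by
        by_contra h6
        exact hw (hg2.mem_toFinset.2 h6)
      refine h5 s ?_
      have h6 : 0 ≤ ∑ w ∈ S, c w := Finset.sum_nonneg fun w _ => hc0 w
      linarith
  obtain ⟨c, hc1, hc2⟩ := hnz
  refine ⟨c, hc1, fun s hs => ?_⟩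
  have hsum : Summable fun w => ef B w s - 1 := by
    have h3 : Summable fun w : HeightOneSpectrum (𝓞 F) =>
        (N * Real.exp N) * (nm w : ℝ) ^ (-(s.re - i / 2)) :=
      (nm_summable (by linarith)).mul_left _
    refine Summable.of_norm_bounded_eventually h3 ?_
    filter_upwards [hgood] with w hw
    exact hw s (by linarith)
  have h4 := (Complex.summable_log_one_add_of_summable hsum).neg.hasSum.cexp
  have h5 : (Complex.exp ∘ fun w => -Complex.log (1 + (ef B w s - 1))) =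
      fun w => (ef B w s)⁻¹ := by
    funext w
    have h6 : (1 : ℂ) + (ef B w s - 1) = ef B w s := by ring
    rw [Function.comp_apply, h6, Complex.exp_neg, Complex.exp_log (hc2 s hs w)]
  rw [h5] at h4
  have h7 : LFun B s = ∏' w, (ef B w s)⁻¹ := rfl
  rw [h7, h4.tprod_eq]
  exact ⟨h4, Complex.exp_ne_zero _⟩

end

section
variable {K : Type} [Field K] [NumberField K] {n : ℕ} {X : Set (MvPolynomial (Fin n) (𝓞 K))}
  {d i N : ℕ}

/-- **Good primes.** -/
theorem good_fib {ι : Type} [Finite ι] {Z : ι → Ext K} (hi : i ≤ 2 * d)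
    (B : ∀ j : Option ι, HeightOneSpectrum (𝓞 (Opt Z j).F) → ℂ[X])
    (hB : ∀ j, EulerFactors X d i N (B j)) :
    ∀ᶠ v : HeightOneSpectrum (𝓞 K) in cofinite, ∃ G : ℕ → ℂ → ℂ,
      ∀ (j : Option ι) (w : Fib (Opt Z j).F v), ef (B j) w.1 = G (fdeg w) := by
  have h0 : ∀ᶠ v : HeightOneSpectrum (𝓞 K) in cofinite, ∃ α : Fin N → ℂ,
      IsFrobenius (F := K) X d i v α ∧ ∀ z : ℂ,
        ((B none : HeightOneSpectrum (𝓞 K) → ℂ[X]) v).eval z = ∏ j, (1 - α j * z) := (hB none).1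
  have h1 : ∀ᶠ v : HeightOneSpectrum (𝓞 K) in cofinite, ∀ (j : Option ι)
      (w : Fib (Opt Z j).F v), ∃ α : Fin N → ℂ, IsFrobenius X d i w.1 α ∧
        ∀ z : ℂ, (B j w.1).eval z = ∏ l, (1 - α l * z) :=
    eventually_all.2 fun j => eventually_fib (hB j).1
  filter_upwards [h0, h1] with v hv0 hv1
  obtain ⟨α, hα, -⟩ := hv0
  refine ⟨fun n s => ∏ l, (1 - α l ^ n * ((nm v ^ n : ℕ) : ℂ) ^ (-s)), fun j w => ?_⟩
  obtain ⟨α', hα', hB'⟩ := hv1 j w
  funext s
  have hn : Ideal.absNorm w.1.asIdeal = nm v ^ fdeg w := nm_fib w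
  rw [ef, hB', hn]
  exact prod_unique (frob_unique hi hα' (frob_fib hα w)) _

/-- **The relation of the L-functions of a projective variety.** -/
theorem rel_mot {ι : Type} [Fintype ι] {Z : ι → Ext K} {e : ι → ℤ} {m : ℕ} (h : IsRel K Z e m)
    (hi : i ≤ 2 * d) (B : ∀ j : Option ι, HeightOneSpectrum (𝓞 (Opt Z j).F) → ℂ[X])
    (hB : ∀ j, EulerFactors X d i N (B j)) (c₀ : ℝ) :
    ∃ (R : ℂ → ℂ) (c : ℝ), (i : ℝ) / 2 + 1 ≤ c ∧ c₀ ≤ c ∧ MeromorphicOn R Set.univ ∧
      (AnalyticAt ℂ R (((i : ℂ) + 1) / 2) ∧ R (((i : ℂ) + 1) / 2) ≠ 0) ∧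
      ∀ s : ℂ, c < s.re → LFun (B none) s ≠ 0 ∧
        LFun (B none) s ^ m = R s * ∏ j, LFun (B (some j)) s ^ e j := by
  classical
  choose c hc1 hc2 using fun j => euler_conv (hB j)
  obtain ⟨C, hC⟩ : ∃ C : ℝ, ∀ j, c j ≤ C := by
    obtain ⟨C, hC⟩ := (Set.finite_range c).bddAbove
    exact ⟨C, fun j => hC ⟨j, rfl⟩⟩
  obtain ⟨R, hR1, hR2, hR3⟩ := rel_euler h (fun j => ef (B j)) (fun j w => differentiable_ef _ w)
    (good_fib hi B hB) (fun j => LFun (B j)) (c := max C c₀)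
    (fun j s hs => hc2 j s (((hC j).trans (le_max_left _ _)).trans_lt hs))
    (T := {((i : ℂ) + 1) / 2}) (by
      intro s hs j w
      rw [Set.mem_singleton_iff.1 hs]
      exact ((hB j).2 w).2)
  refine ⟨R, max C c₀, ((hc1 none).trans (hC none)).trans (le_max_left _ _), le_max_right _ _, hR1,
    hR2 _ (Set.mem_singleton _), fun s hs => ⟨?_, (hR3 s hs).2⟩⟩
  exact (hc2 none s (((hC none).trans (le_max_left _ _)).trans_lt hs)).2

/-- **The orders at the central point.** -/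
theorem order_mot {ι : Type} [Fintype ι] {Z : ι → Ext K} {e : ι → ℤ} {m : ℕ} (h : IsRel K Z e m)
    (hi : i ≤ 2 * d) (B : ∀ j : ι, HeightOneSpectrum (𝓞 (Z j).F) → ℂ[X])
    (hB : ∀ j, EulerFactors X d i N (B j)) {U : Set ℂ} (hU : Domain i U) {Λ : ι → ℂ → ℂ}
    (hΛ : ∀ j, Continues U (B j) 1 (Λ j)) {r : ι → ℤ}
    (hr : ∀ j, meromorphicOrderAt (Λ j) (((i : ℂ) + 1) / 2) = r j)
    {B₀ : HeightOneSpectrum (𝓞 K) → ℂ[X]} (hB₀ : EulerFactors X d i N B₀) :
    (∃ Λ₀ : ℂ → ℂ, Continues U B₀ m Λ₀ ∧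
      meromorphicOrderAt Λ₀ (((i : ℂ) + 1) / 2) = ((∑ j, e j * r j : ℤ) : WithTop ℤ)) ∧
    ∀ Λ₀ : ℂ → ℂ, Continues U B₀ 1 Λ₀ →
      ∃ r₀ : ℤ, meromorphicOrderAt Λ₀ (((i : ℂ) + 1) / 2) = r₀ ∧ (m : ℤ) * r₀ = ∑ j, e j * r j := by
  classical
  let BB : ∀ j : Option ι, HeightOneSpectrum (𝓞 (Opt Z j).F) → ℂ[X] := fun j =>
    match j with
    | none => B₀
    | some j => B j
  have hBB : ∀ j, EulerFactors X d i N (BB j) := by
    rintro (_ | j)
    · exact hB₀
    · exact hB j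
  choose hΛ1 c hc using hΛ
  obtain ⟨C, hC⟩ : ∃ C : ℝ, ∀ j, c j ≤ C := by
    obtain ⟨C, hC⟩ := (Set.finite_range c).bddAbove
    exact ⟨C, fun j => hC ⟨j, rfl⟩⟩
  obtain ⟨hU1, hU2, hU3⟩ := hU
  constructor
  · obtain ⟨R, a, ha1, ha2, hR1, hR2, hR3⟩ := rel_mot h hi BB hBB C
    have h1 := order_rel_abs hU1 (c := a) (fun s hs => hU2 s (ha1.trans_lt hs)) hU3 (m := m)
      (L₀ := LFun B₀) hR1 hR2 (fun s hs => (hR3 s hs).1) (Λ := Λ) (e := e) (fun s hs => by
        refine (hR3 s hs).2.trans ?_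
        congr 1
        refine Finset.prod_congr rfl fun j _ => ?_
        rw [hc j s (((hC j).trans ha2).trans_lt hs), pow_one]
        rfl) hΛ1 hr
    obtain ⟨⟨Λ₀, h2, h3, h4⟩, -⟩ := h1
    exact ⟨Λ₀, ⟨h2, a, h3⟩, h4⟩
  · rintro Λ₀ ⟨hΛ₀, c₀, hc₀⟩
    obtain ⟨R, a, ha1, ha2, hR1, hR2, hR3⟩ := rel_mot h hi BB hBB (max C c₀)
    have h1 := order_rel_abs hU1 (c := a) (fun s hs => hU2 s (ha1.trans_lt hs)) hU3 (m := m)
      (L₀ := LFun B₀) hR1 hR2 (fun s hs => (hR3 s hs).1) (Λ := Λ) (e := e) (fun s hs => by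
        refine (hR3 s hs).2.trans ?_
        congr 1
        refine Finset.prod_congr rfl fun j _ => ?_
        rw [hc j s ((((hC j).trans (le_max_left _ _)).trans ha2).trans_lt hs), pow_one]
        rfl) hΛ1 hr
    exact h1.2 Λ₀ hΛ₀ (fun s hs => by
      rw [hc₀ s (((le_max_right _ _).trans ha2).trans_lt hs), pow_one])

end

end Pool.Agent.N19.BR
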