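import Pool.Agent.N19.BR.ADefs

/-!
# Averages of Frobenius traces in fibrations, over extensions of the base field: definitions
-/

set_option autoImplicit false

namespace Pool.Agent.N19.BR.NDef

open NumberField IsDedekindDomain Filter Topology

section
variable {K : Type} [Field K] [NumberField K]

/-- For a fibration over `K` let `A v d` be the average (`𝔄*` or `𝔅`) of its reduction at the prime `v` after
the extension of degree `d` of the residue field, with `A v d = 0` if `v` lies in the finite set `R`.  The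
numbers `a w` are the averages, for the primes `w` of a finite extension `F`, of the fibration over `F`
obtained by base change: `a w = A v f` if `w` lies above `v` and `q_w = q_v ^ f`. -/
def IsAverage (A : HeightOneSpectrum (𝓞 K) → ℕ → ℝ) {F : Type} [Field F] [NumberField F]
    [Algebra K F] (a : HeightOneSpectrum (𝓞 F) → ℝ) : Prop :=
  ∀ (w : HeightOneSpectrum (𝓞 F)) (v : HeightOneSpectrum (𝓞 K)),
    w.asIdeal.comap (algebraMap (𝓞 K) (𝓞 F)) = v.asIdeal → ∀ f : ℕ,
      Ideal.absNorm w.asIdeal = Ideal.absNorm v.asIdeal ^ f → a w = A v f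

/-- `|A v d| ≤ C q_v^{κ d}` (Deligne; `κ = 0` for `𝔄*`, `κ = 1` for `𝔅`). -/
def Bounded (κ : ℝ) (A : HeightOneSpectrum (𝓞 K) → ℕ → ℝ) : Prop :=
  ∃ C : ℝ, ∀ (v : HeightOneSpectrum (𝓞 K)) (d : ℕ),
    |A v d| ≤ C * (Ideal.absNorm v.asIdeal : ℝ) ^ (κ * d)

end

section
variable {F : Type} [Field F] [NumberField F]

/-- The Dirichlet series `∑ a_w (log q_w) q_w^{-s}`. -/
noncomputable def series (a : HeightOneSpectrum (𝓞 F) → ℝ) (s : ℂ) : ℂ :=
  ∑' w : HeightOneSpectrum (𝓞 F), (a w : ℂ) * (Real.log (Ideal.absNorm w.asIdeal) : ℂ) *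
    (Ideal.absNorm w.asIdeal : ℂ) ^ (-s)

/-- The partial sum `∑_{q_w ≤ x} a_w log q_w` (a finite sum). -/
noncomputable def partialSum (a : HeightOneSpectrum (𝓞 F) → ℝ) (x : ℝ) : ℝ :=
  ∑' w : HeightOneSpectrum (𝓞 F), if (Ideal.absNorm w.asIdeal : ℝ) ≤ x then
    a w * Real.log (Ideal.absNorm w.asIdeal) else 0

end

/-- `D` has the residue `ρ` at `e`: the function `D(s) - ρ / (s - e)`, defined for `Re s > e`, has an analytic
continuation to a neighbourhood of `e`. -/
def HasResidue (D : ℂ → ℂ) (e : ℝ) (ρ : ℂ) : Prop :=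
  ∃ H : ℂ → ℂ, AnalyticAt ℂ H e ∧ ∀ᶠ s : ℂ in 𝓝 (e : ℂ), e < s.re → D s = ρ / (s - e) + H s

/-- The residue formula with defect `δ`: the space `W` is finite-dimensional, and the Dirichlet series of the
averages has a residue at `s = κ + 1`, equal to `c (dim W + δ)`.  For `κ = 0`, `c = -1` and
`W = (P_X(F(Y)) / τ B(F)) ⊗ ℚ` this is the analytic Nagao conjecture with defect `δ`; for `κ = 1`, `c = 1` and
`W = NS(X / F(Y)) ⊗ ℚ` it is the fibration form of the Tate conjecture. -/
def ResidueFormula (κ : ℝ) (c : ℤ) {F : Type} [Field F] [NumberField F]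
    (a : HeightOneSpectrum (𝓞 F) → ℝ) {V : Type} [AddCommGroup V] [Module ℚ V]
    (W : Submodule ℚ V) (δ : ℂ) : Prop :=
  FiniteDimensional ℚ W ∧
    HasResidue (series a) (κ + 1) ((c : ℂ) * ((Module.finrank ℚ W : ℂ) + δ))

end Pool.Agent.N19.BR.NDef
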