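import Pool.Agent.N19.BR.NDefs
import Pool.Agent.N19.BR.Plc
import Pool.Agent.N19.BR.Inv
import Pool.Agent.N19.BR.BB

/-! Relations between Dirichlet series over primes. -/

set_option autoImplicit false

namespace Pool.Agent.N19.BR

open NumberField IsDedekindDomain Filter Topology
open Pool.Agent.R433.MD
open Pool.Agent.H921R2.TatePole (nm two_le_nm nm_summable)
open Pool.Agent.N19.BR.NDef

/-- regrouping of sums over primes -/
theorem hasSum_fib {K : Type} [Field K] [NumberField K] {F : Type} [Field F] [NumberField F]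
    [Algebra K F] {E : Type} [NormedAddCommGroup E] [CompleteSpace E]
    {f : HeightOneSpectrum (𝓞 F) → E} {a : E} (h : HasSum f a) :
    HasSum (fun v : HeightOneSpectrum (𝓞 K) => ∑ w : Fib F v, f w.1) a := by
  have h1 := (Equiv.sigmaFiberEquiv
    (und (K := K) : HeightOneSpectrum (𝓞 F) → HeightOneSpectrum (𝓞 K))).hasSum_iff.2 h
  refine HasSum.sigma h1 fun v => ?_
  exact hasSum_fintype _

/-- **Sums over primes.** -/
theorem sum_rel {K : Type} [Field K] [NumberField K] {ι : Type} [Fintype ι] {Z : ι → Ext K}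
    {e : ι → ℤ} (h : IsRel K Z e 1) {E : Type} [NormedAddCommGroup E] [CompleteSpace E]
    (G : HeightOneSpectrum (𝓞 K) → ℕ → E)
    {f : ∀ i, HeightOneSpectrum (𝓞 (Z i).F) → E}
    (hf : ∀ i (v : HeightOneSpectrum (𝓞 K)) (w : Fib (Z i).F v), f i w.1 = G v (fdeg w))
    (hs : ∀ i, Summable (f i)) (hK : Summable fun v => G v 1) :
    ∑' v, G v 1 = ∑ i, e i • ∑' w, f i w := by
  have h1 : HasSum (fun v : HeightOneSpectrum (𝓞 K) =>
      ∑ i, e i • ∑ w : Fib (Z i).F v, f i w.1) (∑ i, e i • ∑' w, f i w) := by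
    refine hasSum_sum fun i _ => ?_
    exact (hasSum_fib (hs i).hasSum).const_smul (e i)
  have h2 : (fun v : HeightOneSpectrum (𝓞 K) => ∑ i, e i • ∑ w : Fib (Z i).F v, f i w.1) =
      fun v => G v 1 := by
    funext v
    have h3 := loc_rel h v (G v)
    rw [one_smul] at h3
    rw [← h3]
    refine Finset.sum_congr rfl fun i _ => ?_
    congr 1
    exact Finset.sum_congr rfl fun w _ => hf i v w
  rw [h2] at h1
  exact hK.hasSum.unique h1

section
variable {K : Type} [Field K] [NumberField K] {A : HeightOneSpectrum (𝓞 K) → ℕ → ℝ}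

theorem average_fib {F : Type} [Field F] [NumberField F] [Algebra K F]
    {a : HeightOneSpectrum (𝓞 F) → ℝ} (ha : IsAverage A a) (v : HeightOneSpectrum (𝓞 K))
    (w : Fib F v) : a w.1 = A v (fdeg w) := by
  refine ha w.1 v ?_ (fdeg w) (nm_fib w)
  exact congrArg HeightOneSpectrum.asIdeal w.2

theorem average_bound {κ : ℝ} (hA : Bounded κ A) {F : Type} [Field F] [NumberField F]
    [Algebra K F] {a : HeightOneSpectrum (𝓞 F) → ℝ} (ha : IsAverage A a) :
    ∃ C : ℝ, 0 ≤ C ∧ ∀ w, |a w| ≤ C * (nm w : ℝ) ^ κ := by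
  obtain ⟨C, hC⟩ := hA
  refine ⟨|C|, abs_nonneg _, fun w => ?_⟩
  have h1 := average_fib ha (und w) ⟨w, rfl⟩
  have h2 : nm w = nm (und (K := K) w) ^ fdeg (⟨w, rfl⟩ : Fib F (und (K := K) w)) :=
    nm_fib (⟨w, rfl⟩ : Fib F (und (K := K) w))
  set d := fdeg (⟨w, rfl⟩ : Fib F (und (K := K) w)) with hd
  have h3 : a w = A (und w) d := h1
  rw [h3, h2]
  refine (hC _ _).trans ?_
  have h4 : ((nm (und (K := K) w) ^ d : ℕ) : ℝ) ^ κ =
      (Ideal.absNorm (und (K := K) w).asIdeal : ℝ) ^ (κ * d) := by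
    push_cast
    rw [← Real.rpow_natCast, ← Real.rpow_mul (by positivity), mul_comm]
    rfl
  rw [h4]
  exact mul_le_mul_of_nonneg_right (le_abs_self C) (by positivity)

theorem series_summable {κ : ℝ} {F : Type} [Field F] [NumberField F]
    {a : HeightOneSpectrum (𝓞 F) → ℝ} {C : ℝ} (hC0 : 0 ≤ C)
    (hC : ∀ w, |a w| ≤ C * (nm w : ℝ) ^ κ) {s : ℂ} (hs : κ + 1 < s.re) :
    Summable fun w : HeightOneSpectrum (𝓞 F) => (a w : ℂ) *
      (Real.log (Ideal.absNorm w.asIdeal) : ℂ) * (Ideal.absNorm w.asIdeal : ℂ) ^ (-s) := by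
  set ε : ℝ := (s.re - κ - 1) / 2 with hε
  have hε0 : 0 < ε := by rw [hε]; linarith
  have h1 : Summable fun w : HeightOneSpectrum (𝓞 F) =>
      (C / ε) * (nm w : ℝ) ^ (-(s.re - κ - ε)) :=
    (nm_summable (by rw [hε]; linarith)).mul_left _
  refine Summable.of_norm_bounded h1 fun w => ?_
  have h2 : (2 : ℝ) ≤ nm w := by exact_mod_cast two_le_nm w
  have h3 : 0 < (nm w : ℝ) := by linarith
  have h4 : ‖(Ideal.absNorm w.asIdeal : ℂ) ^ (-s)‖ = (nm w : ℝ) ^ (-s.re) := by
    rw [Complex.norm_natCast_cpow_of_pos (by exact_mod_cast h3), Complex.neg_re]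
    rfl
  rw [norm_mul, norm_mul, h4, Complex.norm_real, Complex.norm_real, Real.norm_eq_abs,
    Real.norm_eq_abs]
  have h5 : |Real.log (nm w : ℝ)| ≤ (nm w : ℝ) ^ ε / ε := by
    rw [abs_of_nonneg (Real.log_nonneg (by linarith))]
    exact Real.log_le_rpow_div h3.le hε0
  calc |a w| * |Real.log (nm w : ℝ)| * (nm w : ℝ) ^ (-s.re)
      ≤ (C * (nm w : ℝ) ^ κ) * ((nm w : ℝ) ^ ε / ε) * (nm w : ℝ) ^ (-s.re) := by
        refine mul_le_mul_of_nonneg_right ?_ (by positivity)
        exact mul_le_mul (hC w) h5 (abs_nonneg _) (by positivity)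
    _ = C / ε * (nm w : ℝ) ^ (-(s.re - κ - ε)) := by
        have h6 : (nm w : ℝ) ^ (-(s.re - κ - ε)) =
            (nm w : ℝ) ^ κ * (nm w : ℝ) ^ ε * (nm w : ℝ) ^ (-s.re) := by
          rw [← Real.rpow_add h3, ← Real.rpow_add h3]
          congr 1
          ring
        rw [h6]
        ring

theorem finite_norm_le {F : Type} [Field F] [NumberField F] (x : ℝ) :
    {w : HeightOneSpectrum (𝓞 F) | (Ideal.absNorm w.asIdeal : ℝ) ≤ x}.Finite := by
  have h1 := (nm_summable (K := F) (x := 2) (by norm_num)).tendsto_cofinite_zero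
  by_cases hx : 0 < x
  · have h2 := h1.eventually (gt_mem_nhds (show (0 : ℝ) < x ^ (-2 : ℝ) by positivity))
    rw [eventually_cofinite] at h2
    refine h2.subset fun w hw => ?_
    rw [Set.mem_ofPred_eq] at hw ⊢
    rw [not_lt]
    have h3 : (0 : ℝ) < nm w := by
      have := two_le_nm w
      exact_mod_cast (by omega : 0 < nm w)
    exact Real.rpow_le_rpow_of_nonpos h3 hw (by norm_num)
  · refine Set.Finite.subset Set.finite_empty fun w hw => ?_
    rw [Set.mem_ofPred_eq] at hw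
    have h3 : (2 : ℝ) ≤ nm w := by exact_mod_cast two_le_nm w
    have h4 : (nm w : ℝ) ≤ x := hw
    exact absurd (lt_of_lt_of_le (by norm_num) (h3.trans h4)) hx

variable {ι : Type} [Fintype ι] {Z : ι → Ext K} {e : ι → ℤ}

/-- **The Dirichlet series.** -/
theorem series_rel (h : IsRel K Z e 1) {κ : ℝ} (hA : Bounded κ A)
    {a : ∀ i, HeightOneSpectrum (𝓞 (Z i).F) → ℝ} (ha : ∀ i, IsAverage A (a i)) {s : ℂ}
    (hs : κ + 1 < s.re) :
    series (fun v => A v 1) s = ∑ i, (e i : ℂ) * series (a i) s := by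
  have h1 := fun i => average_bound hA (ha i)
  choose C hC0 hC using h1
  obtain ⟨C₀, hC₀⟩ := hA
  have hK : Summable fun v : HeightOneSpectrum (𝓞 K) => ((A v 1 : ℝ) : ℂ) *
      (Real.log (Ideal.absNorm v.asIdeal) : ℂ) * (Ideal.absNorm v.asIdeal : ℂ) ^ (-s) := by
    refine series_summable (κ := κ) (C := |C₀|) (abs_nonneg _) (fun w => ?_) hs
    have h2 := hC₀ w 1
    rw [Nat.cast_one, mul_one] at h2
    exact h2.trans (mul_le_mul_of_nonneg_right (le_abs_self _) (by positivity))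
  have h2 := sum_rel h (E := ℂ) (fun v d => (A v d : ℂ) *
    (Real.log ((Ideal.absNorm v.asIdeal : ℝ) ^ d) : ℂ) *
      (((Ideal.absNorm v.asIdeal : ℕ) ^ d : ℕ) : ℂ) ^ (-s))
    (f := fun i w => (a i w : ℂ) * (Real.log (Ideal.absNorm w.asIdeal) : ℂ) *
      (Ideal.absNorm w.asIdeal : ℂ) ^ (-s)) (fun i v w => by
        have h3 : Ideal.absNorm w.1.asIdeal = Ideal.absNorm v.asIdeal ^ fdeg w := nm_fib w
        rw [average_fib (ha i) v w, h3]
        push_cast
        rfl) (fun i => series_summable (hC0 i) (hC i) hs) (by simpa using hK)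
  simp only [pow_one, zsmul_eq_mul] at h2
  exact h2

/-- **Partial sums.** -/
theorem partial_rel (h : IsRel K Z e 1)
    {a : ∀ i, HeightOneSpectrum (𝓞 (Z i).F) → ℝ} (ha : ∀ i, IsAverage A (a i)) (x : ℝ) :
    partialSum (fun v => A v 1) x = ∑ i, (e i : ℝ) * partialSum (a i) x := by
  have h0 : ∀ {F : Type} [Field F] [NumberField F] (b : HeightOneSpectrum (𝓞 F) → ℝ),
      Summable fun w : HeightOneSpectrum (𝓞 F) => if (Ideal.absNorm w.asIdeal : ℝ) ≤ x then
        b w * Real.log (Ideal.absNorm w.asIdeal) else 0 := by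
    intro F _ _ b
    refine summable_of_hasFiniteSupport ((finite_norm_le (F := F) x).subset fun w hw => ?_)
    by_contra hcon
    exact hw (if_neg hcon)
  have h2 := sum_rel h (E := ℝ) (fun v d => if ((Ideal.absNorm v.asIdeal : ℝ) ^ d) ≤ x then
    A v d * Real.log ((Ideal.absNorm v.asIdeal : ℝ) ^ d) else 0)
    (f := fun i w => if (Ideal.absNorm w.asIdeal : ℝ) ≤ x then
      a i w * Real.log (Ideal.absNorm w.asIdeal) else 0) (fun i v w => by
        have h3 : (Ideal.absNorm w.1.asIdeal : ℝ) = (Ideal.absNorm v.asIdeal : ℝ) ^ fdeg w := by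
          exact_mod_cast (nm_fib w : Ideal.absNorm w.1.asIdeal = Ideal.absNorm v.asIdeal ^ fdeg w)
        rw [average_fib (ha i) v w, h3]) (fun i => h0 (a i)) (by simpa using h0 fun v => A v 1)
  simp only [pow_one, zsmul_eq_mul] at h2
  exact h2

/-- residues -/
theorem residue_rel (h : IsRel K Z e 1) {κ : ℝ} (hA : Bounded κ A)
    {a : ∀ i, HeightOneSpectrum (𝓞 (Z i).F) → ℝ} (ha : ∀ i, IsAverage A (a i)) {ρ : ι → ℂ}
    (hr : ∀ i, HasResidue (series (a i)) (κ + 1) (ρ i)) :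
    HasResidue (series (fun v => A v 1)) (κ + 1) (∑ i, (e i : ℂ) * ρ i) := by
  choose H hH1 hH2 using hr
  refine ⟨fun s => ∑ i, (e i : ℂ) * H i s, ?_, ?_⟩
  · exact Finset.analyticAt_fun_sum _ fun i _ => analyticAt_const.mul (hH1 i)
  · filter_upwards [eventually_all.2 hH2] with s hs hre
    rw [series_rel h hA ha hre, Finset.sum_div, ← Finset.sum_add_distrib]
    refine Finset.sum_congr rfl fun i _ => ?_
    rw [hs i hre]
    ring

end

/-- **The residue formula.** -/
theorem nagao_rel {K : Type} [Field K] [NumberField K] {ι : Type} [Fintype ι] [Nonempty ι]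
    (F : ι → IntermediateField K (AlgebraicClosure K)) [∀ i, NumberField (F i)] {e : ι → ℤ}
    (h : IsRel K (fun i => (⟨F i⟩ : Ext K)) e 1) {κ : ℝ}
    {A : HeightOneSpectrum (𝓞 K) → ℕ → ℝ} (hA : Bounded κ A)
    {a : ∀ i, HeightOneSpectrum (𝓞 (F i)) → ℝ} (ha : ∀ i, IsAverage A (a i)) {V : Type}
    [AddCommGroup V] [Module ℚ V] (ρ : Representation ℚ Gal(AlgebraicClosure K/K) V) (c : ℤ)
    {δ : ι → ℂ}
    (hF : ∀ i, ResidueFormula κ c (a i) (Pool.Agent.N19.BR.MDef.fixedBy ρ (F i)) (δ i)) :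
    ResidueFormula κ c (fun v => A v 1) (Representation.invariants ρ)
      (∑ i, (e i : ℂ) * δ i) := by
  obtain ⟨h1, h2⟩ := inv_rel ρ F h fun i => (hF i).1
  refine ⟨h1, ?_⟩
  have h3 := residue_rel h hA (Z := fun i => (⟨F i⟩ : Ext K)) ha fun i => (hF i).2
  have h4 : ∑ i, (e i : ℂ) * ((c : ℂ) * ((Module.finrank ℚ
      (Pool.Agent.N19.BR.MDef.fixedBy ρ (F i)) : ℂ) + δ i)) =
      (c : ℂ) * ((Module.finrank ℚ (Representation.invariants ρ) : ℂ) +
        ∑ i, (e i : ℂ) * δ i) := by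
    have h5 : (Module.finrank ℚ (Representation.invariants ρ) : ℂ) =
        ∑ i, (e i : ℂ) * (Module.finrank ℚ (Pool.Agent.N19.BR.MDef.fixedBy ρ (F i)) : ℂ) := by
      rw [Nat.cast_one, one_mul] at h2
      exact_mod_cast h2
    rw [h5, ← Finset.sum_add_distrib, Finset.mul_sum]
    refine Finset.sum_congr rfl fun i _ => ?_
    ring
  rw [← h4]
  exact h3

end Pool.Agent.N19.BR
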