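import Pool.Agent.N19.BR.FDefs
import Pool.Agent.N19.BR.BBDefs

/-!
# Parity of ranks of semistable elliptic curves over number fields: definitions
-/

set_option autoImplicit false

namespace Pool.Agent.N19.BR.FDef

open NumberField IsDedekindDomain
open Pool.Agent.R433.MD (Ext)
open Pool.Agent.N19.BR.Def Pool.Agent.N19.BR.MDef
open scoped Classical

section
variable {K : Type} [Field K] [NumberField K]

/-- For the extension `F = Z.F` of `K`: the Galois group of `L F / F` is `2`-hyperelementary (it has a
cyclic normal subgroup of odd order whose index is a power of `2`), and `n` divides the local degrees of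
`F / K` at the primes above `S`. -/
def TwoClass (L : Type) [Field L] [Algebra K L] (S : Set (HeightOneSpectrum (𝓞 K))) (n : ℕ)
    (Z : Ext K) : Prop :=
  HyperelementaryOver 2 L Z ∧ LocalDegreesDivisible S n Z

/-- The parity conjecture for the semistable curve `E`: the rank `r` of `E(K)` is finite and
`(-1) ^ r = w(E / K)`. -/
def Parity (E : WeierstrassCurve K) : Prop :=
  ∃ r : ℕ, Module.rank ℤ E.toAffine.Point = r ∧
    ∀ V : HeightOneSpectrum (𝓞 K) → WeierstrassCurve (𝓞 K), MinimalModels E V →
      (-1) ^ r = rootNumber V

/-- `(-1)^{rk E(K)} w(E / K) = ∏_{j ∈ J} (-1)^{rk E(F_j)} w(E / F_j)` for the extensions `F_j = (Z j).F` of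
`K` and a set `J` of indices: if the ranks of the groups `E(F_j)` are natural numbers `r_j` (they are
finite by the Mordell-Weil theorem), then the rank of `E(K)` is a natural number and the formula
holds. -/
def ParityFormula (E : WeierstrassCurve K) {N : ℕ} (Z : Fin N → Ext K) (J : Finset (Fin N)) :
    Prop :=
  ∀ (V₀ : HeightOneSpectrum (𝓞 K) → WeierstrassCurve (𝓞 K))
    (V : ∀ j, HeightOneSpectrum (𝓞 (Z j).F) → WeierstrassCurve (𝓞 (Z j).F)),
    MinimalModels E V₀ → (∀ j, MinimalModels (E.map (algebraMap K (Z j).F)) (V j)) →
    ∀ r : Fin N → ℕ, (∀ j, Module.rank ℤ (E.map (algebraMap K (Z j).F)).toAffine.Point = r j) →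
      ∃ r₀ : ℕ, Module.rank ℤ E.toAffine.Point = r₀ ∧
        (-1) ^ r₀ * rootNumber V₀ = ∏ j ∈ J, (-1) ^ r j * rootNumber (V j)

end

section
variable {K : Type} [Field K] [NumberField K] {k W : Type} [Field k] [AddCommGroup W] [Module k W]
  (ρ : Representation k Gal(AlgebraicClosure K/K) W)

/-- The parity conjecture over `F` with the dimension of the space of the elements of `W` fixed by the
absolute Galois group of `F` in the place of the rank. -/
def FixedParity (E : WeierstrassCurve K) (F : IntermediateField K (AlgebraicClosure K)) : Prop :=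
  FiniteDimensional k (fixedBy ρ F) ∧ ∀ _ : NumberField F,
    ∀ V : HeightOneSpectrum (𝓞 F) → WeierstrassCurve (𝓞 F),
      MinimalModels (E.map (algebraMap K F)) V →
        (-1) ^ Module.finrank k (fixedBy ρ F) = rootNumber V

/-- The parity conjecture over `K` with the dimension of the space of the elements of `W` fixed by the
absolute Galois group of `K` in the place of the rank. -/
def InvariantParity (E : WeierstrassCurve K) : Prop :=
  FiniteDimensional k (Representation.invariants ρ) ∧
    ∀ V : HeightOneSpectrum (𝓞 K) → WeierstrassCurve (𝓞 K), MinimalModels E V →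
      (-1) ^ Module.finrank k (Representation.invariants ρ) = rootNumber V

/-- `(-1)^{dim W^{G_K}} w(E / K) = ∏_{j ∈ J} (-1)^{dim W^{G_{F_j}}} w(E / F_j)` for the extensions `F_j` of
`K` and a set `J` of indices, if the spaces `W^{G_{F_j}}` of the elements fixed by the absolute Galois
groups have finite dimension. -/
def FixedParityFormula (E : WeierstrassCurve K) {N : ℕ}
    (F : Fin N → IntermediateField K (AlgebraicClosure K)) [∀ j, NumberField (F j)]
    (J : Finset (Fin N)) : Prop :=
  ∀ (V₀ : HeightOneSpectrum (𝓞 K) → WeierstrassCurve (𝓞 K))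
    (V : ∀ j, HeightOneSpectrum (𝓞 (F j)) → WeierstrassCurve (𝓞 (F j))),
    MinimalModels E V₀ → (∀ j, MinimalModels (E.map (algebraMap K (F j))) (V j)) →
    (∀ j, FiniteDimensional k (fixedBy ρ (F j))) →
      FiniteDimensional k (Representation.invariants ρ) ∧
        (-1) ^ Module.finrank k (Representation.invariants ρ) * rootNumber V₀ =
          ∏ j ∈ J, (-1) ^ Module.finrank k (fixedBy ρ (F j)) * rootNumber (V j)

end

end Pool.Agent.N19.BR.FDef
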