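import Pool.Agent.N19.BR.Hyp

/-! Existence of Galois extensions with large local degrees over all subfields that are fixed by a
single automorphism. -/

set_option autoImplicit false

namespace Pool.Agent.N19.BR

open NumberField IsDedekindDomain Polynomial

section
variable {K : Type} [Field K] [NumberField K]

theorem crt (S : Finset (HeightOneSpectrum (𝓞 K))) (x : HeightOneSpectrum (𝓞 K) → 𝓞 K) (e : ℕ) :
    ∃ y : 𝓞 K, ∀ v ∈ S, y - x v ∈ v.asIdeal ^ e := by
  obtain ⟨y, hy⟩ := IsDedekindDomain.exists_forall_sub_mem_ideal (s := S)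
    (fun v : HeightOneSpectrum (𝓞 K) => v.asIdeal) (fun _ => e) (fun v _ => v.prime)
    (fun v _ v' _ h => fun h' => h (HeightOneSpectrum.ext h')) (fun v => x v.1)
  exact ⟨y, fun v hv => hy v hv⟩

theorem exists_unif (S : Finset (HeightOneSpectrum (𝓞 K))) :
    ∃ a : 𝓞 K, ∀ v ∈ S, a ∈ v.asIdeal ∧ a ∉ v.asIdeal ^ 2 := by
  have h : ∀ v : HeightOneSpectrum (𝓞 K), ∃ a : 𝓞 K, a ∈ v.asIdeal ∧ a ∉ v.asIdeal ^ 2 := by
    intro v
    have h1 : v.asIdeal ^ 2 < v.asIdeal := by
      have h2 := Ideal.pow_right_strictAnti v.asIdeal v.ne_bot v.isPrime.ne_top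
        (show 1 < 2 by norm_num)
      simpa using h2
    obtain ⟨a, ha, ha2⟩ := SetLike.exists_of_lt h1
    exact ⟨a, ha, ha2⟩
  choose x hx hx2 using h
  obtain ⟨y, hy⟩ := crt S x 2
  refine ⟨y, fun v hv => ⟨?_, fun h => ?_⟩⟩
  · have h1 := Ideal.add_mem _ (Ideal.pow_le_self two_ne_zero (hy v hv)) (hx v)
    rwa [sub_add_cancel] at h1
  · apply hx2 v
    have h1 := Ideal.sub_mem _ h (hy v hv)
    rwa [sub_sub_cancel] at h1

theorem exists_irr (k : Type) [Field k] [Finite k] {d : ℕ} (hd : 0 < d) :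
    ∃ q : k[X], q.Monic ∧ q.natDegree = d ∧ Irreducible q := by
  obtain ⟨l, _, _, _, hl⟩ := Pool.Agent.R433.MD.exists_ext k hd
  have hfin : FiniteDimensional k l := Module.finite_of_finrank_pos (by rw [hl]; exact hd)
  obtain ⟨θ, hθ⟩ := Field.exists_primitive_element k l
  have hint : IsIntegral k θ := Algebra.IsIntegral.isIntegral θ
  refine ⟨minpoly k θ, minpoly.monic hint, ?_, minpoly.irreducible hint⟩
  rw [← IntermediateField.adjoin.finrank hint, hθ, IntermediateField.finrank_top', hl]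

theorem exists_poly (S : Finset (HeightOneSpectrum (𝓞 K))) {d : ℕ} (hd : 0 < d) :
    ∃ h : (𝓞 K)[X], h.Monic ∧ h.natDegree = d ∧
      ∀ v ∈ S, Irreducible (h.map (Ideal.Quotient.mk v.asIdeal)) := by
  have h1 : ∀ v : HeightOneSpectrum (𝓞 K), ∃ q : (𝓞 K ⧸ v.asIdeal)[X], q.Monic ∧
      q.natDegree = d ∧ Irreducible q := by
    intro v
    have : v.asIdeal.IsMaximal := v.isMaximal
    let _ : Field (𝓞 K ⧸ v.asIdeal) := Ideal.Quotient.field _
    have : Finite (𝓞 K ⧸ v.asIdeal) := Pool.Agent.H341R2.finite_v v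
    exact exists_irr _ hd
  choose q hqm hqd hqi using h1
  have h2 : ∀ j : ℕ, ∃ c : 𝓞 K, ∀ v ∈ S, Ideal.Quotient.mk v.asIdeal c = (q v).coeff j := by
    intro j
    have h3 : ∀ v : HeightOneSpectrum (𝓞 K), ∃ x : 𝓞 K,
        Ideal.Quotient.mk v.asIdeal x = (q v).coeff j := fun v =>
      Ideal.Quotient.mk_surjective _
    choose x hx using h3
    obtain ⟨y, hy⟩ := crt S x 1
    refine ⟨y, fun v hv => ?_⟩
    have h4 := hy v hv
    rw [pow_one] at h4
    rw [← hx v]
    exact Ideal.Quotient.eq.2 h4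
  choose c hc using h2
  have hdeg : (∑ j ∈ Finset.range d, C (c j) * X ^ j : (𝓞 K)[X]).degree < (d : WithBot ℕ) := by
    refine mem_degreeLT.1 (Submodule.sum_mem _ fun j hj => mem_degreeLT.2 ?_)
    refine lt_of_le_of_lt (degree_C_mul_X_pow_le _ _) ?_
    exact_mod_cast Finset.mem_range.1 hj
  refine ⟨X ^ d + ∑ j ∈ Finset.range d, C (c j) * X ^ j, monic_X_pow_add hdeg, ?_, fun v hv => ?_⟩
  · rw [natDegree_eq_of_degree_eq (degree_add_eq_left_of_degree_lt (by rwa [degree_X_pow])),
      natDegree_X_pow]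
  · have h3 : (X ^ d + ∑ j ∈ Finset.range d, C (c j) * X ^ j : (𝓞 K)[X]).map
        (Ideal.Quotient.mk v.asIdeal) = q v := by
      conv_rhs => rw [(hqm v).as_sum, hqd v]
      rw [Polynomial.map_add, Polynomial.map_pow, map_X, Polynomial.map_sum]
      congr 1
      refine Finset.sum_congr rfl fun j _ => ?_
      rw [Polynomial.map_mul, map_C, Polynomial.map_pow, map_X, hc j v hv]
    rw [h3]
    exact hqi v

omit [NumberField K] in
theorem cl_gal {L : Type} [Field L] [Algebra K L] [FiniteDimensional K L] {p : ℕ}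
    {F : IntermediateField K L} (hF : Cl p F.fixingSubgroup) : Cl p (⊤ : Subgroup Gal(L/F)) := by
  refine Cl.of_injective (G := Gal(L/K)) ((Subgroup.subtype _).comp
    (IntermediateField.fixingSubgroupEquiv F).symm.toMonoidHom) ?_ hF fun x _ => ?_
  · intro x y hxy
    exact (IntermediateField.fixingSubgroupEquiv F).symm.injective (Subtype.ext hxy)
  · exact ((IntermediateField.fixingSubgroupEquiv F).symm x).2

theorem exists_split (S : Finset (HeightOneSpectrum (𝓞 K))) {ℓ : ℕ} (hℓ : ℓ.Prime) :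
    ∃ (L : Type) (_ : Field L) (_ : NumberField L) (_ : Algebra K L) (_ : IsGalois K L),
      ∀ (p : ℕ) (F : IntermediateField K L), ℓ ≠ p → Cl p F.fixingSubgroup →
        LocDvd K (S : Set (HeightOneSpectrum (𝓞 K))) ℓ F := by
  obtain ⟨a, ha⟩ := exists_unif S
  obtain ⟨h, hm, hd, hirr⟩ := exists_poly S hℓ.pos
  let q : K[X] := (X ^ ℓ - C (a : K)) * h.map (algebraMap (𝓞 K) K)
  let L := q.SplittingField
  have hfin : FiniteDimensional K L := inferInstance
  have hch : CharZero L := charZero_of_injective_algebraMap (algebraMap K L).injective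
  have hnf : NumberField L := NumberField.of_module_finite K L
  have hn : Normal K L := inferInstance
  have hgal : IsGalois K L := ⟨⟩
  have hq0 : q ≠ 0 := mul_ne_zero (X_pow_sub_C_ne_zero hℓ.pos _)
    (hm.map (algebraMap (𝓞 K) K)).ne_zero
  have hsp : (q.map (algebraMap K L)).Splits := SplittingField.splits q
  have hq1 : ((X ^ ℓ - C (a : K)).map (algebraMap K L)).Splits := by
    refine Splits.of_dvd hsp ?_ ?_
    · exact (Polynomial.map_ne_zero_iff (algebraMap K L).injective).2 hq0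
    · exact Polynomial.map_dvd _ (Dvd.intro _ rfl)
  have hq2 : ((h.map (algebraMap (𝓞 K) K)).map (algebraMap K L)).Splits := by
    refine Splits.of_dvd hsp ?_ ?_
    · exact (Polynomial.map_ne_zero_iff (algebraMap K L).injective).2 hq0
    · exact Polynomial.map_dvd _ (Dvd.intro_left _ rfl)
  obtain ⟨α, hα⟩ := hq1.exists_eval_eq_zero (by
    rw [degree_map, degree_X_pow_sub_C hℓ.pos]
    exact_mod_cast hℓ.ne_zero)
  obtain ⟨β, hβ⟩ := hq2.exists_eval_eq_zero (by
    rw [degree_map, degree_eq_natDegree (hm.map (algebraMap (𝓞 K) K)).ne_zero,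
      hm.natDegree_map, hd]
    exact_mod_cast hℓ.ne_zero)
  refine ⟨L, inferInstance, hnf, inferInstance, hgal, fun p F hp hF v hv w hw hwv => ?_⟩
  have hcl : Cl p (⊤ : Subgroup Gal(L/F)) := cl_gal hF
  refine loc_dvd_hyper (K := K) (M := F) (L := L) hcl hℓ hp (ha v hv).1 (ha v hv).2 (α := α) ?_ hm hd
    (hirr v hv) (β := β) ?_ hw hwv
  · rw [Polynomial.map_sub, Polynomial.map_pow, map_X, map_C, eval_sub, eval_pow, eval_X, eval_C,
      sub_eq_zero] at hα
    exact hα
  · rw [eval_map_algebraMap] at hβ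
    exact hβ

end

end Pool.Agent.N19.BR
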