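import Pool.Agent.N19.BR.ADefs
import Mathlib.Analysis.Meromorphic.TrailingCoefficient
import Mathlib.MeasureTheory.Measure.Lebesgue.Complex
import Mathlib.MeasureTheory.Integral.Bochner.Set

/-!
# Periods, regulators and leading coefficients of elliptic curves over number fields: definitions
-/

set_option autoImplicit false

namespace Pool.Agent.N19.BR.QDef

open NumberField
open Pool.Agent.N19.BR.Def (Continues)
open scoped Classical

/-- `ψ(x) = 4 x³ + b₂ x² + 2 b₄ x + b₆`.  With `y' = 2 y + a₁ x + a₃` the equation of `E` is `y'² = ψ(x)`, and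
`ω = dx / y'` is the invariant differential. -/
def psi (E : WeierstrassCurve ℂ) (x : ℂ) : ℂ := 4 * x ^ 3 + E.b₂ * x ^ 2 + 2 * E.b₄ * x + E.b₆

/-- `∫ dx / √ψ(x)` over the real `x` with `ψ(x) > 0`, for real coefficients: half of the integral of `|ω|` over
`E(ℝ)`. -/
noncomputable def realPeriod (E : WeierstrassCurve ℂ) : ℝ :=
  ∫ x in {x : ℝ | 0 < (psi E x).re}, (√(psi E x).re)⁻¹

/-- `∫ |ψ(z)|⁻¹` over the complex plane: a quarter of the integral of `|ω ∧ ω̄|` over `E(ℂ)`. -/
noncomputable def complexPeriod (E : WeierstrassCurve ℂ) : ℝ := ∫ z : ℂ, ‖psi E z‖⁻¹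

section
variable {F : Type} [Field F] [NumberField F]

/-- the factor of the embedding `τ` of `F`: the real period if `τ` is real, the square root of the complex
period otherwise -/
noncomputable def periodAt (E : WeierstrassCurve F) (τ : F →+* ℂ) : ℝ :=
  if ComplexEmbedding.IsReal τ then realPeriod (E.map τ) else √(complexPeriod (E.map τ))

/-- The period `Ω` of `E / F`, up to a rational number: the product over all embeddings of `F` in `ℂ`, so the
product of the real periods for the real places and the complex periods for the complex places. -/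
noncomputable def period (E : WeierstrassCurve F) : ℝ := ∏ τ : F →+* ℂ, periodAt E τ

end

/-- `P` is a basis of `A ⊗ ℚ`: it is linearly independent, and all elements of `A` have nonzero multiples in the
subgroup generated by `P`. -/
def IsBasis {A : Type} [AddCommGroup A] {r : ℕ} (P : Fin r → A) : Prop :=
  LinearIndependent ℤ P ∧ ∀ a : A, ∃ n : ℕ, n ≠ 0 ∧ n • a ∈ Submodule.span ℤ (Set.range P)

section
variable {K : Type} [Field K] (E : WeierstrassCurve K)

/-- the group `E(F)` of a field extension `F` of `K` -/
abbrev Points (F : Type) [Field F] [Algebra K F] : Type :=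
  (E.map (algebraMap K F)).toAffine.Point

/-- the homomorphism `E(F) → E(F')` -/
noncomputable def onPoints {F F' : Type} [Field F] [Algebra K F] [Field F'] [Algebra K F']
    (f : F →ₐ[K] F') : Points E F →+ Points E F' :=
  WeierstrassCurve.Affine.Point.map (W' := E.toAffine) f

/-- `B` is a pairing on `E(K̄)` with values in `ℝ` that is invariant under the absolute Galois group of `K`, for
example the Néron-Tate height pairing. -/
def Invariant (B : Points E (AlgebraicClosure K) →+ Points E (AlgebraicClosure K) →+ ℝ) : Prop :=
  ∀ (σ : Gal(AlgebraicClosure K/K)) (P Q : Points E (AlgebraicClosure K)),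
    B (onPoints E (σ : AlgebraicClosure K →ₐ[K] AlgebraicClosure K) P)
      (onPoints E (σ : AlgebraicClosure K →ₐ[K] AlgebraicClosure K) Q) = B P Q

/-- The Birch and Swinnerton-Dyer formula for `E` over `F ⊆ K̄` with the constant `κ`: `L(E / F, s)` has a
meromorphic continuation to `U`, its order at `s = 1` is the rank of `E(F)`, and its leading coefficient
is `κ Ω R / √|Δ_F|`, where `R` is the determinant of the pairing `B` on a basis of `E(F) ⊗ ℚ`.  By the
conjecture of Birch and Swinnerton-Dyer this holds for a nonzero rational number `κ` (`#Ш ∏ c_v / #tors²` up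
to the square of the index of the basis, the rational factors of the periods and the normalization of the
heights). -/
def LeadingFormula (B : Points E (AlgebraicClosure K) →+ Points E (AlgebraicClosure K) →+ ℝ)
    (U : Set ℂ) (F : Type) [Field F] [NumberField F] [Algebra K F] (f : F →ₐ[K] AlgebraicClosure K)
    (κ : ℝ) : Prop :=
  ∃ (Λ : ℂ → ℂ) (r : ℕ) (P : Fin r → Points E F),
    Continues U 1 (E.map (algebraMap K F)) Λ ∧ IsBasis P ∧
    meromorphicOrderAt Λ 1 = ((r : ℤ) : WithTop ℤ) ∧
    meromorphicTrailingCoeffAt Λ 1 * ((√|(discr F : ℝ)| : ℝ) : ℂ) =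
      ((κ * period (E.map (algebraMap K F)) *
        (Matrix.of fun i j => B (onPoints E f (P i)) (onPoints E f (P j))).det : ℝ) : ℂ)

end

end Pool.Agent.N19.BR.QDef
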