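import Pool.Agent.N19.BR.Lead
import Pool.Agent.N19.BR.FE

/-! Leading coefficients of the L-functions of elliptic curves modulo rational numbers. -/

set_option autoImplicit false

namespace Pool.Agent.N19.BR

open NumberField IsDedekindDomain Filter Topology
open Pool.Agent.R433.MD
open Pool.Agent.R333.BR (lf_one)
open Pool.Agent.H341R2.EC (IsModel IsMinAt red aff trc dlt)
open Pool.Agent.H341R2.EC
open Pool.Agent.H921R2.TatePole (nm two_le_nm)

/-- the rational numbers in the complex numbers -/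
noncomputable def QQ : Subfield ℂ := (algebraMap ℚ ℂ).fieldRange

section
variable {F : Type} [Field F] [NumberField F]

theorem lf_rat (V : HeightOneSpectrum (𝓞 F) → WeierstrassCurve (𝓞 F))
    (v : HeightOneSpectrum (𝓞 F)) : lf V 1 v ∈ QQ := by
  classical
  have hq : ((nm v : ℕ) : ℂ) ≠ 0 := by exact_mod_cast (nm_pos v).ne'
  have h1 : lf V 1 v = ((aff (red v (V v)) : ℂ) + dlt V v) / ((nm v : ℕ) : ℂ) := by
    unfold lf trc
    have e1 : (1 : ℂ) - 2 * 1 = -1 := by norm_num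
    rw [e1, Complex.cpow_neg_one]
    push_cast
    field_simp
    ring
  rw [h1]
  refine div_mem (add_mem (natCast_mem _ _) ?_) (natCast_mem _ _)
  unfold dlt
  split_ifs
  · exact zero_mem _
  · exact one_mem _

end

section
variable {K : Type} [Field K] [NumberField K] {ι : Type} [Fintype ι] {Z : ι → Ext K} {e : ι → ℤ}
  {m : ℕ} {E : WeierstrassCurve K} (hE : E.IsElliptic)
  {V0 : HeightOneSpectrum (𝓞 K) → WeierstrassCurve (𝓞 K)} (hV0 : ∀ v, IsMinAt E v (V0 v))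
  {VZ : ∀ i, HeightOneSpectrum (𝓞 (Z i).F) → WeierstrassCurve (𝓞 (Z i).F)}
  (hVZ : ∀ i w, IsMinAt (E.map (algebraMap K (Z i).F)) w (VZ i w))

include hE hV0 hVZ

omit [Fintype ι] in
theorem good_E [Finite ι] : ∀ᶠ v : HeightOneSpectrum (𝓞 K) in cofinite, ∃ G : ℕ → ℂ → ℂ,
    ∀ (i : Option ι) (w : Fib (Opt Z i).F v), (fun s => lf (optV V0 VZ i) s w.1) = G (fdeg w) := by
  obtain ⟨W, hW, hWΔ⟩ := exists_model E hE
  have h6 : (6 : 𝓞 K) ≠ 0 := by norm_num
  have hbad : {v : HeightOneSpectrum (𝓞 K) | 6 * W.Δ ∈ v.asIdeal}.Finite :=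
    finite_mem (mul_ne_zero h6 hWΔ)
  have hmin := optV_min hV0 hVZ
  filter_upwards [hbad.compl_mem_cofinite] with v hv
  have hv' : 6 * W.Δ ∉ v.asIdeal := hv
  have hvΔ : W.Δ ∉ v.asIdeal := fun h => hv' (v.asIdeal.mul_mem_left _ h)
  have hv6 : (6 : 𝓞 K) ∉ v.asIdeal := fun h => hv' (v.asIdeal.mul_mem_right _ h)
  obtain ⟨g, hg⟩ := exists_count v W
  refine ⟨fun n s => 1 - (((nm v : ℤ) ^ n - (g n : ℤ) : ℤ) : ℂ) *
      ((nm v ^ n : ℕ) : ℂ) ^ (-s) + ((nm v ^ n : ℕ) : ℂ) ^ (1 - 2 * s), fun i w => ?_⟩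
  funext s
  exact lf_good hW hv6 hvΔ hg (hmin i) w s

/-- **The relation of the L-functions with a rational correction.** -/
theorem L_rel_rat (h : IsRel K Z e m) : ∃ (R : ℂ → ℂ) (q : ℚ), q ≠ 0 ∧ R 1 = q ∧
    MeromorphicOn R Set.univ ∧ AnalyticAt ℂ R 1 ∧
    ∀ s : ℂ, 3 / 2 < s.re → LL V0 s ≠ 0 ∧ LL V0 s ^ m = R s * ∏ i, LL (VZ i) s ^ e i := by
  have hmin := optV_min hV0 hVZ
  obtain ⟨R, hR1, hR2, hR3, hR4⟩ := rel_euler_fld h (fun i w s => lf (optV V0 VZ i) s w)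
    (fun i w => differentiable_lf _ w) (good_E hE hV0 hVZ) (fun i => LL (optV V0 VZ i))
    (c := 3 / 2) (fun i s hs => hasProd_lf _ inferInstance (optV V0 VZ i) (hmin i) hs)
    (T := {1}) (by
      intro s hs i w
      rw [Set.mem_singleton_iff.1 hs]
      exact lf_one _ _)
  obtain ⟨q, hq⟩ : R 1 ∈ QQ := hR3 1 QQ fun i w => lf_rat _ _
  obtain ⟨h1, h2⟩ := hR2 1 rfl
  have hq' : ((q : ℚ) : ℂ) = R 1 := hq
  refine ⟨R, q, ?_, hq'.symm, hR1, h1, fun s hs => ⟨LL_ne_zero hE hV0 hs, (hR4 s hs).2⟩⟩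
  rintro rfl
  exact h2 (by rw [← hq', Rat.cast_zero])

end

/-- the relation for the square roots of the discriminants -/
theorem sqrt_disc {K : Type} [Field K] [NumberField K] {ι : Type} [Fintype ι] {Z : ι → Ext K}
    {e : ι → ℤ} {m : ℕ} (h : IsRel K Z e m) :
    ∏ i, √|(discr (Z i).F : ℝ)| ^ e i = √|(discr K : ℝ)| ^ m := by
  have h0 : ∀ (F : Type) [Field F] [NumberField F], 0 < √|(discr F : ℝ)| ∧
      Real.log (√|(discr F : ℝ)|) = ldisc F / 2 := by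
    intro F _ _
    have h1 : |(discr F : ℝ)| = ((discr F).natAbs : ℝ) := by
      rw [← Int.cast_abs, Int.abs_eq_natAbs]
      rfl
    have h2 : 0 < |(discr F : ℝ)| := abs_pos.2 (by exact_mod_cast discr_ne_zero F)
    refine ⟨Real.sqrt_pos.2 h2, ?_⟩
    rw [Real.log_sqrt h2.le, h1]
    rfl
  have hpos : 0 < ∏ i, √|(discr (Z i).F : ℝ)| ^ e i :=
    Finset.prod_pos fun i _ => zpow_pos (h0 (Z i).F).1 _
  have hpos' : 0 < √|(discr K : ℝ)| ^ m := pow_pos (h0 K).1 _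
  apply Real.log_injOn_pos (Set.mem_Ioi.2 hpos) (Set.mem_Ioi.2 hpos')
  rw [Real.log_prod fun i _ => (zpow_pos (h0 (Z i).F).1 _).ne', Real.log_pow, (h0 K).2]
  have h1 := disc_rel h
  have h2 : ∀ i, Real.log (√|(discr (Z i).F : ℝ)| ^ e i) = (e i : ℝ) * ldisc (Z i).F / 2 := by
    intro i
    rw [Real.log_zpow, (h0 (Z i).F).2]
    ring
  rw [Finset.sum_congr rfl fun i _ => h2 i, ← Finset.sum_div, h1]
  ring

end Pool.Agent.N19.BR
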