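import Pool.Agent.N19.BR.Defs

/-!
# L-functions of elliptic curves without zeros in a half-plane: definition
-/

set_option autoImplicit false

namespace Pool.Agent.N19.BR.Def

open NumberField

/-- `L(E / F, s)` has an analytic continuation without zeros to the half-plane `Re s > σ`.  For `σ = 1`
this is, by the functional equation, the Riemann hypothesis for `L(E / F, s)`, with the continuation to
`Re s > 1`. -/
def ZeroFree {F : Type} [Field F] [NumberField F] (σ : ℝ) (E : WeierstrassCurve F) : Prop :=
  ∃ Λ : ℂ → ℂ, AnalyticOnNhd ℂ Λ {s | σ < s.re} ∧ (∀ s : ℂ, σ < s.re → Λ s ≠ 0) ∧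
    Continues {s | σ < s.re} 1 E Λ

end Pool.Agent.N19.BR.Def
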