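import Pool.Agent.N19.BR.Zeros
import Pool.Agent.N19.BR.ZDefs

/-! Relations and zero-free half-planes. -/

set_option autoImplicit false

namespace Pool.Agent.N19.BR

open NumberField IsDedekindDomain Complex Filter Topology
open Pool.Agent.H341R2.EC
open Pool.Agent.R433.MD
open Pool.Agent.N19.BR.Def

/-- a continuous function whose `m`-th power is the `m`-th power of a nonvanishing one -/
theorem const_of_pow {D : Set ℂ} (hD : IsPreconnected D) {f g : ℂ → ℂ} (hf : ContinuousOn f D)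
    (hg : ContinuousOn g D) (hf0 : ∀ s ∈ D, f s ≠ 0) {m : ℕ} (hm : m ≠ 0)
    (h : ∀ s ∈ D, g s ^ m = f s ^ m) : ∃ c : ℂ, c ≠ 0 ∧ ∀ s ∈ D, g s = c * f s := by
  rcases D.eq_empty_or_nonempty with rfl | ⟨x, hx⟩
  · exact ⟨1, one_ne_zero, fun s hs => absurd hs (Set.notMem_empty s)⟩
  have hfin : {z : ℂ | z ^ m = 1}.Finite := by
    refine (Polynomial.nthRoots m (1 : ℂ)).toFinset.finite_toSet.subset fun z hz => ?_
    rw [Finset.mem_coe, Multiset.mem_toFinset, Polynomial.mem_nthRoots (Nat.pos_of_ne_zero hm)]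
    exact hz
  have hq : ContinuousOn (fun s => g s / f s) D := hg.div hf hf0
  have hmap : Set.MapsTo (fun s => g s / f s) D {z : ℂ | z ^ m = 1} := by
    intro s hs
    change (g s / f s) ^ m = 1
    rw [div_pow, h s hs, div_self (pow_ne_zero _ (hf0 s hs))]
  refine ⟨g x / f x, ?_, fun s hs => ?_⟩
  · intro h0
    have h1 : (g x / f x) ^ m = 1 := hmap hx
    rw [h0, zero_pow hm] at h1
    exact zero_ne_one h1
  · have h1 : g x / f x = g s / f s := hD.constant_of_mapsTo hfin.isDiscrete hq hmap hx hs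
    rw [h1, div_mul_cancel₀ _ (hf0 s hs)]

/-- **Relations and zero-free half-planes.** -/
theorem zeroFree_of_rel {K : Type} [Field K] [NumberField K] {ι : Type} [Fintype ι] {Z : ι → Ext K}
    {e : ι → ℤ} {m : ℕ} (hm : m ≠ 0) (h : IsRel K Z e m) {σ : ℝ} (h1 : 1 ≤ σ) (h2 : σ ≤ 3 / 2)
    {E : WeierstrassCurve K} (hE : E.IsElliptic)
    (hr : ∀ i, ZeroFree σ (E.map (algebraMap K (Z i).F))) : ZeroFree σ E := by
  classical
  obtain ⟨L, _, _, _, _, hL⟩ := exists_common Z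
  have f : ∀ i, (Z i).F →ₐ[K] L := fun i => (hL i).some
  have hrel := fx_of_isRel h f
  obtain ⟨V0, hV0⟩ := exists_minimal E hE
  have hVZ : ∀ i, ∃ V : HeightOneSpectrum (𝓞 (Z i).F) → WeierstrassCurve (𝓞 (Z i).F),
      ∀ w, IsMinAt (E.map (algebraMap K (Z i).F)) w (V w) := fun i =>
    exists_minimal _ inferInstance
  choose VZ hVZ using hVZ
  choose Λ hΛa hΛ0 hΛ using hr
  have hΛ' : ∀ i, ∀ s : ℂ, 3 / 2 < s.re → Λ i s = LL (VZ i) s := by
    intro i
    have h3 := (continues_iff (Λ := Λ i) inferInstance (hVZ i)).1 (hΛ i)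
    exact fun s hs => by rw [h3.2 s hs, pow_one]
  obtain ⟨R, hR, hRL⟩ := L_rel_half Z f e m hrel E hE V0 hV0 VZ hVZ
  let G : ℂ → ℂ := fun s => R s * ∏ i, Λ i s ^ e i
  have hGa : AnalyticOnNhd ℂ G (HP σ) := by
    intro s hs
    have hs' : σ < s.re := hs
    refine (hR s (by linarith)).1.fun_mul ?_
    refine Finset.analyticAt_fun_prod _ fun i _ => ?_
    exact (hΛa i s hs).fun_zpow (hΛ0 i s hs)
  have hG0 : ∀ s ∈ HP σ, G s ≠ 0 := by
    intro s hs
    have hs' : σ < s.re := hs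
    exact mul_ne_zero (hR s (by linarith)).2
      (Finset.prod_ne_zero_iff.2 fun i _ => zpow_ne_zero _ (hΛ0 i s hs))
  obtain ⟨g, hga, hg0, hgm⟩ := exists_root hGa hG0 hm
  have hsub : HP (3 / 2) ⊆ HP σ := fun s hs => lt_of_le_of_lt h2 hs
  obtain ⟨c, hc0, hc⟩ := const_of_pow (isPreconnected_HP (3 / 2)) (f := g) (g := LL V0)
    (hga.continuousOn.mono hsub) (continuousOn_LL hE hV0) (fun s _ => hg0 s) hm (fun s hs => by
      rw [hgm s (hsub hs), hRL s hs]
      change _ = R s * ∏ i, Λ i s ^ e i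
      congr 1
      exact Finset.prod_congr rfl fun i _ => by rw [hΛ' i s hs])
  have hca : AnalyticOnNhd ℂ (fun s => c * g s) (HP σ) := fun s hs =>
    analyticAt_const.fun_mul (hga s hs)
  refine ⟨fun s => c * g s, hca, fun s _ => mul_ne_zero hc0 (hg0 s), ?_⟩
  rw [continues_iff hE hV0]
  exact ⟨hca.meromorphicOn, fun s hs => by rw [pow_one]; exact (hc s hs).symm⟩

end Pool.Agent.N19.BR
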