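import Pool.Agent.N19.BR.Abs

/-! Homomorphisms to finite fields above all primes, ramified primes included. -/

set_option autoImplicit false

namespace Pool.Agent.N19.BR

open NumberField Polynomial
open Pool.Agent.R433.MD

section
variable {F L Ω : Type} [Field F] [NumberField F] [Field L] [NumberField L] [Algebra F L] [Field Ω]

/-- the kernel of a homomorphism to a field of positive characteristic -/
theorem finite_ker {p : ℕ} (hp : p.Prime) (hΩ : (p : Ω) = 0) (Ψ : 𝓞 L →+* Ω) :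
    (RingHom.ker Ψ).IsMaximal ∧ Finite (𝓞 L ⧸ RingHom.ker Ψ) := by
  have hP : (RingHom.ker Ψ).IsPrime := RingHom.ker_isPrime Ψ
  have h0 : RingHom.ker Ψ ≠ ⊥ := by
    intro h
    have h1 : (p : 𝓞 L) ∈ RingHom.ker Ψ := by
      rw [RingHom.mem_ker, map_natCast, hΩ]
    rw [h, Ideal.mem_bot] at h1
    exact hp.ne_zero (by exact_mod_cast h1)
  exact ⟨hP.isMaximal h0, Ideal.finiteQuotientOfFreeOfNeBot _ h0⟩

/-- homomorphisms which agree below are conjugate -/
theorem unif_conj [IsGalois F L] {p : ℕ} (hp : p.Prime) (hΩ : (p : Ω) = 0) {Ψ Ψ' : 𝓞 L →+* Ω}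
    (h : Ψ.comp (algebraMap (𝓞 F) (𝓞 L)) = Ψ'.comp (algebraMap (𝓞 F) (𝓞 L))) :
    ∃ σ : Gal(L/F), Ψ' = tw Ψ σ := by
  classical
  obtain ⟨hmax, hfin⟩ := finite_ker hp hΩ Ψ'
  let _ : Field (𝓞 L ⧸ RingHom.ker Ψ') := Ideal.Quotient.field _
  obtain ⟨u, hu⟩ := IsCyclic.exists_generator (α := (𝓞 L ⧸ RingHom.ker Ψ')ˣ)
  obtain ⟨a, ha⟩ := Ideal.Quotient.mk_surjective (u : 𝓞 L ⧸ RingHom.ker Ψ')
  -- an element with the same class which lies in the other kernels
  let B : Finset (Gal(L/F)) := Finset.univ.filter fun σ => RingHom.ker (tw Ψ σ) ≠ RingHom.ker Ψ'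
  have hsup : RingHom.ker Ψ' ⊔ ∏ σ ∈ B, RingHom.ker (tw Ψ σ) = ⊤ := by
    refine Ideal.sup_prod_eq_top fun σ hσ => ?_
    exact hmax.coprime_of_ne (finite_ker hp hΩ (tw Ψ σ)).1 (Finset.mem_filter.1 hσ).2.symm
  obtain ⟨y, hy, z, hz, hyz⟩ := Submodule.mem_sup.1 (hsup ▸ Submodule.mem_top (x := a))
  have hz' : ∀ σ ∈ B, tw Ψ σ z = 0 := by
    intro σ hσ
    exact Ideal.prod_le_inf.trans (Finset.inf_le hσ) hz
  have hyΨ : Ψ' y = 0 := hy
  have hzu : Ideal.Quotient.mk (RingHom.ker Ψ') z = u := by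
    rw [← ha, ← hyz, map_add, Ideal.Quotient.eq_zero_iff_mem.2 hy, zero_add]
  have hz0 : Ψ' z ≠ 0 := by
    intro h0
    have h1 : Ideal.Quotient.mk (RingHom.ker Ψ') z = 0 := Ideal.Quotient.eq_zero_iff_mem.2 h0
    rw [hzu] at h1
    exact u.ne_zero h1
  obtain ⟨σ, hσ⟩ := exists_conj h z
  have hker : RingHom.ker (tw Ψ σ) = RingHom.ker Ψ' := by
    by_contra hne
    have h1 := hz' σ (Finset.mem_filter.2 ⟨Finset.mem_univ σ, hne⟩)
    rw [tw_apply, ← hσ] at h1
    exact hz0 h1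
  refine ⟨σ, RingHom.ext fun x => ?_⟩
  by_cases hx : Ψ' x = 0
  · have h1 : x ∈ RingHom.ker (tw Ψ σ) := hker ▸ hx
    rw [hx]
    exact (RingHom.mem_ker.1 h1).symm
  · have hx' : Ideal.Quotient.mk (RingHom.ker Ψ') x ≠ 0 := fun h1 =>
      hx (Ideal.Quotient.eq_zero_iff_mem.1 h1)
    obtain ⟨n, hn⟩ : ∃ n : ℕ, u ^ n = Units.mk0 _ hx' := by
      have h1 := hu (Units.mk0 _ hx')
      rw [← mem_powers_iff_mem_zpowers] at h1
      exact h1
    have h2 : x - z ^ n ∈ RingHom.ker Ψ' := by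
      rw [← Ideal.Quotient.eq_zero_iff_mem, map_sub, map_pow, hzu, sub_eq_zero]
      have h3 := congrArg Units.val hn
      rw [Units.val_pow_eq_pow_val, Units.val_mk0] at h3
      exact h3.symm
    have h3 : x - z ^ n ∈ RingHom.ker (tw Ψ σ) := hker ▸ h2
    rw [RingHom.mem_ker, map_sub, map_pow, sub_eq_zero] at h2 h3
    rw [h2, h3, hσ, tw_apply]

end

/-- a form of Burnside's lemma for a coset of a transitive subgroup -/
theorem coset_burnside {G : Type} [Group G] {X : Type} [MulAction G X] [DecidableEq X]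
    (I : Subgroup G) [Fintype I] (t : G) (A : Finset X) (hne : A.Nonempty)
    (htr : ∀ a ∈ A, ∀ b ∈ A, ∃ i ∈ I, i • a = b) (hI : ∀ i ∈ I, ∀ a ∈ A, i • a ∈ A)
    (ht : ∀ a ∈ A, t • a ∈ A) :
    ∑ a ∈ A, (Finset.univ.filter fun i : I => ((i : G) * t) • a = a).card = Fintype.card I := by
  classical
  have key : ∀ a ∈ A, A.card * (Finset.univ.filter fun i : I => ((i : G) * t) • a = a).card =
      Fintype.card I := by
    intro a ha
    have h1 : (Finset.univ : Finset I).card = ∑ b ∈ A,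
        ((Finset.univ : Finset I).filter fun i : I => (i : G) • (t • a) = b).card :=
      Finset.card_eq_sum_card_fiberwise (fun (i : I) _ => hI (i : G) i.2 _ (ht a ha))
    have h2 : ∀ b ∈ A, ((Finset.univ : Finset I).filter fun i : I => (i : G) • (t • a) = b).card =
        (Finset.univ.filter fun i : I => ((i : G) * t) • a = a).card := by
      intro b hb
      obtain ⟨j, hj, hjb⟩ := htr b hb a ha
      refine Finset.card_bij (fun i _ => ⟨j, hj⟩ * i) ?_ ?_ ?_
      · intro i hi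
        rw [Finset.mem_filter] at hi ⊢
        refine ⟨Finset.mem_univ _, ?_⟩
        change (j * (i : G) * t) • a = a
        rw [mul_smul, mul_smul, hi.2, hjb]
      · intro i _ i' _ hii
        exact mul_left_cancel hii
      · intro i hi
        refine ⟨⟨j, hj⟩⁻¹ * i, ?_, by simp⟩
        rw [Finset.mem_filter] at hi ⊢
        refine ⟨Finset.mem_univ _, ?_⟩
        change (j⁻¹ * (i : G)) • (t • a) = b
        rw [mul_smul, ← mul_smul (i : G) t a, hi.2, ← hjb, inv_smul_smul]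
    rw [Finset.sum_congr rfl h2, Finset.sum_const, smul_eq_mul, Finset.card_univ] at h1
    exact h1.symm
  have hA : 0 < A.card := Finset.card_pos.2 hne
  apply Nat.eq_of_mul_eq_mul_left hA
  rw [Finset.mul_sum, Finset.sum_congr rfl key, Finset.sum_const, smul_eq_mul]

/-- **Homomorphisms to finite fields and fixed cosets, at all primes.** -/
theorem ram_count (K L : Type) [Field K] [NumberField K] [Field L] [NumberField L] [Algebra K L]
    [IsGalois K L] (k : Type) [Field k] [Finite k] (φ : 𝓞 K →+* k) :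
    ∃ T : Finset Gal(L/K), T.Nonempty ∧ ∀ F : IntermediateField K L,
      T.card * nh F φ = ∑ t ∈ T, Nat.card {c : Gal(L/K) ⧸ F.fixingSubgroup // t • c = c} := by
  classical
  obtain ⟨p, hpc⟩ := CharP.exists k
  have hp : p.Prime := CharP.char_is_prime k p
  let Ω := AlgebraicClosure k
  have hΩ : ((p : ℕ) : Ω) = 0 := by
    have h1 : algebraMap k Ω ((p : ℕ) : k) = 0 := by rw [CharP.cast_eq_zero, map_zero]
    rwa [map_natCast] at h1
  let φ' : 𝓞 K →+* Ω := (algebraMap k Ω).comp φ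
  obtain ⟨Ψ0, hΨ0⟩ := exists_extend (F := K) (L := L) φ'
  let _ : Fintype k := Fintype.ofFinite k
  let Fr : Ω →+* Ω := (FiniteField.frobeniusAlgHom k Ω).toRingHom
  have hFr : ∀ x : Ω, Fr x = x ^ Fintype.card k := fun x => rfl
  have hfix : ∀ x : Ω, Fr x = x ↔ x ∈ Set.range (algebraMap k Ω) := by
    intro x
    rw [hFr]
    constructor
    · intro hx
      have h1 : x ∈ ((X ^ Fintype.card k - X : k[X]).map (algebraMap k Ω)).roots := by
        rw [mem_roots', Polynomial.map_sub, Polynomial.map_pow, map_X]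
        refine ⟨FiniteField.X_pow_card_sub_X_ne_zero Ω Fintype.one_lt_card, ?_⟩
        rw [IsRoot.def, eval_sub, eval_pow, eval_X, hx, sub_self]
      have h2 : ((X ^ Fintype.card k - X : k[X]).map (algebraMap k Ω)).roots =
          (X ^ Fintype.card k - X : k[X]).roots.map (algebraMap k Ω) := by
        refine (roots_map_of_injective_of_card_eq_natDegree (algebraMap k Ω).injective ?_).symm
        rw [FiniteField.roots_X_pow_card_sub_X, Finset.card_val, Finset.card_univ,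
          FiniteField.X_pow_card_sub_X_natDegree_eq k Fintype.one_lt_card]
      rw [h2, Multiset.mem_map] at h1
      obtain ⟨y, -, hy⟩ := h1
      exact ⟨y, hy⟩
    · rintro ⟨y, rfl⟩
      rw [← map_pow, FiniteField.pow_card]
  have hFrφ : Fr.comp φ' = φ' := by
    ext x
    exact (hfix _).2 ⟨φ x, rfl⟩
  let T : Finset Gal(L/K) := Finset.univ.filter fun t => tw Ψ0 t = Fr.comp Ψ0
  have hT : ∀ t, t ∈ T ↔ tw Ψ0 t = Fr.comp Ψ0 := fun t => by
    rw [Finset.mem_filter]
    exact ⟨fun h => h.2, fun h => ⟨Finset.mem_univ t, h⟩⟩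
  obtain ⟨t₁, ht₁⟩ : ∃ t : Gal(L/K), Fr.comp Ψ0 = tw Ψ0 t := by
    have h1 : (Fr.comp Ψ0).comp (algebraMap (𝓞 K) (𝓞 L)) = φ' := by
      rw [RingHom.comp_assoc, hΨ0, hFrφ]
    exact unif_conj (F := K) hp hΩ (hΨ0.trans h1.symm)
  have ht₁' : t₁ ∈ T := (hT t₁).2 ht₁.symm
  let I : Subgroup Gal(L/K) :=
    { carrier := {i | tw Ψ0 i = Ψ0}
      one_mem' := by
        ext x
        rw [tw_apply, one_smul]
      mul_mem' := fun {a b} ha hb => by
        have ha' : tw Ψ0 a = Ψ0 := ha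
        have hb' : tw Ψ0 b = Ψ0 := hb
        change tw Ψ0 (a * b) = Ψ0
        rw [← tw_tw, ha', hb']
      inv_mem' := fun {a} ha => by
        have ha' : tw Ψ0 a = Ψ0 := ha
        change tw Ψ0 a⁻¹ = Ψ0
        conv_lhs => rw [← ha']
        rw [tw_tw, mul_inv_cancel]
        ext x
        rw [tw_apply, one_smul] }
  have hI : ∀ i, i ∈ I ↔ tw Ψ0 i = Ψ0 := fun i => Iff.rfl
  have hcardT : ∀ (q : Gal(L/K) → Prop) [DecidablePred q], (T.filter q).card =
      (Finset.univ.filter fun i : I => q ((i : Gal(L/K)) * t₁)).card := by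
    intro q _
    symm
    refine Finset.card_bij (fun i _ => (i : Gal(L/K)) * t₁) ?_ ?_ ?_
    · intro i hi
      rw [Finset.mem_filter] at hi ⊢
      refine ⟨(hT _).2 ?_, hi.2⟩
      rw [← tw_tw, (hI i).1 i.2, ← ht₁]
    · intro i _ j _ hij
      exact Subtype.ext (mul_right_cancel hij)
    · intro t ht
      rw [Finset.mem_filter] at ht
      have h1 := (hT t).1 ht.1
      refine ⟨⟨t * t₁⁻¹, ?_⟩, ?_, by simp⟩
      · rw [hI, ← tw_tw, h1, ht₁, tw_tw, mul_inv_cancel]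
        ext x
        rw [tw_apply, one_smul]
      · rw [Finset.mem_filter]
        refine ⟨Finset.mem_univ _, ?_⟩
        change q (t * t₁⁻¹ * t₁)
        rw [inv_mul_cancel_right]
        exact ht.2
  have hcT : T.card = Fintype.card I := by
    have h1 := hcardT (fun _ => True)
    simpa using h1
  refine ⟨T, ⟨t₁, ht₁'⟩, fun F => ?_⟩
  set ι := algebraMap (𝓞 F) (𝓞 L) with hι
  have hbelow : ι.comp (algebraMap (𝓞 K) (𝓞 F)) = algebraMap (𝓞 K) (𝓞 L) :=
    (IsScalarTower.algebraMap_eq (𝓞 K) (𝓞 F) (𝓞 L)).symm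
  -- restriction to `F`
  let rs : Gal(L/K) ⧸ F.fixingSubgroup → (𝓞 F →+* Ω) := fun c =>
    Quotient.liftOn' c (fun σ => (tw Ψ0 σ).comp ι) (by
      intro σ τ h
      rw [QuotientGroup.leftRel_apply] at h
      ext x
      have h1 := smul_fixed F h x
      change tw Ψ0 σ (ι x) = tw Ψ0 τ (ι x)
      rw [tw_apply, tw_apply]
      conv_lhs => rw [← h1, smul_smul, mul_inv_cancel_left])
  have hrs : ∀ σ : Gal(L/K), rs (σ : Gal(L/K) ⧸ F.fixingSubgroup) = (tw Ψ0 σ).comp ι :=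
    fun σ => rfl
  have hrsI : ∀ i ∈ I, ∀ c, rs (i • c) = rs c := by
    intro i hi c
    obtain ⟨σ, rfl⟩ := QuotientGroup.mk_surjective c
    change rs ((i * σ : Gal(L/K)) : Gal(L/K) ⧸ F.fixingSubgroup) = _
    rw [hrs, hrs, ← tw_tw, (hI i).1 hi]
  have hrsT : ∀ t ∈ T, ∀ c, rs (t • c) = Fr.comp (rs c) := by
    intro t ht c
    obtain ⟨σ, rfl⟩ := QuotientGroup.mk_surjective c
    change rs ((t * σ : Gal(L/K)) : Gal(L/K) ⧸ F.fixingSubgroup) = _
    rw [hrs, hrs, ← tw_tw, (hT t).1 ht]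
    rfl
  have hrsb : ∀ c c', rs c = rs c' → ∃ i ∈ I, i • c = c' := by
    intro c c' h
    obtain ⟨σ, rfl⟩ := QuotientGroup.mk_surjective c
    obtain ⟨τ, rfl⟩ := QuotientGroup.mk_surjective c'
    rw [hrs, hrs] at h
    obtain ⟨γ, hγ⟩ := unif_conj (F := F) hp hΩ h
    let η : Gal(L/K) := (F.fixingSubgroupEquiv.symm γ).1
    have hηH : η ∈ F.fixingSubgroup := (F.fixingSubgroupEquiv.symm γ).2
    have h1 : tw Ψ0 τ = tw Ψ0 (σ * η) := by
      rw [hγ, ← tw_tw]
      rfl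
    refine ⟨τ * (σ * η)⁻¹, ?_, ?_⟩
    · rw [hI, ← tw_tw, h1, tw_tw, mul_inv_cancel]
      ext x
      rw [tw_apply, one_smul]
    · change ((τ * (σ * η)⁻¹ * σ : Gal(L/K)) : Gal(L/K) ⧸ F.fixingSubgroup) = τ
      rw [QuotientGroup.eq]
      have e1 : (τ * (σ * η)⁻¹ * σ)⁻¹ * τ = η := by group
      rw [e1]
      exact hηH
  have hex : ∀ ψ : Over F φ, ∃ c, rs c = (algebraMap k Ω).comp ψ.1 := by
    intro ψ
    obtain ⟨Ψ, hΨ⟩ := exists_extend (F := F) (L := L) ((algebraMap k Ω).comp ψ.1)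
    have h1 : Ψ.comp (algebraMap (𝓞 K) (𝓞 L)) = φ' := by
      rw [← hbelow, ← RingHom.comp_assoc, hΨ, RingHom.comp_assoc, ψ.2]
    obtain ⟨σ, hσ⟩ := unif_conj (F := K) hp hΩ (hΨ0.trans h1.symm)
    exact ⟨σ, by rw [hrs, ← hσ]; exact hΨ⟩
  have hdesc : ∀ c, Fr.comp (rs c) = rs c → ∃ ψ : Over F φ, rs c = (algebraMap k Ω).comp ψ.1 := by
    intro c h1
    obtain ⟨σ, rfl⟩ := QuotientGroup.mk_surjective c
    rw [hrs] at h1 ⊢
    have h2 : ∀ x, (tw Ψ0 σ).comp ι x ∈ (algebraMap k Ω).range := by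
      intro x
      have h3 := RingHom.congr_fun h1 x
      exact (hfix _).1 h3
    let e : k ≃+* (algebraMap k Ω).range := RingEquiv.ofBijective (algebraMap k Ω).rangeRestrict
      ⟨fun a b hab => (algebraMap k Ω).injective (congrArg Subtype.val hab),
        (algebraMap k Ω).rangeRestrict_surjective⟩
    let ψ : 𝓞 F →+* k := e.symm.toRingHom.comp (((tw Ψ0 σ).comp ι).codRestrict _ h2)
    have h4 : (algebraMap k Ω).comp ψ = (tw Ψ0 σ).comp ι := by
      ext x
      have h5 : e (ψ x) = ⟨(tw Ψ0 σ).comp ι x, h2 x⟩ := e.apply_symm_apply _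
      exact congrArg Subtype.val h5
    have h6 : ψ.comp (algebraMap (𝓞 K) (𝓞 F)) = φ := by
      ext x
      apply (algebraMap k Ω).injective
      have h7 : (algebraMap k Ω).comp ψ (algebraMap (𝓞 K) (𝓞 F) x) =
          (tw Ψ0 σ) (ι (algebraMap (𝓞 K) (𝓞 F) x)) := by rw [h4]; rfl
      have h8 : ι (algebraMap (𝓞 K) (𝓞 F) x) = algebraMap (𝓞 K) (𝓞 L) x :=
        RingHom.congr_fun hbelow x
      rw [h8] at h7
      have h9 : tw Ψ0 σ (algebraMap (𝓞 K) (𝓞 L) x) = φ' x :=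
        RingHom.congr_fun ((tw_below Ψ0 σ).trans hΨ0) x
      exact h7.trans h9
    exact ⟨⟨ψ, h6⟩, h4.symm⟩
  -- the set of the homomorphisms is finite
  have hfinO : Finite (Over F φ) := by
    choose s hs using hex
    refine Finite.of_injective s fun ψ ψ' h => ?_
    have h1 : (algebraMap k Ω).comp ψ.1 = (algebraMap k Ω).comp ψ'.1 := by
      rw [← hs, ← hs, h]
    apply Subtype.ext
    ext x
    exact (algebraMap k Ω).injective (RingHom.congr_fun h1 x)
  let _ : Fintype (Over F φ) := Fintype.ofFinite _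
  let _ : Fintype (Gal(L/K) ⧸ F.fixingSubgroup) := Fintype.ofFinite _
  let A : Over F φ → Finset (Gal(L/K) ⧸ F.fixingSubgroup) := fun ψ =>
    Finset.univ.filter fun c => rs c = (algebraMap k Ω).comp ψ.1
  have hA : ∀ ψ c, c ∈ A ψ ↔ rs c = (algebraMap k Ω).comp ψ.1 := fun ψ c => by
    rw [Finset.mem_filter]
    exact ⟨fun h => h.2, fun h => ⟨Finset.mem_univ c, h⟩⟩
  have hFrψ : ∀ ψ : Over F φ, Fr.comp ((algebraMap k Ω).comp ψ.1) = (algebraMap k Ω).comp ψ.1 := by
    intro ψ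
    ext x
    exact (hfix _).2 ⟨ψ.1 x, rfl⟩
  have hsum : ∀ ψ : Over F φ,
      ∑ c ∈ A ψ, (T.filter fun t => t • c = c).card = T.card := by
    intro ψ
    obtain ⟨c, hc⟩ := hex ψ
    have h1 := coset_burnside I t₁ (A ψ) ⟨c, (hA ψ c).2 hc⟩
      (fun a ha b hb => hrsb a b (((hA ψ a).1 ha).trans ((hA ψ b).1 hb).symm))
      (fun i hi a ha => (hA ψ _).2 ((hrsI i hi a).trans ((hA ψ a).1 ha)))
      (fun a ha => (hA ψ _).2 (by rw [hrsT t₁ ht₁' a, (hA ψ a).1 ha, hFrψ]))
    rw [hcT, ← h1]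
    exact Finset.sum_congr rfl fun c _ => hcardT fun t => t • c = c
  -- double counting
  have h1 : ∀ t ∈ T, Nat.card {c : Gal(L/K) ⧸ F.fixingSubgroup // t • c = c} =
      ∑ ψ : Over F φ, ((A ψ).filter fun c => t • c = c).card := by
    intro t ht
    rw [Nat.card_eq_fintype_card, Fintype.card_subtype, ← Finset.card_biUnion]
    · congr 1
      ext c
      rw [Finset.mem_filter, Finset.mem_biUnion]
      constructor
      · rintro ⟨-, hc⟩
        obtain ⟨ψ, hψ⟩ := hdesc c (by rw [← hrsT t ht c, hc])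
        exact ⟨ψ, Finset.mem_univ ψ, Finset.mem_filter.2 ⟨(hA ψ c).2 hψ, hc⟩⟩
      · rintro ⟨ψ, -, hc⟩
        exact ⟨Finset.mem_univ c, (Finset.mem_filter.1 hc).2⟩
    · intro ψ _ ψ' _ hne
      rw [Function.onFun, Finset.disjoint_left]
      intro c hc hc'
      apply hne
      have h2 := ((hA ψ c).1 (Finset.mem_filter.1 hc).1).symm.trans
        ((hA ψ' c).1 (Finset.mem_filter.1 hc').1)
      apply Subtype.ext
      ext x
      exact (algebraMap k Ω).injective (RingHom.congr_fun h2 x)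
  rw [Finset.sum_congr rfl h1, Finset.sum_comm]
  have h2 : ∀ ψ : Over F φ, ∑ t ∈ T, ((A ψ).filter fun c => t • c = c).card = T.card := by
    intro ψ
    rw [← hsum ψ]
    simp only [Finset.card_filter]
    exact Finset.sum_comm
  rw [Finset.sum_congr rfl fun ψ _ => h2 ψ, Finset.sum_const, smul_eq_mul, Finset.card_univ,
    nh, Nat.card_eq_fintype_card, mul_comm]

/-- **The relation at all primes.** -/
theorem exact_count {K : Type} [Field K] [NumberField K] {ι : Type} [Fintype ι] {Z : ι → Ext K}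
    {e : ι → ℤ} {m : ℕ} (h : IsRel K Z e m) (k : Type) [Field k] [Finite k] (φ : 𝓞 K →+* k) :
    ∑ i, e i * (nh (Z i).F φ : ℤ) = m := by
  classical
  obtain ⟨L, _, _, _, _, hL⟩ := exists_common Z
  have f : ∀ i, (Z i).F →ₐ[K] L := fun i => (hL i).some
  have hrel := fx_of_isRel h f
  obtain ⟨T, hTne, hT⟩ := ram_count K L k φ
  have h1 : ∀ i, (T.card : ℤ) * (nh (Z i).F φ : ℤ) =
      ∑ t ∈ T, fx (f i).fieldRange.fixingSubgroup t := by
    intro i
    have h2 := hT (f i).fieldRange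
    have h3 : nh (f i).fieldRange φ = nh (Z i).F φ :=
      (Pool.Agent.R333.BR.nh_congr (AlgEquiv.ofInjectiveField (f i)) φ).symm
    rw [h3] at h2
    have h4 := congrArg (Nat.cast : ℕ → ℤ) h2
    push_cast at h4
    rw [h4]
    rfl
  have hT0 : (T.card : ℤ) ≠ 0 := by exact_mod_cast (Finset.card_pos.2 hTne).ne'
  apply mul_left_cancel₀ hT0
  rw [Finset.mul_sum]
  calc ∑ i, (T.card : ℤ) * (e i * (nh (Z i).F φ : ℤ))
      = ∑ i, ∑ t ∈ T, e i * fx (f i).fieldRange.fixingSubgroup t := by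
        refine Finset.sum_congr rfl fun i _ => ?_
        rw [← Finset.mul_sum, ← h1]
        ring
    _ = ∑ t ∈ T, ∑ i, e i * fx (f i).fieldRange.fixingSubgroup t := Finset.sum_comm
    _ = ∑ _t ∈ T, (m : ℤ) := Finset.sum_congr rfl fun t _ => hrel t
    _ = (T.card : ℤ) * m := by rw [Finset.sum_const, nsmul_eq_mul]

end Pool.Agent.N19.BR
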