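import Pool.Agent.N19.BR.Det
import Mathlib.Topology.Instances.Matrix
import Mathlib.Topology.Algebra.Order.Archimedean

/-! Determinants of invariant pairings between rational representations, in coordinates. -/

set_option autoImplicit false

namespace Pool.Agent.N19.BR

open Matrix
open Pool.Agent.R433.MD (fx)

/-- a rational matrix as a real matrix -/
noncomputable def rl {m n : Type} (A : Matrix m n ℚ) : Matrix m n ℝ := A.map (Rat.castHom ℝ)

section rl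
variable {l m n : Type} [Fintype m]

theorem rl_mul (A : Matrix l m ℚ) (B : Matrix m n ℚ) : rl (A * B) = rl A * rl B :=
  Matrix.map_mul (f := Rat.castHom ℝ)

omit [Fintype m] in
theorem rl_one [DecidableEq m] : rl (1 : Matrix m m ℚ) = 1 :=
  Matrix.map_one _ (map_zero _) (map_one _)

theorem rl_tr (A : Matrix l n ℚ) : rl Aᵀ = (rl A)ᵀ := rfl

theorem rl_det [DecidableEq m] (A : Matrix m m ℚ) : (rl A).det = ((A.det : ℚ) : ℝ) :=
  ((Rat.castHom ℝ).map_det A).symm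

theorem rl_add (A B : Matrix l n ℚ) : rl (A + B) = rl A + rl B := by
  ext i j
  simp [rl]

theorem rl_sum {ι : Type} (s : Finset ι) (f : ι → Matrix l n ℚ) :
    rl (∑ i ∈ s, f i) = ∑ i ∈ s, rl (f i) := by
  classical
  induction s using Finset.induction_on with
  | empty => ext i j; simp [rl]
  | insert i s his ih => rw [Finset.sum_insert his, Finset.sum_insert his, rl_add, ih]

theorem rl_smul (q : ℚ) (A : Matrix l n ℚ) : rl (q • A) = (q : ℝ) • rl A := by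
  ext i j
  simp [rl]

end rl

section
variable {G : Type} [Group G] [Fintype G] {a b : Type} [Fintype a] [DecidableEq a] [Fintype b]
  [DecidableEq b]

/-- real matrices of a rational representation -/
noncomputable def rr (ρ : G →* Matrix a a ℚ) : G →* Matrix a a ℝ :=
  ((Rat.castHom ℝ).mapMatrix : Matrix a a ℚ →+* Matrix a a ℝ).toMonoidHom.comp ρ

omit [Fintype G] in
theorem rr_apply (ρ : G →* Matrix a a ℚ) (g : G) : rr ρ g = rl (ρ g) := rfl

theorem pr_rr (ρ : G →* Matrix a a ℚ) (H : Subgroup G) : pr (rr ρ) H = rl (pr ρ H) := by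
  classical
  let _ : Fintype H := Fintype.ofFinite _
  unfold pr
  rw [finsum_eq_sum_of_fintype, finsum_eq_sum_of_fintype, rl_smul, rl_sum]
  congr 1
  push_cast
  rfl

/-- A basis of the invariants of `H`, in coordinates: the columns of `B` are the basis vectors, `D` gives the
coordinates of the projection to the invariants. -/
structure IsBas (ρ : G →* Matrix a a ℚ) (H : Subgroup G) {n : ℕ} (B : Matrix a (Fin n) ℚ)
    (D : Matrix (Fin n) a ℚ) : Prop where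
  one : D * B = 1
  pr : B * D = pr ρ H

variable {ρ : G →* Matrix a a ℚ} {τ : G →* Matrix b b ℚ} {β : Matrix a b ℝ}

omit [Fintype G] in
theorem inv_left (hβ : ∀ g, (rl (ρ g))ᵀ * β * rl (τ g) = β) (g : G) :
    βᵀ * rl (ρ g) = (rl (τ g⁻¹))ᵀ * βᵀ := by
  have h1 := congrArg transpose (hβ g)
  rw [transpose_mul, transpose_mul, transpose_transpose] at h1
  conv_rhs => rw [← h1]
  rw [← Matrix.mul_assoc, ← transpose_mul, ← rl_mul, ← map_mul, mul_inv_cancel, map_one, rl_one,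
    transpose_one, Matrix.one_mul]

/-- the projections and the pairing -/
theorem pr_left (hβ : ∀ g, (rl (ρ g))ᵀ * β * rl (τ g) = β) (H : Subgroup G) :
    βᵀ * rl (pr ρ H) = (rl (pr τ H))ᵀ * βᵀ := by
  classical
  let _ : Fintype H := Fintype.ofFinite _
  unfold pr
  rw [finsum_eq_sum_of_fintype, finsum_eq_sum_of_fintype, rl_smul, rl_smul, rl_sum, rl_sum,
    Matrix.mul_smul, transpose_smul, Matrix.smul_mul, Matrix.mul_sum, transpose_sum, Matrix.sum_mul]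
  congr 1
  rw [← Equiv.sum_comp (Equiv.inv H) (fun h : H => (rl (τ h))ᵀ * βᵀ)]
  refine Finset.sum_congr rfl fun h _ => ?_
  rw [inv_left hβ]
  rfl

/-- the map of the pairing on the invariants -/
theorem beta_B (hβ : ∀ g, (rl (ρ g))ᵀ * β * rl (τ g) = β) {H : Subgroup G} {n : ℕ}
    {B : Matrix a (Fin n) ℚ} {D : Matrix (Fin n) a ℚ} {C : Matrix b (Fin n) ℚ}
    {E : Matrix (Fin n) b ℚ} (hB : IsBas ρ H B D) (hC : IsBas τ H C E) :
    βᵀ * rl B = (rl E)ᵀ * ((rl B)ᵀ * β * rl C)ᵀ := by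
  have h1 : rl B = rl (pr ρ H) * rl B := by
    rw [← hB.pr, rl_mul, Matrix.mul_assoc, ← rl_mul D B, hB.one, rl_one, Matrix.mul_one]
  conv_lhs => rw [h1]
  rw [← Matrix.mul_assoc, pr_left hβ, ← hC.pr, rl_mul, transpose_mul, transpose_mul, transpose_mul,
    transpose_transpose]
  simp only [Matrix.mul_assoc]

/-- the determinant on the invariants -/
theorem det_inv (hβ : ∀ g, (rl (ρ g))ᵀ * β * rl (τ g) = β) {H : Subgroup G} {n : ℕ}
    {B : Matrix a (Fin n) ℚ} {D : Matrix (Fin n) a ℚ} {C : Matrix b (Fin n) ℚ}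
    {E : Matrix (Fin n) b ℚ} (hB : IsBas ρ H B D) (hC : IsBas τ H C E) (φ : Matrix a b ℚ) :
    (1 + (rl φ * βᵀ - 1) * pr (rr ρ) H).det =
      ((D * φ * Eᵀ).det : ℝ) * ((rl B)ᵀ * β * rl C).det := by
  rw [pr_rr, ← hB.pr, rl_mul, ← Matrix.mul_assoc, det_one_add_mul_comm, ← Matrix.mul_assoc, Matrix.mul_sub, Matrix.mul_one,
    Matrix.sub_mul, ← rl_mul D B, hB.one, rl_one, add_sub_cancel, Matrix.mul_assoc (rl D), Matrix.mul_assoc (rl φ),
    beta_B hβ hB hC, ← Matrix.mul_assoc, ← Matrix.mul_assoc, det_mul, ← rl_tr, ← rl_mul, ← rl_mul, rl_det,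
    det_transpose]

/-- the map of the pairing is injective -/
theorem beta_inj (hβ : ∀ g, (rl (ρ g))ᵀ * β * rl (τ g) = β) {ι : Type} [Fintype ι]
    {H : ι → Subgroup G} {n : ι → ℕ} {B : ∀ i, Matrix a (Fin (n i)) ℚ}
    {D : ∀ i, Matrix (Fin (n i)) a ℚ} {C : ∀ i, Matrix b (Fin (n i)) ℚ}
    {E : ∀ i, Matrix (Fin (n i)) b ℚ} (hB : ∀ i, IsBas ρ (H i) (B i) (D i))
    (hC : ∀ i, IsBas τ (H i) (C i) (E i))
    (hdet : ∀ i, ((rl (B i))ᵀ * β * rl (C i)).det ≠ 0)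
    {Y : ∀ i, G → Matrix (Fin (n i)) a ℚ} (hY : ∑ i, ∑ g, ρ g * B i * Y i g = 1)
    {x : a → ℝ} (hx : βᵀ *ᵥ x = 0) : x = 0 := by
  classical
  set Q : Matrix a a ℝ := ∑ g, (rl (ρ g))ᵀ * rl (ρ g) with hQ
  have hQc : ∀ g, (rl (ρ g))ᵀ * Q = Q * rl (ρ g⁻¹) := by
    intro g
    rw [hQ, Matrix.mul_sum, Matrix.sum_mul]
    rw [← Equiv.sum_comp (Equiv.mulRight g) (fun h => (rl (ρ h))ᵀ * rl (ρ h) * rl (ρ g⁻¹))]
    refine Finset.sum_congr rfl fun h _ => ?_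
    change (rl (ρ g))ᵀ * ((rl (ρ h))ᵀ * rl (ρ h)) = (rl (ρ (h * g)))ᵀ * rl (ρ (h * g)) * rl (ρ g⁻¹)
    rw [Matrix.mul_assoc ((rl (ρ (h * g)))ᵀ), ← rl_mul (ρ (h * g)), ← map_mul, mul_inv_cancel_right,
      map_mul, rl_mul, transpose_mul, Matrix.mul_assoc]
  have hQp : ∀ K : Subgroup G, (rl (pr ρ K))ᵀ * Q = Q * rl (pr ρ K) := by
    intro K
    let _ : Fintype K := Fintype.ofFinite _
    unfold pr
    rw [finsum_eq_sum_of_fintype, rl_smul, rl_sum, transpose_smul, transpose_sum, Matrix.smul_mul,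
      Matrix.mul_smul, Matrix.sum_mul, Matrix.mul_sum]
    congr 1
    rw [← Equiv.sum_comp (Equiv.inv K) (fun h : K => Q * rl (ρ h))]
    exact Finset.sum_congr rfl fun h _ => hQc h
  have h1 : ∀ i g, (rl (ρ g * B i))ᵀ *ᵥ (Q *ᵥ x) = 0 := by
    intro i g
    set y := rl (ρ g⁻¹) *ᵥ x with hy
    have hy1 : βᵀ *ᵥ y = 0 := by
      rw [hy, mulVec_mulVec, inv_left hβ, ← mulVec_mulVec, hx, mulVec_zero]
    have hy2 : βᵀ *ᵥ (rl (pr ρ (H i)) *ᵥ y) = 0 := by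
      rw [mulVec_mulVec, pr_left hβ, ← mulVec_mulVec, hy1, mulVec_zero]
    have hy3 : rl (D i) *ᵥ y = 0 := by
      rw [← (hB i).pr, rl_mul, ← mulVec_mulVec, mulVec_mulVec, beta_B hβ (hB i) (hC i)] at hy2
      have h2 := congrArg (fun z => (rl (C i))ᵀ *ᵥ z) hy2
      simp only [mulVec_zero] at h2
      rw [mulVec_mulVec, ← Matrix.mul_assoc, ← transpose_mul, ← rl_mul, (hC i).one, rl_one, transpose_one,
        Matrix.one_mul] at h2
      have hu : IsUnit (((rl (B i))ᵀ * β * rl (C i))ᵀ).det := by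
        rw [det_transpose]
        exact isUnit_iff_ne_zero.2 (hdet i)
      have h3 := congrArg (fun z => (((rl (B i))ᵀ * β * rl (C i))ᵀ)⁻¹ *ᵥ z) h2
      simp only [mulVec_zero] at h3
      rwa [mulVec_mulVec, Matrix.nonsing_inv_mul _ hu, one_mulVec] at h3
    have h4 : rl (pr ρ (H i)) *ᵥ y = 0 := by
      rw [← (hB i).pr, rl_mul, ← mulVec_mulVec, hy3, mulVec_zero]
    have h5 : rl (B i) = rl (pr ρ (H i)) * rl (B i) := by
      rw [← (hB i).pr, rl_mul, Matrix.mul_assoc, ← rl_mul (D i) (B i), (hB i).one, rl_one, Matrix.mul_one]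
    rw [rl_mul, transpose_mul, ← mulVec_mulVec, mulVec_mulVec x (rl (ρ g))ᵀ Q, hQc g,
      ← mulVec_mulVec, ← hy, h5, transpose_mul, ← mulVec_mulVec, mulVec_mulVec y _ Q, hQp,
      ← mulVec_mulVec, h4, mulVec_zero, mulVec_zero]
  have h2 : Q *ᵥ x = 0 := by
    have h3 : (1 : Matrix a a ℝ)ᵀ *ᵥ (Q *ᵥ x) = 0 := by
      rw [← rl_one, ← hY, rl_sum, transpose_sum, Matrix.sum_mulVec]
      refine Finset.sum_eq_zero fun i _ => ?_
      rw [rl_sum, transpose_sum, Matrix.sum_mulVec]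
      refine Finset.sum_eq_zero fun g _ => ?_
      rw [rl_mul, transpose_mul, ← mulVec_mulVec, h1 i g, mulVec_zero]
    rwa [transpose_one, one_mulVec] at h3
  have h3 : x ⬝ᵥ (Q *ᵥ x) = ∑ g, (rl (ρ g) *ᵥ x) ⬝ᵥ (rl (ρ g) *ᵥ x) := by
    rw [hQ, Matrix.sum_mulVec, dotProduct_sum]
    refine Finset.sum_congr rfl fun g _ => ?_
    rw [← mulVec_mulVec, dotProduct_mulVec, vecMul_transpose]
  rw [h2, dotProduct_zero] at h3
  have h4 := (Finset.sum_eq_zero_iff_of_nonneg fun g _ =>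
    (dotProduct_self_star_nonneg (rl (ρ g) *ᵥ x))).1 h3.symm 1 (Finset.mem_univ _)
  rw [map_one, rl_one, one_mulVec] at h4
  exact dotProduct_self_eq_zero.1 h4

/-- averages -/
noncomputable def av (ρ : G →* Matrix a a ℚ) (τ : G →* Matrix b b ℚ) (s : Matrix a b ℝ) :
    Matrix a b ℝ := (Nat.card G : ℝ)⁻¹ • ∑ g, rl (ρ g) * s * (rl (τ g))ᵀ

/-- a rational equivariant map -/
theorem exists_phi (hβ : ∀ g, (rl (ρ g))ᵀ * β * rl (τ g) = β) {ι : Type} [Fintype ι]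
    {H : ι → Subgroup G} {n : ι → ℕ} {B : ∀ i, Matrix a (Fin (n i)) ℚ}
    {D : ∀ i, Matrix (Fin (n i)) a ℚ} {C : ∀ i, Matrix b (Fin (n i)) ℚ}
    {E : ∀ i, Matrix (Fin (n i)) b ℚ} (hB : ∀ i, IsBas ρ (H i) (B i) (D i))
    (hC : ∀ i, IsBas τ (H i) (C i) (E i))
    (hdet : ∀ i, ((rl (B i))ᵀ * β * rl (C i)).det ≠ 0)
    {Y : ∀ i, G → Matrix (Fin (n i)) a ℚ} (hY : ∑ i, ∑ g, ρ g * B i * Y i g = 1) :
    ∃ φ : Matrix a b ℚ, (∀ g, φ * (τ g⁻¹)ᵀ = ρ g * φ) ∧ ∀ i, (D i * φ * (E i)ᵀ).det ≠ 0 := by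
  classical
  have hG : (Nat.card G : ℝ) ≠ 0 := by exact_mod_cast Nat.card_pos.ne'
  -- a left inverse
  obtain ⟨s, hs⟩ : ∃ s : Matrix a b ℝ, s * βᵀ = 1 := by
    have h1 : LinearMap.ker (Matrix.toLin' βᵀ) = ⊥ := by
      rw [LinearMap.ker_eq_bot']
      intro x hx
      rw [Matrix.toLin'_apply] at hx
      exact beta_inj hβ hB hC hdet hY hx
    obtain ⟨f, hf⟩ := LinearMap.exists_leftInverse_of_injective _ h1
    refine ⟨LinearMap.toMatrix' f, ?_⟩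
    have h2 := congrArg LinearMap.toMatrix' hf
    rw [LinearMap.toMatrix'_comp, LinearMap.toMatrix'_toLin', LinearMap.toMatrix'_id] at h2
    exact h2
  have hav : av ρ τ s * βᵀ = 1 := by
    unfold av
    rw [Matrix.smul_mul, Matrix.sum_mul]
    have h1 : ∀ g, rl (ρ g) * s * (rl (τ g))ᵀ * βᵀ = 1 := by
      intro g
      have h2 := inv_left hβ g⁻¹
      rw [inv_inv] at h2
      rw [Matrix.mul_assoc, ← h2, Matrix.mul_assoc, ← Matrix.mul_assoc s, hs, Matrix.one_mul, ← rl_mul, ← map_mul,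
        mul_inv_cancel, map_one, rl_one]
    rw [Finset.sum_congr rfl fun g _ => h1 g, Finset.sum_const, Finset.card_univ,
      ← Nat.card_eq_fintype_card, ← Nat.cast_smul_eq_nsmul ℝ, smul_smul, inv_mul_cancel₀ hG,
      one_smul]
  let F : Matrix a b ℝ → ℝ := fun s => ∏ i, (rl (D i) * av ρ τ s * (rl (E i))ᵀ).det
  have hF : Continuous F := by
    refine continuous_finsetProd _ fun i _ => Continuous.matrix_det ?_
    unfold av
    fun_prop
  have hFs : F s ≠ 0 := by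
    refine Finset.prod_ne_zero_iff.2 fun i _ h0 => ?_
    have h1 : (rl (D i) * av ρ τ s * (rl (E i))ᵀ) * ((rl (B i))ᵀ * β * rl (C i))ᵀ = 1 := by
      rw [Matrix.mul_assoc, ← beta_B hβ (hB i) (hC i), Matrix.mul_assoc, ← Matrix.mul_assoc (av ρ τ s), hav, Matrix.one_mul,
        ← rl_mul, (hB i).one, rl_one]
    have h2 := congrArg det h1
    rw [det_mul, h0, zero_mul, det_one] at h2
    exact zero_ne_one h2
  have hdense : DenseRange (fun A : Matrix a b ℚ => (rl A : Matrix a b ℝ)) := by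
    have h1 : DenseRange (Pi.map (fun _ : a => Pi.map (fun _ : b => ((↑) : ℚ → ℝ)))) :=
      DenseRange.piMap fun _ => DenseRange.piMap fun _ => Rat.denseRange_cast
    exact h1
  obtain ⟨ψ, hψ⟩ := hdense.exists_mem_open (hF.isOpen_preimage {0}ᶜ isOpen_compl_singleton)
    ⟨s, hFs⟩
  have hψ' : F (rl ψ) ≠ 0 := hψ
  refine ⟨(Nat.card G : ℚ)⁻¹ • ∑ g, ρ g * ψ * (τ g)ᵀ, fun g => ?_, fun i h0 => ?_⟩
  · rw [Matrix.smul_mul, Matrix.mul_smul, Matrix.sum_mul, Matrix.mul_sum]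
    congr 1
    rw [← Equiv.sum_comp (Equiv.mulLeft g) (fun h => ρ h * ψ * (τ h)ᵀ * (τ g⁻¹)ᵀ)]
    refine Finset.sum_congr rfl fun h _ => ?_
    change ρ (g * h) * ψ * (τ (g * h))ᵀ * (τ g⁻¹)ᵀ = _
    rw [Matrix.mul_assoc (ρ (g * h) * ψ), ← transpose_mul, ← map_mul, inv_mul_cancel_left, map_mul]
    simp only [Matrix.mul_assoc]
  · have h1 : (rl (D i) * av ρ τ (rl ψ) * (rl (E i))ᵀ).det = 0 := by
      have h2 : av ρ τ (rl ψ) = rl ((Nat.card G : ℚ)⁻¹ • ∑ g, ρ g * ψ * (τ g)ᵀ) := by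
        unfold av
        rw [rl_smul, rl_sum]
        push_cast
        congr 1
        refine Finset.sum_congr rfl fun g _ => ?_
        rw [rl_mul, rl_mul, rl_tr]
      rw [h2, ← rl_tr, ← rl_mul, ← rl_mul, rl_det, h0, Rat.cast_zero]
    exact hψ' (Finset.prod_eq_zero (Finset.mem_univ i) h1)

/-- **The relation for the determinants of a pairing, in coordinates.** -/
theorem pair_rel (hβ : ∀ g, (rl (ρ g))ᵀ * β * rl (τ g) = β) {ι : Type} [Fintype ι]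
    {H : ι → Subgroup G} {e : ι → ℤ} {m : ℕ} (hm : m ≠ 0)
    (h : ∀ g : G, ∑ i, e i * fx (H i) g = m)
    {n : ι → ℕ} {B : ∀ i, Matrix a (Fin (n i)) ℚ}
    {D : ∀ i, Matrix (Fin (n i)) a ℚ} {C : ∀ i, Matrix b (Fin (n i)) ℚ}
    {E : ∀ i, Matrix (Fin (n i)) b ℚ} (hB : ∀ i, IsBas ρ (H i) (B i) (D i))
    (hC : ∀ i, IsBas τ (H i) (C i) (E i))
    (hdet : ∀ i, ((rl (B i))ᵀ * β * rl (C i)).det ≠ 0)
    {Y : ∀ i, G → Matrix (Fin (n i)) a ℚ} (hY : ∑ i, ∑ g, ρ g * B i * Y i g = 1)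
    {n0 : ℕ} {B0 : Matrix a (Fin n0) ℚ} {D0 : Matrix (Fin n0) a ℚ} {C0 : Matrix b (Fin n0) ℚ}
    {E0 : Matrix (Fin n0) b ℚ} (hB0 : IsBas ρ ⊤ B0 D0) (hC0 : IsBas τ ⊤ C0 E0) :
    ((rl B0)ᵀ * β * rl C0).det ≠ 0 ∧ ∃ q : ℚ, q ≠ 0 ∧
      ((rl B0)ᵀ * β * rl C0).det ^ m = q * ∏ i, ((rl (B i))ᵀ * β * rl (C i)).det ^ e i := by
  classical
  obtain ⟨φ, hφ, hφi⟩ := exists_phi hβ hB hC hdet hY
  have hT : ∀ g, (rl φ * βᵀ - 1) * rr ρ g = rr ρ g * (rl φ * βᵀ - 1) := by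
    intro g
    rw [Matrix.sub_mul, Matrix.mul_sub, Matrix.one_mul, Matrix.mul_one, rr_apply, Matrix.mul_assoc, inv_left hβ, ← Matrix.mul_assoc,
      ← Matrix.mul_assoc, ← rl_tr, ← rl_mul, hφ, rl_mul]
  have h1 := det_rel (rr ρ) H e m h hT
  simp only [fun i => det_inv hβ (hB i) (hC i) φ, det_inv hβ hB0 hC0 φ] at h1
  set M : ι → ℝ := fun i => ((rl (B i))ᵀ * β * rl (C i)).det with hM
  set M0 : ℝ := ((rl B0)ᵀ * β * rl C0).det with hM0
  set N : ι → ℚ := fun i => (D i * φ * (E i)ᵀ).det with hN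
  set N0 : ℚ := (D0 * φ * E0ᵀ).det with hN0
  have h2 : ∏ i, ((N i : ℝ) * M i) ^ (e i).toNat =
      ((N0 : ℝ) * M0) ^ m * ∏ i, ((N i : ℝ) * M i) ^ (-e i).toNat := h1
  have hNM : ∀ i, (N i : ℝ) * M i ≠ 0 := fun i =>
    mul_ne_zero (by exact_mod_cast hφi i) (hdet i)
  have h3 : ((N0 : ℝ) * M0) ^ m = ∏ i, ((N i : ℝ) * M i) ^ e i := by
    have h4 : ∏ i, ((N i : ℝ) * M i) ^ e i =
        (∏ i, ((N i : ℝ) * M i) ^ (e i).toNat) / ∏ i, ((N i : ℝ) * M i) ^ (-e i).toNat := by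
      rw [← Finset.prod_div_distrib]
      refine Finset.prod_congr rfl fun i _ => ?_
      conv_lhs => rw [← Int.toNat_sub_toNat_neg (e i)]
      rw [zpow_sub₀ (hNM _), zpow_natCast, zpow_natCast]
    have h5 : ∏ i, ((N i : ℝ) * M i) ^ (-e i).toNat ≠ 0 :=
      Finset.prod_ne_zero_iff.2 fun i _ => pow_ne_zero _ (hNM _)
    rw [h4, h2]
    field_simp
  have h4 : ((N0 : ℝ) * M0) ^ m ≠ 0 := by
    rw [h3]
    exact Finset.prod_ne_zero_iff.2 fun i _ => zpow_ne_zero _ (hNM i)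
  have h5 : (N0 : ℝ) * M0 ≠ 0 := fun h0 => h4 (by rw [h0, zero_pow hm])
  have h6 : (N0 : ℝ) ≠ 0 := left_ne_zero_of_mul h5
  have h7 : N0 ≠ 0 := by exact_mod_cast h6
  refine ⟨right_ne_zero_of_mul h5, (∏ i, N i ^ e i) / N0 ^ m, ?_, ?_⟩
  · exact div_ne_zero (Finset.prod_ne_zero_iff.2 fun i _ => zpow_ne_zero _ (hφi i))
      (pow_ne_zero _ h7)
  · push_cast
    have h8 : ∏ i, ((N i : ℝ) * M i) ^ e i = (∏ i, (N i : ℝ) ^ e i) * ∏ i, M i ^ e i := by
      rw [← Finset.prod_mul_distrib]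
      exact Finset.prod_congr rfl fun i _ => mul_zpow _ _ _
    rw [mul_pow, h8] at h3
    have h9 : (N0 : ℝ) ^ m ≠ 0 := pow_ne_zero _ h6
    field_simp
    linear_combination h3

end

end Pool.Agent.N19.BR
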