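import Pool.Agent.N19.BR.Reg

/-! Determinants of invariant pairings between rational representations of a finite group. -/

set_option autoImplicit false

namespace Pool.Agent.N19.BR

open Matrix Module Representation
open Pool.Agent.R433.MD (fx)

section coord
variable {G : Type} [Group G] [Fintype G] {V : Type} [AddCommGroup V] [Module ℚ V]
  (ρ : Representation ℚ G V)

/-- the invariants of a subgroup -/
noncomputable abbrev iv (H : Subgroup G) : Submodule ℚ V := invariants (ρ.comp H.subtype)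

omit [Fintype G] in
theorem iv_mono {H H' : Subgroup G} (h : H ≤ H') : iv ρ H' ≤ iv ρ H := by
  intro x hx g
  exact hx ⟨g.1, h g.2⟩

/-- the sum of the translates -/
noncomputable def Phi {ι : Type} [Fintype ι] (H : ι → Subgroup G) :
    (∀ i : ι, G → iv ρ (H i)) →ₗ[ℚ] V where
  toFun u := ∑ i, ∑ g, ρ g (u i g : V)
  map_add' u u' := by
    simp only [Pi.add_apply, Submodule.coe_add, map_add, Finset.sum_add_distrib]
  map_smul' c u := by
    simp only [Pi.smul_apply, Submodule.coe_smul, map_smul, Finset.smul_sum, RingHom.id_apply]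

theorem Phi_stable {ι : Type} [Fintype ι] (H : ι → Subgroup G) (h : G) {x : V}
    (hx : x ∈ LinearMap.range (Phi ρ H)) : ρ h x ∈ LinearMap.range (Phi ρ H) := by
  obtain ⟨u, rfl⟩ := hx
  refine ⟨fun i g => u i (h⁻¹ * g), ?_⟩
  change ∑ i, ∑ g, ρ g (u i (h⁻¹ * g) : V) = ρ h (∑ i, ∑ g, ρ g (u i g : V))
  rw [map_sum]
  refine Finset.sum_congr rfl fun i _ => ?_
  rw [map_sum, ← Equiv.sum_comp (Equiv.mulLeft h) (fun g => ρ g (u i (h⁻¹ * g) : V))]
  refine Finset.sum_congr rfl fun g _ => ?_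
  change ρ (h * g) (u i (h⁻¹ * (h * g)) : V) = _
  rw [inv_mul_cancel_left, map_mul]
  rfl

theorem iv_le_Phi {ι : Type} [Fintype ι] (H : ι → Subgroup G) (i : ι) :
    iv ρ (H i) ≤ LinearMap.range (Phi ρ H) := by
  classical
  intro x hx
  refine ⟨Pi.single i (Pi.single 1 ⟨x, hx⟩), ?_⟩
  change ∑ j, ∑ g, ρ g (((Pi.single i (Pi.single 1 ⟨x, hx⟩) : ∀ i : ι, G → iv ρ (H i)) j g :
    iv ρ (H j)) : V) = x
  rw [Finset.sum_eq_single i, Finset.sum_eq_single 1]
  · rw [Pi.single_eq_same, Pi.single_eq_same, map_one]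
    rfl
  · intro g _ hg
    rw [Pi.single_eq_same, Pi.single_eq_of_ne hg, Submodule.coe_zero, map_zero]
  · intro h1
    exact absurd (Finset.mem_univ _) h1
  · intro j _ hj
    refine Finset.sum_eq_zero fun g _ => ?_
    rw [Pi.single_eq_of_ne hj, Pi.zero_apply, Submodule.coe_zero, map_zero]
  · intro h1
    exact absurd (Finset.mem_univ _) h1

/-- coordinates -/
theorem exists_coord {ι : Type} [Fintype ι] [Nonempty ι] (X : Option ι → Subgroup G)
    (hX : ∀ i, X (some i) ≤ X none) (n : Option ι → ℕ)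
    (v : ∀ i, Basis (Fin (n i)) ℚ (iv ρ (X i))) :
    ∃ (a : ℕ) (x : Fin a → V) (ρm : G →* Matrix (Fin a) (Fin a) ℚ)
      (B : ∀ i, Matrix (Fin a) (Fin (n i)) ℚ) (D : ∀ i, Matrix (Fin (n i)) (Fin a) ℚ)
      (Y : ∀ i : ι, G → Matrix (Fin (n (some i))) (Fin a) ℚ),
      (∀ g k, ρ g (x k) = ∑ l, ρm g l k • x l) ∧ (∀ i j, (v i j : V) = ∑ k, B i k j • x k) ∧
      (∀ i, IsBas ρm (X i) (B i) (D i)) ∧ ∑ i, ∑ g, ρm g * B (some i) * Y i g = 1 := by
  classical
  have hfd : ∀ i, FiniteDimensional ℚ (iv ρ (X i)) := fun i => Module.Finite.of_basis (v i)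
  set U := LinearMap.range (Phi ρ fun i => X (some i)) with hU
  have hUfd : FiniteDimensional ℚ U := inferInstance
  let b : Basis (Fin (finrank ℚ U)) ℚ U := Module.finBasis ℚ U
  let ρU : G → U →ₗ[ℚ] U := fun g => (ρ g).restrict fun x hx => Phi_stable ρ _ g hx
  have hρU : ∀ (g : G) (x : U), ((ρU g x : U) : V) = ρ g x := fun g x => rfl
  let ρm : G →* Matrix (Fin (finrank ℚ U)) (Fin (finrank ℚ U)) ℚ :=
    { toFun := fun g => LinearMap.toMatrix b b (ρU g)
      map_one' := by
        have h1 : ρU 1 = LinearMap.id := by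
          ext x
          rw [hρU, map_one]
          rfl
        rw [h1, LinearMap.toMatrix_id]
      map_mul' := fun g h => by
        have h1 : ρU (g * h) = (ρU g) ∘ₗ (ρU h) := by
          ext x
          rw [LinearMap.comp_apply, hρU, hρU, hρU, map_mul]
          rfl
        rw [h1, LinearMap.toMatrix_comp b b b] }
  have hρm : ∀ g, ρm g = LinearMap.toMatrix b b (ρU g) := fun g => rfl
  have hle : ∀ i, iv ρ (X i) ≤ U := by
    rintro (_ | i)
    · obtain ⟨i⟩ := ‹Nonempty ι›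
      exact (iv_mono ρ (hX i)).trans (iv_le_Phi ρ (fun i => X (some i)) i)
    · exact iv_le_Phi ρ (fun i => X (some i)) i
  let J : ∀ i, iv ρ (X i) →ₗ[ℚ] U := fun i => Submodule.inclusion (hle i)
  -- the projections
  have hcard : ∀ i, (Nat.card (X i) : ℚ) ≠ 0 := fun i => by exact_mod_cast Nat.card_pos.ne'
  let _ : ∀ i, Fintype (X i) := fun i => Fintype.ofFinite _
  have hav : ∀ i (x : V), (Nat.card (X i) : ℚ)⁻¹ • ∑ h : X i, ρ h x ∈ iv ρ (X i) := by
    intro i x g
    change ρ (g : G) ((Nat.card (X i) : ℚ)⁻¹ • ∑ h : X i, ρ h x) = _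
    rw [map_smul, map_sum, ← Equiv.sum_comp (Equiv.mulLeft g) (fun h : X i => ρ (h : G) x)]
    congr 1
    refine Finset.sum_congr rfl fun h _ => ?_
    change _ = ρ ((g * h : X i) : G) x
    rw [Subgroup.coe_mul, map_mul]
    rfl
  let Av : ∀ i, U →ₗ[ℚ] iv ρ (X i) := fun i =>
    { toFun := fun x => ⟨(Nat.card (X i) : ℚ)⁻¹ • ∑ h : X i, ρ h (x : V), hav i x⟩
      map_add' := fun x y => Subtype.ext (by
        simp only [Submodule.coe_add, map_add, Finset.sum_add_distrib, smul_add])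
      map_smul' := fun c x => Subtype.ext (by
        simp only [Submodule.coe_smul, map_smul, ← Finset.smul_sum, RingHom.id_apply]
        rw [smul_comm]) }
  have hAvJ : ∀ i, (Av i) ∘ₗ (J i) = LinearMap.id := by
    intro i
    ext x
    change (Nat.card (X i) : ℚ)⁻¹ • ∑ h : X i, ρ h (x : V) = (x : V)
    have h1 : ∀ h : X i, ρ h (x : V) = (x : V) := fun h => x.2 h
    rw [Finset.sum_congr rfl fun h _ => h1 h, Finset.sum_const, Finset.card_univ,
      ← Nat.card_eq_fintype_card, ← Nat.cast_smul_eq_nsmul ℚ, smul_smul,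
      inv_mul_cancel₀ (hcard i), one_smul]
  have hJAv : ∀ i, (J i) ∘ₗ (Av i) = (Nat.card (X i) : ℚ)⁻¹ • ∑ h : X i, ρU h := by
    intro i
    apply LinearMap.ext
    intro x
    apply Subtype.ext
    change (Nat.card (X i) : ℚ)⁻¹ • ∑ h : X i, ρ h (x : V) =
      (((Nat.card (X i) : ℚ)⁻¹ • (∑ h : X i, ρU h) x : U) : V)
    rw [Submodule.coe_smul, LinearMap.sum_apply]
    congr 1
    rw [AddSubmonoidClass.coe_finsetSum]
    rfl
  -- a section
  obtain ⟨s, hs⟩ := (Phi ρ fun i => X (some i)).rangeRestrict.exists_rightInverse_of_surjective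
    (LinearMap.range_rangeRestrict _)
  refine ⟨finrank ℚ U, fun k => (b k : V), ρm, fun i => LinearMap.toMatrix (v i) b (J i),
    fun i => LinearMap.toMatrix b (v i) (Av i),
    fun i g => LinearMap.toMatrix b (v (some i))
      ((LinearMap.proj g : (G → iv ρ (X (some i))) →ₗ[ℚ] iv ρ (X (some i))) ∘ₗ
        (LinearMap.proj i : (∀ i : ι, G → iv ρ (X (some i))) →ₗ[ℚ] (G → iv ρ (X (some i)))) ∘ₗ s),
    ?_, ?_, ?_, ?_⟩
  · intro g k
    have h1 := b.sum_repr (ρU g (b k))
    have h2 := congrArg Subtype.val h1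
    rw [hρU] at h2
    rw [← h2, AddSubmonoidClass.coe_finsetSum]
    refine Finset.sum_congr rfl fun l _ => ?_
    rw [Submodule.coe_smul, hρm, LinearMap.toMatrix_apply]
  · intro i j
    have h1 := b.sum_repr (J i (v i j))
    have h2 := congrArg Subtype.val h1
    have h3 : ((J i (v i j) : U) : V) = (v i j : V) := rfl
    rw [h3] at h2
    rw [← h2, AddSubmonoidClass.coe_finsetSum]
    refine Finset.sum_congr rfl fun l _ => ?_
    rw [Submodule.coe_smul]
    exact congrArg (fun q : ℚ => q • (b l : V)) (LinearMap.toMatrix_apply (v i) b (J i) l j).symm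
  · intro i
    constructor
    · rw [← LinearMap.toMatrix_comp (v i) b (v i), hAvJ, LinearMap.toMatrix_id]
    · rw [← LinearMap.toMatrix_comp b (v i) b, hJAv]
      unfold pr
      rw [finsum_eq_sum_of_fintype, map_smul, map_sum]
      rfl
  · have h1 : ∀ (i : ι) (g : G), ρm g * LinearMap.toMatrix (v (some i)) b (J (some i)) *
        LinearMap.toMatrix b (v (some i))
          ((LinearMap.proj g : (G → iv ρ (X (some i))) →ₗ[ℚ] iv ρ (X (some i))) ∘ₗ
          (LinearMap.proj i : (∀ i : ι, G → iv ρ (X (some i))) →ₗ[ℚ] (G → iv ρ (X (some i)))) ∘ₗ s) =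
        LinearMap.toMatrix b b ((ρU g ∘ₗ J (some i)) ∘ₗ
          ((LinearMap.proj g : (G → iv ρ (X (some i))) →ₗ[ℚ] iv ρ (X (some i))) ∘ₗ
          (LinearMap.proj i : (∀ i : ι, G → iv ρ (X (some i))) →ₗ[ℚ] (G → iv ρ (X (some i)))) ∘ₗ s)) := by
      intro i g
      rw [hρm, ← LinearMap.toMatrix_comp (v (some i)) b b, ← LinearMap.toMatrix_comp b (v (some i)) b]
    rw [Finset.sum_congr rfl fun i _ => Finset.sum_congr rfl fun g _ => h1 i g]
    simp only [← map_sum]
    rw [← LinearMap.toMatrix_id b]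
    congr 1
    apply LinearMap.ext
    intro x
    apply Subtype.ext
    have h2 := congrArg (fun f => ((f x : U) : V)) hs
    change (∑ i, ∑ g, ρ g ((s x) i g : V)) = (x : V) at h2
    rw [LinearMap.sum_apply, AddSubmonoidClass.coe_finsetSum]
    refine Eq.trans ?_ h2
    refine Finset.sum_congr rfl fun i _ => ?_
    rw [LinearMap.sum_apply, AddSubmonoidClass.coe_finsetSum]
    rfl

end coord

section pairing
variable {G : Type} [Group G] [Fintype G] {V W : Type} [AddCommGroup V] [Module ℚ V]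
  [AddCommGroup W] [Module ℚ W] {ρ : Representation ℚ G V} {τ : Representation ℚ G W}
  {β : V →ₗ[ℚ] W →ₗ[ℚ] ℝ}

/-- the Gram matrix in coordinates -/
theorem gram_eq {a b n n' : ℕ} {x : Fin a → V} {y : Fin b → W} (B : Matrix (Fin a) (Fin n) ℚ)
    (C : Matrix (Fin b) (Fin n') ℚ) {v : Fin n → V} {w : Fin n' → W}
    (hv : ∀ j, v j = ∑ k, B k j • x k) (hw : ∀ j, w j = ∑ k, C k j • y k) :
    (Matrix.of fun j l => β (v j) (w l)) =
      (rl B)ᵀ * (Matrix.of fun k l => β (x k) (y l)) * rl C := by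
  ext j l
  rw [Matrix.mul_apply]
  simp only [Matrix.mul_apply, Matrix.of_apply, Matrix.transpose_apply, rl, Matrix.map_apply]
  rw [hv, hw]
  simp only [map_sum, map_smul, LinearMap.sum_apply, LinearMap.smul_apply, Finset.sum_mul]
  refine Finset.sum_congr rfl fun k _ => ?_
  rw [Finset.smul_sum]
  refine Finset.sum_congr rfl fun k' _ => ?_
  rw [Rat.smul_def, Rat.smul_def]
  change _ = ((B k' j : ℚ) : ℝ) * _ * ((C k l : ℚ) : ℝ)
  ring

/-- **The relation for the determinants of an invariant pairing.** -/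
theorem pair_abs (hβ : ∀ g v w, β (ρ g v) (τ g w) = β v w) {ι : Type} [Fintype ι] [Nonempty ι]
    {H : ι → Subgroup G} {e : ι → ℤ} {m : ℕ} (hm : m ≠ 0)
    (h : ∀ g : G, ∑ i, e i * fx (H i) g = m) {n : ι → ℕ}
    (v : ∀ i, Basis (Fin (n i)) ℚ (iv ρ (H i))) (w : ∀ i, Basis (Fin (n i)) ℚ (iv τ (H i)))
    (hdet : ∀ i, (Matrix.of fun j l => β (v i j : V) (w i l : W)).det ≠ 0) {n0 : ℕ}
    (v0 : Basis (Fin n0) ℚ (iv ρ ⊤)) (w0 : Basis (Fin n0) ℚ (iv τ ⊤)) :
    (Matrix.of fun j l => β (v0 j : V) (w0 l : W)).det ≠ 0 ∧ ∃ q : ℚ, q ≠ 0 ∧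
      (Matrix.of fun j l => β (v0 j : V) (w0 l : W)).det ^ m =
        q * ∏ i, (Matrix.of fun j l => β (v i j : V) (w i l : W)).det ^ e i := by
  classical
  let X : Option ι → Subgroup G := fun i => i.elim ⊤ H
  let n' : Option ι → ℕ := fun i => i.elim n0 n
  let v' : ∀ i, Basis (Fin (n' i)) ℚ (iv ρ (X i)) := fun i =>
    match i with
    | none => v0
    | some i => v i
  let w' : ∀ i, Basis (Fin (n' i)) ℚ (iv τ (X i)) := fun i =>
    match i with
    | none => w0
    | some i => w i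
  obtain ⟨a, x, ρm, B, D, Y, h1, h2, h3, h4⟩ := exists_coord ρ X (fun i => le_top) n' v'
  obtain ⟨b, y, τm, C, E, -, k1, k2, k3, -⟩ := exists_coord τ X (fun i => le_top) n' w'
  let βm : Matrix (Fin a) (Fin b) ℝ := Matrix.of fun k l => β (x k) (y l)
  have hβm : ∀ g, (rl (ρm g))ᵀ * βm * rl (τm g) = βm := by
    intro g
    rw [← gram_eq (ρm g) (τm g) (x := x) (y := y) (v := fun k => ρ g (x k))
      (w := fun k => τ g (y k)) (h1 g) (k1 g)]
    ext k l
    exact hβ g _ _
  have hg : ∀ i, (Matrix.of fun j l => β (v' i j : V) (w' i l : W)) =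
      (rl (B i))ᵀ * βm * rl (C i) := fun i =>
    gram_eq (B i) (C i) (h2 i) (k2 i)
  have hg' : ∀ i, (Matrix.of fun j l => β (v i j : V) (w i l : W)).det =
      ((rl (B (some i)))ᵀ * βm * rl (C (some i))).det := fun i => congrArg Matrix.det (hg (some i))
  have hg0 : (Matrix.of fun j l => β (v0 j : V) (w0 l : W)).det =
      ((rl (B none))ᵀ * βm * rl (C none)).det := congrArg Matrix.det (hg none)
  have h5 := pair_rel hβm hm h (n := n) (B := fun i => B (some i)) (D := fun i => D (some i))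
    (C := fun i => C (some i)) (E := fun i => E (some i)) (fun i => h3 (some i))
    (fun i => k3 (some i)) (fun i => fun h0 => hdet i ((hg' i).trans h0)) h4 (h3 none) (k3 none)
  rw [hg0, Finset.prod_congr rfl fun i _ => congrArg (· ^ e i) (hg' i)]
  exact h5

end pairing

end Pool.Agent.N19.BR
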