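import Pool.Agent.R433.MD.GalRel

/-! Relations between the permutation characters of finite extensions of a number field. -/

set_option autoImplicit false

namespace Pool.Agent.N19.BR

open Pool.Agent.R433.MD

/-- The number of the embeddings of `F` in `Ω` over `K` that are fixed by `σ`. -/
noncomputable def cnt {K : Type} [Field K] (F : Type) [Field F] [Algebra K F] {Ω : Type} [Field Ω]
    [Algebra K Ω] (σ : Ω ≃ₐ[K] Ω) : ℕ :=
  Nat.card {τ : F →ₐ[K] Ω // ∀ x, σ (τ x) = τ x}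

/-- The relation `∑ e_i [Z_i] = m [K]` between permutation characters. -/
def IsRel (K : Type) [Field K] [NumberField K] {ι : Type} [Fintype ι] (Z : ι → Ext K) (e : ι → ℤ)
    (m : ℕ) : Prop :=
  ∀ (Ω : Type) [Field Ω] [Algebra K Ω] [IsAlgClosed Ω] (σ : Ω ≃ₐ[K] Ω),
    ∑ i, e i * (cnt (Z i).F σ : ℤ) = m

section
variable {K : Type} [Field K] [NumberField K]

/-- the number of the fixed embeddings of `Y` that extend the embedding `τ` of `Z` -/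
noncomputable def cntOver (Z : Ext K) (Y : Ext Z.F) {Ω : Type} [Field Ω] [Algebra K Ω]
    (σ : Ω ≃ₐ[K] Ω) (τ : Z.F →ₐ[K] Ω) : ℕ :=
  Nat.card {ρ : Y.F →+* Ω // (∀ z : Z.F, ρ (algebraMap Z.F Y.F z) = τ z) ∧ ∀ x, σ (ρ x) = ρ x}

theorem cntOver_eq (Z : Ext K) (Y : Ext Z.F) {Ω : Type} [Field Ω] [Algebra K Ω]
    (σ : Ω ≃ₐ[K] Ω) (τ : Z.F →ₐ[K] Ω) (hτ : ∀ x, σ (τ x) = τ x) :
    cntOver Z Y σ τ =
      (letI : Algebra Z.F Ω := τ.toRingHom.toAlgebra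
       cnt Y.F (Ω := Ω) (AlgEquiv.ofRingEquiv (f := σ.toRingEquiv) (fun z => hτ z) :
         Ω ≃ₐ[Z.F] Ω)) := by
  let _ : Algebra Z.F Ω := τ.toRingHom.toAlgebra
  refine Nat.card_congr
    { toFun := fun ρ => ⟨{ ρ.1 with commutes' := fun z => ρ.2.1 z }, fun x => ρ.2.2 x⟩
      invFun := fun ρ => ⟨ρ.1.toRingHom, fun z => ρ.1.commutes z, fun x => ρ.2 x⟩
      left_inv := fun ρ => ?_
      right_inv := fun ρ => ?_ }
  · apply Subtype.ext
    ext x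
    rfl
  · apply Subtype.ext
    ext x
    rfl

/-- an extension of `τ` is an embedding over `K` -/
noncomputable def glue (Z : Ext K) (Y : Ext Z.F) {Ω : Type} [Field Ω] [Algebra K Ω]
    (τ : Z.F →ₐ[K] Ω) (ρ : Y.F →+* Ω) (h : ∀ z : Z.F, ρ (algebraMap Z.F Y.F z) = τ z) :
    (Z.restrict Y).F →ₐ[K] Ω :=
  { ρ with
    commutes' := fun z => by
      have h1 := h (algebraMap K Z.F z)
      rw [τ.commutes] at h1
      exact h1 }

theorem cnt_restrict (Z : Ext K) (Y : Ext Z.F) {Ω : Type} [Field Ω] [Algebra K Ω]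
    (σ : Ω ≃ₐ[K] Ω) [Fintype {τ : Z.F →ₐ[K] Ω // ∀ x, σ (τ x) = τ x}] :
    cnt (Z.restrict Y).F σ =
      ∑ τ : {τ : Z.F →ₐ[K] Ω // ∀ x, σ (τ x) = τ x}, cntOver Z Y σ τ.1 := by
  let _ : Algebra K Y.F := ((algebraMap Z.F Y.F).comp (algebraMap K Z.F)).toAlgebra
  have _ : IsScalarTower K Z.F Y.F := IsScalarTower.of_algebraMap_eq' rfl
  have hfin : ∀ τ : {τ : Z.F →ₐ[K] Ω // ∀ x, σ (τ x) = τ x}, Finite
      {ρ : Y.F →+* Ω // (∀ z : Z.F, ρ (algebraMap Z.F Y.F z) = τ.1 z) ∧ ∀ x, σ (ρ x) = ρ x} := by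
    intro τ
    let _ : Algebra Z.F Ω := τ.1.toRingHom.toAlgebra
    have h1 : Finite (Y.F →ₐ[Z.F] Ω) := inferInstance
    refine Finite.of_injective (fun ρ => ({ ρ.1 with commutes' := fun z => ρ.2.1 z } :
      Y.F →ₐ[Z.F] Ω)) ?_
    intro ρ ρ' h
    apply Subtype.ext
    ext x
    exact DFunLike.congr_fun h x
  let r : ((Z.restrict Y).F →ₐ[K] Ω) → (Z.F →ₐ[K] Ω) := fun ρ =>
    AlgHom.comp (A := Z.F) (B := Y.F) ρ (IsScalarTower.toAlgHom K Z.F Y.F)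
  let f : {ρ : (Z.restrict Y).F →ₐ[K] Ω // ∀ x, σ (ρ x) = ρ x} →
      {τ : Z.F →ₐ[K] Ω // ∀ x, σ (τ x) = τ x} := fun ρ => ⟨r ρ.1, fun x => ρ.2 _⟩
  have h0 : cnt (Z.restrict Y).F σ = Nat.card (Σ τ : {τ : Z.F →ₐ[K] Ω // ∀ x, σ (τ x) = τ x},
      {ρ : Y.F →+* Ω // (∀ z : Z.F, ρ (algebraMap Z.F Y.F z) = τ.1 z) ∧ ∀ x, σ (ρ x) = ρ x}) := by
    refine Nat.card_congr ((Equiv.sigmaFiberEquiv f).symm.trans (Equiv.sigmaCongrRight fun τ => ?_))
    refine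
      { toFun := fun ρ => ⟨ρ.1.1.toRingHom, fun z => ?_, fun x => ρ.1.2 x⟩
        invFun := fun ρ => ⟨⟨glue Z Y τ.1 ρ.1 ρ.2.1, fun x => ρ.2.2 x⟩, ?_⟩
        left_inv := fun ρ => ?_
        right_inv := fun ρ => ?_ }
    · exact DFunLike.congr_fun (congrArg Subtype.val ρ.2) z
    · apply Subtype.ext
      ext z
      exact ρ.2.1 z
    · apply Subtype.ext
      apply Subtype.ext
      ext x
      rfl
    · apply Subtype.ext
      ext x
      rfl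
  rw [h0, Nat.card_sigma]
  rfl

end

/-- **Composition of relations.** -/
theorem IsRel.comp {K : Type} [Field K] [NumberField K] {ι : Type} [Fintype ι] {Z : ι → Ext K}
    {e : ι → ℤ} {m : ℕ} (h : IsRel K Z e m) {κ : ι → Type} [∀ i, Fintype (κ i)]
    (Y : ∀ i, κ i → Ext (Z i).F) (d : ∀ i, κ i → ℤ) (k : ι → ℕ)
    (hY : ∀ i, IsRel (Z i).F (Y i) (d i) (k i)) :
    IsRel K (fun q : Σ i, κ i => (Z q.1).restrict (Y q.1 q.2))
      (fun q => e q.1 * ((∏ j, k j) / k q.1 : ℕ) * d q.1 q.2) (m * ∏ j, k j) := by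
  classical
  intro Ω _ _ _ σ
  have hdvd : ∀ i, k i ∣ ∏ j, k j := fun i => Finset.dvd_prod_of_mem _ (Finset.mem_univ i)
  have h1 : ∀ i, ∑ j : κ i, d i j * (cnt ((Z i).restrict (Y i j)).F σ : ℤ) =
      k i * (cnt (Z i).F σ : ℤ) := by
    intro i
    have hfin : Finite {τ : (Z i).F →ₐ[K] Ω // ∀ x, σ (τ x) = τ x} := by
      have : Finite ((Z i).F →ₐ[K] Ω) := inferInstance
      exact inferInstance
    let _ : Fintype {τ : (Z i).F →ₐ[K] Ω // ∀ x, σ (τ x) = τ x} := Fintype.ofFinite _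
    have h2 : ∀ τ : {τ : (Z i).F →ₐ[K] Ω // ∀ x, σ (τ x) = τ x},
        ∑ j : κ i, d i j * (cntOver (Z i) (Y i j) σ τ.1 : ℤ) = k i := by
      intro τ
      let _ : Algebra (Z i).F Ω := τ.1.toRingHom.toAlgebra
      have h3 := hY i Ω (AlgEquiv.ofRingEquiv (f := σ.toRingEquiv) (fun z => τ.2 z) :
         Ω ≃ₐ[(Z i).F] Ω)
      rw [← h3]
      refine Finset.sum_congr rfl fun j _ => ?_
      rw [cntOver_eq (Z i) (Y i j) σ τ.1 τ.2]
    simp only [cnt_restrict]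
    push_cast
    simp only [Finset.mul_sum]
    rw [Finset.sum_comm, Finset.sum_congr rfl fun τ _ => h2 τ, Finset.sum_const, Finset.card_univ,
      nsmul_eq_mul, cnt, Nat.card_eq_fintype_card, mul_comm]
  rw [Fintype.sum_sigma]
  have h4 : ∀ i, ∑ j : κ i, e i * (((∏ j, k j) / k i : ℕ) : ℤ) * d i j *
      (cnt ((Z i).restrict (Y i j)).F σ : ℤ) = (∏ j, k j : ℕ) * (e i * (cnt (Z i).F σ : ℤ)) := by
    intro i
    have h5 : (((∏ j, k j) / k i : ℕ) : ℤ) * (k i : ℤ) = ((∏ j, k j : ℕ) : ℤ) := by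
      exact_mod_cast Nat.div_mul_cancel (hdvd i)
    simp only [mul_assoc]
    rw [← Finset.mul_sum, ← Finset.mul_sum, h1, ← h5]
    ring
  rw [Finset.sum_congr rfl fun i _ => h4 i, ← Finset.mul_sum, h Ω σ]
  push_cast
  ring

/-- the trivial relation -/
theorem IsRel.self (K : Type) [Field K] [NumberField K] :
    IsRel K (fun _ : Unit => Ext.self K) (fun _ => 1) 1 := by
  intro Ω _ _ _ σ
  have h1 : cnt (Ext.self K).F σ = 1 := by
    change Nat.card {τ : K →ₐ[K] Ω // ∀ x, σ (τ x) = τ x} = 1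
    rw [Nat.card_eq_one_iff_exists]
    refine ⟨⟨Algebra.ofId K Ω, fun x => σ.commutes x⟩, fun τ => Subtype.ext ?_⟩
    exact Subsingleton.elim _ _
  rw [Fintype.sum_unique, h1]
  rfl

end Pool.Agent.N19.BR
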