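import Pool.Agent.N19.BR.FDefs
import Pool.Agent.N19.BR.BSD
import Pool.Agent.N19.BR.Disc
import Pool.Agent.N19.BR.Arch

/-! Semistable elliptic curves and relations. -/

set_option autoImplicit false

namespace Pool.Agent.N19.BR

open NumberField IsDedekindDomain
open Pool.Agent.R433.MD
open Pool.Agent.H341R2.EC (IsModel IsMinAt red aff trc dlt)
open Pool.Agent.H921R2.TatePole (nm two_le_nm)
open Pool.Agent.N19.BR.Def
open Pool.Agent.N19.BR.FDef
open scoped Classical

section local_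

variable {F : Type} [Field F] [NumberField F]

/-- semistable models are minimal -/
theorem ss_min {E : WeierstrassCurve F} {w : HeightOneSpectrum (𝓞 F)} {W : WeierstrassCurve (𝓞 F)}
    (hW : IsModel E W) (h : W.Δ ∉ w.asIdeal ∨ W.c₄ ∉ w.asIdeal) : IsMinAt E w W := by
  refine ⟨hW, fun W' hW' n hn => ?_⟩
  rcases h with h | h
  · rcases Nat.eq_zero_or_pos n with h0 | h0
    · rw [h0, pow_zero, Ideal.one_eq_top]
      trivial
    · exact absurd (Ideal.pow_le_self h0.ne' hn) h
  · obtain ⟨C, hC⟩ := hW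
    obtain ⟨C', hC'⟩ := hW'
    have h1 : (C' * C⁻¹) • W.map (algebraMap (𝓞 F) F) = W'.map (algebraMap (𝓞 F) F) := by
      rw [← hC', ← hC, smul_smul, mul_assoc, inv_mul_cancel, mul_one]
    set D := C' * C⁻¹ with hD
    set u : F := ((D.u⁻¹ : Fˣ) : F) with hu
    have hΔ : u ^ 12 * algebraMap (𝓞 F) F W.Δ = algebraMap (𝓞 F) F W'.Δ := by
      have := congrArg WeierstrassCurve.Δ h1
      rwa [WeierstrassCurve.variableChange_Δ, WeierstrassCurve.map_Δ,
        WeierstrassCurve.map_Δ] at this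
    have hc4 : u ^ 4 * algebraMap (𝓞 F) F W.c₄ = algebraMap (𝓞 F) F W'.c₄ := by
      have := congrArg WeierstrassCurve.c₄ h1
      rwa [WeierstrassCurve.variableChange_c₄, WeierstrassCurve.map_c₄,
        WeierstrassCurve.map_c₄] at this
    have hcu : w.intValuation W.c₄ = 1 := by
      rw [w.intValuation_eq_one_iff]
      exact h
    have h2 : (w.valuation F u) ^ 4 ≤ 1 := by
      have h3 := congrArg (w.valuation F) hc4
      rw [map_mul, w.valuation_of_algebraMap, w.valuation_of_algebraMap, hcu, mul_one,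
        map_pow] at h3
      rw [h3]
      exact w.intValuation_le_one _
    have h3 : w.valuation F u ≤ 1 := by
      by_contra hcon
      push Not at hcon
      exact absurd h2 (not_le.2 (one_lt_pow₀ hcon (by norm_num)))
    rw [← w.intValuation_le_pow_iff_mem] at hn ⊢
    refine le_trans ?_ hn
    have h4 := congrArg (w.valuation F) hΔ
    rw [map_mul, w.valuation_of_algebraMap, w.valuation_of_algebraMap, map_pow] at h4
    rw [← h4]
    exact mul_le_of_le_one_left' (pow_le_one' h3 12)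

variable {K : Type} [Field K] [NumberField K] [Algebra K F]

omit [NumberField K] [NumberField F] in
theorem isModel_up {E : WeierstrassCurve K} {W : WeierstrassCurve (𝓞 K)} (hW : IsModel E W) :
    IsModel (E.map (algebraMap K F)) (W.map (algebraMap (𝓞 K) (𝓞 F))) := by
  obtain ⟨C, hC⟩ := hW
  refine ⟨C.map (algebraMap K F), ?_⟩
  rw [WeierstrassCurve.map_variableChange, hC, WeierstrassCurve.map_map,
    WeierstrassCurve.map_map]
  congr 1

theorem mem_fib {v : HeightOneSpectrum (𝓞 K)} (w : Fib F v) (x : 𝓞 K) :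
    algebraMap (𝓞 K) (𝓞 F) x ∈ w.1.asIdeal ↔ x ∈ v.asIdeal := by
  rw [fib_le w]
  rfl

/-- local data at the primes above `v` -/
theorem ss_local {E : WeierstrassCurve K} (hE : E.IsElliptic) {v : HeightOneSpectrum (𝓞 K)}
    {W : WeierstrassCurve (𝓞 K)} (hW : IsModel E W) (h : W.Δ ∉ v.asIdeal ∨ W.c₄ ∉ v.asIdeal)
    (w : Fib F v) {V : WeierstrassCurve (𝓞 F)} (hV : IsMinAt (E.map (algebraMap K F)) w.1 V) :
    aff (red w.1 V) = aff (red w.1 (W.map (algebraMap (𝓞 K) (𝓞 F)))) ∧
      (V.Δ ∈ w.1.asIdeal ↔ W.Δ ∈ v.asIdeal) := by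
  have hmin : IsMinAt (E.map (algebraMap K F)) w.1 (W.map (algebraMap (𝓞 K) (𝓞 F))) := by
    refine ss_min (isModel_up hW) ?_
    rw [WeierstrassCurve.map_Δ, WeierstrassCurve.map_c₄, mem_fib, mem_fib]
    exact h
  obtain ⟨h1, h2⟩ := aff_minimal w.1 (inferInstance : (E.map (algebraMap K F)).IsElliptic) hmin hV
  refine ⟨h1, h2.symm.trans ?_⟩
  rw [WeierstrassCurve.map_Δ, mem_fib]

/-- all local data depend only on the residue degree -/
theorem ss_data {E : WeierstrassCurve K} (hE : E.IsElliptic) (hs : Semistable E)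
    (v : HeightOneSpectrum (𝓞 K)) : ∃ (g : ℕ → ℕ) (b : Prop), ∀ (F : Type) [Field F]
      [NumberField F] [Algebra K F] (V : HeightOneSpectrum (𝓞 F) → WeierstrassCurve (𝓞 F)),
      (∀ w, IsMinAt (E.map (algebraMap K F)) w (V w)) → ∀ w : Fib F v,
        aff (red w.1 (V w.1)) = g (fdeg w) ∧ ((V w.1).Δ ∈ w.1.asIdeal ↔ b) := by
  obtain ⟨W, hW, h⟩ := hs v
  rw [isModel_iff] at hW
  obtain ⟨g, hg⟩ := exists_count v W
  refine ⟨g, W.Δ ∈ v.asIdeal, fun F _ _ _ V hV w => ?_⟩
  obtain ⟨h1, h2⟩ := ss_local hE hW h w (hV w.1)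
  exact ⟨h1.trans (hg F w), h2⟩

end local_

section glob
variable {K : Type} [Field K] [NumberField K] {ι : Type} [Fintype ι] {Z : ι → Ext K}
  {e : ι → ℤ} {m : ℕ}

theorem finsum_fib {F : Type} [Field F] [NumberField F] [Algebra K F] {M : Type*}
    [AddCommGroup M] (f : HeightOneSpectrum (𝓞 F) → M) (S : Finset (HeightOneSpectrum (𝓞 K)))
    (h : ∀ w, f w ≠ 0 → und w ∈ S) : ∑ᶠ w, f w = ∑ v ∈ S, ∑ w : Fib F v, f w.1 := by
  have h1 : Function.support f ⊆ ↑(S.biUnion fun v =>
      (Finset.univ : Finset (Fib F v)).image Subtype.val) := by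
    intro w hw
    rw [Finset.mem_coe, Finset.mem_biUnion]
    exact ⟨und w, h w hw, Finset.mem_image.2 ⟨⟨w, rfl⟩, Finset.mem_univ _, rfl⟩⟩
  rw [finsum_eq_sum_of_support_subset f h1, Finset.sum_biUnion]
  · refine Finset.sum_congr rfl fun v _ => ?_
    rw [Finset.sum_image fun a _ b _ hab => Subtype.ext hab]
  · intro v _ v' _ hne
    rw [Function.onFun, Finset.disjoint_left]
    intro w hw hw'
    obtain ⟨a, -, rfl⟩ := Finset.mem_image.1 hw
    obtain ⟨b, -, hb⟩ := Finset.mem_image.1 hw'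
    apply hne
    rw [← a.2, ← b.2, hb]

theorem loc_self (v : HeightOneSpectrum (𝓞 K)) {M : Type*} [AddCommGroup M] (g : ℕ → M) :
    ∑ w : Fib (Opt Z none).F v, g (fdeg w) = g 1 := by
  have h1 := loc_rel (IsRel.self K) v g
  rw [Fintype.sum_unique] at h1
  rw [one_zsmul, one_nsmul] at h1
  exact h1

/-- **Global relations.** -/
theorem glob_rel (h : IsRel K Z e m) {M : Type*} [AddCommGroup M]
    (f : ∀ i : Option ι, HeightOneSpectrum (𝓞 (Opt Z i).F) → M)
    (S : Finset (HeightOneSpectrum (𝓞 K))) (hS : ∀ i w, f i w ≠ 0 → und w ∈ S)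
    (hG : ∀ v : HeightOneSpectrum (𝓞 K), ∃ g : ℕ → M, ∀ i (w : Fib (Opt Z i).F v),
      f i w.1 = g (fdeg w)) :
    ∑ i, e i • ∑ᶠ w, f (some i) w = m • ∑ᶠ w, f none w := by
  choose g hg using hG
  have h1 : ∀ i, ∑ᶠ w, f i w = ∑ v ∈ S, ∑ w : Fib (Opt Z i).F v, g v (fdeg w) := by
    intro i
    rw [finsum_fib (f i) S (hS i)]
    exact Finset.sum_congr rfl fun v _ => Finset.sum_congr rfl fun w _ => hg v i w
  simp_rw [h1, Finset.smul_sum (s := S)]
  rw [Finset.sum_comm]
  refine Finset.sum_congr rfl fun v _ => ?_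
  rw [loc_self]
  exact loc_rel h v (g v)

end glob

end Pool.Agent.N19.BR
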