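import Pool.Agent.N19.BR.ADefs

/-!
# Zeta functions and Chow groups of schemes of finite type over rings of integers: definitions
-/

set_option autoImplicit false

namespace Pool.Agent.N19.BR.XDef

open CategoryTheory AlgebraicGeometry NumberField

/-- The zeta function `ζ_X(s) = ∏_x (1 - N(x)^{-s})⁻¹`, the product over the closed points. -/
noncomputable def zeta (X : Scheme.{0}) (s : ℂ) : ℂ :=
  ∏' x : {x : X // IsClosed ({x} : Set X)}, (1 - ((Nat.card (X.residueField x.1) : ℂ) ^ (-s)))⁻¹

/-- The scheme `X_F = X ×_{Spec O_K} Spec O_F`, for a scheme `X` over `Spec O_K`. -/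
noncomputable def baseChange {K : Type} [Field K] {X : Scheme.{0}}
    (f : X ⟶ Spec (CommRingCat.of (𝓞 K))) (F : Type) [Field F] [Algebra K F] : Scheme.{0} :=
  Limits.pullback f (Spec.map (CommRingCat.ofHom (algebraMap (𝓞 K) (𝓞 F))))

/-- `U` is connected and contains a half-plane `Re s > σ` (for example `U = ℂ`). -/
def Region (U : Set ℂ) : Prop := IsPreconnected U ∧ ∃ σ : ℝ, ∀ s : ℂ, σ < s.re → s ∈ U

/-- `Λ` is a meromorphic continuation of `ζ_X` to `U`: it is meromorphic on `U` and equal to the Euler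
product in some right half-plane. -/
def Continues (U : Set ℂ) (X : Scheme.{0}) (Λ : ℂ → ℂ) : Prop :=
  MeromorphicOn Λ U ∧ ∃ σ : ℝ, ∀ s : ℂ, σ < s.re → Λ s = zeta X s

/-- The alternating sum `∑ (-1)^i dim W_i`. -/
noncomputable def euler {V : ℕ → Type} [∀ i, AddCommGroup (V i)] [∀ i, Module ℚ (V i)]
    (W : ∀ i, Submodule ℚ (V i)) : ℤ :=
  ∑ᶠ i, (-1) ^ i * (Module.finrank ℚ (W i) : ℤ)

/-- The spaces `W_i` have finite dimension and almost all of them are zero. -/
def Small {V : ℕ → Type} [∀ i, AddCommGroup (V i)] [∀ i, Module ℚ (V i)]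
    (W : ∀ i, Submodule ℚ (V i)) : Prop :=
  (∀ i, FiniteDimensional ℚ (W i)) ∧ {i | W i ≠ ⊥}.Finite

/-- The formula for the order of `ζ_X` at the point `a`, with defect `δ`: the spaces `W_i` have finite
dimension, almost all of them are zero, and `ζ_X` has a meromorphic continuation to `U`, for which
`-ord_{s = a} ζ_X(s) = ∑ (-1)^i dim W_i + δ`. -/
def OrderFormula (U : Set ℂ) (X : Scheme.{0}) (a : ℂ) {V : ℕ → Type} [∀ i, AddCommGroup (V i)]
    [∀ i, Module ℚ (V i)] (W : ∀ i, Submodule ℚ (V i)) (δ : ℤ) : Prop :=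
  Small W ∧ ∃ Λ : ℂ → ℂ, Continues U X Λ ∧
    meromorphicOrderAt Λ a = ((-(euler W + δ) : ℤ) : WithTop ℤ)

/-- The elements of the representations `V_i` of the absolute Galois group of `K` which are fixed by the
absolute Galois group of `F`.  For the direct limit `V_i` of the groups `CH^r(X_F, i) ⊗ ℚ` over all finite
extensions `F` of `K` in the algebraic closure this is `CH^r(X_F, i) ⊗ ℚ` (by transfer). -/
noncomputable def fixed {K : Type} [Field K] {V : ℕ → Type} [∀ i, AddCommGroup (V i)]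
    [∀ i, Module ℚ (V i)] (ρ : ∀ i, Representation ℚ Gal(AlgebraicClosure K/K) (V i))
    (F : IntermediateField K (AlgebraicClosure K)) (i : ℕ) : Submodule ℚ (V i) :=
  Pool.Agent.N19.BR.MDef.fixedBy (ρ i) F

end Pool.Agent.N19.BR.XDef
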