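import Pool.Agent.Q193.Zeta.Dir
import Pool.Agent.N19.BR.Ram
import Pool.Agent.N19.BR.XDefs

/-! Points of base changes of schemes over rings of integers. -/

set_option autoImplicit false

namespace Pool.Agent.N19.BR

open CategoryTheory AlgebraicGeometry Limits NumberField
open Pool.Agent.R433.MD
open Pool.Agent.Q193.Zeta (Pt lz cf Bounded)
open Pool.Agent.N19.BR.XDef (zeta baseChange)

section points
variable {K : Type} [Field K] [NumberField K] {X : Scheme.{0}}
  (f : X ⟶ Spec (CommRingCat.of (𝓞 K))) (F : Type) [Field F] [NumberField F] [Algebra K F]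
  (k : Type) [Field k]

/-- the homomorphism `O_K → k` of a point -/
noncomputable def homOf (a : Spec (CommRingCat.of k) ⟶ X) : 𝓞 K →+* k :=
  (Spec.homEquiv (a ≫ f)).hom

theorem map_homOf (a : Spec (CommRingCat.of k) ⟶ X) :
    Spec.map (CommRingCat.ofHom (homOf f k a)) = a ≫ f := by
  have h : CommRingCat.ofHom (homOf f k a) = Spec.homEquiv (a ≫ f) := rfl
  rw [h]
  exact Spec.homEquiv.symm_apply_apply _

/-- points of the base change -/
noncomputable def pbEquiv : (Spec (CommRingCat.of k) ⟶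
      pullback f (Spec.map (CommRingCat.ofHom (algebraMap (𝓞 K) (𝓞 F))))) ≃
    Σ a : (Spec (CommRingCat.of k) ⟶ X), Over F (homOf f k a) where
  toFun b := ⟨b ≫ pullback.fst _ _, (Spec.homEquiv (b ≫ pullback.snd _ _)).hom, by
    have h1 : b ≫ pullback.fst f (Spec.map (CommRingCat.ofHom (algebraMap (𝓞 K) (𝓞 F)))) ≫ f =
        b ≫ pullback.snd _ _ ≫ Spec.map (CommRingCat.ofHom (algebraMap (𝓞 K) (𝓞 F))) := by
      rw [pullback.condition]
    have h2 : CommRingCat.ofHom (algebraMap (𝓞 K) (𝓞 F)) ≫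
        Spec.homEquiv (b ≫ pullback.snd f _) = Spec.homEquiv ((b ≫ pullback.fst f _) ≫ f) := by
      apply Spec.homEquiv.symm.injective
      rw [Equiv.symm_apply_apply, Category.assoc, h1]
      change Spec.map _ = _
      rw [Spec.map_comp]
      have h3 : Spec.map (Spec.homEquiv (b ≫ pullback.snd f (Spec.map (CommRingCat.ofHom
          (algebraMap (𝓞 K) (𝓞 F)))))) = b ≫ pullback.snd f _ :=
        Spec.homEquiv.symm_apply_apply _
      rw [h3, Category.assoc]
    exact congrArg CommRingCat.Hom.hom h2⟩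
  invFun x := pullback.lift x.1 (Spec.map (CommRingCat.ofHom x.2.1)) (by
    rw [← Spec.map_comp, ← map_homOf f k x.1]
    congr 1
    rw [← CommRingCat.ofHom_comp, x.2.2])
  left_inv b := by
    apply pullback.hom_ext
    · exact pullback.lift_fst _ _ _
    · exact (pullback.lift_snd _ _ _).trans (Spec.homEquiv.symm_apply_apply _)
  right_inv x := by
    obtain ⟨a, ψ, hψ⟩ := x
    have h1 : pullback.lift a (Spec.map (CommRingCat.ofHom ψ)) (by
        rw [← Spec.map_comp, ← map_homOf f k a]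
        congr 1
        rw [← CommRingCat.ofHom_comp, hψ]) ≫ pullback.fst f (Spec.map (CommRingCat.ofHom
          (algebraMap (𝓞 K) (𝓞 F)))) = a := pullback.lift_fst _ _ _
    refine Sigma.ext h1 ?_
    refine (Subtype.heq_iff_coe_eq ?_).2 ?_
    · intro χ
      change χ.comp _ = homOf f k (pullback.lift a (Spec.map (CommRingCat.ofHom ψ)) _ ≫
        pullback.fst f _) ↔ χ.comp _ = homOf f k a
      rw [h1]
    · have h2 : pullback.lift a (Spec.map (CommRingCat.ofHom ψ)) (by
        rw [← Spec.map_comp, ← map_homOf f k a]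
        congr 1
        rw [← CommRingCat.ofHom_comp, hψ]) ≫ pullback.snd f (Spec.map (CommRingCat.ofHom
          (algebraMap (𝓞 K) (𝓞 F)))) = Spec.map (CommRingCat.ofHom ψ) := pullback.lift_snd _ _ _
      change (Spec.homEquiv (pullback.lift a (Spec.map (CommRingCat.ofHom ψ)) _ ≫
        pullback.snd f _)).hom = ψ
      rw [h2]
      have h3 : Spec.homEquiv (Spec.map (CommRingCat.ofHom ψ)) = CommRingCat.ofHom ψ :=
        Spec.homEquiv.apply_symm_apply _
      rw [h3]
      rfl

theorem finite_homs [Finite k] : Finite (𝓞 F →+* k) := by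
  obtain ⟨n, hn⟩ := Pool.Agent.Q193.Zeta.bound_ring (𝓞 F)
  exact (hn k).1

/-- the number of points of the base change -/
theorem card_over [Finite k] (hX : Finite (Spec (CommRingCat.of k) ⟶ X)) :
    Finite (Spec (CommRingCat.of k) ⟶ baseChange f F) ∧
    (Nat.card (Spec (CommRingCat.of k) ⟶ baseChange f F) : ℤ) =
      ∑ᶠ a : (Spec (CommRingCat.of k) ⟶ X), (nh F (homOf f k a) : ℤ) := by
  classical
  have _ : Fintype (Spec (CommRingCat.of k) ⟶ X) := Fintype.ofFinite _
  have h1 := finite_homs F k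
  have h2 : Nat.card (Spec (CommRingCat.of k) ⟶ baseChange f F) = _ :=
    Nat.card_congr (pbEquiv f F k)
  refine ⟨Finite.of_equiv _ (pbEquiv f F k).symm, ?_⟩
  rw [h2, Nat.card_sigma, finsum_eq_sum_of_fintype]
  push_cast
  rfl

end points

section rel
variable {K : Type} [Field K] [NumberField K] {ι : Type} [Fintype ι] {Z : ι → Ext K}
  {e : ι → ℤ} {m : ℕ}

/-- points of a scheme with values in a field -/
noncomputable def ptE (S : Scheme.{0}) (k : Type) [Field k] :
    Pt S k ≃ (Spec (CommRingCat.of k) ⟶ S) := (Scheme.SpecToEquivOfField k S).symm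

/-- **The relation for numbers of points.** -/
theorem pt_rel (h : IsRel K Z e m) {X : Scheme.{0}} (f : X ⟶ Spec (CommRingCat.of (𝓞 K)))
    (k : Type) [Field k] [Finite k] (hX : Finite (Pt X k)) :
    ∑ i, e i * (Nat.card (Pt (baseChange f (Z i).F) k) : ℤ) = m * Nat.card (Pt X k) := by
  classical
  have h1 : Finite (Spec (CommRingCat.of k) ⟶ X) := Finite.of_equiv _ (ptE X k)
  have _ : Fintype (Spec (CommRingCat.of k) ⟶ X) := Fintype.ofFinite _
  have h2 : ∀ i, (Nat.card (Pt (baseChange f (Z i).F) k) : ℤ) =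
      ∑ a : (Spec (CommRingCat.of k) ⟶ X), (nh (Z i).F (homOf f k a) : ℤ) := by
    intro i
    rw [Nat.card_congr (ptE _ k), (card_over f (Z i).F k h1).2, finsum_eq_sum_of_fintype]
  rw [Nat.card_congr (ptE X k), Finset.sum_congr rfl fun i _ => by rw [h2 i]]
  simp only [Finset.mul_sum]
  rw [Finset.sum_comm, Finset.sum_congr rfl fun a _ => exact_count h k (homOf f k a),
    Finset.sum_const, Finset.card_univ, nsmul_eq_mul, ← Nat.card_eq_fintype_card, mul_comm]

variable {X : Scheme.{0}} (f : X ⟶ Spec (CommRingCat.of (𝓞 K))) [LocallyOfFiniteType f]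
  [QuasiCompact f]

/-- the structure morphism over the integers -/
noncomputable def toZ (F : Type) [Field F] [NumberField F] :
    Spec (CommRingCat.of (𝓞 F)) ⟶ Spec (CommRingCat.of ℤ) :=
  Spec.map (CommRingCat.ofHom (algebraMap ℤ (𝓞 F)))

instance (F : Type) [Field F] [NumberField F] : LocallyOfFiniteType (toZ F) := by
  rw [toZ, HasRingHomProperty.Spec_iff (P := @LocallyOfFiniteType)]
  change (algebraMap ℤ (𝓞 F)).FiniteType
  rw [RingHom.finiteType_algebraMap]
  infer_instance

instance (F : Type) [Field F] [NumberField F] : QuasiCompact (toZ F) := by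
  rw [toZ]
  infer_instance

instance loft_map (F : Type) [Field F] [NumberField F] [Algebra K F] :
    LocallyOfFiniteType (Spec.map (CommRingCat.ofHom (algebraMap (𝓞 K) (𝓞 F)))) := by
  rw [HasRingHomProperty.Spec_iff (P := @LocallyOfFiniteType)]
  change (algebraMap (𝓞 K) (𝓞 F)).FiniteType
  rw [RingHom.finiteType_algebraMap]
  infer_instance

/-- the structure morphism over the integers of the base change -/
noncomputable def bcZ (F : Type) [Field F] [NumberField F] [Algebra K F] :
    baseChange f F ⟶ Spec (CommRingCat.of ℤ) :=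
  pullback.snd f (Spec.map (CommRingCat.ofHom (algebraMap (𝓞 K) (𝓞 F)))) ≫ toZ F

instance (F : Type) [Field F] [NumberField F] [Algebra K F] : LocallyOfFiniteType (bcZ f F) := by
  have h1 : LocallyOfFiniteType
    (pullback.snd f (Spec.map (CommRingCat.ofHom (algebraMap (𝓞 K) (𝓞 F))))) := inferInstance
  exact MorphismProperty.comp_mem (W := @LocallyOfFiniteType) _ _ h1 inferInstance

instance (F : Type) [Field F] [NumberField F] [Algebra K F] : QuasiCompact (bcZ f F) := by
  have h1 : QuasiCompact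
    (pullback.snd f (Spec.map (CommRingCat.ofHom (algebraMap (𝓞 K) (𝓞 F))))) := inferInstance
  exact MorphismProperty.comp_mem (W := @QuasiCompact) _ _ h1 inferInstance

/-- **The relation for the coefficients of the Dirichlet series.** -/
theorem cf_rel (h : IsRel K Z e m) {C k : ℕ} (hX : Bounded X C k) {C' k' : ι → ℕ}
    (hb : ∀ i, Bounded (baseChange f (Z i).F) (C' i) (k' i)) (n : ℕ) :
    ∑ i, (e i : ℝ) * cf (Pool.Agent.Q193.Zeta.nm (baseChange f (Z i).F)) n =
      m * cf (Pool.Agent.Q193.Zeta.nm X) n := by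
  by_cases hm : ∃ p l : ℕ, p.Prime ∧ l ≠ 0 ∧ n = p ^ l
  · obtain ⟨p, l, hp, hl, rfl⟩ := hm
    obtain ⟨k, _, _, hk⟩ := Pool.Agent.Q193.Zeta.exists_field hp hl
    have a1 := (hX k).1
    have b1 := fun i => (hb i k).1
    have a2 := Pool.Agent.Q193.Zeta.card_pt X k hp hk
    have b2 := fun i => Pool.Agent.Q193.Zeta.card_pt (baseChange f (Z i).F) k hp hk
    have h1 := pt_rel h f k a1
    have h2 : ∑ i, (e i : ℝ) * (Nat.card (Pt (baseChange f (Z i).F) k) : ℝ) =
        m * Nat.card (Pt X k) := by exact_mod_cast h1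
    have hl' : (l : ℝ) ≠ 0 := by exact_mod_cast hl
    refine mul_left_cancel₀ hl' ?_
    rw [hk] at a2 b2
    rw [mul_left_comm, a2, ← h2, Finset.mul_sum]
    refine Finset.sum_congr rfl fun i _ => ?_
    rw [← b2 i]
    ring
  · have h1 := Pool.Agent.Q193.Zeta.cf_eq_zero X hm
    have h2 := fun i => Pool.Agent.Q193.Zeta.cf_eq_zero (baseChange f (Z i).F) hm
    have h3 : cf (Pool.Agent.Q193.Zeta.nm X) n = 0 := by rw [cf, tsum_empty]
    have h4 : ∀ i, cf (Pool.Agent.Q193.Zeta.nm (baseChange f (Z i).F)) n = 0 := fun i => by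
      have := h2 i
      rw [cf, tsum_empty]
    rw [h3, Finset.sum_eq_zero fun i _ => by rw [h4 i, mul_zero], mul_zero]

/-- **The relation for the zeta functions.** -/
theorem zeta_rel (h : IsRel K Z e m) : ∃ σ : ℝ, ∀ s : ℂ, σ < s.re →
    zeta X s ≠ 0 ∧ (∀ i, zeta (baseChange f (Z i).F) s ≠ 0) ∧
      zeta X s ^ m = ∏ i, zeta (baseChange f (Z i).F) s ^ e i := by
  have g1 : LocallyOfFiniteType (f ≫ toZ K) := MorphismProperty.comp_mem _ _ _ ‹_› inferInstance
  have g2 : QuasiCompact (f ≫ toZ K) := MorphismProperty.comp_mem _ _ _ ‹_› inferInstance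
  obtain ⟨C, k, hX⟩ := Pool.Agent.Q193.Zeta.bounded (f ≫ toZ K)
  have hb := fun i => Pool.Agent.Q193.Zeta.bounded (bcZ f (Z i).F)
  choose C' k' hb using hb
  obtain ⟨B, hB⟩ : ∃ B : ℕ, ∀ i, k' i ≤ B := by
    obtain ⟨B, hB⟩ := (Set.finite_range k').bddAbove
    exact ⟨B, fun j => hB ⟨j, rfl⟩⟩
  refine ⟨(k + B : ℕ) + 1, fun s hs => ?_⟩
  have hs1 : (k : ℝ) + 1 < s.re := by
    push_cast at hs
    have : (0 : ℝ) ≤ B := Nat.cast_nonneg B
    linarith
  have hs2 : ∀ i, (k' i : ℝ) + 1 < s.re := by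
    intro i
    push_cast at hs
    have h1 : (0 : ℝ) ≤ k := Nat.cast_nonneg k
    have h2 : (k' i : ℝ) ≤ B := by exact_mod_cast hB i
    linarith
  have e1 : zeta X s = Complex.exp (lz X s) := Pool.Agent.Q193.Zeta.zeta_eq hX (f ≫ toZ K) hs1
  have e2 : ∀ i, zeta (baseChange f (Z i).F) s = Complex.exp (lz (baseChange f (Z i).F) s) :=
    fun i => Pool.Agent.Q193.Zeta.zeta_eq (hb i) (bcZ f (Z i).F) (hs2 i)
  have e3 : ∑ i, (e i : ℂ) * lz (baseChange f (Z i).F) s = m * lz X s := by
    have a1 := ((Pool.Agent.Q193.Zeta.lz_summable hX hs1).LSeriesHasSum).mul_left (m : ℂ)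
    have a2 := hasSum_sum (s := Finset.univ) fun i _ =>
      ((Pool.Agent.Q193.Zeta.lz_summable (hb i) (hs2 i)).LSeriesHasSum).mul_left (e i : ℂ)
    refine (a1.unique (HasSum.congr_fun a2 fun n => ?_)).symm
    have a3 := cf_rel f h hX hb n
    simp only [LSeries.term_def]
    split_ifs with hn
    · simp
    · have a4 : ∑ i, (e i : ℂ) * (cf (Pool.Agent.Q193.Zeta.nm (baseChange f (Z i).F)) n : ℂ) =
          m * (cf (Pool.Agent.Q193.Zeta.nm X) n : ℂ) := by exact_mod_cast a3
      rw [← mul_div_assoc, ← a4, Finset.sum_div]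
      refine Finset.sum_congr rfl fun i _ => ?_
      rw [mul_div_assoc]
  refine ⟨?_, fun i => ?_, ?_⟩
  · rw [e1]
    exact Complex.exp_ne_zero _
  · rw [e2]
    exact Complex.exp_ne_zero _
  · rw [e1, ← Complex.exp_nat_mul, ← e3, Complex.exp_sum]
    refine Finset.prod_congr rfl fun i _ => ?_
    rw [e2, Complex.exp_int_mul]

end rel

end Pool.Agent.N19.BR
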