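import Pool.Agent.N19.BR.Sch
import Pool.Agent.N19.BR.Inv
import Pool.Agent.N19.BR.BSD

/-! Orders of zeta functions and ranks for arithmetic schemes. -/

set_option autoImplicit false

namespace Pool.Agent.N19.BR

open CategoryTheory AlgebraicGeometry Limits NumberField
open Pool.Agent.R433.MD
open Pool.Agent.N19.BR.XDef (zeta baseChange Region Continues euler Small OrderFormula fixed)

section
variable {K : Type} [Field K] [NumberField K] {ι : Type} [Fintype ι] {Z : ι → Ext K}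
  {e : ι → ℤ} {X : Scheme.{0}} (f : X ⟶ Spec (CommRingCat.of (𝓞 K))) [LocallyOfFiniteType f]
  [QuasiCompact f]

/-- **Continuation and orders.** -/
theorem sch_cont (h : IsRel K Z e 1) {U : Set ℂ} (hU : Region U) {Λ : ι → ℂ → ℂ}
    (hΛ : ∀ j, Continues U (baseChange f (Z j).F) (Λ j)) :
    (∃ Λ₀ : ℂ → ℂ, Continues U X Λ₀) ∧ ∀ Λ₀ : ℂ → ℂ, Continues U X Λ₀ → ∀ a ∈ U,
      ∀ r : ι → ℤ, (∀ j, meromorphicOrderAt (Λ j) a = r j) →
        meromorphicOrderAt Λ₀ a = ((∑ j, e j * r j : ℤ) : WithTop ℤ) := by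
  classical
  obtain ⟨σ, hσ⟩ := zeta_rel f h
  choose hΛ1 c hc using hΛ
  obtain ⟨C, hC⟩ : ∃ C : ℝ, ∀ j, c j ≤ C := by
    obtain ⟨C, hC⟩ := (Set.finite_range c).bddAbove
    exact ⟨C, fun j => hC ⟨j, rfl⟩⟩
  obtain ⟨hU1, u, hu⟩ := hU
  constructor
  · refine ⟨∏ j, (Λ j) ^ (e j), MeromorphicOn.prod fun j _ => (hΛ1 j).zpow _, max σ C,
      fun s hs => ?_⟩
    obtain ⟨-, -, h1⟩ := hσ s ((le_max_left _ _).trans_lt hs)
    rw [pow_one] at h1
    rw [h1, Finset.prod_apply]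
    refine Finset.prod_congr rfl fun j _ => ?_
    rw [Pi.pow_apply, hc j s (((hC j).trans (le_max_right _ _)).trans_lt hs)]
  · rintro Λ₀ ⟨hΛ₀, c₀, hc₀⟩ a ha r hr
    have hb1 : u ≤ max (max u σ) (max C c₀) := (le_max_left _ _).trans (le_max_left _ _)
    have hb2 : σ ≤ max (max u σ) (max C c₀) := (le_max_right _ _).trans (le_max_left _ _)
    have hb3 : C ≤ max (max u σ) (max C c₀) := (le_max_left _ _).trans (le_max_right _ _)
    have hb4 : c₀ ≤ max (max u σ) (max C c₀) := (le_max_right _ _).trans (le_max_right _ _)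
    have h1 := order_rel_abs hU1 (c := max (max u σ) (max C c₀)) (fun s hs => hu s (hb1.trans_lt hs))
      ha (m := 1) (R := fun _ => 1) (L₀ := zeta X) (fun x _ => MeromorphicAt.const 1 x)
      ⟨analyticAt_const, one_ne_zero⟩ (fun s hs => (hσ s (hb2.trans_lt hs)).1) (Λ := Λ) (e := e)
      (fun s hs => by
        rw [one_mul, (hσ s (hb2.trans_lt hs)).2.2]
        refine Finset.prod_congr rfl fun j _ => ?_
        rw [hc j s (((hC j).trans hb3).trans_lt hs)]) hΛ1 hr
    obtain ⟨r₀, h2, h3⟩ := h1.2 Λ₀ hΛ₀ (fun s hs => hc₀ s (hb4.trans_lt hs))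
    rw [h2, ← h3]
    simp

end

section
variable {K : Type} [Field K] [NumberField K] {V : ℕ → Type} [∀ i, AddCommGroup (V i)]
  [∀ i, Module ℚ (V i)] (ρ : ∀ i, Representation ℚ Gal(AlgebraicClosure K/K) (V i))
  {ι : Type} [Fintype ι] [Nonempty ι] (F : ι → IntermediateField K (AlgebraicClosure K))
  [∀ i, NumberField (F i)] {e : ι → ℤ}

/-- **Ranks.** -/
theorem small_rel (h : IsRel K (fun i => (⟨F i⟩ : Ext K)) e 1)
    (hs : ∀ j, Small (fixed ρ (F j))) :
    Small (fun i => Representation.invariants (ρ i)) ∧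
      euler (fun i => Representation.invariants (ρ i)) = ∑ j, e j * euler (fixed ρ (F j)) := by
  classical
  have h1 : ∀ i, FiniteDimensional ℚ (Representation.invariants (ρ i)) ∧
      ((1 : ℕ) : ℤ) * (Module.finrank ℚ (Representation.invariants (ρ i)) : ℤ) =
        ∑ j, e j * (Module.finrank ℚ (inv (ρ i) (F j)) : ℤ) := fun i =>
    inv_rel (ρ i) F h fun j => (hs j).1 i
  have hle : ∀ i j, Representation.invariants (ρ i) ≤ fixed ρ (F j) i := by
    intro i j v hv
    exact fun σ => hv σ.1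
  have hfin : {i | Representation.invariants (ρ i) ≠ ⊥}.Finite := by
    obtain ⟨j⟩ := ‹Nonempty ι›
    refine (hs j).2.subset fun i hi hbot => hi ?_
    rw [eq_bot_iff]
    exact (hle i j).trans hbot.le
  refine ⟨⟨fun i => (h1 i).1, hfin⟩, ?_⟩
  have hall : (⋃ j, {i | fixed ρ (F j) i ≠ ⊥}).Finite := Set.finite_iUnion fun j => (hs j).2
  let S : Finset ℕ := hall.toFinset ∪ hfin.toFinset
  have e1 : euler (fun i => Representation.invariants (ρ i)) =
      ∑ i ∈ S, (-1) ^ i * (Module.finrank ℚ (Representation.invariants (ρ i)) : ℤ) := by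
    rw [euler]
    refine finsum_eq_sum_of_support_subset _ fun i hi => ?_
    rw [Finset.mem_coe, Finset.mem_union]
    refine Or.inr (hfin.mem_toFinset.2 fun hbot => hi ?_)
    change (-1 : ℤ) ^ i * (Module.finrank ℚ (Representation.invariants (ρ i)) : ℤ) = 0
    rw [hbot, finrank_bot, Nat.cast_zero, mul_zero]
  have e2 : ∀ j, euler (fixed ρ (F j)) =
      ∑ i ∈ S, (-1) ^ i * (Module.finrank ℚ (inv (ρ i) (F j)) : ℤ) := by
    intro j
    rw [euler]
    refine finsum_eq_sum_of_support_subset _ fun i hi => ?_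
    rw [Finset.mem_coe, Finset.mem_union]
    refine Or.inl (hall.mem_toFinset.2 (Set.mem_iUnion.2 ⟨j, fun hbot => hi ?_⟩))
    change (-1 : ℤ) ^ i * (Module.finrank ℚ (fixed ρ (F j) i) : ℤ) = 0
    rw [hbot, finrank_bot, Nat.cast_zero, mul_zero]
  have e3 : ∑ j, e j * euler (fixed ρ (F j)) = ∑ j, ∑ i ∈ S,
      e j * ((-1) ^ i * (Module.finrank ℚ (inv (ρ i) (F j)) : ℤ)) := by
    refine Finset.sum_congr rfl fun j _ => ?_
    rw [e2 j, Finset.mul_sum]
  rw [e1, e3, Finset.sum_comm]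
  refine Finset.sum_congr rfl fun i _ => ?_
  have h2 := (h1 i).2
  rw [Nat.cast_one, one_mul] at h2
  rw [h2, Finset.mul_sum]
  exact Finset.sum_congr rfl fun j _ => by ring

/-- **The order formula.** -/
theorem order_rel_sch (h : IsRel K (fun i => (⟨F i⟩ : Ext K)) e 1) {X : Scheme.{0}}
    (f : X ⟶ Spec (CommRingCat.of (𝓞 K))) [LocallyOfFiniteType f] [QuasiCompact f]
    {U : Set ℂ} (hU : Region U) {a : ℂ} (ha : a ∈ U) {δ : ι → ℤ}
    (hF : ∀ j, OrderFormula U (baseChange f (F j)) a (fixed ρ (F j)) (δ j)) :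
    OrderFormula U X a (fun i => Representation.invariants (ρ i)) (∑ j, e j * δ j) ∧
      ∀ Λ : ℂ → ℂ, Continues U X Λ → meromorphicOrderAt Λ a =
        ((-(euler (fun i => Representation.invariants (ρ i)) + ∑ j, e j * δ j) : ℤ) :
          WithTop ℤ) := by
  classical
  obtain ⟨h1, h2⟩ := small_rel ρ F h fun j => (hF j).1
  choose Λ hΛ ho using fun j => (hF j).2
  obtain ⟨⟨Λ₀, h3⟩, h4⟩ := sch_cont f h hU hΛ
  have h5 : ∀ Λ : ℂ → ℂ, Continues U X Λ → meromorphicOrderAt Λ a =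
      ((-(euler (fun i => Representation.invariants (ρ i)) + ∑ j, e j * δ j) : ℤ) :
        WithTop ℤ) := by
    intro Λ₁ hΛ₁
    rw [h4 Λ₁ hΛ₁ a ha (fun j => -(euler (fixed ρ (F j)) + δ j)) ho, h2]
    congr 1
    rw [← Finset.sum_add_distrib, ← Finset.sum_neg_distrib]
    exact Finset.sum_congr rfl fun j _ => by ring
  exact ⟨⟨h1, Λ₀, h3, h5 Λ₀ h3⟩, h5⟩

end

end Pool.Agent.N19.BR
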