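import Pool.Agent.N19.BR.ADefs
import Mathlib.Analysis.Meromorphic.TrailingCoefficient
import Mathlib.NumberTheory.NumberField.Completion.FinitePlace
import Mathlib.NumberTheory.NumberField.InfinitePlace.Ramification

/-!
# Stark's conjecture: definitions

`M / K` is a finite Galois extension of number fields, `S` a finite set of primes of `K` (the finite places in the
set `S` of the problem), and `F` is a field between `K` and `M`, given by an embedding `f : F →ₐ[K] M`.  The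
character `χ` of `Gal(M / K)` is given by a representation `ρ` by matrices.
-/

set_option autoImplicit false

namespace Pool.Agent.N19.BR.SDef

open NumberField IsDedekindDomain Polynomial Module
open Pool.Agent.N19.BR.MDef (Continues)

section
variable {K : Type} [Field K] (S : Set (HeightOneSpectrum (𝓞 K)))

/-- The prime `w` of `F` is above a prime in `S`. -/
def Above {F : Type} [Field F] [Algebra K F] (w : HeightOneSpectrum (𝓞 F)) : Prop :=
  ∃ v ∈ S, w.asIdeal.comap (algebraMap (𝓞 K) (𝓞 F)) = v.asIdeal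

/-- The places of `M` above `S`: the infinite places and the primes above the primes in `S`. -/
abbrev Place (M : Type) [Field M] [Algebra K M] : Type :=
  InfinitePlace M ⊕ {P : HeightOneSpectrum (𝓞 M) // Above S P}

end

section
variable {K : Type} [Field K] {S : Set (HeightOneSpectrum (𝓞 K))} {M : Type} [Field M] [Algebra K M]

/-- The automorphism `σ` of the ring of integers of `M`. -/
def act (σ : Gal(M/K)) : 𝓞 M →+* 𝓞 M := RingOfIntegers.mapRingHom (σ : M →+* M)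

theorem act_act (σ : Gal(M/K)) (x : 𝓞 M) : act σ⁻¹ (act σ x) = x :=
  RingOfIntegers.ext (σ.symm_apply_apply (x : M))

theorem ne_bot (σ : Gal(M/K)) (P : HeightOneSpectrum (𝓞 M)) : P.asIdeal.comap (act σ⁻¹) ≠ ⊥ := by
  intro h
  obtain ⟨x, hx, hx0⟩ := Submodule.exists_mem_ne_zero_of_ne_bot P.ne_bot
  have h1 : act σ x ∈ P.asIdeal.comap (act σ⁻¹) := by
    rw [Ideal.mem_comap, act_act]
    exact hx
  rw [h, Ideal.mem_bot] at h1
  apply hx0
  rw [← act_act σ x, h1, map_zero]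

/-- The prime `σ P`. -/
def movePrime (σ : Gal(M/K)) (P : HeightOneSpectrum (𝓞 M)) : HeightOneSpectrum (𝓞 M) :=
  ⟨P.asIdeal.comap (act σ⁻¹), Ideal.comap_isPrime _ _, ne_bot σ P⟩

theorem above_movePrime (σ : Gal(M/K)) {P : HeightOneSpectrum (𝓞 M)} (h : Above S P) :
    Above S (movePrime σ P) := by
  obtain ⟨v, hv, hP⟩ := h
  refine ⟨v, hv, ?_⟩
  rw [← hP]
  ext x
  have h1 : act σ⁻¹ (algebraMap (𝓞 K) (𝓞 M) x) = algebraMap (𝓞 K) (𝓞 M) x :=
    RingOfIntegers.ext ((σ⁻¹ : Gal(M/K)).commutes (x : K))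
  change act σ⁻¹ (algebraMap (𝓞 K) (𝓞 M) x) ∈ P.asIdeal ↔ _
  rw [h1, Ideal.mem_comap]

/-- The place `σ w`. -/
def move (σ : Gal(M/K)) : Place S M → Place S M
  | Sum.inl w => Sum.inl (σ • w)
  | Sum.inr P => Sum.inr ⟨movePrime σ P.1, above_movePrime σ P.2⟩

/-- The function `x` on the places, so the formal sum `∑ x_w w`, belongs to `ℂ ⊗ X`: the sum of the coefficients
is zero. -/
def InX (x : Place S M → ℂ) : Prop := x.support.Finite ∧ ∑ᶠ w, x w = 0

variable [NumberField M]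

/-- `log |ε|_w` for the normalized absolute values. -/
noncomputable def logAbs (ε : M) : Place S M → ℝ
  | Sum.inl w => w.mult * Real.log (w ε)
  | Sum.inr P => Real.log (HeightOneSpectrum.adicAbv M P.1 ε)

/-- `ε` is a unit outside the places above `S`. -/
def IsUnitOutside (S : Set (HeightOneSpectrum (𝓞 K))) (ε : M) : Prop :=
  ε ≠ 0 ∧ ∀ P : HeightOneSpectrum (𝓞 M), ¬ Above S P → HeightOneSpectrum.adicAbv M P ε = 1

/-- The restriction of `T` to `ℂ ⊗ X` is the map `λ ∘ φ` for an isomorphism `φ` of the `ℚ[G]`-modules `ℚ ⊗ X` and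
`ℚ ⊗ 𝒪_{M,S}^×`, `G = Gal(M / K)`: it is an automorphism of `ℂ ⊗ X`, commutes with `G`, and for all `x` with
rational coefficients there are an `S`-unit `ε` and `n ≥ 1`, `φ(x) = (1/n) ε`, with
`n T(x) = λ(ε) = -∑ log |ε|_w w`. -/
def IsStarkMap (S : Set (HeightOneSpectrum (𝓞 K))) (T : (Place S M → ℂ) →ₗ[ℂ] (Place S M → ℂ)) :
    Prop :=
  (∀ x, InX x → InX (T x)) ∧ (∀ x, InX x → T x = 0 → x = 0) ∧
    (∀ (σ : Gal(M/K)) (x), InX x → T (x ∘ move σ) = T x ∘ move σ) ∧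
    ∀ x, InX x → (∀ w, ∃ q : ℚ, x w = q) → ∃ (n : ℕ) (ε : M), n ≠ 0 ∧ IsUnitOutside S ε ∧
      ∀ w, (n : ℂ) * T x w = (-logAbs ε w : ℝ)

end

section
variable {K : Type} [Field K] (S : Set (HeightOneSpectrum (𝓞 K)))
  {M : Type} [Field M] [Algebra K M] {n : ℕ}
  (ρ : Gal(M/K) →* Matrix (Fin n) (Fin n) ℂ) (T : (Place S M → ℂ) →ₗ[ℂ] (Place S M → ℂ))
  {F : Type} [Field F] [Algebra K F] (f : F →ₐ[K] M)

/-- `u` belongs to `Hom(V_χ^*, ℂ ⊗ X)^H = (V_χ ⊗ X)^H`, where `H = Gal(M / F)` and `ρ` is the action on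
`V_χ = ℂ^n`: it is an `n`-tuple of elements of `ℂ ⊗ X` with `∑ ρ(σ)_ij σ(u_j) = u_i`, that is,
`∑ ρ(σ)_ij u_j(w) = u_i(σ w)`, for all `σ` in `H`. -/
def InHoms (u : Fin n → Place S M → ℂ) : Prop :=
  (∀ i, InX (u i)) ∧ ∀ σ : Gal(M/K), (∀ x : F, σ (f x) = f x) →
    ∀ i w, ∑ j, ρ σ i j * u j w = u i (move σ w)

/-- `R = R_S(χ|_F, φ)`, where `T = λ ∘ φ` on `ℂ ⊗ X`: the determinant of the map `u ↦ T ∘ u` on
`Hom(V_χ^*, ℂ ⊗ X)^H`, so the determinant of its matrix `A` for a basis `b`. -/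
def IsRegulator (R : ℂ) : Prop :=
  ∃ (r : ℕ) (b : Fin r → Fin n → Place S M → ℂ) (A : Matrix (Fin r) (Fin r) ℂ),
    LinearIndependent ℂ b ∧ (∀ u, u ∈ Submodule.span ℂ (Set.range b) ↔ InHoms S ρ f u) ∧
    (∀ j i, T (b j i) = ∑ k, A k j • b k i) ∧ A.det = R

/-- `x ≡ y` modulo `P`. -/
def Cong (P : HeightOneSpectrum (𝓞 M)) (x y : 𝓞 M) : Prop := x - y ∈ P.asIdeal

/-- `ρ` is unramified outside `S`: it is trivial on the inertia groups of the primes not above `S`. -/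
def Unramified : Prop :=
  ∀ P : HeightOneSpectrum (𝓞 M), ¬ Above S P → ∀ σ : Gal(M/K), (∀ x, Cong P (act σ x) x) → ρ σ = 1

end

section
variable {K : Type} [Field K] [NumberField K] (S : Set (HeightOneSpectrum (𝓞 K)))
  {M : Type} [Field M] [NumberField M] [Algebra K M] {n : ℕ}
  (ρ : Gal(M/K) →* Matrix (Fin n) (Fin n) ℂ) (T : (Place S M → ℂ) →ₗ[ℂ] (Place S M → ℂ))
  {F : Type} [Field F] [NumberField F] [Algebra K F] (f : F →ₐ[K] M)

/-- `σ` is a Frobenius element of `Gal(M / F)` at the prime `w` of `F`. -/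
def IsFrobenius (w : HeightOneSpectrum (𝓞 F)) (σ : Gal(M/K)) : Prop :=
  (∀ x : F, σ (f x) = f x) ∧ ∃ P : HeightOneSpectrum (𝓞 M),
    P.asIdeal.comap (RingOfIntegers.mapRingHom (f : F →+* M)) = w.asIdeal ∧
    ∀ x, Cong P (act σ x) (x ^ Ideal.absNorm w.asIdeal)

/-- The polynomials `B w` are the Euler factors of the Artin L-function `L_S(s, χ|_F)`: `det (1 - z ρ(σ))` for the
Frobenius elements `σ` at the primes `w` of `F` not above `S`, and `1` at the primes above `S`. -/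
def ArtinFactors (B : HeightOneSpectrum (𝓞 F) → ℂ[X]) : Prop :=
  ∀ w, (Above S w → B w = 1) ∧
    (¬ Above S w → ∀ σ, IsFrobenius f w σ → ∀ z : ℂ, (B w).eval z = (1 - z • ρ σ).det)

/-- `c = L_S^*(0, χ|_F)`: the leading coefficient at `0` of a meromorphic continuation `Λ` of `L_S(s, χ|_F)` to
the complex plane. -/
def IsLeading (c : ℂ) : Prop :=
  ∃ (B : HeightOneSpectrum (𝓞 F) → ℂ[X]) (Λ : ℂ → ℂ), ArtinFactors S ρ f B ∧
    Continues Set.univ B 1 Λ ∧ meromorphicTrailingCoeffAt Λ 0 = c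

/-- `A = A_S(χ|_F, φ) = R_S(χ|_F, φ) / L_S^*(0, χ|_F)`. -/
def IsStarkQuotient (A : ℂ) : Prop :=
  ∃ R c : ℂ, IsRegulator S ρ T f R ∧ IsLeading S ρ f c ∧ A = R / c

/-- The representation `χ^σ`. -/
noncomputable def conj (σ : ℂ ≃+* ℂ) : Gal(M/K) →* Matrix (Fin n) (Fin n) ℂ :=
  (RingHom.mapMatrix (σ : ℂ →+* ℂ)).toMonoidHom.comp ρ

/-- Stark's conjecture for `χ|_F`: the L-functions of all conjugates of `χ|_F` have meromorphic continuations,
and `A_S(χ|_F, φ)^σ = A_S(χ^σ|_F, φ)`. -/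
def StarkConjecture : Prop :=
  ∀ σ : ℂ ≃+* ℂ, ∃ A : ℂ, IsStarkQuotient S ρ T f A ∧ IsStarkQuotient S (conj ρ σ) T f (σ A)

end

end Pool.Agent.N19.BR.SDef
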