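import Pool.Agent.N19.BR.Det
import Mathlib.RepresentationTheory.Invariants

/-! Determinants on the spaces of invariants. -/

set_option autoImplicit false

namespace Pool.Agent.N19.BR

open Matrix Module Representation
open Pool.Agent.R433.MD (fx)

section
variable {k : Type} [Field k] [CharZero k] {G : Type} [Group G] [Fintype G] {V : Type}
  [AddCommGroup V] [Module k V] [FiniteDimensional k V] (π : Representation k G V)

/-- the matrices of a representation -/
noncomputable def mt {a : ℕ} (b0 : Basis (Fin a) k V) : G →* Matrix (Fin a) (Fin a) k where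
  toFun g := LinearMap.toMatrix b0 b0 (π g)
  map_one' := by rw [map_one]; exact LinearMap.toMatrix_id b0
  map_mul' g h := by
    rw [map_mul]
    exact LinearMap.toMatrix_comp b0 b0 b0 _ _

omit [FiniteDimensional k V] in
/-- the determinant on the invariants of a subgroup -/
theorem det_fix {a : ℕ} (b0 : Basis (Fin a) k V) (T : V →ₗ[k] V) (H : Subgroup G)
    (I : Submodule k V) (hI : ∀ x, x ∈ I ↔ ∀ h ∈ H, π h x = x) {r : ℕ} (b : Basis (Fin r) k I)
    (A : Matrix (Fin r) (Fin r) k) (hA : ∀ j, T (b j) = ∑ l, A l j • (b l : V)) :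
    (1 + (LinearMap.toMatrix b0 b0 T - 1) * pr (mt π b0) H).det = A.det := by
  classical
  let _ : Fintype H := Fintype.ofFinite _
  have hcard : (Nat.card H : k) ≠ 0 := by exact_mod_cast Nat.card_pos.ne'
  have hav : ∀ x : V, (Nat.card H : k)⁻¹ • ∑ h : H, π h x ∈ I := by
    intro x
    rw [hI]
    intro g hg
    rw [map_smul, map_sum, ← Equiv.sum_comp (Equiv.mulLeft (⟨g, hg⟩ : H))
      (fun h : H => π (h : G) x)]
    congr 1
    refine Finset.sum_congr rfl fun h _ => ?_
    change _ = π ((⟨g, hg⟩ * h : H) : G) x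
    rw [Subgroup.coe_mul, map_mul]
    rfl
  let J : I →ₗ[k] V := I.subtype
  let Av : V →ₗ[k] I :=
    { toFun := fun x => ⟨(Nat.card H : k)⁻¹ • ∑ h : H, π h x, hav x⟩
      map_add' := fun x y => Subtype.ext (by
        simp only [Submodule.coe_add, map_add, Finset.sum_add_distrib, smul_add])
      map_smul' := fun c x => Subtype.ext (by
        simp only [Submodule.coe_smul, map_smul, ← Finset.smul_sum, RingHom.id_apply]
        rw [smul_comm]) }
  have hAvJ : Av ∘ₗ J = LinearMap.id := by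
    ext x
    change (Nat.card H : k)⁻¹ • ∑ h : H, π h (x : V) = (x : V)
    have h1 : ∀ h : H, π h (x : V) = (x : V) := fun h => (hI x).1 x.2 h h.2
    rw [Finset.sum_congr rfl fun h _ => h1 h, Finset.sum_const, Finset.card_univ,
      ← Nat.card_eq_fintype_card, ← Nat.cast_smul_eq_nsmul k, smul_smul,
      inv_mul_cancel₀ hcard, one_smul]
  have hJAv : J ∘ₗ Av = (Nat.card H : k)⁻¹ • ∑ h : H, π h := by
    apply LinearMap.ext
    intro x
    change (Nat.card H : k)⁻¹ • ∑ h : H, π h x = ((Nat.card H : k)⁻¹ • (∑ h : H, π h)) x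
    rw [LinearMap.smul_apply, LinearMap.sum_apply]
  set B := LinearMap.toMatrix b b0 J with hB
  set D := LinearMap.toMatrix b0 b Av with hD
  have h1 : D * B = 1 := by
    rw [hD, hB, ← LinearMap.toMatrix_comp b b0 b, hAvJ, LinearMap.toMatrix_id]
  have h2 : B * D = pr (mt π b0) H := by
    rw [hD, hB, ← LinearMap.toMatrix_comp b0 b b0, hJAv]
    unfold pr
    rw [finsum_eq_sum_of_fintype, map_smul, map_sum]
    rfl
  have h3 : LinearMap.toMatrix b0 b0 T * B = B * A := by
    have h4 : T ∘ₗ J = J ∘ₗ (Matrix.toLin b b A) := by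
      apply b.ext
      intro j
      change T (b j : V) = ((Matrix.toLin b b A (b j) : I) : V)
      rw [hA, Matrix.toLin_self]
      push_cast
      rfl
    rw [hB, ← LinearMap.toMatrix_comp b b0 b0, h4, LinearMap.toMatrix_comp b b b0,
      LinearMap.toMatrix_toLin]
  rw [← h2, ← Matrix.mul_assoc, det_one_add_mul_comm, ← Matrix.mul_assoc, Matrix.mul_sub,
    Matrix.mul_one, Matrix.sub_mul, h1, Matrix.mul_assoc, h3, ← Matrix.mul_assoc, h1,
    Matrix.one_mul, add_sub_cancel]

omit [CharZero k] [FiniteDimensional k V] in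
/-- the determinant is not zero -/
theorem det_ne {T : V →ₗ[k] V} (hT : Function.Injective T) (I : Submodule k V) {r : ℕ}
    (b : Basis (Fin r) k I) (A : Matrix (Fin r) (Fin r) k)
    (hA : ∀ j, T (b j) = ∑ l, A l j • (b l : V)) : A.det ≠ 0 := by
  intro h0
  obtain ⟨c, hc, hc0⟩ := Matrix.exists_mulVec_eq_zero_iff.2 h0
  apply hc
  have h1 : T (∑ j, c j • (b j : V)) = 0 := by
    rw [map_sum]
    simp_rw [map_smul, hA, Finset.smul_sum, smul_smul]
    rw [Finset.sum_comm]
    refine Finset.sum_eq_zero fun l _ => ?_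
    rw [← Finset.sum_smul]
    have h2 := congrFun hc0 l
    simp only [Matrix.mulVec, dotProduct, Pi.zero_apply] at h2
    rw [Finset.sum_congr rfl fun j _ => mul_comm (c j) (A l j), h2, zero_smul]
  rw [← map_zero T] at h1
  have h2 := hT h1
  have h3 : ∑ j, c j • b j = 0 := by
    apply Subtype.ext
    push_cast
    exact h2
  exact funext fun j => Fintype.linearIndependent_iff.1 b.linearIndependent c h3 j

/-- **The relation for the determinants on the invariants.** -/
theorem fix_rel {ι : Type} [Fintype ι] (H : ι → Subgroup G) (e : ι → ℤ) (m : ℕ)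
    (h : ∀ g : G, ∑ i, e i * fx (H i) g = m) {T : V →ₗ[k] V} (hT : Function.Injective T)
    (hTc : ∀ g x, T (π g x) = π g (T x)) (I : ι → Submodule k V)
    (hI : ∀ i x, x ∈ I i ↔ ∀ h ∈ H i, π h x = x) {r : ι → ℕ} (b : ∀ i, Basis (Fin (r i)) k (I i))
    (A : ∀ i, Matrix (Fin (r i)) (Fin (r i)) k)
    (hA : ∀ i j, T (b i j) = ∑ l, A i l j • (b i l : V)) (I0 : Submodule k V)
    (hI0 : ∀ x, x ∈ I0 ↔ ∀ h : G, π h x = x) {r0 : ℕ} (b' : Basis (Fin r0) k I0)
    (A' : Matrix (Fin r0) (Fin r0) k) (hA' : ∀ j, T (b' j) = ∑ l, A' l j • (b' l : V)) :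
    A'.det ^ m = ∏ i, (A i).det ^ e i := by
  classical
  let b0 := Module.finBasis k V
  have h1 := det_rel (mt π b0) H e m h (S := LinearMap.toMatrix b0 b0 T - 1) (by
    intro g
    rw [Matrix.sub_mul, Matrix.mul_sub, Matrix.one_mul, Matrix.mul_one]
    congr 1
    change LinearMap.toMatrix b0 b0 T * LinearMap.toMatrix b0 b0 (π g) =
      LinearMap.toMatrix b0 b0 (π g) * LinearMap.toMatrix b0 b0 T
    rw [← LinearMap.toMatrix_comp b0 b0 b0, ← LinearMap.toMatrix_comp b0 b0 b0]
    congr 1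
    exact LinearMap.ext fun x => hTc g x)
  rw [det_fix π b0 T ⊤ I0 (fun x => by simp [hI0]) b' A' hA'] at h1
  simp only [fun i => det_fix π b0 T (H i) (I i) (hI i) (b i) (A i) (hA i)] at h1
  have hne : ∀ i, (A i).det ≠ 0 := fun i => det_ne hT (I i) (b i) (A i) (hA i)
  have h4 : ∏ i, (A i).det ^ e i =
      (∏ i, (A i).det ^ (e i).toNat) / ∏ i, (A i).det ^ (-e i).toNat := by
    rw [← Finset.prod_div_distrib]
    refine Finset.prod_congr rfl fun i _ => ?_
    conv_lhs => rw [← Int.toNat_sub_toNat_neg (e i)]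
    rw [zpow_sub₀ (hne _), zpow_natCast, zpow_natCast]
  have h5 : ∏ i, (A i).det ^ (-e i).toNat ≠ 0 :=
    Finset.prod_ne_zero_iff.2 fun i _ => pow_ne_zero _ (hne _)
  rw [h4, h1]
  field_simp

end

end Pool.Agent.N19.BR
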