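import Pool.Agent.N19.BR.StReg
import Pool.Agent.N19.BR.Lead
import Mathlib.RingTheory.Frobenius
import Mathlib.LinearAlgebra.Matrix.Charpoly.Eigs

/-! Frobenius elements and the Euler factors of Artin L-functions. -/

set_option autoImplicit false

namespace Pool.Agent.N19.BR

open NumberField IsDedekindDomain Module Polynomial
open Pool.Agent.R433.MD
open Pool.Agent.H921R2.TatePole (nm two_le_nm)
open Pool.Agent.N19.BR.SDef
open scoped Pointwise

section
variable {K : Type} [Field K] [NumberField K] {S : Set (HeightOneSpectrum (𝓞 K))}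
  {M : Type} [Field M] [NumberField M] [Algebra K M]

omit [NumberField K] [NumberField M] in
theorem map_eq_smul (σ : Gal(M/K)) (x : 𝓞 M) : act σ x = σ • x := rfl

omit [NumberField K] in
/-- Frobenius elements exist. -/
theorem frob_exists [IsGalois K M] {F : Type} [Field F] [NumberField F] [Algebra K F]
    (f : F →ₐ[K] M) (w : HeightOneSpectrum (𝓞 F)) : ∃ σ, IsFrobenius f w σ := by
  let _ : Algebra F M := (f : F →+* M).toAlgebra
  have _ : IsScalarTower K F M := IsScalarTower.of_algebraMap_eq fun x => (f.commutes x).symm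
  have hg : IsGalois F M := IsGalois.tower_top_of_isGalois K F M
  have hw : w.asIdeal.IsMaximal := w.isMaximal
  obtain ⟨Q, hQ, hQw⟩ := Ideal.exists_ideal_over_maximal_of_isIntegral (S := 𝓞 M) w.asIdeal (by
    rw [(RingHom.injective_iff_ker_eq_bot _).1 (FaithfulSMul.algebraMap_injective (𝓞 F) (𝓞 M))]
    exact bot_le)
  have hQ0 : Q ≠ ⊥ := by
    intro h0
    apply w.ne_bot
    rw [← hQw, h0]
    exact Ideal.comap_bot_of_injective _ (FaithfulSMul.algebraMap_injective (𝓞 F) (𝓞 M))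
  let P : HeightOneSpectrum (𝓞 M) := ⟨Q, hQ.isPrime, hQ0⟩
  have hfin : Finite (𝓞 M ⧸ Q) := fin_v P
  have hQp : Q.IsPrime := hQ.isPrime
  obtain ⟨σ, hσ⟩ := IsArithFrobAt.exists_of_isInvariant (𝓞 F) Gal(M/F) Q
  refine ⟨σ.restrictScalars K, fun x => σ.commutes x, P, hQw, fun x => ?_⟩
  have h1 := hσ x
  have h2 : Nat.card (𝓞 F ⧸ Q.under (𝓞 F)) = Ideal.absNorm w.asIdeal := by
    have h3 : Q.under (𝓞 F) = w.asIdeal := hQw
    rw [h3]
    rfl
  rw [h2] at h1
  exact h1

omit [NumberField K] [NumberField M] in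
/-- powers of a Frobenius element -/
theorem frob_pow {P : HeightOneSpectrum (𝓞 M)} {σ : Gal(M/K)} {q : ℕ}
    (h : ∀ x : 𝓞 M, σ • x - x ^ q ∈ P.asIdeal) (k : ℕ) (x : 𝓞 M) :
    (σ ^ k) • x - x ^ q ^ k ∈ P.asIdeal := by
  induction k with
  | zero => simp
  | succ k ih =>
    have h1 := h (σ ^ k • x)
    rw [← mul_smul, ← pow_succ'] at h1
    have h2 : (σ ^ k • x) ^ q - (x ^ q ^ k) ^ q ∈ P.asIdeal :=
      P.asIdeal.mem_of_dvd (sub_dvd_pow_sub_pow _ _ q) ih
    rw [← pow_mul, ← pow_succ] at h2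
    have h3 := P.asIdeal.add_mem h1 h2
    rwa [sub_add_sub_cancel] at h3

/-- **Comparison of Frobenius elements.** -/
theorem frob_compare [IsGalois K M] {n : ℕ} {ρ : Gal(M/K) →* Matrix (Fin n) (Fin n) ℂ}
    (hρ : Unramified S ρ) {v : HeightOneSpectrum (𝓞 K)} (hv : v ∉ S) {σv : Gal(M/K)}
    (hσv : IsFrobenius (Algebra.ofId K M) v σv) {F : Type} [Field F] [NumberField F] [Algebra K F]
    (f : F →ₐ[K] M) (w : HeightOneSpectrum (𝓞 F)) (hw : und w = v) {k : ℕ}
    (hk : Ideal.absNorm w.asIdeal = Ideal.absNorm v.asIdeal ^ k) {σ : Gal(M/K)}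
    (hσ : IsFrobenius f w σ) (z : ℂ) : (1 - z • ρ σ).det = (1 - z • ρ σv ^ k).det := by
  classical
  obtain ⟨-, P0, hP0, hF0⟩ := hσv
  obtain ⟨-, P, hP, hF⟩ := hσ
  have hP0' : P0.asIdeal.under (𝓞 K) = v.asIdeal := hP0
  have hPv : P.asIdeal.under (𝓞 K) = v.asIdeal := by
    rw [← hw]
    change P.asIdeal.comap (algebraMap (𝓞 K) (𝓞 M)) = w.asIdeal.comap (algebraMap (𝓞 K) (𝓞 F))
    rw [← hP, Ideal.comap_comap]
    congr 1
    exact RingHom.ext fun x => RingOfIntegers.ext (f.commutes (x : K)).symm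
  have hPp := P.isPrime
  have hP0p := P0.isPrime
  obtain ⟨g, hg⟩ := Algebra.IsInvariant.exists_smul_of_under_eq (𝓞 K) (𝓞 M) Gal(M/K)
    P0.asIdeal P.asIdeal (hP0'.trans hPv.symm)
  have hPa : ¬ Above S P := by
    rintro ⟨v', hv', h1⟩
    have h2 : v' = v := HeightOneSpectrum.ext (h1.symm.trans hPv)
    rw [h2] at hv'
    exact hv hv'
  set τ := g * σv * g⁻¹ with hτ
  have hτF : ∀ x : 𝓞 M, τ • x - x ^ Ideal.absNorm v.asIdeal ∈ P.asIdeal := by
    intro x
    have h1 : σv • (g⁻¹ • x) - (g⁻¹ • x) ^ Ideal.absNorm v.asIdeal ∈ P0.asIdeal := hF0 (g⁻¹ • x)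
    have h2 := Ideal.smul_mem_pointwise_smul g _ _ h1
    rw [← hg, smul_sub, smul_pow', smul_inv_smul, ← mul_smul, ← mul_smul] at h2
    exact h2
  have hτk := frob_pow hτF k
  have hη : ρ (τ ^ k * σ⁻¹) = 1 := by
    refine hρ P hPa _ fun x => ?_
    change (τ ^ k * σ⁻¹) • x - x ∈ P.asIdeal
    have h1 := hτk (σ⁻¹ • x)
    have h2 : σ • (σ⁻¹ • x) - (σ⁻¹ • x) ^ Ideal.absNorm w.asIdeal ∈ P.asIdeal := hF (σ⁻¹ • x)
    rw [smul_inv_smul, hk] at h2
    have h3 := P.asIdeal.sub_mem h1 h2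
    rw [sub_sub_sub_cancel_right, ← mul_smul] at h3
    exact h3
  have h1 : ρ σ = ρ g * ρ σv ^ k * ρ g⁻¹ := by
    have h2 : τ ^ k = g * σv ^ k * g⁻¹ := by
      rw [hτ, conj_pow]
    have h3 : ρ (τ ^ k) = ρ σ := by
      have h4 : τ ^ k = (τ ^ k * σ⁻¹) * σ := by group
      rw [h4, map_mul, hη, one_mul]
    rw [← h3, h2, map_mul, map_mul, map_pow]
  have h2 : ρ g * ρ g⁻¹ = 1 := by rw [← map_mul, mul_inv_cancel, map_one]
  have h3 : (1 : Matrix (Fin n) (Fin n) ℂ) - z • ρ σ = ρ g * (1 - z • ρ σv ^ k) * ρ g⁻¹ := by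
    rw [h1, Matrix.mul_sub, Matrix.sub_mul, Matrix.mul_one, h2, Matrix.mul_smul, Matrix.smul_mul]
  rw [h3, Matrix.det_mul, Matrix.det_mul, mul_right_comm, ← Matrix.det_mul, h2, Matrix.det_one,
    one_mul]

/-- the eigenvalues of a matrix of finite order -/
theorem eig_unit {n : ℕ} (A : Matrix (Fin n) (Fin n) ℂ) {m : ℕ} (hm : m ≠ 0) (hA : A ^ m = 1) :
    ∃ α : Fin n → ℂ, (∀ l, ‖α l‖ = 1) ∧ ∀ z : ℂ, (1 - z • A).det = ∏ l, (1 - α l * z) := by
  classical
  have hs : A.charpoly.Splits := IsAlgClosed.splits _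
  have hr : A.charpoly = (A.charpoly.roots.map fun a => (Polynomial.X : ℂ[X]) - C a).prod :=
    hs.eq_prod_roots_of_monic A.charpoly_monic
  have hc : Multiset.card A.charpoly.roots = n := by
    rw [← hs.natDegree_eq_card_roots, Matrix.charpoly_natDegree_eq_dim, Fintype.card_fin]
  obtain ⟨l, hl⟩ := Quot.exists_rep A.charpoly.roots
  have hl' : (l : Multiset ℂ) = A.charpoly.roots := hl
  have hlen : l.length = n := by
    rw [← hc, ← hl', Multiset.coe_card]
  subst hlen
  refine ⟨fun i => l.get i, fun i => ?_, fun z => ?_⟩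
  · have h1 : l.get i ∈ A.charpoly.roots := by
      rw [← hl']
      exact List.get_mem l i
    have h2 := (mem_roots A.charpoly_monic.ne_zero).1 h1
    rw [IsRoot.def, Matrix.eval_charpoly] at h2
    obtain ⟨x, hx, hx0⟩ := Matrix.exists_mulVec_eq_zero_iff.2 h2
    rw [Matrix.sub_mulVec, sub_eq_zero, Matrix.scalar_apply, ← Matrix.smul_one_eq_diagonal,
      Matrix.smul_mulVec, Matrix.one_mulVec] at hx0
    have h3 : ∀ k : ℕ, (A ^ k).mulVec x = (l.get i) ^ k • x := by
      intro k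
      induction k with
      | zero => simp
      | succ k ih =>
        rw [pow_succ, ← Matrix.mulVec_mulVec, ← hx0, Matrix.mulVec_smul, ih, smul_smul, pow_succ,
          mul_comm]
    have h4 := h3 m
    rw [hA, Matrix.one_mulVec] at h4
    have h5 : (l.get i) ^ m = 1 := by
      by_contra h6
      apply hx
      have h7 : ((l.get i) ^ m - 1) • x = 0 := by
        rw [sub_smul, one_smul, ← h4, sub_self]
      exact (smul_eq_zero.1 h7).resolve_left (sub_ne_zero.2 h6)
    exact Complex.norm_eq_one_of_pow_eq_one h5 hm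
  · have h0 : ∏ i : Fin l.length, (1 - l.get i * z) = (l.map fun a => 1 - a * z).prod := by
      rw [← List.prod_ofFn]
      congr 1
      refine List.ext_get (by simp) fun i h1 h2 => ?_
      simp
    rw [h0]
    by_cases hz : z = 0
    · subst hz
      simp
    · have h1 : (1 : Matrix (Fin l.length) (Fin l.length) ℂ) - z • A =
          z • (Matrix.scalar (Fin l.length) z⁻¹ - A) := by
        rw [smul_sub, Matrix.scalar_apply, ← Matrix.smul_one_eq_diagonal, smul_smul,
          mul_inv_cancel₀ hz, one_smul]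
      rw [h1, Matrix.det_smul, ← Matrix.eval_charpoly, hr, eval_multiset_prod, ← hl']
      simp only [Multiset.map_coe, Multiset.prod_coe, List.map_map, Fintype.card_fin]
      have h2 : ∀ l : List ℂ, z ^ l.length * (l.map (eval z⁻¹ ∘ fun a => (Polynomial.X : ℂ[X]) - C a)).prod =
          (l.map fun a => 1 - a * z).prod := by
        intro l
        induction l with
        | nil => simp
        | cons a l ih =>
          rw [List.map_cons, List.prod_cons, List.map_cons, List.prod_cons, ← ih, List.length_cons]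
          simp only [Function.comp_apply, eval_sub, Polynomial.eval_X, eval_C]
          have h3 : 1 - a * z = z * (z⁻¹ - a) := by
            rw [mul_sub, mul_inv_cancel₀ hz]
            ring
          rw [h3, pow_succ]
          ring
      exact h2 l

end

end Pool.Agent.N19.BR
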