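import Pool.Agent.N19.BR.StDet
import Pool.Agent.N19.BR.StDefs
import Pool.Agent.N19.BR.Gal

/-! The module `ℂ ⊗ X` with the action of the Galois group, and Stark's regulators. -/

set_option autoImplicit false

namespace Pool.Agent.N19.BR

open NumberField IsDedekindDomain Module
open Pool.Agent.R433.MD
open Pool.Agent.N19.BR.SDef

/-- bases of a subspace, abstractly -/
theorem basis_iff {k V W : Type} [Field k] [AddCommGroup V] [Module k V] [AddCommGroup W]
    [Module k W] (J : V →ₗ[k] W) (hJ : Function.Injective J) (I : Submodule k V) {P : W → Prop}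
    (hP : ∀ w, P w ↔ ∃ u ∈ I, J u = w) (T' : V →ₗ[k] V) (Tw : W → W)
    (hT : ∀ u, J (T' u) = Tw (J u)) {R : k} :
    (∃ (r : ℕ) (b : Fin r → W) (A : Matrix (Fin r) (Fin r) k), LinearIndependent k b ∧
      (∀ u, u ∈ Submodule.span k (Set.range b) ↔ P u) ∧
      (∀ j, Tw (b j) = ∑ l, A l j • b l) ∧ A.det = R) ↔
    ∃ (r : ℕ) (b : Basis (Fin r) k I) (A : Matrix (Fin r) (Fin r) k),
      (∀ j, T' (b j) = ∑ l, A l j • (b l : V)) ∧ A.det = R := by
  constructor
  · rintro ⟨r, b, A, hb, hspan, hA, hdet⟩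
    have hmem : ∀ j, ∃ u ∈ I, J u = b j := fun j =>
      (hP _).1 ((hspan (b j)).1 (Submodule.subset_span ⟨j, rfl⟩))
    choose c hcI hc using hmem
    have hc' : (J ∘ c) = b := funext hc
    have hli : LinearIndependent k c := by
      apply LinearIndependent.of_comp J
      rw [hc']
      exact hb
    have hli' : LinearIndependent k (fun j => (⟨c j, hcI j⟩ : I)) :=
      LinearIndependent.of_comp I.subtype hli
    have hsp : ⊤ ≤ Submodule.span k (Set.range fun j => (⟨c j, hcI j⟩ : I)) := by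
      rintro u -
      have h1 : J (u : V) ∈ Submodule.span k (Set.range b) :=
        (hspan _).2 ((hP _).2 ⟨u, u.2, rfl⟩)
      obtain ⟨a, ha⟩ := (Submodule.mem_span_range_iff_exists_fun k).1 h1
      rw [Submodule.mem_span_range_iff_exists_fun]
      refine ⟨a, Subtype.ext (hJ ?_)⟩
      rw [← ha, AddSubmonoidClass.coe_finsetSum, map_sum]
      refine Finset.sum_congr rfl fun j _ => ?_
      rw [Submodule.coe_smul, map_smul, hc]
    refine ⟨r, Basis.mk hli' hsp, A, fun j => ?_, hdet⟩
    simp only [Basis.mk_apply]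
    apply hJ
    rw [hT, hc, hA, map_sum]
    refine Finset.sum_congr rfl fun l _ => ?_
    rw [map_smul, hc]
  · rintro ⟨r, b, A, hA, hdet⟩
    refine ⟨r, fun j => J (b j), A, ?_, fun w => ?_, fun j => ?_, hdet⟩
    · have h1 : LinearIndependent k (fun j => (b j : V)) :=
        b.linearIndependent.map' I.subtype (LinearMap.ker_eq_bot.2 Subtype.val_injective)
      exact h1.map' J (LinearMap.ker_eq_bot.2 hJ)
    · rw [Submodule.mem_span_range_iff_exists_fun, hP]
      constructor
      · rintro ⟨a, rfl⟩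
        refine ⟨((∑ j, a j • b j : I) : V), (∑ j, a j • b j : I).2, ?_⟩
        rw [AddSubmonoidClass.coe_finsetSum, map_sum]
        refine Finset.sum_congr rfl fun j _ => ?_
        rw [Submodule.coe_smul, map_smul]
      · rintro ⟨u, hu, rfl⟩
        refine ⟨fun j => b.repr ⟨u, hu⟩ j, ?_⟩
        have h1 := congrArg (fun x : I => J (x : V)) (b.sum_repr ⟨u, hu⟩)
        simp only [AddSubmonoidClass.coe_finsetSum, map_sum, Submodule.coe_smul, map_smul] at h1
        exact h1
    · rw [← hT, hA, map_sum]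
      refine Finset.sum_congr rfl fun l _ => ?_
      rw [map_smul]

section
variable {K : Type} [Field K] {S : Set (HeightOneSpectrum (𝓞 K))}
  {M : Type} [Field M] [Algebra K M]

/-- `ℂ ⊗ X` -/
def XX (S : Set (HeightOneSpectrum (𝓞 K))) (M : Type) [Field M] [Algebra K M] :
    Submodule ℂ (Place S M → ℂ) where
  carrier := {x | InX x}
  zero_mem' := ⟨by simp, by simp⟩
  add_mem' := fun {x y} hx hy => ⟨(hx.1.union hy.1).subset (Function.support_add x y), by
    change ∑ᶠ w, (x w + y w) = 0
    rw [finsum_add_distrib hx.1 hy.1, hx.2, hy.2, add_zero]⟩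
  smul_mem' := fun c x hx => ⟨hx.1.subset (Function.support_const_smul_subset c x), by
    change ∑ᶠ w, c • x w = 0
    rw [← smul_finsum, hx.2, smul_zero]⟩

theorem mem_XX (x : Place S M → ℂ) : x ∈ XX S M ↔ InX x := Iff.rfl

theorem movePrime_one (P : HeightOneSpectrum (𝓞 M)) : movePrime (1 : Gal(M/K)) P = P := by
  apply HeightOneSpectrum.ext
  ext x
  change act (1 : Gal(M/K))⁻¹ x ∈ P.asIdeal ↔ _
  have h1 : act (1 : Gal(M/K))⁻¹ x = x := by
    apply RingOfIntegers.ext
    change ((1 : Gal(M/K))⁻¹ : Gal(M/K)) (x : M) = x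
    rw [inv_one]
    rfl
  rw [h1]

theorem movePrime_mul (σ τ : Gal(M/K)) (P : HeightOneSpectrum (𝓞 M)) :
    movePrime (σ * τ) P = movePrime σ (movePrime τ P) := by
  apply HeightOneSpectrum.ext
  ext x
  change act (σ * τ)⁻¹ x ∈ P.asIdeal ↔ act τ⁻¹ (act σ⁻¹ x) ∈ P.asIdeal
  have h1 : act (σ * τ)⁻¹ x = act τ⁻¹ (act σ⁻¹ x) := by
    apply RingOfIntegers.ext
    change ((σ * τ)⁻¹ : Gal(M/K)) (x : M) = (τ⁻¹ : Gal(M/K)) ((σ⁻¹ : Gal(M/K)) (x : M))
    rw [mul_inv_rev]
    rfl
  rw [h1]

theorem move_one (w : Place S M) : move (1 : Gal(M/K)) w = w := by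
  rcases w with w | P
  · exact congrArg Sum.inl (one_smul _ w)
  · exact congrArg Sum.inr (Subtype.ext (movePrime_one P.1))

theorem move_mul (σ τ : Gal(M/K)) (w : Place S M) : move (σ * τ) w = move σ (move τ w) := by
  rcases w with w | P
  · exact congrArg Sum.inl (mul_smul σ τ w)
  · exact congrArg Sum.inr (Subtype.ext (movePrime_mul σ τ P.1))

/-- the permutation of the places -/
def mv (σ : Gal(M/K)) : Equiv.Perm (Place S M) where
  toFun := move σ
  invFun := move σ⁻¹
  left_inv w := by rw [← move_mul, inv_mul_cancel, move_one]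
  right_inv w := by rw [← move_mul, mul_inv_cancel, move_one]

theorem inX_move (σ : Gal(M/K)) {x : Place S M → ℂ} (hx : InX x) : InX (x ∘ move σ) :=
  ⟨hx.1.preimage (mv (S := S) σ).injective.injOn, (finsum_comp_equiv (mv σ) (f := x)).trans hx.2⟩

/-- the action on `ℂ ⊗ X` -/
def gal (σ : Gal(M/K)) : XX S M →ₗ[ℂ] XX S M where
  toFun x := ⟨(x : Place S M → ℂ) ∘ move σ⁻¹, inX_move σ⁻¹ x.2⟩
  map_add' _ _ := rfl
  map_smul' _ _ := rfl

theorem gal_mul (σ τ : Gal(M/K)) (x : XX S M) : gal (σ * τ) x = gal σ (gal τ x) := by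
  apply Subtype.ext
  funext w
  change (x : Place S M → ℂ) (move (σ * τ)⁻¹ w) = (x : Place S M → ℂ) (move τ⁻¹ (move σ⁻¹ w))
  rw [mul_inv_rev, move_mul]

theorem gal_one (x : XX S M) : gal (1 : Gal(M/K)) x = x := by
  apply Subtype.ext
  funext w
  change (x : Place S M → ℂ) (move (1 : Gal(M/K))⁻¹ w) = (x : Place S M → ℂ) w
  rw [inv_one, move_one]

variable {n : ℕ} (ρ : Gal(M/K) →* Matrix (Fin n) (Fin n) ℂ)

/-- the representation on `V ⊗ X` -/
noncomputable def tens (S : Set (HeightOneSpectrum (𝓞 K))) :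
    Representation ℂ Gal(M/K) (Fin n → XX S M) where
  toFun σ :=
    { toFun := fun u i => ∑ j, ρ σ i j • gal σ (u j)
      map_add' := fun u u' => by
        ext i : 1
        simp only [Pi.add_apply, map_add, smul_add, Finset.sum_add_distrib]
      map_smul' := fun c u => by
        ext i : 1
        simp only [Pi.smul_apply, map_smul, RingHom.id_apply]
        rw [Finset.smul_sum]
        exact Finset.sum_congr rfl fun j _ => smul_comm _ _ _ }
  map_one' := by
    apply LinearMap.ext
    intro u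
    funext i
    change ∑ j, ρ 1 i j • gal 1 (u j) = u i
    simp only [map_one, gal_one, Matrix.one_apply, ite_smul, one_smul, zero_smul]
    rw [Finset.sum_ite_eq]
    simp
  map_mul' σ τ := by
    apply LinearMap.ext
    intro u
    funext i
    change ∑ j, ρ (σ * τ) i j • gal (σ * τ) (u j) =
      ∑ j, ρ σ i j • gal σ (∑ l, ρ τ j l • gal τ (u l))
    simp only [map_sum, map_smul, gal_mul, map_mul, Matrix.mul_apply, Finset.sum_smul,
      Finset.smul_sum, smul_smul]
    rw [Finset.sum_comm]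

/-- `T` on `V ⊗ X` -/
noncomputable def tensMap (n : ℕ) (T : XX S M →ₗ[ℂ] XX S M) :
    (Fin n → XX S M) →ₗ[ℂ] (Fin n → XX S M) where
  toFun u i := T (u i)
  map_add' u u' := by
    ext i : 1
    simp
  map_smul' c u := by
    ext i : 1
    simp

theorem tensMap_comm {T : XX S M →ₗ[ℂ] XX S M}
    (hT : ∀ (σ : Gal(M/K)) (x : XX S M), T (gal σ x) = gal σ (T x)) (σ : Gal(M/K))
    (u : Fin n → XX S M) : tensMap n T (tens ρ S σ u) = tens ρ S σ (tensMap n T u) := by
  funext i
  change T (∑ j, ρ σ i j • gal σ (u j)) = ∑ j, ρ σ i j • gal σ (T (u j))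
  simp only [map_sum, map_smul, hT]

theorem tensMap_inj {T : XX S M →ₗ[ℂ] XX S M} (hT : Function.Injective T) :
    Function.Injective (tensMap n T) := by
  intro u u' h
  funext i
  exact hT (congrFun h i)

variable {F : Type} [Field F] [Algebra K F] (f : F →ₐ[K] M)

theorem mem_fixing (σ : Gal(M/K)) : σ ∈ f.fieldRange.fixingSubgroup ↔ ∀ x : F, σ (f x) = f x := by
  rw [IntermediateField.mem_fixingSubgroup_iff]
  constructor
  · intro h x
    exact h _ ⟨x, rfl⟩
  · rintro h _ ⟨x, rfl⟩
    exact h x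

/-- the invariants -/
noncomputable def hm (S : Set (HeightOneSpectrum (𝓞 K))) : Submodule ℂ (Fin n → XX S M) where
  carrier := {u | ∀ σ ∈ f.fieldRange.fixingSubgroup, tens ρ S σ u = u}
  zero_mem' := fun σ _ => map_zero _
  add_mem' := fun {u u'} hu hu' σ hσ => by rw [map_add, hu σ hσ, hu' σ hσ]
  smul_mem' := fun c u hu σ hσ => by rw [map_smul, hu σ hσ]

theorem mem_hm (u : Fin n → XX S M) : u ∈ hm ρ f S ↔
    ∀ σ ∈ f.fieldRange.fixingSubgroup, tens ρ S σ u = u := Iff.rfl

theorem mem_hm_iff (u : Fin n → XX S M) : u ∈ hm ρ f S ↔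
    InHoms S ρ f (fun i => (u i : Place S M → ℂ)) := by
  constructor
  · intro h
    refine ⟨fun i => (u i).2, fun σ hσ i w => ?_⟩
    have h1 := congrFun (h σ ((mem_fixing f σ).2 hσ)) i
    have h2 := congrFun (congrArg Subtype.val h1) (move σ w)
    refine Eq.trans ?_ h2
    change _ = ((∑ j, ρ σ i j • gal σ (u j) : XX S M) : Place S M → ℂ) (move σ w)
    rw [AddSubmonoidClass.coe_finsetSum, Finset.sum_apply]
    refine Finset.sum_congr rfl fun j _ => ?_
    change _ = ρ σ i j * (u j : Place S M → ℂ) (move σ⁻¹ (move σ w))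
    rw [← move_mul, inv_mul_cancel, move_one]
  · intro h σ hσ
    funext i
    apply Subtype.ext
    funext w
    change ((∑ j, ρ σ i j • gal σ (u j) : XX S M) : Place S M → ℂ) w = _
    rw [AddSubmonoidClass.coe_finsetSum, Finset.sum_apply]
    have h1 := h.2 σ ((mem_fixing f σ).1 hσ) i (move σ⁻¹ w)
    rw [← move_mul, mul_inv_cancel, move_one] at h1
    exact h1

/-- the inclusion of `V ⊗ X` in the functions -/
def incl (n : ℕ) : (Fin n → XX S M) →ₗ[ℂ] (Fin n → Place S M → ℂ) where
  toFun u i := (u i : Place S M → ℂ)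
  map_add' _ _ := rfl
  map_smul' _ _ := rfl

theorem incl_inj : Function.Injective (incl (S := S) (M := M) n) := by
  intro u u' h
  funext i
  exact Subtype.ext (congrFun h i)

/-- **Regulators and bases.** -/
theorem regulator_iff {T : (Place S M → ℂ) →ₗ[ℂ] (Place S M → ℂ)}
    (T' : XX S M →ₗ[ℂ] XX S M) (hT : ∀ x, ((T' x : XX S M) : Place S M → ℂ) = T x) {R : ℂ} :
    IsRegulator S ρ T f R ↔ ∃ (r : ℕ) (b : Basis (Fin r) ℂ (hm ρ f S))
      (A : Matrix (Fin r) (Fin r) ℂ), (∀ j, tensMap n T' (b j) =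
        ∑ l, A l j • (b l : Fin n → XX S M)) ∧ A.det = R := by
  have key := basis_iff (incl (S := S) (M := M) n) incl_inj (hm ρ f S)
    (P := fun u => InHoms S ρ f u) (fun w => by
      constructor
      · intro hw
        exact ⟨fun i => ⟨w i, hw.1 i⟩, (mem_hm_iff ρ f _).2 hw, rfl⟩
      · rintro ⟨u, hu, rfl⟩
        exact (mem_hm_iff ρ f u).1 hu) (tensMap n T') (fun u i => T (u i)) (fun u => by
      funext i
      exact hT (u i)) (R := R)
  rw [← key]
  unfold IsRegulator
  refine exists_congr fun r => exists_congr fun b => exists_congr fun A => ?_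
  refine and_congr_right fun _ => and_congr_right fun _ => and_congr_left fun _ => ?_
  refine forall_congr' fun j => ?_
  constructor
  · intro h
    funext i
    rw [Finset.sum_apply]
    exact h i
  · intro h i
    have h1 := congrFun h i
    rw [Finset.sum_apply] at h1
    exact h1

end

end Pool.Agent.N19.BR
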