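import Pool.Agent.N19.BR.StInt

/-! The relation for Stark's regulators. -/

set_option autoImplicit false

namespace Pool.Agent.N19.BR

open NumberField IsDedekindDomain Module
open Pool.Agent.R433.MD
open Pool.Agent.N19.BR.SDef

section
variable {K : Type} [Field K] [NumberField K] {S : Set (HeightOneSpectrum (𝓞 K))}

theorem above_iff {F : Type} [Field F] [NumberField F] [Algebra K F]
    (w : HeightOneSpectrum (𝓞 F)) : Above S w ↔ und (K := K) w ∈ S := by
  constructor
  · rintro ⟨v, hv, h⟩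
    have h1 : und (K := K) w = v := HeightOneSpectrum.ext h
    rwa [h1]
  · intro h
    exact ⟨_, h, rfl⟩

variable {M : Type} [Field M] [NumberField M] [Algebra K M]

theorem finite_place (hS : S.Finite) : Finite (Place S M) := by
  have h1 : {P : HeightOneSpectrum (𝓞 M) | Above S P}.Finite := by
    have h2 : {P : HeightOneSpectrum (𝓞 M) | Above S P} =
        (und (K := K) (F := M)) ⁻¹' S := by
      ext P
      exact above_iff P
    rw [h2]
    exact hS.preimage' fun v _ => Set.finite_coe_iff.1 (finite_fib (F := M) v)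
  have h3 : Finite {P : HeightOneSpectrum (𝓞 M) // Above S P} := Set.finite_coe_iff.2 h1
  infer_instance

theorem finiteDimensional_X (hS : S.Finite) : FiniteDimensional ℂ (XX S M) := by
  have := finite_place (M := M) hS
  infer_instance

variable {n : ℕ} (ρ : Gal(M/K) →* Matrix (Fin n) (Fin n) ℂ)

/-- **The relation for the regulators.** -/
theorem regulator_rel_stark [IsGalois K M] (hS : S.Finite) {ι : Type} [Fintype ι] {Z : ι → Ext K}
    {e : ι → ℤ} {m : ℕ} (h : IsRel K Z e m) (f : ∀ i, (Z i).F →ₐ[K] M)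
    {T : (Place S M → ℂ) →ₗ[ℂ] (Place S M → ℂ)} (hT : IsStarkMap S T)
    {R : ι → ℂ} (hR : ∀ i, IsRegulator S ρ T (f i) (R i)) :
    (∀ i, R i ≠ 0) ∧ ∃ R0, IsRegulator S ρ T (Algebra.ofId K M) R0 ∧
      R0 ≠ 0 ∧ R0 ^ m = ∏ i, R i ^ e i := by
  classical
  have hfd := finiteDimensional_X (M := M) hS
  let T' : XX S M →ₗ[ℂ] XX S M := T.restrict fun x hx => hT.1 x hx
  have hT' : ∀ x, ((T' x : XX S M) : Place S M → ℂ) = T x := fun x => rfl
  have hTi : Function.Injective T' := by
    rw [injective_iff_map_eq_zero]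
    intro x hx
    apply Subtype.ext
    exact hT.2.1 x x.2 (by rw [← hT', hx]; rfl)
  have hTc : ∀ (σ : Gal(M/K)) (x : XX S M), T' (gal σ x) = gal σ (T' x) := by
    intro σ x
    apply Subtype.ext
    exact hT.2.2.1 σ⁻¹ x x.2
  choose r b A hA hdet using fun i => (regulator_iff ρ (f i) T' hT').1 (hR i)
  have hrel := fx_of_isRel h f
  have hinj := tensMap_inj (n := n) hTi
  -- over the base
  have hT0 : ∀ u ∈ hm ρ (Algebra.ofId K M) S, tensMap n T' u ∈ hm ρ (Algebra.ofId K M) S := by
    intro u hu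
    rw [mem_hm] at hu ⊢
    intro σ hσ
    rw [← tensMap_comm ρ hTc, hu σ hσ]
  have hfree : Module.Free ℂ (hm ρ (Algebra.ofId K M) S) :=
    Module.Free.of_divisionRing ℂ (hm ρ (Algebra.ofId K M) S)
  let b0 := Module.finBasis ℂ (hm ρ (Algebra.ofId K M) S)
  let T0 := (tensMap n T').restrict hT0
  let A0 := LinearMap.toMatrix b0 b0 T0
  have hA0 : ∀ j, tensMap n T' (b0 j) = ∑ l, A0 l j • (b0 l : Fin n → XX S M) := by
    intro j
    have h1 := b0.sum_repr (T0 (b0 j))
    have h2 := congrArg Subtype.val h1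
    have h3 : ((T0 (b0 j) : hm ρ (Algebra.ofId K M) S) : Fin n → XX S M) =
        tensMap n T' (b0 j) := rfl
    rw [h3] at h2
    rw [← h2]
    push_cast
    refine Finset.sum_congr rfl fun l _ => ?_
    congr 1
    exact (LinearMap.toMatrix_apply b0 b0 T0 l j).symm
  have htop : ∀ σ : Gal(M/K), σ ∈ (Algebra.ofId K M).fieldRange.fixingSubgroup := by
    intro σ
    rw [mem_fixing]
    exact fun x => σ.commutes x
  refine ⟨fun i => ?_, A0.det, (regulator_iff ρ (Algebra.ofId K M) T' hT').2 ⟨_, b0, A0, hA0, rfl⟩,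
    ?_, ?_⟩
  · rw [← hdet i]
    exact det_ne hinj _ (b i) (A i) (hA i)
  · exact det_ne hinj _ b0 A0 hA0
  · rw [fix_rel (tens ρ S) (fun i => (f i).fieldRange.fixingSubgroup) e m hrel hinj
      (tensMap_comm ρ hTc) (fun i => hm ρ (f i) S) (fun i u => mem_hm ρ (f i) u) b A hA
      (hm ρ (Algebra.ofId K M) S) (fun u => by
        rw [mem_hm]
        exact ⟨fun h g => h g (htop g), fun h g _ => h g⟩) b0 A0 hA0]
    exact Finset.prod_congr rfl fun i _ => congrArg (· ^ e i) (hdet i)

end

end Pool.Agent.N19.BR
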