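import Pool.Agent.N19.BR.Sub
import Pool.Agent.W353.TD.Main

/-! Relations and Tate's formula for the order of the pole. -/

set_option autoImplicit false

namespace Pool.Agent.N19.BR

open NumberField IsDedekindDomain Filter Topology Polynomial
open Pool.Agent.R433.MD (Ext)
open Pool.Agent.W353.EF (IsEulerSystem size perm meanAbs)
open Pool.Agent.W353.TD

section
variable {K : Type} [Field K] [NumberField K]

theorem cnt_bot (σ : Gal(AlgebraicClosure K/K)) :
    cnt (⊥ : IntermediateField K (AlgebraicClosure K)) σ = 1 := by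
  rw [← cnt_copy (IntermediateField.botEquiv K (AlgebraicClosure K)).symm σ, cnt,
    Nat.card_eq_one_iff_exists]
  refine ⟨⟨Algebra.ofId K _, fun x => σ.commutes x⟩, fun τ => Subtype.ext ?_⟩
  exact Subsingleton.elim _ _

theorem card_perm (F : IntermediateField K (AlgebraicClosure K)) (σ : Gal(AlgebraicClosure K/K)) :
    Nat.card {i : F →ₐ[K] AlgebraicClosure K // perm K F σ i = i} = cnt F σ := by
  refine Nat.card_congr (Equiv.subtypeEquivRight fun i => ?_)
  constructor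
  · intro h x
    exact DFunLike.congr_fun h x
  · intro h
    ext x
    exact h x

variable {r : ℕ} {Z : Fin r → Ext K} {e : Fin r → ℤ} {m₀ : ℕ}

/-- the fields -/
noncomputable def flds (Z : Fin r → Ext K) : Fin (r + 1) → IntermediateField K (AlgebraicClosure K) :=
  Fin.cons ⊥ (fun i => img (Z i))

/-- the coefficients -/
noncomputable def cfs (e : Fin r → ℤ) (m₀ : ℕ) : Fin (r + 1) → ℝ :=
  Fin.cons (-(m₀ : ℝ)) (fun i => (e i : ℝ))

theorem meanAbs_zero (h : IsRel K Z e m₀) :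
    meanAbs K (fun k => flds Z k) (cfs e m₀) = 0 := by
  unfold meanAbs
  rw [finsum_eq_zero_of_forall_eq_zero, mul_zero]
  rintro ⟨g, σ, rfl⟩
  rw [abs_eq_zero]
  have h1 : ∀ k, (Nat.card {i : flds Z k →ₐ[K] AlgebraicClosure K //
      (MonoidHom.pi fun k => perm K (flds Z k)) σ k i = i} : ℝ) = (cnt (flds Z k) σ : ℝ) := by
    intro k
    exact_mod_cast card_perm (flds Z k) σ
  have h2 : ∑ k, cfs e m₀ k * (cnt (flds Z k) σ : ℝ) = 0 := by
    rw [Fin.sum_univ_succ]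
    have h3 := isRel_img h σ
    have h4 : ((∑ i, e i * (cnt (img (Z i)) σ : ℤ) : ℤ) : ℝ) = (m₀ : ℝ) := by
      rw [h3]
      push_cast
      rfl
    push_cast at h4
    have h5 : (cnt (flds Z 0) σ : ℝ) = 1 := by
      have h6 : cnt (flds Z 0) σ = 1 := cnt_bot σ
      rw [h6, Nat.cast_one]
    have h7 : ∑ i : Fin r, cfs e m₀ i.succ * (cnt (flds Z i.succ) σ : ℝ) = (m₀ : ℝ) := h4
    rw [h7, h5]
    change -(m₀ : ℝ) * 1 + (m₀ : ℝ) = 0
    ring
  rw [← h2]
  exact Finset.sum_congr rfl fun k _ => by rw [h1 k]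

variable {n d m N : ℕ} {X : Set (MvPolynomial (Fin n) (𝓞 K))} {V : Type} [AddCommGroup V]
  [Module ℚ V] [FiniteDimensional ℚ V] {ρ : Representation ℚ Gal(AlgebraicClosure K/K) V}

/-- **Relations between the values.** -/
theorem size_rel (h : IsRel K Z e m₀) (hm : m ≤ d) (hV : IsPart X d m N ρ)
    [NumberField (⊥ : IntermediateField K (AlgebraicClosure K))]
    (B : ∀ i, HeightOneSpectrum (𝓞 (img (Z i))) → ℂ[X])
    (B₀ : HeightOneSpectrum (𝓞 (⊥ : IntermediateField K (AlgebraicClosure K))) → ℂ[X])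
    (hB : ∀ i, IsEulerSystem X d (2 * m) N (B i)) (hB₀ : IsEulerSystem X d (2 * m) N B₀) :
    Tendsto (fun ε : ℝ => ∑ i, (e i : ℝ) * (size (2 * m) (B i) ε - rank ρ (img (Z i))) -
      m₀ * (size (2 * m) B₀ ε - rank ρ ⊥)) (𝓝[>] 0) (𝓝 0) := by
  obtain ⟨n₀, hall⟩ := all (N - Module.finrank ℚ V)
  have hrel := (hall K n d m N X V ρ hm rfl hV).2.1.1
  have hnf : ∀ k, NumberField (flds Z k) := by
    intro k
    refine Fin.cases ?_ (fun i => ?_) k
    · exact ‹NumberField (⊥ : IntermediateField K (AlgebraicClosure K))›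
    · exact img_nf (Z i)
  let BB : ∀ k, HeightOneSpectrum (𝓞 (flds Z k)) → ℂ[X] := fun k =>
    Fin.cases (motive := fun k => HeightOneSpectrum (𝓞 (flds Z k)) → ℂ[X]) B₀ (fun i => B i) k
  have hBB : ∀ k, IsEulerSystem X d (2 * m) N (BB k) := by
    intro k
    refine Fin.cases ?_ (fun i => ?_) k
    · exact hB₀
    · exact hB i
  rw [Metric.tendsto_nhds]
  intro η hη
  have h1 := hrel (r + 1) (flds Z) (cfs e m₀) BB hBB (η / 2) (half_pos hη)
  filter_upwards [h1] with ε hε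
  rw [meanAbs_zero h, mul_zero, zero_add, Fin.sum_univ_succ] at hε
  rw [Real.dist_eq, sub_zero]
  have h2 : |-(m₀ : ℝ) * (size (2 * m) B₀ ε - rank ρ ⊥) +
      ∑ i, (e i : ℝ) * (size (2 * m) (B i) ε - rank ρ (img (Z i)))| ≤ η / 2 := hε
  have h3 : ∑ i, (e i : ℝ) * (size (2 * m) (B i) ε - rank ρ (img (Z i))) -
      m₀ * (size (2 * m) B₀ ε - rank ρ ⊥) = -(m₀ : ℝ) * (size (2 * m) B₀ ε - rank ρ ⊥) +
      ∑ i, (e i : ℝ) * (size (2 * m) (B i) ε - rank ρ (img (Z i))) := by ring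
  rw [h3]
  linarith

/-- **Relations between the defects.** -/
theorem defect_rel (hm₀ : m₀ ≠ 0) (h : IsRel K Z e m₀) (hm : m ≤ d) (hV : IsPart X d m N ρ)
    {δ : Fin r → ℤ} (hδ : ∀ i, Defect X d m N ρ (img (Z i)) (δ i))
    [NumberField (⊥ : IntermediateField K (AlgebraicClosure K))]
    (B₀ : HeightOneSpectrum (𝓞 (⊥ : IntermediateField K (AlgebraicClosure K))) → ℂ[X])
    (hB₀ : IsEulerSystem X d (2 * m) N B₀) :
    Tendsto (size (2 * m) B₀) (𝓝[>] 0)
      (𝓝 ((rank ρ ⊥ : ℝ) - (∑ i, (e i : ℝ) * δ i) / m₀)) := by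
  have hδ' : ∀ i, ∃ B : HeightOneSpectrum (𝓞 (img (Z i))) → ℂ[X], IsEulerSystem X d (2 * m) N B ∧
      Tendsto (size (2 * m) B) (𝓝[>] 0) (𝓝 ((rank ρ (img (Z i)) : ℝ) - δ i)) := by
    intro i
    obtain ⟨h1, B, h2, h3⟩ := hδ i
    exact ⟨B, h2, h3⟩
  choose B hB hlim using hδ'
  have h1 := size_rel h hm hV B B₀ hB hB₀
  have h2 : Tendsto (fun ε : ℝ => ∑ i, (e i : ℝ) * (size (2 * m) (B i) ε - rank ρ (img (Z i))))
      (𝓝[>] 0) (𝓝 (∑ i, (e i : ℝ) * (((rank ρ (img (Z i)) : ℝ) - δ i) - rank ρ (img (Z i))))) :=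
    tendsto_finsetSum _ fun i _ => ((hlim i).sub tendsto_const_nhds).const_mul _
  have h3 := h2.sub h1
  have hm0' : (m₀ : ℝ) ≠ 0 := by exact_mod_cast hm₀
  have h4 := (h3.div_const (m₀ : ℝ)).add_const (rank ρ ⊥ : ℝ)
  refine (h4.congr fun ε => ?_).trans (le_of_eq ?_)
  · field_simp
    ring
  · congr 1
    have h5 : ∑ i, (e i : ℝ) * (((rank ρ (img (Z i)) : ℝ) - δ i) - rank ρ (img (Z i))) =
        -∑ i, (e i : ℝ) * δ i := by
      rw [← Finset.sum_neg_distrib]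
      exact Finset.sum_congr rfl fun i _ => by ring
    rw [h5]
    ring

end

end Pool.Agent.N19.BR
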