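import Pool.Agent.N19.BR.TwDefs
import Pool.Agent.N19.BR.StMain
import Pool.Agent.N19.BR.InvRel

/-! Relations between twisted L-functions. -/

set_option autoImplicit false

namespace Pool.Agent.N19.BR

open NumberField IsDedekindDomain Filter Topology Polynomial Module
open Pool.Agent.R433.MD
open Pool.Agent.H921R2.TatePole (nm two_le_nm nm_summable)
open Pool.Agent.W353.EF (LFun)
open Pool.Agent.N19.BR.MDef
open Pool.Agent.N19.BR.SDef (IsFrobenius Unramified Above act Cong)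
open Pool.Agent.N19.BR.TwDef

/-- **Continuation and orders, abstractly.** -/
theorem cont_abs {K : Type} [Field K] [NumberField K] {ι : Type} [Fintype ι] {Z : ι → Ext K}
    {e : ι → ℤ} {m : ℕ} (h : IsRel K Z e m) {i : ℝ}
    (BB : ∀ j : Option ι, HeightOneSpectrum (𝓞 (Opt Z j).F) → ℂ[X])
    (hgood : ∀ᶠ v : HeightOneSpectrum (𝓞 K) in cofinite, ∃ G : ℕ → ℂ → ℂ,
      ∀ (j : Option ι) (w : Fib (Opt Z j).F v), ef (BB j) w.1 = G (fdeg w))
    (hconv : ∀ j, ∃ c : ℝ, i / 2 + 1 ≤ c ∧ ∀ s : ℂ, c < s.re →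
      HasProd (fun w => (ef (BB j) w s)⁻¹) (LFun (BB j) s) ∧ LFun (BB j) s ≠ 0)
    {U : Set ℂ} (hU1 : IsPreconnected U) (hU2 : ∀ s : ℂ, i / 2 + 1 < s.re → s ∈ U)
    {Λ : ι → ℂ → ℂ} (hΛ : ∀ j, Continues U (BB (some j)) 1 (Λ j)) :
    (∃ Λ₀ : ℂ → ℂ, Continues U (BB none) m Λ₀) ∧
    ∀ Λ₀ : ℂ → ℂ, Continues U (BB none) 1 Λ₀ → ∀ s₀ ∈ U, (∀ j w, ef (BB j) w s₀ ≠ 0) →
      ∀ r : ι → ℤ, (∀ j, meromorphicOrderAt (Λ j) s₀ = r j) →
        ∃ r₀ : ℤ, meromorphicOrderAt Λ₀ s₀ = r₀ ∧ (m : ℤ) * r₀ = ∑ j, e j * r j := by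
  classical
  choose hΛ1 c hc using hΛ
  obtain ⟨C, hC⟩ : ∃ C : ℝ, ∀ j, c j ≤ C := by
    obtain ⟨C, hC⟩ := (Set.finite_range c).bddAbove
    exact ⟨C, fun j => hC ⟨j, rfl⟩⟩
  choose a ha1 ha2 using hconv
  obtain ⟨A, hA⟩ : ∃ A : ℝ, ∀ j, a j ≤ A := by
    obtain ⟨A, hA⟩ := (Set.finite_range a).bddAbove
    exact ⟨A, fun j => hA ⟨j, rfl⟩⟩
  have hrel : ∀ (T : Set ℂ), (∀ s ∈ T, ∀ j w, ef (BB j) w s ≠ 0) → ∀ b : ℝ, A ≤ b →
      ∃ R : ℂ → ℂ, MeromorphicOn R Set.univ ∧ (∀ s ∈ T, AnalyticAt ℂ R s ∧ R s ≠ 0) ∧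
      ∀ s : ℂ, b < s.re → R s ≠ 0 ∧
        LFun (BB none) s ^ m = R s * ∏ j, LFun (BB (some j)) s ^ e j := fun T hT b hb =>
    rel_euler h (fun j => ef (BB j)) (fun j w => differentiable_ef _ w)
      hgood (fun j => LFun (BB j)) (c := b)
      (fun j s hs => ha2 j s (((hA j).trans hb).trans_lt hs)) hT
  constructor
  · obtain ⟨R, hR1, -, hR3⟩ := hrel ∅ (by simp) (max A C) (le_max_left _ _)
    have hRU : MeromorphicOn R U := fun x _ => hR1 x trivial
    refine ⟨R * ∏ j, (Λ j) ^ (e j), hRU.mul (MeromorphicOn.prod fun j _ => (hΛ1 j).zpow _),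
      max A C, fun s hs => ?_⟩
    rw [(hR3 s hs).2, Pi.mul_apply, Finset.prod_apply]
    congr 1
    refine Finset.prod_congr rfl fun j _ => ?_
    rw [Pi.pow_apply, hc j s (((hC j).trans (le_max_right _ _)).trans_lt hs), pow_one]
  · rintro Λ₀ ⟨hΛ₀, c₀, hc₀⟩ s₀ hs₀ hreg r hr
    obtain ⟨R, hR1, hR2, hR3⟩ := hrel {s₀} (by
      intro s hs
      rw [Set.mem_singleton_iff.1 hs]
      exact hreg) (max A (max C c₀)) (le_max_left _ _)
    have hb1 : i / 2 + 1 ≤ max A (max C c₀) :=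
      ((ha1 none).trans (hA none)).trans (le_max_left _ _)
    have hb2 : C ≤ max A (max C c₀) := (le_max_left _ _).trans (le_max_right _ _)
    have hb3 : c₀ ≤ max A (max C c₀) := (le_max_right _ _).trans (le_max_right _ _)
    have h1 := order_rel_abs hU1 (c := max A (max C c₀))
      (fun s hs => hU2 s (hb1.trans_lt hs)) hs₀ (m := m)
      (L₀ := LFun (BB none)) hR1 (hR2 s₀ (Set.mem_singleton _))
      (fun s hs => (ha2 none s (((hA none).trans (le_max_left _ _)).trans_lt hs)).2)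
      (Λ := Λ) (e := e) (fun s hs => by
        refine (hR3 s hs).2.trans ?_
        congr 1
        refine Finset.prod_congr rfl fun j _ => ?_
        rw [hc j s (((hC j).trans hb2).trans_lt hs), pow_one]) hΛ1 hr
    exact h1.2 Λ₀ hΛ₀ (fun s hs => by rw [hc₀ s (hb3.trans_lt hs), pow_one])

section
variable {K : Type} [Field K] [NumberField K]
  {M : Type} [Field M] [NumberField M] [Algebra K M] [IsGalois K M] {n : ℕ}
  (ρ : Gal(M/K) →* Matrix (Fin n) (Fin n) ℂ)

/-- almost all primes are unramified -/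
theorem exists_unramified : ∃ S : Set (HeightOneSpectrum (𝓞 K)), S.Finite ∧ Unramified S ρ := by
  classical
  have h1 : ∀ σ : Gal(M/K), σ ≠ 1 → {P : HeightOneSpectrum (𝓞 M) |
      ∀ x, Cong P (act σ x) x}.Finite := by
    intro σ hσ
    have h2 : ∃ x : 𝓞 M, act σ x ≠ x := by
      by_contra hcon
      push Not at hcon
      apply hσ
      ext y
      obtain ⟨a, b, hb, hy⟩ := IsFractionRing.div_surjective (A := 𝓞 M) y
      have ha := congrArg (algebraMap (𝓞 M) M) (hcon a)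
      have hb' := congrArg (algebraMap (𝓞 M) M) (hcon b)
      have ha1 : σ (algebraMap (𝓞 M) M a) = algebraMap (𝓞 M) M a := ha
      have hb1 : σ (algebraMap (𝓞 M) M b) = algebraMap (𝓞 M) M b := hb'
      rw [← hy, map_div₀, ha1, hb1]
      rfl
    obtain ⟨x, hx⟩ := h2
    have h3 : act σ x - x ≠ 0 := sub_ne_zero.2 hx
    refine (Pool.Agent.H341R2.EC.finite_mem h3).subset fun P hP => ?_
    exact hP x
  refine ⟨und '' (⋃ σ ∈ {σ : Gal(M/K) | σ ≠ 1}, {P : HeightOneSpectrum (𝓞 M) |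
      ∀ x, Cong P (act σ x) x}), Set.Finite.image _ ?_, fun P hP σ hσ => ?_⟩
  · exact Set.Finite.biUnion (Set.toFinite _) fun σ hσ => h1 σ hσ
  · by_contra hcon
    apply hP
    rw [above_iff]
    refine ⟨P, ?_, rfl⟩
    rw [Set.mem_iUnion₂]
    refine ⟨σ, ?_, hσ⟩
    rintro rfl
    exact hcon (map_one ρ)

variable {N : ℕ} {α : HeightOneSpectrum (𝓞 K) → Fin N → ℂ}

/-- the factors over an extension -/
theorem factor_tw {i : ℤ} (hα : Pure i α) {F : Type} [Field F] [NumberField F] [Algebra K F]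
    (f : F →ₐ[K] M) {B : HeightOneSpectrum (𝓞 F) → ℂ[X]} {s₀ : ℂ} (hB : TwistedFactors α ρ f s₀ B) :
    ∀ᶠ w in cofinite, ∃ β : Fin (N * n) → ℂ, (∀ l, ‖β l‖ = (nm w : ℝ) ^ ((i : ℝ) / 2)) ∧
      ∀ z : ℂ, (B w).eval z = ∏ l, (1 - β l * z) := by
  filter_upwards [hB.1, eventually_und (F := F) hα] with w h1 h2
  have hn : nm w = nm (und (K := K) w) ^ fdeg (⟨w, rfl⟩ : Fib F (und (K := K) w)) :=
    nm_fib (⟨w, rfl⟩ : Fib F (und (K := K) w))
  set d := fdeg (⟨w, rfl⟩ : Fib F (und (K := K) w)) with hd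
  obtain ⟨σ, hσ⟩ := frob_exists f w
  have hfin : Finite Gal(M/K) := inferInstance
  obtain ⟨lam, h3, h4⟩ := eig_unit (ρ σ) (m := Nat.card Gal(M/K)) Nat.card_pos.ne' (by
    rw [← map_pow, pow_card_eq_one', map_one])
  refine ⟨fun l => α (und w) (finProdFinEquiv.symm l).1 ^ d * lam (finProdFinEquiv.symm l).2,
    fun l => ?_, fun z => ?_⟩
  · have h5 : ‖α (und w) (finProdFinEquiv.symm l).1‖ = (nm (und (K := K) w) : ℝ) ^ ((i : ℝ) / 2) :=
      h2 _
    rw [norm_mul, h3, mul_one, norm_pow, h5, hn]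
    push_cast
    rw [← Real.rpow_natCast, ← Real.rpow_natCast, ← Real.rpow_mul (by positivity),
      ← Real.rpow_mul (by positivity)]
    congr 1
    ring
  · rw [h1 (und w) rfl d hn σ hσ z, ← Equiv.prod_comp finProdFinEquiv, Fintype.prod_prod_type]
    refine Finset.prod_congr rfl fun l _ => ?_
    rw [h4]
    refine Finset.prod_congr rfl fun l' _ => ?_
    have h6 : finProdFinEquiv.symm (finProdFinEquiv (l, l')) = (l, l') :=
      Equiv.symm_apply_apply _ _
    simp only [h6]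
    ring

/-- **Good primes.** -/
theorem good_tw {ι : Type} [Finite ι] {Z : ι → Ext K} (f : ∀ i : Option ι, (Opt Z i).F →ₐ[K] M)
    (B : ∀ j : Option ι, HeightOneSpectrum (𝓞 (Opt Z j).F) → ℂ[X]) {s₀ : ℂ}
    (hB : ∀ j, TwistedFactors α ρ (f j) s₀ (B j)) :
    ∀ᶠ v : HeightOneSpectrum (𝓞 K) in cofinite, ∃ G : ℕ → ℂ → ℂ,
      ∀ (j : Option ι) (w : Fib (Opt Z j).F v), ef (B j) w.1 = G (fdeg w) := by
  obtain ⟨S, hS, hρ⟩ := exists_unramified ρ
  have hS' : ∀ᶠ v : HeightOneSpectrum (𝓞 K) in cofinite, v ∉ S := by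
    rw [eventually_cofinite]
    simpa using hS
  have h1 : ∀ᶠ v : HeightOneSpectrum (𝓞 K) in cofinite, ∀ (j : Option ι)
      (w : Fib (Opt Z j).F v), ∀ v' : HeightOneSpectrum (𝓞 K),
      w.1.asIdeal.comap (algebraMap (𝓞 K) (𝓞 (Opt Z j).F)) = v'.asIdeal → ∀ d : ℕ,
      Ideal.absNorm w.1.asIdeal = Ideal.absNorm v'.asIdeal ^ d → ∀ σ, IsFrobenius (f j) w.1 σ →
        ∀ z : ℂ, (B j w.1).eval z = ∏ l, (1 - (α v' l ^ d * z) • ρ σ).det :=
    eventually_all.2 fun j => eventually_fib (hB j).1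
  filter_upwards [h1, hS'] with v hv1 hv
  obtain ⟨σv, hσv⟩ := frob_exists (Algebra.ofId K M) v
  refine ⟨fun k s => ∏ l, (1 - (α v l ^ k * ((nm v ^ k : ℕ) : ℂ) ^ (-s)) • ρ σv ^ k).det,
    fun j w => ?_⟩
  have hn : Ideal.absNorm w.1.asIdeal = nm v ^ fdeg w := nm_fib w
  funext s
  obtain ⟨σ, hσ⟩ := frob_exists (f j) w.1
  rw [ef, hv1 j w v (fib_le w).symm (fdeg w) hn σ hσ, hn]
  refine Finset.prod_congr rfl fun l _ => ?_
  exact frob_compare hρ hv hσv (f j) w.1 w.2 hn hσ _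

end

section
variable {K : Type} [Field K] [NumberField K]
  {M : Type} [Field M] [NumberField M] [Algebra K M] [IsGalois K M] {n : ℕ}
  (ρ : Gal(M/K) →* Matrix (Fin n) (Fin n) ℂ)
  {W : Type} [AddCommGroup W] [Module ℂ W] (π : Representation ℂ Gal(M/K) W)

/-- the representation on `Hom(V, W)` -/
noncomputable def homRep : Representation ℂ Gal(M/K) (Fin n → W) where
  toFun σ :=
    { toFun := fun u i => ∑ j, ρ σ⁻¹ j i • π σ (u j)
      map_add' := fun u u' => by
        ext i : 1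
        simp only [Pi.add_apply, map_add, smul_add, Finset.sum_add_distrib]
      map_smul' := fun c u => by
        ext i : 1
        simp only [Pi.smul_apply, map_smul, RingHom.id_apply]
        rw [Finset.smul_sum]
        exact Finset.sum_congr rfl fun j _ => smul_comm _ _ _ }
  map_one' := by
    apply LinearMap.ext
    intro u
    funext i
    change ∑ j, ρ 1⁻¹ j i • π 1 (u j) = u i
    simp only [inv_one, map_one, Module.End.one_apply, Matrix.one_apply, ite_smul, one_smul,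
      zero_smul]
    rw [Finset.sum_ite_eq']
    simp
  map_mul' σ τ := by
    apply LinearMap.ext
    intro u
    funext i
    change ∑ j, ρ (σ * τ)⁻¹ j i • π (σ * τ) (u j) =
      ∑ j, ρ σ⁻¹ j i • π σ (∑ l, ρ τ⁻¹ l j • π τ (u l))
    simp only [mul_inv_rev, map_sum, map_smul, map_mul, Module.End.mul_apply, Matrix.mul_apply,
      Finset.sum_smul, Finset.smul_sum, smul_smul]
    rw [Finset.sum_comm]
    refine Finset.sum_congr rfl fun j _ => Finset.sum_congr rfl fun l _ => ?_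
    rw [mul_comm]

theorem inHoms_iff {F : Type} [Field F] [Algebra K F] (f : F →ₐ[K] M) (u : Fin n → W) :
    InHoms ρ f π u ↔ u ∈ Representation.invariants
      ((homRep ρ π).comp f.fieldRange.fixingSubgroup.subtype) := by
  rw [Representation.mem_invariants]
  constructor
  · rintro h ⟨σ, hσ⟩
    rw [mem_fixing] at hσ
    funext i
    change ∑ j, ρ σ⁻¹ j i • π σ (u j) = u i
    simp_rw [h σ hσ, Finset.smul_sum, smul_smul]
    rw [Finset.sum_comm]
    have h1 : ∀ k, ∑ j, (ρ σ⁻¹ j i * ρ σ k j) • u k = (if k = i then (1 : ℂ) else 0) • u k := by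
      intro k
      rw [← Finset.sum_smul]
      congr 1
      have h2 : ρ σ * ρ σ⁻¹ = 1 := by rw [← map_mul, mul_inv_cancel, map_one]
      have h3 := congrFun (congrFun h2 k) i
      rw [Matrix.mul_apply, Matrix.one_apply] at h3
      rw [← h3]
      exact Finset.sum_congr rfl fun j _ => mul_comm _ _
    rw [Finset.sum_congr rfl fun k _ => h1 k]
    simp
  · intro h σ hσ i
    have h1 := h ⟨σ, (mem_fixing f σ).2 hσ⟩
    have h2 : ∀ j, ∑ l, ρ σ⁻¹ l j • π σ (u l) = u j := fun j => congrFun h1 j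
    have h3 : ∀ j, ρ σ j i • u j = ∑ l, (ρ σ⁻¹ l j * ρ σ j i) • π σ (u l) := by
      intro j
      conv_lhs => rw [← h2 j]
      rw [Finset.smul_sum]
      refine Finset.sum_congr rfl fun l _ => ?_
      rw [smul_smul, mul_comm]
    rw [Finset.sum_congr rfl fun j _ => h3 j, Finset.sum_comm]
    have h4 : ∀ l, ∑ j, (ρ σ⁻¹ l j * ρ σ j i) • π σ (u l) =
        (if l = i then (1 : ℂ) else 0) • π σ (u l) := by
      intro l
      rw [← Finset.sum_smul]
      congr 1
      have h5 : ρ σ⁻¹ * ρ σ = 1 := by rw [← map_mul, inv_mul_cancel, map_one]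
      have h6 := congrFun (congrFun h5 l) i
      rwa [Matrix.mul_apply, Matrix.one_apply] at h6
    rw [Finset.sum_congr rfl fun l _ => h4 l]
    simp

theorem isMultiplicity_iff {F : Type} [Field F] [Algebra K F] (f : F →ₐ[K] M) {r : ℕ} :
    IsMultiplicity ρ f π r ↔ FiniteDimensional ℂ (Representation.invariants
      ((homRep ρ π).comp f.fieldRange.fixingSubgroup.subtype)) ∧
      finrank ℂ (Representation.invariants
      ((homRep ρ π).comp f.fieldRange.fixingSubgroup.subtype)) = r := by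
  set I := Representation.invariants
      ((homRep ρ π).comp f.fieldRange.fixingSubgroup.subtype) with hI
  constructor
  · rintro ⟨b, hb, hspan⟩
    have h1 : Submodule.span ℂ (Set.range b) = I := by
      ext u
      rw [hspan, inHoms_iff]
    rw [← h1, finrank_span_eq_card hb, Fintype.card_fin]
    exact ⟨FiniteDimensional.span_of_finite ℂ (Set.finite_range b), rfl⟩
  · rintro ⟨hfd, h⟩
    have hfree : Module.Free ℂ I := Module.Free.of_divisionRing ℂ I
    let b := (Module.finBasisOfFinrankEq ℂ I h)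
    refine ⟨fun j => (b j : Fin n → W), ?_, fun u => ?_⟩
    · exact b.linearIndependent.map' I.subtype (LinearMap.ker_eq_bot.2 Subtype.val_injective)
    · rw [inHoms_iff, ← hI]
      have h1 : Submodule.span ℂ (Set.range fun j => (b j : Fin n → W)) = I := by
        have h2 : (Set.range fun j => (b j : Fin n → W)) = I.subtype '' Set.range b := by
          rw [← Set.range_comp]
          rfl
        rw [h2, Submodule.span_image, b.span_eq, Submodule.map_subtype_top]
      rw [h1]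

/-- **The relation for the orders.** -/
theorem order_rel_tw {N : ℕ} {α : HeightOneSpectrum (𝓞 K) → Fin N → ℂ} {i : ℤ} (hα : Pure i α)
    {ι : Type} [Fintype ι] {Z : ι → Ext K} {e : ι → ℤ} (h : IsRel K Z e 1)
    (f : ∀ j, (Z j).F →ₐ[K] M) {U : Set ℂ} (hU : Region i U) {s₀ : ℂ} (h1 : s₀ ∈ U) {δ : ι → ℤ}
    (hZ : ∀ j, OrderFormula α ρ (f j) π U s₀ (δ j)) :
    OrderFormulaBase α ρ π U s₀ (∑ j, e j * δ j) := by
  classical
  have hne : Nonempty ι := nonempty_of_rel one_ne_zero h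
  choose B Λ r hB hΛ hr hord using hZ
  obtain ⟨hU1, hU2⟩ := hU
  have hr' := fun j => (isMultiplicity_iff ρ π (f j)).1 (hr j)
  obtain ⟨hfd, hmul⟩ := rel_inv (fun j => (f j).fieldRange.fixingSubgroup) e 1 (homRep ρ π)
    (fx_of_isRel h f) fun j => (hr' j).1
  have htop : Representation.invariants
      ((homRep ρ π).comp (Algebra.ofId K M).fieldRange.fixingSubgroup.subtype) =
      Representation.invariants (homRep ρ π) := by
    ext u
    rw [Representation.mem_invariants, Representation.mem_invariants]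
    constructor
    · intro h2 σ
      exact h2 ⟨σ, (mem_fixing _ σ).2 fun x => σ.commutes x⟩
    · rintro h2 ⟨σ, -⟩
      exact h2 σ
  refine ⟨finrank ℂ (Representation.invariants (homRep ρ π)),
    (isMultiplicity_iff ρ π (Algebra.ofId K M)).2 (by rw [htop]; exact ⟨hfd, rfl⟩),
    fun B₀ hB₀ => ?_⟩
  let ff : ∀ j : Option ι, (Opt Z j).F →ₐ[K] M := fun j =>
    match j with
    | none => Algebra.ofId K M
    | some j => f j
  let BB : ∀ j : Option ι, HeightOneSpectrum (𝓞 (Opt Z j).F) → ℂ[X] := fun j =>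
    match j with
    | none => B₀
    | some j => B j
  have hBB : ∀ j, TwistedFactors α ρ (ff j) s₀ (BB j) := by
    rintro (_ | j)
    · exact hB₀
    · exact hB j
  have key := cont_abs (i := (i : ℝ)) h BB (good_tw ρ ff BB hBB) (fun j =>
    conv_gen (factor_tw ρ hα (ff j) (hBB j)) fun w => ((hBB j).2 w).1) hU1 hU2 hΛ
  refine ⟨key.1, fun Λ₀ hΛ₀ => ?_⟩
  obtain ⟨r₀, h2, h3⟩ := key.2 Λ₀ hΛ₀ s₀ h1 (fun j w => by
    rw [ef]
    exact ((hBB j).2 w).2) (fun j => r j + δ j) hord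
  rw [h2]
  have h4 : r₀ = finrank ℂ (Representation.invariants (homRep ρ π)) + ∑ j, e j * δ j := by
    push_cast at h3 hmul
    rw [one_mul] at h3 hmul
    rw [h3, hmul, ← Finset.sum_add_distrib]
    refine Finset.sum_congr rfl fun j _ => ?_
    rw [(hr' j).2]
    ring
  rw [h4]

end

end Pool.Agent.N19.BR
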