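import Pool.Agent.N19.BR.StDefs

/-!
# L-functions of motives twisted by Artin representations: definitions

`M / K` is a finite Galois extension of number fields and `F` is a field between `K` and `M`, given by an embedding
`f : F →ₐ[K] M`.  `α v`, for the primes `v` of `K`, is the list of the eigenvalues of the geometric Frobenius at
`v` on a realization of weight `i` of a motive over `K` (at the finitely many bad primes `α v` is arbitrary); for a
cuspidal eigenform `φ` of weight `k`, `K = ℚ` and `i = k - 1` these are the roots of `X² - a_p X + χ(p) p^{k-1}`.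
Over `F` the eigenvalues at a prime `w` above `v` are the `α_l ^ d`, `d` the residue degree.  The representation `τ` of
`Gal(M / K)` is given by matrices `ρ` (the action on `V_τ = ℂ^n`), and `π` is the action of `Gal(M / K)` on a vector
space `W` (for example the `φ`-isotypic part of the group of null-homologous cycles on the Kuga-Sato variety over `M`,
tensored with `ℂ`); its dimension may be infinite.
-/

set_option autoImplicit false

namespace Pool.Agent.N19.BR.TwDef

open NumberField IsDedekindDomain Polynomial Filter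
open Pool.Agent.N19.BR.MDef (Continues)
open Pool.Agent.N19.BR.SDef (IsFrobenius)

section
variable {K : Type} [Field K] [NumberField K] {N : ℕ} (α : HeightOneSpectrum (𝓞 K) → Fin N → ℂ)
  {M : Type} [Field M] [NumberField M] [Algebra K M] {n : ℕ}
  (ρ : Gal(M/K) →* Matrix (Fin n) (Fin n) ℂ)
  {F : Type} [Field F] [NumberField F] [Algebra K F] (f : F →ₐ[K] M)

/-- The polynomials `B w` are the Euler factors of the L-function over `F` of the tensor product with `τ`: for almost
all primes `w` of `F`, with the prime `v` of `K` below and `q_w = q_v ^ d`, the polynomial is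
`B_w(z) = ∏ det (1 - α_l^d z ρ(σ))` for the Frobenius elements `σ` at `w`; at the other primes `B w` is an arbitrary
polynomial with constant term `1`; and no factor `1 / B_w(q_w^{-s})` has a pole at `s₀`. -/
def TwistedFactors (s₀ : ℂ) (B : HeightOneSpectrum (𝓞 F) → ℂ[X]) : Prop :=
  (∀ᶠ w in cofinite, ∀ v : HeightOneSpectrum (𝓞 K),
    w.asIdeal.comap (algebraMap (𝓞 K) (𝓞 F)) = v.asIdeal → ∀ d : ℕ,
    Ideal.absNorm w.asIdeal = Ideal.absNorm v.asIdeal ^ d → ∀ σ, IsFrobenius f w σ →
      ∀ z : ℂ, (B w).eval z = ∏ l, (1 - (α v l ^ d * z) • ρ σ).det) ∧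
  ∀ w, (B w).eval 0 = 1 ∧ (B w).eval ((Ideal.absNorm w.asIdeal : ℂ) ^ (-s₀)) ≠ 0

variable {W : Type} [AddCommGroup W] [Module ℂ W] (π : Representation ℂ Gal(M/K) W)

/-- `u` is a homomorphism of `H`-modules from `V_τ = ℂ^n` to `W`, `H = Gal(M / F)`, given by the images `u_i` of
the basis vectors: `σ(u_i) = ∑ ρ(σ)_ji u_j` for all `σ` in `H`. -/
def InHoms (u : Fin n → W) : Prop :=
  ∀ σ : Gal(M/K), (∀ x : F, σ (f x) = f x) → ∀ i, π σ (u i) = ∑ j, ρ σ j i • u j

/-- `r` is the dimension of `Hom_H(V_τ, W)`, `H = Gal(M / F)`. -/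
def IsMultiplicity (r : ℕ) : Prop :=
  ∃ b : Fin r → Fin n → W, LinearIndependent ℂ b ∧
    ∀ u, u ∈ Submodule.span ℂ (Set.range b) ↔ InHoms ρ f π u

/-- The formula for the order of vanishing over `F` with defect `δ`: the L-function over `F` of the tensor product
with `τ` has a meromorphic continuation to `U`, and its order at `s₀` is `dim Hom_H(V_τ, W) + δ`, where
`H = Gal(M / F)`.  The conjecture is that this holds with `δ = 0`. -/
def OrderFormula (U : Set ℂ) (s₀ : ℂ) (δ : ℤ) : Prop :=
  ∃ (B : HeightOneSpectrum (𝓞 F) → ℂ[X]) (Λ : ℂ → ℂ) (r : ℕ), TwistedFactors α ρ f s₀ B ∧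
    Continues U B 1 Λ ∧ IsMultiplicity ρ f π r ∧
      meromorphicOrderAt Λ s₀ = ((r + δ : ℤ) : WithTop ℤ)

/-- The same over `K` for all Euler factors and all continuations: the L-function has a meromorphic continuation
to `U`, and all continuations have order `dim Hom_G(V_τ, W) + δ` at `s₀`, `G = Gal(M / K)`. -/
def OrderFormulaBase (U : Set ℂ) (s₀ : ℂ) (δ : ℤ) : Prop :=
  ∃ r : ℕ, IsMultiplicity ρ (Algebra.ofId K M) π r ∧
    ∀ B : HeightOneSpectrum (𝓞 K) → ℂ[X], TwistedFactors α ρ (Algebra.ofId K M) s₀ B →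
      (∃ Λ : ℂ → ℂ, Continues U B 1 Λ) ∧ ∀ Λ : ℂ → ℂ, Continues U B 1 Λ →
        meromorphicOrderAt Λ s₀ = ((r + δ : ℤ) : WithTop ℤ)

end

end Pool.Agent.N19.BR.TwDef
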