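import Pool.Agent.N19.BR.ADefs
import Mathlib.Analysis.Meromorphic.TrailingCoefficient

/-!
# Regulators and leading coefficients of L-functions over number fields: definitions

`V` and `W`, with the actions `ρ` and `τ` of the absolute Galois group of a number field `K`, are rational
vector spaces, and `β` is a pairing between them with values in `ℝ`.

For Beilinson's conjecture for `K_2` of a smooth projective curve `C` over `K` (`i = 1`, `m = 0`):
* `V` is the direct limit of the integral parts of the groups `H^2_M(C_F, ℚ(2))` for the finite extensions `F`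
  of `K` in `K̄`, so `V^{G_F}` is the group for `F` (Galois descent);
* `W` is the direct limit of the groups `H_1(C_F(ℂ), ℚ)^-`, where `C_F(ℂ)` is the union of the curves `C_σ` for
  the embeddings `σ` of `F` in `ℂ` and a class over `F` is mapped to its copies over the embeddings of a larger
  field that extend `σ`; so `W^{G_F}` is the group for `F`;
* `β` is the regulator pairing over `F`, divided by `[F : K]` to make it compatible.
For `H^i(X)` at an integer `m < i / 2`, `n = i + 1 - m`, the space `V^{G_F}` is the sum of the integral motivic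
cohomology of `X_F` in degree `i + 1` and weight `n` and of `F^n H^i_dR(X_F)`, and `W^{G_F}` is the dual of
`H^i(X_F(ℂ), ℚ(n - 1))^+`.
-/

set_option autoImplicit false

namespace Pool.Agent.N19.BR.WDef

open NumberField IsDedekindDomain Polynomial Module
open Pool.Agent.N19.BR.MDef

section
variable {K : Type} [Field K] [NumberField K] {N : ℕ}

/-- The polynomials `B w` with rational coefficients are the Euler factors of `L(M_F, s)` (for almost all `w`;
arbitrary with constant term `1` at the others), and no factor `1 / B_w(q_w^{-s})` has a pole at `s = m`. -/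
def RationalFactors (α : HeightOneSpectrum (𝓞 K) → Fin N → ℂ) {F : Type} [Field F] [NumberField F]
    [Algebra K F] (m : ℤ) (B : HeightOneSpectrum (𝓞 F) → ℚ[X]) : Prop :=
  FactorsOver α (fun w => (B w).map (algebraMap ℚ ℂ)) ∧
    Regular (fun w => (B w).map (algebraMap ℚ ℂ)) (m : ℂ)

variable {V W : Type} [AddCommGroup V] [Module ℚ V] [AddCommGroup W] [Module ℚ W]
  (ρ : Representation ℚ Gal(AlgebraicClosure K/K) V)
  (τ : Representation ℚ Gal(AlgebraicClosure K/K) W) (β : V →ₗ[ℚ] W →ₗ[ℚ] ℝ)

/-- `β` is invariant under the absolute Galois group of `K`. -/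
def InvariantPairing : Prop := ∀ g v w, β (ρ g v) (τ g w) = β v w

/-- The spaces `S` and `T` have the same finite dimension `r` over `ℚ` and the pairing `β` between them is
perfect over `ℝ`, with determinant `R ≠ 0` for some rational bases. -/
def Regulator (S : Submodule ℚ V) (T : Submodule ℚ W) (r : ℕ) (R : ℝ) : Prop :=
  ∃ (v : Basis (Fin r) ℚ S) (w : Basis (Fin r) ℚ T),
    (Matrix.of fun j l => β (v j : V) (w l : W)).det = R ∧ R ≠ 0

/-- The conjecture over `F` with the constant `κ` and the defect `δ`: the pairing between `V^{G_F}` and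
`W^{G_F}` is perfect, of rank `r` and with determinant `R`, and `L(M_F, s)` has a meromorphic continuation to
`U` with order `r + δ` and leading coefficient `κ R` at `s = m`.  Conjecturally `κ` is rational, and `δ = 0` for
`m < i / 2`. -/
def RegulatorFormula (α : HeightOneSpectrum (𝓞 K) → Fin N → ℂ) (U : Set ℂ) (m : ℤ)
    (F : IntermediateField K (AlgebraicClosure K)) (δ : ℤ) (κ : ℝ) : Prop :=
  ∃ (_ : NumberField F) (B : HeightOneSpectrum (𝓞 F) → ℚ[X]) (Λ : ℂ → ℂ) (r : ℕ) (R : ℝ),
    RationalFactors α m B ∧ Continues U (fun w => (B w).map (algebraMap ℚ ℂ)) 1 Λ ∧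
    Regulator β (fixedBy ρ F) (fixedBy τ F) r R ∧
    meromorphicOrderAt Λ (m : ℂ) = ((r + δ : ℤ) : WithTop ℤ) ∧
    meromorphicTrailingCoeffAt Λ (m : ℂ) = ((κ * R : ℝ) : ℂ)

/-- The conjecture over `K` up to rational numbers with the constant `κ` and the defect `δ`: the pairing between
`V^{G_K}` and `W^{G_K}` is perfect, of rank `r` and with determinant `R`, and for all Euler factors `L(M, s)` has
a meromorphic continuation to `U`, and every such continuation has order `r + δ` and leading coefficient `q κ R`
at `s = m` for a nonzero rational number `q`. -/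
def RegulatorFormulaOverBase (α : HeightOneSpectrum (𝓞 K) → Fin N → ℂ) (U : Set ℂ) (m δ : ℤ)
    (κ : ℝ) : Prop :=
  ∃ (r : ℕ) (R : ℝ), Regulator β (Representation.invariants ρ) (Representation.invariants τ) r R ∧
    ∀ B : HeightOneSpectrum (𝓞 K) → ℚ[X], RationalFactors α m B →
      (∃ Λ : ℂ → ℂ, Continues U (fun w => (B w).map (algebraMap ℚ ℂ)) 1 Λ) ∧
      ∀ Λ : ℂ → ℂ, Continues U (fun w => (B w).map (algebraMap ℚ ℂ)) 1 Λ →
        meromorphicOrderAt Λ (m : ℂ) = ((r + δ : ℤ) : WithTop ℤ) ∧
        ∃ q : ℚ, q ≠ 0 ∧ meromorphicTrailingCoeffAt Λ (m : ℂ) = ((q * κ * R : ℝ) : ℂ)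

end

end Pool.Agent.N19.BR.WDef
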