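import Pool.Agent.N19.BR.MLead
import Pool.Agent.N19.BR.WDefs

/-! The main theorem on regulators and leading coefficients for motives. -/

set_option autoImplicit false

namespace Pool.Agent.N19.BR

open NumberField IsDedekindDomain Polynomial Module Representation
open Pool.Agent.R433.MD (Ext)
open Pool.Agent.N19.BR.MDef Pool.Agent.N19.BR.TDef Pool.Agent.N19.BR.WDef

/-- **The relation between regulators and leading coefficients.** -/
theorem regulator_of_rel {K : Type} [Field K] [NumberField K] {Y : FieldList K}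
    (h : IsRel K (fun j => (⟨Y.F j⟩ : Ext K)) Y.e 1) {i : ℤ} {N : ℕ}
    {α : HeightOneSpectrum (𝓞 K) → Fin N → ℂ} (hα : Pure i α)
    {V W : Type} [AddCommGroup V] [Module ℚ V] [AddCommGroup W] [Module ℚ W]
    {ρ : Representation ℚ Gal(AlgebraicClosure K/K) V}
    {τ : Representation ℚ Gal(AlgebraicClosure K/K) W} {β : V →ₗ[ℚ] W →ₗ[ℚ] ℝ}
    (hβ : InvariantPairing ρ τ β) {U : Set ℂ} (hU : Region i U) {m : ℤ} (hm : (m : ℂ) ∈ U)
    {κ : Fin Y.r → ℝ} {δ : Fin Y.r → ℤ}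
    (hκ : ∀ j, RegulatorFormula ρ τ β α U m (Y.F j) (δ j) (κ j)) :
    RegulatorFormulaOverBase ρ τ β α U m (∑ j, Y.e j * δ j) (∏ j, κ j ^ Y.e j) := by
  classical
  have hne : Nonempty (Fin Y.r) := nonempty_of_rel one_ne_zero h
  choose nf B Λ r R hB hΛ hR hord hlead using hκ
  choose v w hvw hR0 using hR
  -- the regulators
  have hfinV : ∀ j, FiniteDimensional ℚ (inv ρ (Y.F j)) := fun j => Module.Finite.of_basis (v j)
  have hfinW : ∀ j, FiniteDimensional ℚ (inv τ (Y.F j)) := fun j => Module.Finite.of_basis (w j)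
  obtain ⟨fV, dV⟩ := inv_rel ρ Y.F h hfinV
  obtain ⟨fW, dW⟩ := inv_rel τ Y.F h hfinW
  have rV : ∀ j, (finrank ℚ (inv ρ (Y.F j)) : ℤ) = r j := fun j => by
    have h1 := finrank_eq_card_basis (v j)
    rw [Fintype.card_fin] at h1
    exact_mod_cast h1
  have rW : ∀ j, (finrank ℚ (inv τ (Y.F j)) : ℤ) = r j := fun j => by
    have h1 := finrank_eq_card_basis (w j)
    rw [Fintype.card_fin] at h1
    exact_mod_cast h1
  simp only [rV] at dV
  simp only [rW] at dW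
  have hVW : finrank ℚ (invariants τ) = finrank ℚ (invariants ρ) := by
    have h1 : ((1 : ℕ) : ℤ) * (finrank ℚ (invariants τ) : ℤ) =
        ((1 : ℕ) : ℤ) * (finrank ℚ (invariants ρ) : ℤ) := dW.trans dV.symm
    simpa using h1
  let v0 : Basis (Fin (finrank ℚ (invariants ρ))) ℚ (invariants ρ) := finBasis ℚ (invariants ρ)
  let w0 : Basis (Fin (finrank ℚ (invariants ρ))) ℚ (invariants τ) := finBasisOfFinrankEq ℚ _ hVW
  obtain ⟨hdet0, q2, hq2, hdet⟩ := reg_rel ρ τ hβ Y.F one_ne_zero h v w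
    (fun j h0 => hR0 j ((hvw j).symm.trans h0)) v0 w0
  rw [pow_one] at hdet
  have hdet' : (Matrix.of fun j l => β (v0 j : V) (w0 l : W)).det =
      q2 * ∏ j, R j ^ Y.e j := by
    rw [hdet]
    congr 1
    exact Finset.prod_congr rfl fun j _ => congrArg (· ^ Y.e j) (hvw j)
  refine ⟨finrank ℚ (invariants ρ), _, ⟨v0, w0, rfl, hdet0⟩, fun B₀ hB₀ => ?_⟩
  obtain ⟨hc1, hc2⟩ := cont_alpha h hα (fun j w => (B j w).map (algebraMap ℚ ℂ))
    (fun j => (hB j).1) hU hΛ hB₀.1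
  refine ⟨hc1, fun Λ₀ hΛ₀ => ?_⟩
  obtain ⟨r₀, h3, h4⟩ := hc2 Λ₀ hΛ₀ m hm hB₀.2 (fun j => (hB j).2) (fun j => r j + δ j) hord
  have h5 : r₀ = (finrank ℚ (invariants ρ) : ℤ) + ∑ j, Y.e j * δ j := by
    have h6 : ((1 : ℕ) : ℤ) * (finrank ℚ (invariants ρ) : ℤ) = ∑ j, Y.e j * (r j : ℤ) := dV
    have h7 : ((1 : ℕ) : ℤ) * r₀ = ∑ j, Y.e j * ((r j : ℤ) + δ j) := h4
    simp only [mul_add, Finset.sum_add_distrib] at h7
    push_cast at h6 h7
    linarith
  refine ⟨by rw [h3, h5], ?_⟩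
  obtain ⟨q1, hq1, hl⟩ := lead_alpha h hα (fun j w => (B j w).map (algebraMap ℚ ℂ))
    (fun j => (hB j).1) hU hΛ hB₀.1 hm (fun j w => ⟨B j w, rfl⟩) (fun w => ⟨B₀ w, rfl⟩)
    (fun j => (hB j).2) hB₀.2
  refine ⟨q1 / q2, div_ne_zero hq1 hq2, ?_⟩
  rw [hl Λ₀ hΛ₀, hdet', Finset.prod_congr rfl fun j _ => congrArg (· ^ Y.e j) (hlead j)]
  have e1 : ∏ j, (((κ j * R j : ℝ) : ℂ)) ^ Y.e j =
      (((∏ j, κ j ^ Y.e j) * ∏ j, R j ^ Y.e j : ℝ) : ℂ) := by
    rw [← Finset.prod_mul_distrib]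
    push_cast
    refine Finset.prod_congr rfl fun j _ => ?_
    rw [mul_zpow]
  rw [e1]
  have hq2' : (q2 : ℂ) ≠ 0 := by exact_mod_cast hq2
  push_cast
  field_simp

end Pool.Agent.N19.BR
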